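import Mathlib
import Pool.Agent.Work.MP_8efaaa_nt.K6.Defs
import Pool.Agent.Work.MP_8efaaa_nt.K6.ARg
import Pool.Agent.Work.MP_8efaaa_nt.K6.ARm
import Pool.Agent.Work.MP_8efaaa_nt.W14.Defs
import Pool.Agent.Work.MP_8efaaa_nt.W5.Q.QDefs

/-!
# Definitions of the block W6 (fixed file)

Congruent numbers `2 p q`, `p = 1 (mod 8)`, `2` not a fourth power modulo `p`, `q = 3 (mod 8)`.
`m = p q = u0^2 + 2 v0^2`.
-/

set_option autoImplicit false

namespace Pool.Agent.Work.MP_8efaaa_nt.W6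

open NumberField Pool.Agent.Work.MP_8efaaa_nt.R Pool.Agent.Work.MP_8efaaa_nt.N5
  Pool.Agent.Work.MP_8efaaa_nt.K6 Pool.Agent.Work.MP_8efaaa_nt.W14
open scoped Classical nonZeroDivisors

noncomputable section

/-! ### the quartic symbol `n ↦ (n / ω)_4` -/

/-- the power `I ^ n` for an integer `n` -/
def ipw (n : ℤ) : GaussianInt := W5.gI ^ (n % 4).toNat

/-- the norm of a Gaussian integer -/
def nmG (ω : GaussianInt) : ℤ := ω.re ^ 2 + ω.im ^ 2

/-- `X` is the quartic symbol of the Gaussian integer `ω` on the integers -/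
structure QX (ω : GaussianInt) (X : ℤ → GaussianInt) : Prop where
  one : X 1 = 1
  mul : ∀ m n, X (m * n) = X m * X n
  per : ∀ m n, nmG ω ∣ m - n → X m = X n
  four : ∀ n, IsCoprime n (nmG ω) → X n ^ 4 = 1
  sq : ∀ n, IsCoprime n (nmG ω) → X (n ^ 2) = (jacobiSym n (nmG ω).natAbs : ℤ)
  two : X 2 = ipw (ω.re * (ω.im / 2))
  neg : X (-1) = (-1) ^ (ω.im / 2).natAbs
  f1 : ∀ l : ℕ, l.Prime → l % 4 = 1 → ¬ (l : ℤ) ∣ nmG ω →
    ∀ (k : Type) [Field k] [CharP k l] (g : GaussianInt →+* k),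
      g ω ^ ((l - 1) / 2) * (nmG ω : k) ^ ((l - 1) / 4) * g (X l) = 1
  f3 : ∀ l : ℕ, l.Prime → l % 4 = 3 → ¬ (l : ℤ) ∣ nmG ω →
    ∀ (k : Type) [Field k] [CharP k l] (g : GaussianInt →+* k),
      g ω ^ ((l + 1) / 2) * (nmG ω : k) ^ ((l + 1) / 4) = g (X (-l)) * (nmG ω : k)

/-! ### the signs of the Frobenius elements on a square root of `u + v √-2` -/

/-- the sign at the prime `l` -/
def nuP (u v : ℤ) (l : ℕ) (t : ℤ) : ℤ :=
  if l % 8 = 1 ∨ l % 8 = 3 then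
    (if ((l : ℤ√(-2)) ∣ (⟨u, v⟩ : ℤ√(-2)) ^ ((l - 1) / 2) - 1) then 1 else -1)
  else
    (if ((l : ℤ√(-2)) ∣ (⟨u, v⟩ : ℤ√(-2)) ^ ((l + 1) / 2) * ⟨0, 1⟩ - (t : ℤ√(-2))) then 1 else -1)

/-- the sign at the squarefree number `N` -/
def nu6 (u v : ℤ) (N : ℕ) (t : ℤ) : ℤ :=
  (∏ l ∈ N.primeFactors, nuP u v l t) *
    (-1) ^ (((N.primeFactors.filter fun l => 5 ≤ l % 8).card).choose 2)

/-- The law of the signs with which the Frobenius elements act on a square root of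
`u + v √-2`, `u^2 + 2 v^2 = m`. -/
structure Law6 (m : ℕ) (u v : ℤ) (nu : ℕ → ℤ → ℤ) : Prop where
  nrm : u ^ 2 + 2 * v ^ 2 = m
  one : ∀ t, nu 1 t = 1
  cong : ∀ (N : ℕ) (t t' : ℤ), t ≡ t' [ZMOD N] → nu N t = nu N t'
  pm : ∀ (N : ℕ) (t : ℤ), nu N t = 1 ∨ nu N t = -1
  mul : ∀ (N N' : ℕ) (t : ℤ), Odd N → Odd N' → Squarefree N → Squarefree N' → N.Coprime N' →
    nu (N * N') t = nu N t * nu N' t * (if 5 ≤ N % 8 ∧ 5 ≤ N' % 8 then -1 else 1)
  frob1 : ∀ (l : ℕ) (t : ℤ), l.Prime → (l % 8 = 1 ∨ l % 8 = 3) → ¬ l ∣ m →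
    (l : ℤ) ∣ t ^ 2 + 2 * m →
    ∀ (k : Type) [Field k] [CharP k l] (g : ℤ√(-2) →+* k),
      g ⟨u, v⟩ ^ ((l - 1) / 2) = (nu l t : k)
  frob5 : ∀ (l : ℕ) (t : ℤ), l.Prime → (l % 8 = 5 ∨ l % 8 = 7) → ¬ l ∣ m →
    (l : ℤ) ∣ t ^ 2 + 2 * m →
    ∀ (k : Type) [Field k] [CharP k l] (g : ℤ√(-2) →+* k),
      g ⟨u, v⟩ ^ ((l + 1) / 2) * g ⟨0, 1⟩ = (nu l t : k) * (t : k)

/-! ### the exact data -/

/-- The Galois data `UD6` with exact translation and Fricke formulas, a root of unity `ξ` of order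
`16`, `θ = √-2` and `e = √(u0 + v0 θ)`, and the action of the automorphisms by primitive ideals. -/
structure XD6 (K F : Type*) [Field K] [NumberField K] [Field F] [NumberField F] [Algebra K F]
    (a : ℕ) (s : K) (S : 𝓞 K) (τ : 𝓞 K ≃+* 𝓞 K) (ζ : F) (w : ℕ → F) (z k v : Ideal (𝓞 K) → F)
    (κ : F ≃ₐ[ℚ] F) (u0 v0 : ℤ) (nu : ℕ → ℤ → ℤ) (ξ θ e : F) : Prop where
  ud : UD6 K F a s S τ ζ w z k v κ
  x16 : ξ ^ 2 = ζ
  kx : κ ξ = ξ ^ 15
  th : θ ^ 2 = -2
  kth : κ θ = -θ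
  sq : e ^ 2 = (u0 : F) + (v0 : F) * θ
  conj : e * κ e * θ = algebraMap K F s
  /-- the exact quarter turn -/
  trx : ∀ (x y : ℤ) (δ : 𝓞 K), Odd x → Odd y → algebraMap (𝓞 K) K δ = x + y * s →
    ∀ c, OddI c → (v (Ideal.span {δ} * c) * v c) ^ 2 = -1 ∧
      z (Ideal.span {δ} * c) * (1 - v (Ideal.span {δ} * c) * v c * k c) =
        (e8 x : ℤ) * ((1 - v (Ideal.span {δ} * c) * v c) * (v c * z c))
  /-- the orientation -/
  ori : v (Ideal.span {1 + S}) * v 1 *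
    (z 1 * z (r6 S (a / 2)) * ((1 + v 1) * (1 + v (r6 S (a / 2))))) = 2 * θ
  /-- every automorphism over `K` acts by a primitive ideal `b` (`S - t ∈ b`) prime to `M` -/
  act4 : ∀ (σ : F ≃ₐ[K] F) (M : ℕ), M ≠ 0 → ∃ (b : Ideal (𝓞 K)) (t : ℤ), OddI b ∧
    Nat.Coprime (Ideal.absNorm b) M ∧ Squarefree (Ideal.absNorm b) ∧ S - (t : 𝓞 K) ∈ b ∧
    MA6 a ζ w z k v σ b ∧ σ ξ = ξ ^ Ideal.absNorm b ∧
    ((Ideal.absNorm b % 8 = 1 ∨ Ideal.absNorm b % 8 = 3) →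
      σ e = (nu (Ideal.absNorm b) t : F) * e) ∧
    ((Ideal.absNorm b % 8 = 5 ∨ Ideal.absNorm b % 8 = 7) →
      σ e = (nu (Ideal.absNorm b) t : F) * κ e)

/-! ### the group of the points modulo `(-1, 0)` -/

section points

variable (F : Type*) [Field F] [CharZero F]

/-- the group of the points modulo `(-1, 0)` -/
abbrev QE : Type _ := (cQ F).Point ⧸ AddSubgroup.zmultiples (W14.em F)

variable {F}

/-- the class of a point -/
def qe : (cQ F).Point →+ QE F := QuotientAddGroup.mk' (AddSubgroup.zmultiples (W14.em F))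

variable (F) in
/-- the class of `(0, 0)`, also of `(1, 0)` -/
def z1 : QE F := qe (ez F)

/-- the image of the kernel of reduction -/
def EW {Γ : Type*} [LinearOrderedCommGroupWithZero Γ] (V : Valuation F Γ) : AddSubgroup (QE F) :=
  (W5.E1 V).map qe

theorem gal_em {k : Type*} [Field k] [Algebra k F] (σ : F ≃ₐ[k] F) : gal σ (W14.em F) = W14.em F := by
  unfold W14.em
  rw [gal_pt, pt_inj, map_neg, map_one, map_zero]
  exact ⟨rfl, rfl⟩

/-- the action of an automorphism on the points modulo `(-1, 0)` -/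
def galE {k : Type*} [Field k] [Algebra k F] (σ : F ≃ₐ[k] F) : QE F →+ QE F :=
  QuotientAddGroup.map _ _ (gal σ) (by
    refine AddSubgroup.zmultiples_le_of_mem ?_
    rw [AddSubgroup.mem_comap, gal_em]
    exact AddSubgroup.mem_zmultiples _)

theorem galE_qe {k : Type*} [Field k] [Algebra k F] (σ : F ≃ₐ[k] F) (R : (cQ F).Point) :
    galE σ (qe R) = qe (gal σ R) := rfl

omit [CharZero F] in
theorem sq_TJ {j : F} (hj : j ^ 2 = -1) : (1 - j) ^ 2 = j ^ 3 - j := by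
  linear_combination (1 - j) * hj

/-- the point `(j, 1 - j)`, `j^2 = -1` -/
def TJ {j : F} (hj : j ^ 2 = -1) : (cQ F).Point := pt j (1 - j) (sq_TJ hj)

omit [CharZero F] in
theorem sq_TR {r : F} (hr : r ^ 2 = 2) : (r * (1 + r)) ^ 2 = (1 + r) ^ 3 - (1 + r) := by
  linear_combination (r ^ 2 + r) * hr

/-- the point `(1 + r, r (1 + r))`, `r^2 = 2` -/
def TR {r : F} (hr : r ^ 2 = 2) : (cQ F).Point := pt (1 + r) (r * (1 + r)) (sq_TR hr)

end points

section ideals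

variable {K F : Type*} [Field K] [NumberField K] [Field F] [CharZero F]

/-- the class of the point of an ideal -/
def PE (z k v : Ideal (𝓞 K) → F) (c : Ideal (𝓞 K)) : QE F := qe (PP z k v c)

/-- the square root of `2` of the Fricke involution at the ideal `c` -/
def rr (a : ℕ) (S : 𝓞 K) (z v : Ideal (𝓞 K) → F) (c : Ideal (𝓞 K)) : F :=
  z c * z (r6 S (a / 2) * c) * ((1 + v c) * (1 + v (r6 S (a / 2) * c))) / 2

/-- the formal data of the function `P` on the odd ideals -/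
structure FE (a : ℕ) (S : 𝓞 K) (P : Ideal (𝓞 K) → QE F) (T R : QE F) : Prop where
  tr : ∀ α : 𝓞 K, Ideal.absNorm (Ideal.span {α}) % 8 = 1 → ∀ c, OddI c →
    P (Ideal.span {α} * c) =
      P c + (if Ideal.absNorm (Ideal.span {α}) % 16 = 1 then 0 else z1 F)
  tq : ∀ α : 𝓞 K, Ideal.absNorm (Ideal.span {α}) % 8 = 7 → ∀ c, OddI c →
    P (Ideal.span {α} * c) + P c =
      T + (if Ideal.absNorm (Ideal.span {α}) % 16 = 15 then 0 else z1 F)
  fr : ∀ c, OddI c → P (r6 S (a / 2) * c) + P c =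
    R + (if Ideal.absNorm c % 8 = 1 ∨ Ideal.absNorm c % 8 = 7 then 0 else z1 F)
  tt : T + T = z1 F
  rr : R + R = z1 F

end ideals

/-! ### the classes -/

section classes

variable (K : Type*) [Field K] [NumberField K]

/-- the ideals of norm `1` modulo `16` -/
def M1 : Submonoid (Ideal (𝓞 K)) where
  carrier := {c | Ideal.absNorm c % 16 = 1}
  one_mem' := by
    show Ideal.absNorm (1 : Ideal (𝓞 K)) % 16 = 1
    rw [map_one]
    rfl
  mul_mem' := by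
    intro b c hb hc
    show Ideal.absNorm (b * c) % 16 = 1
    rw [map_mul, Nat.mul_mod]
    have h1 : Ideal.absNorm b % 16 = 1 := hb
    have h2 : Ideal.absNorm c % 16 = 1 := hc
    rw [h1, h2]

/-- the classes of the ideals of norm `1` modulo `8` -/
def H1 : Set (ClassGroup (𝓞 K)) :=
  {C | ∃ c : Ideal (𝓞 K), Ideal.absNorm c % 8 = 1 ∧ cls c = C}

end classes

end

end Pool.Agent.Work.MP_8efaaa_nt.W6
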