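import Mathlib
import Pool.Agent.Work.MP_8efaaa_nt.W6.Defs

/-!
# Definitions of the block W6, continued (fixed file): the complex data
-/

set_option autoImplicit false

namespace Pool.Agent.Work.MP_8efaaa_nt.W6

open NumberField Pool.Agent.Work.MP_8efaaa_nt.R Pool.Agent.Work.MP_8efaaa_nt.N5
  Pool.Agent.Work.MP_8efaaa_nt.K6

/-- `C6` with a root of unity `ξ` of order `16`, `θ = s / √(a / 2)` and `e = √(u0 + v0 θ)` -/
structure CX6 (K F : Type*) [Field K] [NumberField K] [Algebra K ℂ] [Field F] [Algebra F ℂ]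
    (a : ℕ) (s : K) (u0 v0 : ℤ) (ζ : F) (w : ℕ → F) (z k v : Ideal (𝓞 K) → F) (ξ θ e : F) :
    Prop where
  c6 : C6 K F a s ζ w z k v
  x16 : ξ ^ 2 = ζ
  th : algebraMap F ℂ θ * ((Real.sqrt ((a : ℝ) / 2) : ℝ) : ℂ) = algebraMap K ℂ s
  sq : e ^ 2 = (u0 : F) + (v0 : F) * θ

end Pool.Agent.Work.MP_8efaaa_nt.W6
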