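import Mathlib
import Pool.Agent.Work.MP_8efaaa_nt.W6.Defs

/-!
# W6/LFd (M): addition of a half of `(-1, 0)`

`x0 = -1 + r`, `r^2 = 2`, so `x0^2 + 2 x0 - 1 = 0`; `y0 = e x0`, `e^2 = -2`: `y0^2 = -2 x0^2 = x0^3 - x0`. All identities were checked numerically for both signs of `r` and `e`.
`b_add`: `x ≠ x0`, slope `λ = (y - y0)/(x - x0)`, `x' = λ^2 - x - x0`, `y' = -(λ (x' - x) + y)`. With `y^2 = x^3 - x`: `x' (x - x0)^2 = x0 ((x^2 - 2x - 1) - 2 e y)`, `(x' - 1)(x - x0)^2 = -x0 (r (x^2+1) + 2 e y)`, `(x' - x)(x - x0)^2 = x0 (x^2-2x-1) - 2 e x0 y - x (x - x0)^2`, `y' (x-x0)^3 = -((y - y0) (x'-x)(x-x0)^2 + y (x-x0)^3)`.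
The claim `(x'^2 + 2x' - 1)(x^2 + 2x - 1) = -4 r y y'` multiplied by `(x - x0)^4` is a polynomial identity in `x`, `y`, `r`, `e` modulo `y^2 = x^3 - x`, `r^2 = 2`, `e^2 = -2`: find the coefficients for `linear_combination` (reduce both sides to the form `p(x) + q(x) y`, with coefficients in `ℤ[r, e]`).
(Meaning: `B(P) = (x^2+2x-1)/(2y)`, `B(P)^2 = x(2P) + 1`, `B(P + D) B(P) = -r`.)
`tj_add`: `(J, 1-J) + (r-1, J r (r-1)) = (1+r, r(1+r))`, slope `(1 - J - J r (r-1))/(J - r + 1)` (`J ≠ r - 1`: squares `-1`, `3 - 2r`): it is `((J+1)(..))`: compute `λ` with `r^2 = 2`, `J^2 = -1`: `1 - J - 2J + J r = 1 - 3J + J r`; `λ (J + 1 - r) = 1 - 3 J + J r` gives `λ = -(1 + r) - J`·.. (solve in the basis `1, r, J, Jr`; then `λ^2 = J + (r - 1) + (1 + r)`). `em_add`: `D0 + em = (r - 1, -y0)`: `D0 + D0 = em` and `em + em = 0`, so `D0 + em = -D0`.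
-/

set_option autoImplicit false

namespace Pool.Agent.Work.MP_8efaaa_nt.W6

open Pool.Agent.Work.MP_8efaaa_nt.R Pool.Agent.Work.MP_8efaaa_nt.N5
  Pool.Agent.Work.MP_8efaaa_nt.K6 Pool.Agent.Work.MP_8efaaa_nt.W14
open scoped Classical

variable {F : Type*} [Field F] [CharZero F]

omit [CharZero F] in
theorem sq_D0 {r e : F} (hr : r ^ 2 = 2) (he : e ^ 2 = -2) :
    (e * (-1 + r)) ^ 2 = (-1 + r) ^ 3 - (-1 + r) := by
  linear_combination (-1 + r) ^ 2 * he - (-1 + r) * hr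

private theorem add_eq6 {x1 y1 x2 y2 x3 y3 L : F} (h1 : y1 ^ 2 = x1 ^ 3 - x1)
    (h2 : y2 ^ 2 = x2 ^ 3 - x2) (hx : x1 ≠ x2) (hL : L * (x1 - x2) = y1 - y2)
    (h3x : x3 = L ^ 2 - x1 - x2) (h3y : y3 = -(L * (x3 - x1) + y1)) :
    ∃ h3, pt x1 y1 h1 + pt x2 y2 h2 = pt x3 y3 h3 := by
  have hn := WeierstrassCurve.Affine.nonsingular_add (cQ_nonsingular.2 h1) (cQ_nonsingular.2 h2)
    (fun hc => hx hc.1)
  have hs : (cQ F).slope x1 x2 y1 y2 = L := by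
    rw [WeierstrassCurve.Affine.slope_of_X_ne hx, div_eq_iff (sub_ne_zero.2 hx), hL]
  have eX : (cQ F).addX x1 x2 ((cQ F).slope x1 x2 y1 y2) = x3 := by
    rw [hs, h3x]
    simp only [WeierstrassCurve.Affine.addX, cQ]
    ring
  have eY : (cQ F).addY x1 x2 y1 ((cQ F).slope x1 x2 y1 y2) = y3 := by
    simp only [WeierstrassCurve.Affine.addY, WeierstrassCurve.Affine.negAddY, eX]
    rw [hs, h3y]
    simp only [WeierstrassCurve.Affine.negY, cQ]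
    ring
  refine ⟨?_, ?_⟩
  · have h3 := cQ_nonsingular.1 hn
    rw [eX, eY] at h3
    exact h3
  · unfold pt
    rw [WeierstrassCurve.Affine.Point.add_of_X_ne hx,
      WeierstrassCurve.Affine.Point.some.injEq]
    exact ⟨eX, eY⟩

omit [CharZero F] in
private theorem b_poly {x y r e d X' Y' : F} (h : y ^ 2 = x ^ 3 - x) (hr : r ^ 2 = 2)
    (he : e ^ 2 = -2) (hd : d = x - (-1 + r))
    (hX : X' = (y - e * (-1 + r)) ^ 2 - (x + (-1 + r)) * d ^ 2)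
    (hY : Y' = -((y - e * (-1 + r)) * (X' - x * d ^ 2) + y * d ^ 3)) :
    (X' ^ 2 + 2 * X' * d ^ 2 - d ^ 4) * (x ^ 2 + 2 * x - 1) + 4 * r * y * Y' * d = 0 := by
  subst hY hX hd
  linear_combination (-x ^ 5 + 2 * x ^ 4 * r - 2 * x ^ 4 + 2 * x ^ 3 * r ^ 2 - 4 * x ^ 3 * r + 6 * x ^ 3 + x
      ^ 2 * y ^ 2 - 4 * x ^ 2 * y * r * e + 4 * x ^ 2 * y * e - 14 * x ^ 2 * r ^ 3 + 6 * x ^
      2 * r ^ 2 * e ^ 2 + 36 * x ^ 2 * r ^ 2 - 12 * x ^ 2 * r * e ^ 2 - 36 * x ^ 2 * r + 6 *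
      x ^ 2 * e ^ 2 + 14 * x ^ 2 - 4 * x * y ^ 2 * r + 2 * x * y ^ 2 + 12 * x * y * r ^ 2 *
      e - 20 * x * y * r * e + 8 * x * y * e + 20 * x * r ^ 4 - 12 * x * r ^ 3 * e ^ 2 - 64
      * x * r ^ 3 + 36 * x * r ^ 2 * e ^ 2 + 70 * x * r ^ 2 - 36 * x * r * e ^ 2 - 28 * x *
      r + 12 * x * e ^ 2 + 3 * x + 4 * y ^ 2 * r ^ 2 - 4 * y ^ 2 * r - y ^ 2 - 12 * y * r ^
      3 * e + 24 * y * r ^ 2 * e - 8 * y * r * e - 4 * y * e - 8 * r ^ 5 + 12 * r ^ 4 * e ^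
      2 + 32 * r ^ 4 - 36 * r ^ 3 * e ^ 2 - 46 * r ^ 3 + 30 * r ^ 2 * e ^ 2 + 24 * r ^ 2 + 2
      * r - 6 * e ^ 2 - 4) * h +
      (4 * x ^ 5 * r ^ 2 - 8 * x ^ 5 * r + 4 * x ^ 5 - 10 * x ^ 4 * r ^ 3 + 28 * x ^ 4 * r ^
      2 - 26 * x ^ 4 * r + 8 * x ^ 4 + 14 * x ^ 3 * r ^ 4 - 44 * x ^ 3 * r ^ 3 + 42 * x ^ 3
      * r ^ 2 - 8 * x ^ 3 * r - 4 * x ^ 3 - 4 * x ^ 2 * y * r ^ 3 * e + 12 * x ^ 2 * y * r ^
      2 * e - 12 * x ^ 2 * y * r * e + 4 * x ^ 2 * y * e - 2 * x ^ 2 * r ^ 5 + x ^ 2 * r ^ 4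
      * e ^ 2 + 14 * x ^ 2 * r ^ 4 - 4 * x ^ 2 * r ^ 3 * e ^ 2 - 34 * x ^ 2 * r ^ 3 + 6 * x
      ^ 2 * r ^ 2 * e ^ 2 + 36 * x ^ 2 * r ^ 2 - 4 * x ^ 2 * r * e ^ 2 - 16 * x ^ 2 * r + x
      ^ 2 * e ^ 2 + 2 * x ^ 2 + 4 * x * y * r ^ 4 * e - 20 * x * y * r ^ 3 * e + 36 * x * y
      * r ^ 2 * e - 28 * x * y * r * e + 8 * x * y * e - 4 * x * r ^ 5 + 2 * x * r ^ 4 * e ^
      2 + 6 * x * r ^ 4 - 8 * x * r ^ 3 * e ^ 2 + 8 * x * r ^ 3 + 12 * x * r ^ 2 * e ^ 2 -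
      14 * x * r ^ 2 - 8 * x * r * e ^ 2 + 2 * x * e ^ 2 + 4 * x - 4 * y * r ^ 5 * e + 16 *
      y * r ^ 4 * e - 20 * y * r ^ 3 * e + 4 * y * r ^ 2 * e + 8 * y * r * e - 4 * y * e + 2
      * r ^ 5 - r ^ 4 * e ^ 2 - 10 * r ^ 4 + 4 * r ^ 3 * e ^ 2 + 20 * r ^ 3 - 6 * r ^ 2 * e
      ^ 2 - 20 * r ^ 2 + 4 * r * e ^ 2 + 10 * r - e ^ 2 - 2) * he +
      (x ^ 6 - 10 * x ^ 5 * r + 10 * x ^ 5 + 19 * x ^ 4 * r ^ 2 - 36 * x ^ 4 * r + 19 * x ^ 4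
      + 4 * x ^ 3 * y * r * e - 4 * x ^ 3 * y * e - 10 * x ^ 3 * r ^ 3 + 18 * x ^ 3 * r ^ 2
      - 8 * x ^ 3 * r - 8 * x ^ 2 * y * r ^ 2 * e + 16 * x ^ 2 * y * r * e - 8 * x ^ 2 * y *
      e + x ^ 2 * r ^ 4 - 8 * x ^ 2 * r ^ 3 + 11 * x ^ 2 * r ^ 2 - 3 * x ^ 2 - 4 * x * y * r
      ^ 3 * e + 16 * x * y * r ^ 2 * e - 16 * x * y * r * e + 4 * x * y * e + 2 * x * r ^ 4
      + 2 * x * r ^ 3 - 8 * x * r ^ 2 + 2 * x * r + 2 * x + 4 * y * r ^ 4 * e - 12 * y * r ^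
      3 * e + 12 * y * r ^ 2 * e - 4 * y * r * e - r ^ 4 + 4 * r ^ 3 - 6 * r ^ 2 + 4 * r - 1) * hr

theorem b_add {x y r e : F} (h : y ^ 2 = x ^ 3 - x) (hr : r ^ 2 = 2) (he : e ^ 2 = -2)
    (hx : x ≠ -1 + r) :
    ∃ (x' y' : F) (h' : y' ^ 2 = x' ^ 3 - x'),
      pt x y h + pt (-1 + r) (e * (-1 + r)) (sq_D0 hr he) = pt x' y' h' ∧
        (x' ^ 2 + 2 * x' - 1) * (x ^ 2 + 2 * x - 1) = -(4 * r * y * y') := by
  have hd0 : x - (-1 + r) ≠ 0 := sub_ne_zero.2 hx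
  obtain ⟨L, hL⟩ : ∃ L : F, L * (x - (-1 + r)) = y - e * (-1 + r) :=
    ⟨(y - e * (-1 + r)) / (x - (-1 + r)), div_mul_cancel₀ _ hd0⟩
  obtain ⟨h3, e3⟩ := add_eq6 (x3 := L ^ 2 - x - (-1 + r))
    (y3 := -(L * (L ^ 2 - x - (-1 + r) - x) + y)) h (sq_D0 hr he) hx hL rfl rfl
  refine ⟨_, _, h3, e3, ?_⟩
  obtain ⟨d, hd⟩ : ∃ d : F, d = x - (-1 + r) := ⟨_, rfl⟩
  rw [← hd] at hd0 hL
  have hX : (L ^ 2 - x - (-1 + r)) * d ^ 2 =
      (y - e * (-1 + r)) ^ 2 - (x + (-1 + r)) * d ^ 2 := by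
    linear_combination (L * d + (y - e * (-1 + r))) * hL
  have hY : -(L * (L ^ 2 - x - (-1 + r) - x) + y) * d ^ 3 =
      -((y - e * (-1 + r)) * ((L ^ 2 - x - (-1 + r)) * d ^ 2 - x * d ^ 2) + y * d ^ 3) := by
    linear_combination (-((L ^ 2 - x - (-1 + r) - x) * d ^ 2)) * hL
  have hp := b_poly h hr he hd hX hY
  have h4 : d ^ 4 ≠ 0 := pow_ne_zero 4 hd0
  refine mul_left_cancel₀ h4 ?_
  linear_combination hp

theorem em_add {r e : F} (hr : r ^ 2 = 2) (he : e ^ 2 = -2) (he' : (-e) ^ 2 = -2) :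
    pt (-1 + r) (e * (-1 + r)) (sq_D0 hr he) + W14.em F =
      pt (-1 + r) (-e * (-1 + r)) (sq_D0 hr he') := by
  have hr0 : r ≠ 0 := by
    rintro rfl
    apply two_ne_zero (α := F)
    linear_combination -hr
  unfold W14.em
  obtain ⟨h3, e3⟩ := add_eq6 (x2 := (-1 : F)) (y2 := 0) (L := e * (-1 + r) * r / 2)
    (x3 := -1 + r) (y3 := -e * (-1 + r)) (sq_D0 hr he) (by norm_num)
    (by
      intro h
      apply hr0
      linear_combination h)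
    (by linear_combination (e * (-1 + r) / 2) * hr)
    (by linear_combination (-((-1 + r) ^ 2 * r ^ 2 / 4)) * he + ((r ^ 2 - 2 * r + 3) / 2) * hr)
    (by ring)
  exact e3

theorem tj_add {J r : F} (hJ : J ^ 2 = -1) (hr : r ^ 2 = 2) (he : (J * r) ^ 2 = -2) :
    TJ hJ + pt (-1 + r) (J * r * (-1 + r)) (sq_D0 hr he) = TR hr := by
  have hne : J ≠ -1 + r := by
    rintro rfl
    have h1 : 2 * r = 4 := by linear_combination hr - hJ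
    have h2 : r = 2 := by
      have h3 : (2 : F) * r = 2 * 2 := by rw [h1]; norm_num
      exact mul_left_cancel₀ two_ne_zero h3
    rw [h2] at hr
    apply two_ne_zero (α := F)
    linear_combination hr
  have h1 : (-1 - r / 2 - J + J * r / 2) * (J - (-1 + r)) = (1 - J) - J * r * (-1 + r) := by
    linear_combination (r - 2) / 2 * hJ + (J + 1) / 2 * hr
  have h2 : 1 + r = (-1 - r / 2 - J + J * r / 2) ^ 2 - J - (-1 + r) := by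
    linear_combination (-r ^ 2 + 4 * r - 4) / 4 * hJ + 2 * J / 4 * hr
  have h4 : r * (1 + r) = -((-1 - r / 2 - J + J * r / 2) * ((1 + r) - J) + (1 - J)) := by
    linear_combination (-r + 2) / 2 * hJ + (J + 1) / 2 * hr
  obtain ⟨h3, e3⟩ := add_eq6 (sq_TJ hJ) (sq_D0 hr he) hne h1 h2 h4
  exact e3

theorem tr_neg {r : F} (hr : r ^ 2 = 2) (hr' : (-r) ^ 2 = 2) : TR hr' = TR hr + ez F := by
  have h1r : (1 : F) + r ≠ 0 := by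
    intro h
    have h1 : (1 : F) = 2 := by linear_combination hr + (1 - r) * h
    apply two_ne_zero (α := F)
    linear_combination -2 * h1
  unfold TR ez
  obtain ⟨h3, e3⟩ := add_eq6 (x1 := 1 + r) (y1 := r * (1 + r)) (x2 := 0) (y2 := 0) (L := r)
    (x3 := 1 + -r) (y3 := -r * (1 + -r)) (sq_TR hr) (by norm_num) h1r (by ring)
    (by linear_combination -hr) (by ring)
  exact e3.symm

theorem tj_two {J : F} (hJ : J ^ 2 = -1) : TJ hJ + TJ hJ = ez F := by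
  have h1 : (1 : F) - J ≠ 0 := by
    intro h
    have h2 : (2 : F) = 0 := by linear_combination (1 + J) * h + hJ
    exact two_ne_zero h2
  unfold TJ
  obtain ⟨x3, y3, h3, e3, e4⟩ := W5.dbl_pt (sq_TJ hJ) h1
  have h5 : x3 * (2 * (1 - J)) ^ 2 = 0 := by
    rw [e4, hJ]
    ring
  have h6 : x3 = 0 := by
    rcases mul_eq_zero.1 h5 with h | h
    · exact h
    · exact absurd h (pow_ne_zero 2 (mul_ne_zero two_ne_zero h1))
  subst h6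
  have h7 : y3 = 0 := by
    have h8 : y3 ^ 2 = 0 := by rw [h3]; ring
    exact pow_eq_zero_iff two_ne_zero |>.1 h8
  subst h7
  exact e3

end Pool.Agent.Work.MP_8efaaa_nt.W6
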