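import Mathlib
import Pool.Agent.Work.MP_8efaaa_nt.W6.Defs

/-!
# W6/SDir: the quartic character of `2` (Dirichlet)
-/

set_option autoImplicit false

namespace Pool.Agent.Work.MP_8efaaa_nt.W6

private theorem gI_sq' : W5.gI ^ 2 = -1 := by
  apply Zsqrtd.ext <;> simp [W5.gI, pow_two]

private theorem gI_four' : W5.gI ^ 4 = 1 := by
  have : W5.gI ^ 4 = (W5.gI ^ 2) ^ 2 := by ring
  rw [this, gI_sq']
  ring

theorem ipw_four {m n : ℤ} (h : (4 : ℤ) ∣ m - n) : ipw m = ipw n := by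
  unfold ipw
  have : m % 4 = n % 4 := by omega
  rw [this]

private theorem ipw_nat (n : ℕ) : ipw (n : ℤ) = W5.gI ^ n := by
  unfold ipw
  have h1 : ((n : ℤ) % 4).toNat = n % 4 := by omega
  rw [h1]
  conv_rhs => rw [← Nat.div_add_mod n 4, pow_add, pow_mul, gI_four', one_pow, one_mul]

theorem ipw_add (m n : ℤ) : ipw (m + n) = ipw m * ipw n := by
  have h1 : ipw m = W5.gI ^ (m % 4).toNat := rfl
  have h2 : ipw n = W5.gI ^ (n % 4).toNat := rfl
  rw [h1, h2, ← pow_add, ← ipw_nat]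
  apply ipw_four
  push_cast
  omega

theorem ipw_two (n : ℤ) : ipw (2 * n) = (-1) ^ n.natAbs := by
  have h : ipw (2 * n) = ipw ((2 * n.natAbs : ℕ) : ℤ) := by
    apply ipw_four
    push_cast
    rcases abs_cases n with ⟨h, _⟩ | ⟨h, _⟩ <;> rw [h] <;> omega
  rw [h, ipw_nat, pow_mul, gI_sq']

/-- the values of `ipw` in a field -/
private theorem map_ipw {k : Type*} [Field k] (g : GaussianInt →+* k) (n : ℤ) :
    g (ipw n) = g W5.gI ^ n := by
  have h4 : g W5.gI ^ 4 = 1 := by rw [← map_pow, gI_four', map_one]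
  have h0 : g W5.gI ≠ 0 := by
    intro h0
    rw [h0] at h4
    norm_num at h4
  have e : (n % 4).toNat = n - 4 * (n / 4) := by omega
  unfold ipw
  rw [map_pow, ← zpow_natCast, e, zpow_sub₀ h0, zpow_mul]
  have : (g W5.gI ^ (4 : ℤ)) = 1 := by
    have : (4 : ℤ) = ((4 : ℕ) : ℤ) := rfl
    rw [this, zpow_natCast, h4]
  rw [this, one_zpow, div_one]

/-- Euler's criterion in a field of characteristic `p` -/
private theorem euler_k {p : ℕ} (hp : p.Prime) (hp2 : p % 2 = 1) {k : Type*} [Field k] [CharP k p] (c : ℤ) :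
    (c : k) ^ ((p - 1) / 2) = ((jacobiSym c p : ℤ) : k) := by
  have hpF : Fact p.Prime := ⟨hp⟩
  have h1 := legendreSym.eq_pow p c
  have e : p / 2 = (p - 1) / 2 := by omega
  rw [e] at h1
  have h2 := congrArg (ZMod.castHom (dvd_refl p) k) h1
  rw [map_pow, map_intCast, map_intCast] at h2
  rw [← h2, jacobiSym.legendreSym.to_jacobiSym]

private theorem jac_neg {p : ℕ} (hp4 : p % 4 = 1) (c : ℤ) :
    jacobiSym c p = jacobiSym (c.natAbs : ℤ) p := by
  have hm1 : jacobiSym (-1) p = 1 := by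
    rw [jacobiSym.at_neg_one (by rw [Nat.odd_iff]; omega)]
    exact ZMod.χ₄_nat_one_mod_four hp4
  rcases Int.natAbs_eq c with h | h
  · rw [← h]
  · conv_lhs => rw [h, neg_eq_neg_one_mul, jacobiSym.mul_left, hm1, one_mul]

private theorem jac_sq_one {x : ℤ} {n : ℕ} (h : IsCoprime x (n : ℤ)) : jacobiSym (x ^ 2) n = 1 :=
  jacobiSym.sq_one' (Int.isCoprime_iff_gcd_eq_one.1 h)

/-- `(c / p)` for `c` odd and `2 p = c ^ 2 + e ^ 2` -/
private theorem jac_sum {p : ℕ} (hp4 : p % 4 = 1) {c e : ℤ} (hc : Odd c) (he : IsCoprime e c)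
    (h : c ^ 2 + e ^ 2 = 2 * p) : jacobiSym c p = ZMod.χ₈ (c.natAbs : ℕ) := by
  have hco : Odd c.natAbs := Int.natAbs_odd.2 hc
  have hpo : Odd p := by
    rw [Nat.odd_iff]
    omega
  rw [jac_neg hp4, jacobiSym.quadratic_reciprocity_one_mod_four' hco hp4]
  have h1 : jacobiSym (2 * p) c.natAbs = 1 := by
    have h2 : jacobiSym (e ^ 2) c.natAbs = 1 := by
      apply jac_sq_one
      rw [Int.isCoprime_iff_gcd_eq_one] at he ⊢
      rwa [Int.gcd, Int.natAbs_natCast]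
    rw [← h2, ← h]
    rw [jacobiSym.mod_left, jacobiSym.mod_left (e ^ 2)]
    congr 1
    have : (c.natAbs : ℤ) ∣ c ^ 2 := by
      rw [Int.natAbs_dvd]
      exact dvd_pow_self c two_ne_zero
    obtain ⟨k, hk⟩ := this
    rw [hk, add_comm, Int.add_mul_emod_self_left]
  rw [jacobiSym.mul_left, jacobiSym.at_two hco] at h1
  have h3 : (ZMod.χ₈ (c.natAbs : ℕ)) ^ 2 = 1 := by
    rw [ZMod.χ₈_nat_eq_if_mod_eight]
    have : ¬ c.natAbs % 2 = 0 := by
      rw [Nat.odd_iff] at hco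
      omega
    rw [if_neg this]
    split_ifs <;> norm_num
  calc jacobiSym p c.natAbs = (ZMod.χ₈ (c.natAbs : ℕ)) ^ 2 * jacobiSym p c.natAbs := by
        rw [h3, one_mul]
    _ = ZMod.χ₈ (c.natAbs : ℕ) * (ZMod.χ₈ (c.natAbs : ℕ) * jacobiSym p c.natAbs) := by ring
    _ = ZMod.χ₈ (c.natAbs : ℕ) := by rw [h1, mul_one]

/-- `χ₈` of an odd number -/
private theorem chi8_pow {c : ℤ} {t : ℕ} (h : c ^ 2 = 8 * t + 1) :
    ZMod.χ₈ (c.natAbs : ℕ) = (-1) ^ t := by
  have h1 : (c.natAbs : ℤ) ^ 2 = 8 * t + 1 := by rw [Int.natAbs_sq, h]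
  have h2 : c.natAbs ^ 2 = 8 * t + 1 := by exact_mod_cast h1
  have h3 : c.natAbs % 2 = 1 := by
    by_contra h3
    have h4 : c.natAbs % 2 = 0 := by omega
    have h5 : c.natAbs ^ 2 % 2 = 0 := by
      rw [Nat.pow_mod, h4]
    omega
  have h16 : c.natAbs ^ 2 % 16 = (8 * t + 1) % 16 := by rw [h2]
  rw [Nat.pow_mod] at h16
  rw [ZMod.χ₈_nat_eq_if_mod_eight, if_neg (by omega)]
  have hcase : c.natAbs % 16 = 1 ∨ c.natAbs % 16 = 3 ∨ c.natAbs % 16 = 5 ∨ c.natAbs % 16 = 7 ∨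
      c.natAbs % 16 = 9 ∨ c.natAbs % 16 = 11 ∨ c.natAbs % 16 = 13 ∨ c.natAbs % 16 = 15 := by omega
  rcases Nat.even_or_odd t with ht | ht
  · rw [ht.neg_one_pow, if_pos]
    rw [Nat.even_iff] at ht
    rcases hcase with hc | hc | hc | hc | hc | hc | hc | hc <;> rw [hc] at h16 <;> omega
  · rw [ht.neg_one_pow, if_neg]
    rw [Nat.odd_iff] at ht
    rcases hcase with hc | hc | hc | hc | hc | hc | hc | hc <;> rw [hc] at h16 <;> omega

theorem two_quart {p : ℕ} (hp : p.Prime) {a b : ℤ} (ha : Odd a) (hb : Even b)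
    (h : a ^ 2 + b ^ 2 = p) {k : Type*} [Field k] [CharP k p] (g : GaussianInt →+* k)
    (hg : g ⟨a, b⟩ = 0) : (2 : k) ^ ((p - 1) / 4) = g (ipw (a * (b / 2))) := by
  have hpF : Fact p.Prime := ⟨hp⟩
  obtain ⟨b', hb'⟩ := hb
  obtain ⟨a', ha'⟩ := ha
  have hbb : b = 2 * b' := by omega
  have hb2 : b / 2 = b' := by omega
  have hp4 : p % 4 = 1 := by
    have h1 : (p : ℤ) = 4 * (a' ^ 2 + a' + b' ^ 2) + 1 := by
      rw [← h, ha', hbb]
      ring
    omega
  obtain ⟨P, hP⟩ : ∃ P, p = 4 * P + 1 := ⟨p / 4, by omega⟩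
  have hP4 : (p - 1) / 4 = P := by omega
  have hP2 : (p - 1) / 2 = 2 * P := by omega
  -- `i`
  have hi2 : g W5.gI ^ 2 = -1 := by rw [← map_pow, gI_sq', map_neg, map_one]
  have hi0 : g W5.gI ≠ 0 := by
    intro h0
    rw [h0] at hi2
    norm_num at hi2
  have hab : (a : k) + b * g W5.gI = 0 := by
    have e : (⟨a, b⟩ : GaussianInt) = (a : GaussianInt) + (b : GaussianInt) * W5.gI := by
      apply Zsqrtd.ext <;> simp [W5.gI]
    rw [e, map_add, map_mul, map_intCast, map_intCast] at hg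
    exact hg
  have hB : (b : k) = a * g W5.gI := by
    linear_combination (-(g W5.gI)) * hab + (b : k) * hi2
  -- coprimality
  have hcop : IsCoprime a b := by
    rw [Int.isCoprime_iff_gcd_eq_one]
    by_contra h1
    obtain ⟨l, hl, hld⟩ := Nat.exists_prime_and_dvd h1
    have h2 : (l : ℤ) ∣ a := (Int.natCast_dvd_natCast.2 hld).trans (Int.gcd_dvd_left _ _)
    have h3 : (l : ℤ) ∣ b := (Int.natCast_dvd_natCast.2 hld).trans (Int.gcd_dvd_right _ _)
    have h4 : ((l ^ 2 : ℕ) : ℤ) ∣ p := by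
      rw [← h]
      push_cast
      exact dvd_add (pow_dvd_pow_of_dvd h2 2) (pow_dvd_pow_of_dvd h3 2)
    have h5 : l ^ 2 ∣ p := by exact_mod_cast h4
    have h6 : l ∣ p := (dvd_pow_self l two_ne_zero).trans h5
    have h7 := (Nat.prime_dvd_prime_iff_eq hl hp).1 h6
    rw [h7] at h5
    have h8 := Nat.le_of_dvd hp.pos h5
    have h9 := hp.one_lt
    nlinarith
  have hA0 : (a : k) ≠ 0 := by
    intro h0
    have h1 : (p : ℤ) ∣ a := (CharP.intCast_eq_zero_iff k p a).1 h0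
    have h2 : (b : k) = 0 := by rw [hB, h0, zero_mul]
    have h3 : (p : ℤ) ∣ b := (CharP.intCast_eq_zero_iff k p b).1 h2
    obtain ⟨u, v, huv⟩ := hcop
    have h4 : (p : ℤ) ∣ 1 := by
      rw [← huv]
      exact dvd_add (Dvd.dvd.mul_left h1 u) (Dvd.dvd.mul_left h3 v)
    have h5 : p ∣ 1 := by exact_mod_cast h4
    exact hp.one_lt.ne' (Nat.dvd_one.1 h5)
  -- (1)
  have ha1 : jacobiSym a p = 1 := by
    have hao : Odd a.natAbs := Int.natAbs_odd.2 ⟨a', ha'⟩
    rw [jac_neg hp4, jacobiSym.quadratic_reciprocity_one_mod_four' hao hp4]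
    have h2 : jacobiSym (b ^ 2) a.natAbs = 1 := by
      apply jac_sq_one
      have := hcop.symm
      rw [Int.isCoprime_iff_gcd_eq_one] at this ⊢
      rwa [Int.gcd, Int.natAbs_natCast]
    rw [← h2, ← h]
    rw [jacobiSym.mod_left, jacobiSym.mod_left (b ^ 2)]
    congr 1
    have : (a.natAbs : ℤ) ∣ a ^ 2 := by
      rw [Int.natAbs_dvd]
      exact dvd_pow_self a two_ne_zero
    obtain ⟨k, hk⟩ := this
    rw [hk, add_comm, Int.add_mul_emod_self_left]
  have e1 : (a : k) ^ (2 * P) = 1 := by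
    rw [← hP2, euler_k hp (by omega), ha1, Int.cast_one]
  -- (2)
  have hc2 : Odd (a + b) := by
    rw [hbb, ha']
    exact ⟨a' + b', by ring⟩
  obtain ⟨c', hc'⟩ := hc2
  have hcc : (a + b) ^ 2 = p + 4 * (a * b') := by rw [← h, hbb]; ring
  obtain ⟨t, ht⟩ : ∃ t : ℕ, (a + b) ^ 2 = 8 * t + 1 := by
    have h1 : (a + b) ^ 2 % 8 = 1 := by
      rw [hc']
      have : c' % 2 = 0 ∨ c' % 2 = 1 := by omega
      rcases this with h1 | h1
      · obtain ⟨d, hd⟩ : ∃ d, c' = 2 * d := ⟨c' / 2, by omega⟩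
        have : (2 * c' + 1) ^ 2 = 8 * (2 * d ^ 2 + d) + 1 := by rw [hd]; ring
        omega
      · obtain ⟨d, hd⟩ : ∃ d, c' = 2 * d + 1 := ⟨c' / 2, by omega⟩
        have : (2 * c' + 1) ^ 2 = 8 * (2 * d ^ 2 + 3 * d + 1) + 1 := by rw [hd]; ring
        omega
    have h2 : 0 ≤ (a + b) ^ 2 := sq_nonneg _
    exact ⟨((a + b) ^ 2 / 8).toNat, by omega⟩
  have e2 : ((a + b : ℤ) : k) ^ (2 * P) = (-1) ^ t := by
    rw [← hP2, euler_k hp (by omega),
      jac_sum (e := a - b) hp4 ⟨c', hc'⟩ ?_ (by rw [← h]; ring), chi8_pow ht]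
    · push_cast
      rfl
    · -- coprimality of `a - b` and `a + b`
      rw [Int.isCoprime_iff_gcd_eq_one]
      by_contra h1
      obtain ⟨l, hl, hld⟩ := Nat.exists_prime_and_dvd h1
      have h2 : (l : ℤ) ∣ a - b := (Int.natCast_dvd_natCast.2 hld).trans (Int.gcd_dvd_left _ _)
      have h3 : (l : ℤ) ∣ a + b := (Int.natCast_dvd_natCast.2 hld).trans (Int.gcd_dvd_right _ _)
      have hl2 : l ≠ 2 := by
        rintro rfl
        push_cast at h3
        omega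
      have hl2' : IsCoprime (l : ℤ) 2 := by
        have : Nat.Coprime l 2 := (Nat.coprime_primes hl Nat.prime_two).2 hl2
        exact_mod_cast Nat.isCoprime_iff_coprime.2 this
      have h4 : (l : ℤ) ∣ 2 * a := by
        have := dvd_add h2 h3
        have e : a - b + (a + b) = 2 * a := by ring
        rwa [e] at this
      have h5 : (l : ℤ) ∣ 2 * b := by
        have := dvd_sub h3 h2
        have e : a + b - (a - b) = 2 * b := by ring
        rwa [e] at this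
      have h6 := hl2'.dvd_of_dvd_mul_left h4
      have h7 := hl2'.dvd_of_dvd_mul_left h5
      obtain ⟨u, v, huv⟩ := hcop
      have h8 : (l : ℤ) ∣ 1 := by
        rw [← huv]
        exact dvd_add (Dvd.dvd.mul_left h6 u) (Dvd.dvd.mul_left h7 v)
      have h9 : l ∣ 1 := by exact_mod_cast h8
      exact hl.one_lt.ne' (Nat.dvd_one.1 h9)
  -- (3)
  have e3 : ((a + b : ℤ) : k) ^ (2 * P) = 2 ^ P * g W5.gI ^ P := by
    have e4 : ((a + b : ℤ) : k) ^ 2 = (a : k) ^ 2 * (2 * g W5.gI) := by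
      push_cast
      rw [hB]
      linear_combination (a : k) ^ 2 * hi2
    rw [pow_mul, e4, mul_pow, ← pow_mul, e1, one_mul, mul_pow]
  -- (4)
  have e5 : ((-1 : k)) ^ t = g W5.gI ^ (P : ℤ) * g W5.gI ^ (a * b') := by
    rw [← zpow_add₀ hi0]
    have h1 : (P : ℤ) + a * b' = 2 * t := by
      rw [hcc, hP] at ht
      push_cast at ht
      linarith
    rw [h1, zpow_mul]
    have h2 : g W5.gI ^ (2 : ℤ) = -1 := by
      have : (2 : ℤ) = ((2 : ℕ) : ℤ) := rfl
      rw [this, zpow_natCast, hi2]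
    rw [h2, zpow_natCast]
  rw [hP4, hb2, map_ipw]
  have h6 : (2 : k) ^ P * g W5.gI ^ P = g W5.gI ^ P * g W5.gI ^ (a * b') := by
    rw [← e3, e2, e5, zpow_natCast]
  have h7 : g W5.gI ^ P ≠ 0 := pow_ne_zero _ hi0
  apply mul_left_cancel₀ h7
  rw [← h6, mul_comm]

end Pool.Agent.Work.MP_8efaaa_nt.W6
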