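import Mathlib
import Pool.Agent.Work.MP_8efaaa_nt.W6.Defs
import Pool.Agent.Work.MP_8efaaa_nt.W6.SDir

/-!
# W6/SMul (S-M): products and rational factors

PROOF. `nmG_mul`: `ring`. `qx_mul`: `one`, `mul` clear; `per`: `nmG ω ∣ nmG (ω ω') ∣ m - n`; `four`, `sq`: `n` prime to the product is prime to both; `jacobiSym.mul_right`, `Int.natAbs_mul`; (squares: `X (n^2) X' (n^2)`). `two`: with `ω = a + b i`, `ω' = c + d i`, `b = 2β`, `d = 2δ`: `(ac - bd) ((ad + bc)/2) = (ac - 4βδ)(aδ + βc) = ac (aδ + βc) = a^2 cδ + c^2 aβ = cδ + aβ (mod 4)` (`a^2 = c^2 = 1 (mod 8)`), `ipw_add`, `ipw_four`. `neg`: `(ad + bc)/2 = aδ + cβ = δ + β (mod 2)`. `f1`, `f3`: multiply the two formulas (`mul_pow`); `l ∤ nmG (ω ω')` gives `l ∤ nmG ω`, `l ∤ nmG ω'`.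
`qx_rat`: `nmG ⟨n, 0⟩ = n^2`. `X m = 1` for `m` prime to `n`, else `0`. `per`: `n ∣ n^2 ∣ m - m'`. `sq`: `(m / n^2) = (m / |n|)^2 = 1` (`jacobiSym.sq_one'`-type lemma, `Int.natAbs_pow`). `two`, `neg`: `2` is prime to `n`; `ipw 0 = 1`. `f1`: `g ω = n`, `n ^ ((l-1)/2) * (n^2) ^ ((l-1)/4) = n ^ (l - 1) = 1` in `k` (Fermat, `l ∤ n`; `X l = 1`). `f3`: `n ^ ((l+1)/2) (n^2)^((l+1)/4) = n^(l+1) = n^2`, `X (-l) = 1`.
-/

set_option autoImplicit false

namespace Pool.Agent.Work.MP_8efaaa_nt.W6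

open scoped Classical in
theorem qx_rat {n : ℤ} (hn : Odd n) :
    QX ⟨n, 0⟩ (fun m => if IsCoprime m n then 1 else 0) := by
  have hN : nmG ⟨n, 0⟩ = n ^ 2 := by
    unfold nmG
    ring
  have hcop : ∀ m : ℤ, IsCoprime m (nmG ⟨n, 0⟩) → IsCoprime m n := by
    intro m hm
    rw [hN] at hm
    exact (IsCoprime.pow_right_iff (by norm_num)).1 hm
  have hl : ∀ l : ℕ, l.Prime → ¬ (l : ℤ) ∣ nmG ⟨n, 0⟩ → IsCoprime (l : ℤ) n := by
    intro l hlp hln
    rw [hN] at hln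
    rw [Int.isCoprime_iff_gcd_eq_one]
    by_contra hg
    have h1 : Int.gcd (l : ℤ) n ∣ l := by
      have := Int.gcd_dvd_left (a := (l : ℤ)) (b := n)
      exact_mod_cast this
    rcases (Nat.dvd_prime hlp).1 h1 with h2 | h2
    · exact hg h2
    · apply hln
      have h3 := Int.gcd_dvd_right (a := (l : ℤ)) (b := n)
      rw [h2] at h3
      exact h3.trans (dvd_pow_self n two_ne_zero)
  have hfer : ∀ l : ℕ, l.Prime → ¬ (l : ℤ) ∣ nmG ⟨n, 0⟩ → ∀ (k : Type) [Field k] [CharP k l],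
      (n : k) ^ (l - 1) = 1 := by
    intro l hlp hln k _ _
    have h1 := Int.ModEq.pow_card_sub_one_eq_one hlp (hl l hlp hln).symm
    have h2 := (CharP.intCast_eq_intCast k l).2 h1
    push_cast at h2
    exact h2
  have hω : ∀ (k : Type) [Field k] (g : GaussianInt →+* k), g ⟨n, 0⟩ = (n : k) := by
    intro k _ g
    have h1 : (⟨n, 0⟩ : GaussianInt) = (n : GaussianInt) := by
      rw [Zsqrtd.ext_iff]
      simp
    rw [h1, map_intCast]
  refine ⟨?_, ?_, ?_, ?_, ?_, ?_, ?_, ?_, ?_⟩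
  · rw [if_pos isCoprime_one_left]
  · intro m m'
    by_cases h1 : IsCoprime m n
    · by_cases h2 : IsCoprime m' n
      · rw [if_pos h1, if_pos h2, if_pos (h1.mul_left h2), one_mul]
      · rw [if_neg h2, mul_zero, if_neg]
        intro h
        exact h2 (IsCoprime.of_mul_left_right h)
    · rw [if_neg h1, zero_mul, if_neg]
      intro h
      exact h1 (IsCoprime.of_mul_left_left h)
  · intro m m' h
    rw [hN] at h
    have h1 : n ∣ m - m' := (dvd_pow_self n two_ne_zero).trans h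
    obtain ⟨c, hc⟩ := h1
    have h2 : m = m' + n * c := by linarith
    have h3 : IsCoprime m n ↔ IsCoprime m' n := by
      rw [h2]
      exact IsCoprime.add_mul_left_left_iff
    simp only [h3]
  · intro m hm
    rw [if_pos (hcop m hm), one_pow]
  · intro m hm
    have h1 := hcop m hm
    rw [if_pos (h1.pow_left), hN, Int.natAbs_pow, jacobiSym.pow_right, jacobiSym.sq_one]
    · simp
    · rw [Int.isCoprime_iff_gcd_eq_one] at h1
      rw [Int.gcd_eq_natAbs] at h1 ⊢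
      rw [Int.natAbs_natCast]
      exact h1
  · have h2 : IsCoprime (2 : ℤ) n := by
      obtain ⟨t, ht⟩ := hn
      exact ⟨-t, 1, by rw [ht]; ring⟩
    rw [if_pos h2]
    show (1 : GaussianInt) = ipw (n * (0 / 2))
    have h3 : n * (0 / 2) = 0 := by simp
    rw [h3]
    unfold ipw
    simp
  · have h2 : IsCoprime (-1 : ℤ) n := isCoprime_one_left.neg_left
    rw [if_pos h2]
    simp
  · intro l hlp hl4 hln k _ _ g
    rw [if_pos (hl l hlp hln), hω k g, hN, map_one, mul_one]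
    push_cast
    rw [← pow_mul, ← pow_add, ← hfer l hlp hln k]
    congr 1
    omega
  · intro l hlp hl4 hln k _ _ g
    rw [if_pos (hl l hlp hln).neg_left, hω k g, hN, map_one, one_mul]
    push_cast
    have h1 : (n : k) ^ ((l + 1) / 2) * ((n : k) ^ 2) ^ ((l + 1) / 4) =
        (n : k) ^ (l - 1) * (n : k) ^ 2 := by
      rw [← pow_mul, ← pow_add, ← pow_add]
      congr 1
      omega
    rw [h1, hfer l hlp hln k, one_mul]

theorem nmG_mul (ω ω' : GaussianInt) : nmG (ω * ω') = nmG ω * nmG ω' := by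
  unfold nmG
  rw [Zsqrtd.re_mul, Zsqrtd.im_mul]
  ring

theorem qx_mul {ω ω' : GaussianInt} (h1 : Odd ω.re) (h2 : Even ω.im) (h3 : Odd ω'.re)
    (h4 : Even ω'.im) {X X' : ℤ → GaussianInt} (hX : QX ω X) (hX' : QX ω' X') :
    QX (ω * ω') (fun n => X n * X' n) := by
  obtain ⟨a', ha⟩ := h1
  obtain ⟨b', hb⟩ := h2
  obtain ⟨c', hc⟩ := h3
  obtain ⟨d', hd⟩ := h4
  have hb2 : ω.im / 2 = b' := by omega
  have hd2 : ω'.im / 2 = d' := by omega
  have hre : (ω * ω').re = ω.re * ω'.re - ω.im * ω'.im := by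
    rw [Zsqrtd.re_mul]
    ring
  have him : (ω * ω').im = ω.re * ω'.im + ω.im * ω'.re := by
    rw [Zsqrtd.im_mul]
  have him2 : (ω * ω').im / 2 = ω.re * d' + b' * ω'.re := by
    rw [him, hb, hd]
    have : ω.re * (d' + d') + (b' + b') * ω'.re = 2 * (ω.re * d' + b' * ω'.re) := by ring
    rw [this]
    omega
  have hn1 : nmG ω ≠ 0 := by
    unfold nmG
    intro h0
    have : (2 * a' + 1) ^ 2 + (b' + b') ^ 2 = 0 := by rw [← ha, ← hb]; exact h0
    have h5 : 2 * (2 * a' ^ 2 + 2 * a' + 2 * b' ^ 2) + 1 = 0 := by linear_combination this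
    omega
  have hn2 : nmG ω' ≠ 0 := by
    unfold nmG
    intro h0
    have : (2 * c' + 1) ^ 2 + (d' + d') ^ 2 = 0 := by rw [← hc, ← hd]; exact h0
    have h5 : 2 * (2 * c' ^ 2 + 2 * c' + 2 * d' ^ 2) + 1 = 0 := by linear_combination this
    omega
  have hcop : ∀ n : ℤ, IsCoprime n (nmG (ω * ω')) →
      IsCoprime n (nmG ω) ∧ IsCoprime n (nmG ω') := by
    intro n hn
    rw [nmG_mul] at hn
    exact ⟨IsCoprime.of_mul_right_left hn, IsCoprime.of_mul_right_right hn⟩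
  have hdv : ∀ l : ℕ, ¬ (l : ℤ) ∣ nmG (ω * ω') → ¬ (l : ℤ) ∣ nmG ω ∧ ¬ (l : ℤ) ∣ nmG ω' := by
    intro l hl
    rw [nmG_mul] at hl
    exact ⟨fun h => hl (h.mul_right _), fun h => hl (h.mul_left _)⟩
  refine ⟨?_, ?_, ?_, ?_, ?_, ?_, ?_, ?_, ?_⟩
  · show X 1 * X' 1 = 1
    rw [hX.one, hX'.one, one_mul]
  · intro m n
    show X (m * n) * X' (m * n) = X m * X' m * (X n * X' n)
    rw [hX.mul, hX'.mul]
    ring
  · intro m n h
    show X m * X' m = X n * X' n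
    rw [nmG_mul] at h
    rw [hX.per m n ((Dvd.intro _ rfl).trans h), hX'.per m n ((Dvd.intro_left _ rfl).trans h)]
  · intro n hn
    show (X n * X' n) ^ 4 = 1
    rw [mul_pow, hX.four n (hcop n hn).1, hX'.four n (hcop n hn).2, one_mul]
  · intro n hn
    show X (n ^ 2) * X' (n ^ 2) = _
    rw [hX.sq n (hcop n hn).1, hX'.sq n (hcop n hn).2, nmG_mul, Int.natAbs_mul,
      jacobiSym.mul_right' n (Int.natAbs_ne_zero.2 hn1) (Int.natAbs_ne_zero.2 hn2)]
    push_cast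
    rfl
  · show X 2 * X' 2 = ipw ((ω * ω').re * ((ω * ω').im / 2))
    rw [hX.two, hX'.two, ← ipw_add, him2, hre, hb2, hd2]
    apply ipw_four
    refine ⟨-(ω'.re * d' * (a' ^ 2 + a') + ω.re * b' * (c' ^ 2 + c')) +
      b' * d' * (ω.re * d' + b' * ω'.re), ?_⟩
    rw [ha, hb, hc, hd]
    ring
  · show X (-1) * X' (-1) = (-1) ^ ((ω * ω').im / 2).natAbs
    rw [hX.neg, hX'.neg, him2, hb2, hd2, ← ipw_two, ← ipw_two, ← ipw_two, ← ipw_add]
    apply ipw_four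
    refine ⟨-(a' * d' + b' * c'), ?_⟩
    rw [ha, hc]
    ring
  · intro l hl hl4 hln k _ _ g
    have e1 := hX.f1 l hl hl4 (hdv l hln).1 k g
    have e2 := hX'.f1 l hl hl4 (hdv l hln).2 k g
    show g (ω * ω') ^ ((l - 1) / 2) * (nmG (ω * ω') : k) ^ ((l - 1) / 4) * g (X l * X' l) = 1
    rw [map_mul, map_mul, nmG_mul]
    push_cast
    rw [mul_pow, mul_pow]
    calc g ω ^ ((l - 1) / 2) * g ω' ^ ((l - 1) / 2) *
          ((nmG ω : k) ^ ((l - 1) / 4) * (nmG ω' : k) ^ ((l - 1) / 4)) * (g (X l) * g (X' l))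
        = (g ω ^ ((l - 1) / 2) * (nmG ω : k) ^ ((l - 1) / 4) * g (X l)) *
          (g ω' ^ ((l - 1) / 2) * (nmG ω' : k) ^ ((l - 1) / 4) * g (X' l)) := by ring
      _ = 1 := by rw [e1, e2, one_mul]
  · intro l hl hl4 hln k _ _ g
    have e1 := hX.f3 l hl hl4 (hdv l hln).1 k g
    have e2 := hX'.f3 l hl hl4 (hdv l hln).2 k g
    show g (ω * ω') ^ ((l + 1) / 2) * (nmG (ω * ω') : k) ^ ((l + 1) / 4) =
      g (X (-l) * X' (-l)) * (nmG (ω * ω') : k)
    rw [map_mul, map_mul, nmG_mul]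
    push_cast
    rw [mul_pow, mul_pow]
    calc g ω ^ ((l + 1) / 2) * g ω' ^ ((l + 1) / 2) *
          ((nmG ω : k) ^ ((l + 1) / 4) * (nmG ω' : k) ^ ((l + 1) / 4))
        = (g ω ^ ((l + 1) / 2) * (nmG ω : k) ^ ((l + 1) / 4)) *
          (g ω' ^ ((l + 1) / 2) * (nmG ω' : k) ^ ((l + 1) / 4)) := by ring
      _ = g (X (-l)) * g (X' (-l)) * ((nmG ω : k) * (nmG ω' : k)) := by rw [e1, e2]; ring

end Pool.Agent.Work.MP_8efaaa_nt.W6
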