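import Mathlib
import Pool.Agent.Work.MP_8efaaa_nt.W6.Defs
import Pool.Agent.Work.MP_8efaaa_nt.W6.SDir
import Pool.Agent.Work.MP_8efaaa_nt.W5.Q.QGauss
import Pool.Agent.Work.MP_8efaaa_nt.W5.Q.QOne
import Pool.Agent.Work.MP_8efaaa_nt.W5.Q.QFour

/-!
# W6/SPr (M): the quartic symbol of a Gaussian prime

PROOF. `ω = a + b i`, `a` odd, `b` even, `p = a^2 + b^2` prime, `p = 1 (mod 4)`. `exists_quart` (W5/Q/QOne): `χ`. `J = jacobiSum χ χ`.
(1) `J = ±1 (mod 2)`: `J = ∑ χ(x) χ(1 - x)` over `ZMod p`; the involution `x ↦ 1 - x` has the only fixed point `x = 1/2`, so `J = 2 (..) + χ(1/2)^2` and `χ(1/2)^2 = ±1` (`quart_sq`; `1/2 = ((p+1)/2 : ℤ)`). So `J.re` is odd and `J.im` is even. (Sum over a half of the field: e.g. split by `x.val < (p+1)/2`; or: the function is constant on the orbits, `Finset.sum_involution`-style modulo `2`: in `ZMod 2` both components.)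
(2) `J * star J = p = ω * star ω` (`norm_jac`). `ω` is a prime element (norm prime; irreducible, `GaussianInt` is a PID), so `ω ∣ J` or `ω ∣ star J`, hence `J = ε ω` or `J = ε star ω`, `ε` of norm `1`: `±1, ±I`; parity: `ε = ±1`.
If `J = ε star ω` replace `χ` by `χ⁻¹ = χ ^ 3` (values: `star`, `quart_star`), `jacobiSum χ⁻¹ χ⁻¹ = star J`. So WLOG `J = ω` or `J = -ω`.
(3) `X n := χ (n : ZMod p)`. `one`, `mul`, `per` (`nmG ω = p`) clear. `four`: `quart_val`. `sq`: `quart_sq` and `jacobiSym`/`legendreSym` (`jacobiSym.legendreSym.to_jacobiSym`); `n` is prime to `p`. `neg`: `quart_pow` in `k = GaussianInt / (ω)` or `ZMod p` with `g` the reduction (`I ↦ -a / b`): `g (χ n) = n ^ ((p-1)/4)`, so `χ(-1) = (-1) ^ ((p-1)/4)` (both are `±1`, `χ(-1)^2 = 1`; `1 ≠ -1` in `k`) and `(p - 1)/4 = b/2 (mod 2)` (`p - 1 = (a^2 - 1) + b^2`).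
`two`: `two_quart` (SDir) with `quart_pow` for `n = 2`: `g (χ 2) = 2 ^ ((p-1)/4) = g (ipw (a * (b/2)))`; both are in `{1, -1, I, -I}`, which `g` separates (`p ≠ 2`).
(4) `f1`, `f3`: work in `AlgebraicClosure k`, `g1 ^ 2 = p`, `χ' = χ.ringHomComp g` (`χ' ^ 4 = 1`, `χ' ^ 2 ≠ 1` because `χ x ^ 2 = -1` for a nonsquare `x`, and `-1 ≠ 1` since `l ≠ 2`), `jacobiSum_ringHomComp`, `gauss_pow`: `l = 1 (mod 4)`: `χ(l) (J g1)^((l-1)/2) = 1`, the exponent is even, so `(J g1)^((l-1)/2) = ω^((l-1)/2) p^((l-1)/4)`. `l = 3`: `(J g1)^((l+1)/2) = χ(l) χ(-1) p`, exponent even, `χ(l) χ(-1) = χ(-l)`.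
(`l ∤ nmG ω` gives `l ≠ p`. `Fact` instances from `l.Prime`.)
-/

set_option autoImplicit false

namespace Pool.Agent.Work.MP_8efaaa_nt.W6

private theorem spr_gI2 : W5.gI ^ 2 = -1 := by decide

private theorem spr_four {x : GaussianInt}
    (hx : x = 1 ∨ x = -1 ∨ x = W5.gI ∨ x = -W5.gI) : x ^ 4 = 1 := by
  rcases hx with rfl | rfl | rfl | rfl <;> decide

private theorem spr_two {x : GaussianInt}
    (hx : x = 1 ∨ x = -1 ∨ x = W5.gI ∨ x = -W5.gI) : x ^ 2 = 1 ∨ x ^ 2 = -1 := by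
  rcases hx with rfl | rfl | rfl | rfl <;> decide

/-- a ring homomorphism to a field of odd characteristic separates the units -/
private theorem spr_sep {k : Type*} [Field k] (g : GaussianInt →+* k) (h2 : (2 : k) ≠ 0)
    {x y : GaussianInt} (hx : x = 1 ∨ x = -1 ∨ x = W5.gI ∨ x = -W5.gI)
    (hy : y = 1 ∨ y = -1 ∨ y = W5.gI ∨ y = -W5.gI) (h : g x = g y) : x = y := by
  have h1 : x = y ∨ (x - y) * star (x - y) = 2 ∨ (x - y) * star (x - y) = 4 := by
    rcases hx with rfl | rfl | rfl | rfl <;> rcases hy with rfl | rfl | rfl | rfl <;> decide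
  have h3 : g ((x - y) * star (x - y)) = 0 := by
    rw [map_mul, map_sub, h, sub_self, zero_mul]
  rcases h1 with h1 | h1 | h1
  · exact h1
  · rw [h1, map_ofNat] at h3
    exact absurd h3 h2
  · rw [h1, map_ofNat] at h3
    exfalso
    apply h2
    have h4 : (2 : k) * 2 = 0 := by
      have : (2 : k) * 2 = 4 := by norm_num
      rw [this]
      exact h3
    rcases mul_eq_zero.1 h4 with h5 | h5 <;> exact h5

private theorem spr_ipw (n : ℤ) : ipw n = 1 ∨ ipw n = -1 ∨ ipw n = W5.gI ∨ ipw n = -W5.gI := by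
  unfold ipw
  have h1 : (n % 4).toNat < 4 := by omega
  generalize (n % 4).toNat = e at h1
  interval_cases e
  · left; decide
  · right; right; left; decide
  · right; left; decide
  · right; right; right; decide

/-- two representations of a prime as a sum of two squares -/
private theorem spr_rep {p : ℕ} (hp : p.Prime) {a b c d : ℤ} (ha : Odd a) (hb : Even b)
    (hc : Odd c) (hd : Even d) (h1 : a ^ 2 + b ^ 2 = p) (h2 : c ^ 2 + d ^ 2 = p)
    (h : (p : ℤ) ∣ c * b - d * a) : (c = a ∧ d = b) ∨ (c = -a ∧ d = -b) := by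
  have hp0 : (p : ℤ) ≠ 0 := by exact_mod_cast hp.ne_zero
  obtain ⟨t, ht⟩ := h
  have h3 : (c * a + d * b) ^ 2 + (c * b - d * a) ^ 2 = (p : ℤ) ^ 2 := by
    have : (c * a + d * b) ^ 2 + (c * b - d * a) ^ 2 = (a ^ 2 + b ^ 2) * (c ^ 2 + d ^ 2) := by ring
    rw [this, h1, h2]
    ring
  have hodd : Odd (c * a + d * b) := (hc.mul ha).add_even (hd.mul_right b)
  have h0 : c * a + d * b ≠ 0 := by
    intro h0
    rw [h0] at hodd
    exact absurd hodd (by decide)
  have ht0 : t = 0 := by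
    rw [ht] at h3
    have h4 : 0 < (c * a + d * b) ^ 2 := by positivity
    have h5 : (p : ℤ) ^ 2 * t ^ 2 < (p : ℤ) ^ 2 * 1 := by nlinarith
    have h6 : t ^ 2 < 1 := lt_of_mul_lt_mul_left h5 (by positivity)
    have h7 : t ^ 2 = 0 := by
      have : 0 ≤ t ^ 2 := sq_nonneg t
      omega
    exact pow_eq_zero_iff two_ne_zero |>.1 h7
  rw [ht0, mul_zero] at ht
  rw [ht] at h3
  have h4 : (c * a + d * b - p) * (c * a + d * b + p) = 0 := by linear_combination h3
  rcases mul_eq_zero.1 h4 with h5 | h5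
  · left
    constructor
    · apply mul_right_cancel₀ hp0
      rw [← h1]
      have h6 : c * a + d * b = a ^ 2 + b ^ 2 := by rw [h1]; linear_combination h5
      linear_combination b * ht + a * h6
    · apply mul_right_cancel₀ hp0
      rw [← h1]
      have h6 : c * a + d * b = a ^ 2 + b ^ 2 := by rw [h1]; linear_combination h5
      linear_combination (-a) * ht + b * h6
  · right
    constructor
    · apply mul_right_cancel₀ hp0
      rw [← h1]
      have h6 : c * a + d * b = -(a ^ 2 + b ^ 2) := by rw [h1]; linear_combination h5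
      linear_combination b * ht + a * h6
    · apply mul_right_cancel₀ hp0
      rw [← h1]
      have h6 : c * a + d * b = -(a ^ 2 + b ^ 2) := by rw [h1]; linear_combination h5
      linear_combination (-a) * ht + b * h6

private theorem spr_inv {p : ℕ} [Fact p.Prime] {χ : MulChar (ZMod p) GaussianInt}
    (h : W5.Quart p χ) : χ⁻¹ = χ.ringHomComp (starRingEnd GaussianInt) := by
  apply MulChar.ext'
  intro a
  rw [MulChar.inv_apply', MulChar.ringHomComp_apply, starRingEnd_apply]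
  by_cases ha : a = 0
  · rw [ha, inv_zero, MulChar.map_zero, star_zero]
  · have h1 := W5.quart_star h ha
    have h2 : χ a * χ a⁻¹ = 1 := by rw [← map_mul, mul_inv_cancel₀ ha, map_one]
    have h3 : χ a ≠ 0 := by
      intro h4
      rw [h4, zero_mul] at h1
      exact zero_ne_one h1
    exact mul_left_cancel₀ h3 (h2.trans h1.symm)

/-- parity of a quartic Jacobi sum -/
private theorem spr_par {p : ℕ} [Fact p.Prime] (hp4 : p % 4 = 1)
    {χ : MulChar (ZMod p) GaussianInt} (h : W5.Quart p χ) (c : GaussianInt →+ ZMod 2) :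
    c (jacobiSum χ χ) = c 1 := by
  classical
  have h20 : (2 : ZMod p) ≠ 0 := by
    intro h0
    have h1 : ((2 : ℕ) : ZMod p) = 0 := by exact_mod_cast h0
    rw [ZMod.natCast_eq_zero_iff] at h1
    have := Nat.le_of_dvd (by norm_num) h1
    have := (Fact.out : p.Prime).two_le
    omega
  have hx0 : (2 : ZMod p)⁻¹ ≠ 0 := inv_ne_zero h20
  have hfix : (1 : ZMod p) - 2⁻¹ = 2⁻¹ := by
    field_simp
    norm_num
  unfold jacobiSum
  rw [map_sum, ← Finset.add_sum_erase _ _ (Finset.mem_univ (2⁻¹ : ZMod p)), hfix]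
  have h1 : ∑ x ∈ Finset.univ.erase (2⁻¹ : ZMod p), c (χ x * χ (1 - x)) = 0 := by
    refine Finset.sum_involution (fun x _ => 1 - x) ?_ ?_ ?_ ?_
    · intro x _
      rw [sub_sub_cancel, mul_comm (χ (1 - x)), ← two_mul]
      have : (2 : ZMod 2) = 0 := by decide
      rw [this, zero_mul]
    · intro x hx _ h2
      apply (Finset.mem_erase.1 hx).1
      have h3 : 2 * x = 1 := by linear_combination -h2
      exact eq_inv_of_mul_eq_one_right h3
    · intro x hx
      rw [Finset.mem_erase]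
      refine ⟨fun h2 => (Finset.mem_erase.1 hx).1 ?_, Finset.mem_univ _⟩
      rw [← hfix, ← h2, sub_sub_cancel]
    · intro x _
      exact sub_sub_cancel _ _
  rw [h1, add_zero]
  have h3 := spr_two (W5.quart_val h hx0)
  rw [← pow_two]
  rcases h3 with h3 | h3
  · rw [h3]
  · rw [h3, map_neg]
    have : ∀ z : ZMod 2, -z = z := by decide
    exact this _

private theorem spr_exists {ω : GaussianInt} (hre : Odd ω.re) (him : Even ω.im) {p : ℕ}
    [Fact p.Prime] (hn : nmG ω = p) (hp4 : p % 4 = 1) :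
    ∃ χ : MulChar (ZMod p) GaussianInt, W5.Quart p χ ∧
      (jacobiSum χ χ = ω ∨ jacobiSum χ χ = -ω) := by
  have hp : p.Prime := Fact.out
  obtain ⟨χ, hχ⟩ := W5.exists_quart (p := p) hp4
  have hJ := W5.norm_jac hχ
  let cre : GaussianInt →+ ZMod 2 :=
    ⟨⟨fun x => (x.re : ZMod 2), by simp⟩, fun x y => by simp⟩
  let cim : GaussianInt →+ ZMod 2 :=
    ⟨⟨fun x => (x.im : ZMod 2), by simp⟩, fun x y => by simp⟩
  have h1 := spr_par hp4 hχ cre
  have h2 := spr_par hp4 hχ cim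
  obtain ⟨J, hJd⟩ : ∃ J, J = jacobiSum χ χ := ⟨_, rfl⟩
  rw [← hJd] at h1 h2 hJ
  have h1' : (J.re : ZMod 2) = 1 := by
    have : cre 1 = 1 := by
      show (((1 : GaussianInt).re : ℤ) : ZMod 2) = 1
      decide
    rw [← this, ← h1]
    rfl
  have h2' : (J.im : ZMod 2) = 0 := by
    have : cim 1 = 0 := by
      show (((1 : GaussianInt).im : ℤ) : ZMod 2) = 0
      decide
    rw [← this, ← h2]
    rfl
  have hJre : Odd J.re := by
    rw [← Int.not_even_iff_odd, ← ZMod.intCast_eq_zero_iff_even, h1']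
    decide
  have hJim : Even J.im := by
    rw [← ZMod.intCast_eq_zero_iff_even, h2']
  have hJn : J.re ^ 2 + J.im ^ 2 = p := by
    have h3 := congrArg Zsqrtd.re hJ
    simp only [Zsqrtd.re_mul, Zsqrtd.re_star, Zsqrtd.im_star, Zsqrtd.re_natCast] at h3
    linear_combination h3
  unfold nmG at hn
  have hdvd : (p : ℤ) ∣ (J.re * ω.im - J.im * ω.re) * (J.re * ω.im + J.im * ω.re) :=
    ⟨J.re ^ 2 - ω.re ^ 2, by linear_combination J.re ^ 2 * hn - ω.re ^ 2 * hJn⟩
  rcases (Int.Prime.dvd_mul' hp hdvd) with h3 | h3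
  · refine ⟨χ, hχ, ?_⟩
    rw [← hJd]
    rcases spr_rep hp hre him hJre hJim hn hJn h3 with ⟨e1, e2⟩ | ⟨e1, e2⟩
    · left
      exact Zsqrtd.ext e1 e2
    · right
      exact Zsqrtd.ext (by rw [e1, Zsqrtd.re_neg]) (by rw [e2, Zsqrtd.im_neg])
  · have h4 : (p : ℤ) ∣ J.re * (-ω.im) - J.im * ω.re := by
      have : J.re * (-ω.im) - J.im * ω.re = -(J.re * ω.im + J.im * ω.re) := by ring
      rw [this, dvd_neg]
      exact h3
    have hq : W5.Quart p χ⁻¹ := by
      constructor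
      · rw [inv_pow, hχ.four, inv_one]
      · intro h5
        apply hχ.two
        rw [inv_pow, inv_eq_one] at h5
        exact h5
    have hJ' : jacobiSum χ⁻¹ χ⁻¹ = star J := by
      rw [spr_inv hχ, jacobiSum_ringHomComp, starRingEnd_apply, hJd]
    refine ⟨χ⁻¹, hq, ?_⟩
    rw [hJ']
    rcases spr_rep hp hre him.neg hJre hJim (by rw [neg_sq]; exact hn) hJn h4 with
      ⟨e1, e2⟩ | ⟨e1, e2⟩
    · left
      exact Zsqrtd.ext (by rw [Zsqrtd.re_star, e1]) (by rw [Zsqrtd.im_star, e2, neg_neg])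
    · right
      exact Zsqrtd.ext (by rw [Zsqrtd.re_star, e1, Zsqrtd.re_neg])
        (by rw [Zsqrtd.im_star, e2, Zsqrtd.im_neg, neg_neg])

/-- the common part of `f1` and `f3` -/
private theorem spr_frob {ω : GaussianInt} {p : ℕ} [Fact p.Prime]
    {χ : MulChar (ZMod p) GaussianInt} (hχ : W5.Quart p χ)
    (hJ : jacobiSum χ χ = ω ∨ jacobiSum χ χ = -ω) {l : ℕ} (hl : l.Prime) (hl2 : l ≠ 2)
    (hlp : l ≠ p) {k : Type} [Field k] [CharP k l] (g : GaussianInt →+* k) :
    (l % 4 = 1 → g ω ^ ((l - 1) / 2) * (p : k) ^ ((l - 1) / 4) * g (χ (l : ZMod p)) = 1) ∧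
    (l % 4 = 3 → g ω ^ ((l + 1) / 2) * (p : k) ^ ((l + 1) / 4) =
      g (χ (l : ZMod p) * χ (-1)) * (p : k)) := by
  have : Fact l.Prime := ⟨hl⟩
  let e : k →+* AlgebraicClosure k := algebraMap k (AlgebraicClosure k)
  have he : Function.Injective e := (algebraMap k (AlgebraicClosure k)).injective
  have : CharP (AlgebraicClosure k) l := charP_of_injective_algebraMap he l
  obtain ⟨g1, hg1⟩ := IsAlgClosed.exists_pow_nat_eq (p : AlgebraicClosure k) (n := 2) (by norm_num)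
  set G : GaussianInt →+* AlgebraicClosure k := e.comp g with hG
  have h20 : (2 : AlgebraicClosure k) ≠ 0 := by
    intro h0
    have h1 : ((2 : ℕ) : AlgebraicClosure k) = 0 := by exact_mod_cast h0
    rw [CharP.cast_eq_zero_iff (AlgebraicClosure k) l] at h1
    exact hl2 ((Nat.prime_dvd_prime_iff_eq hl Nat.prime_two).1 h1)
  have k4 : (χ.ringHomComp G) ^ 4 = 1 := by
    rw [MulChar.ringHomComp_pow, hχ.four, MulChar.ringHomComp_one]
  have k2 : (χ.ringHomComp G) ^ 2 ≠ 1 := by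
    intro h1
    rw [MulChar.ringHomComp_pow] at h1
    apply hχ.two
    apply MulChar.ext
    intro a
    have h2 := congrArg (fun f : MulChar (ZMod p) (AlgebraicClosure k) => f (a : ZMod p)) h1
    simp only [MulChar.ringHomComp_apply] at h2
    rw [MulChar.one_apply_coe, MulChar.pow_apply_coe] at h2
    rw [MulChar.one_apply_coe, MulChar.pow_apply_coe]
    rcases spr_two (W5.quart_val hχ (Units.ne_zero a)) with h3 | h3
    · exact h3
    · exfalso
      rw [h3, map_neg, map_one] at h2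
      apply h20
      linear_combination -h2
  have hmain := W5.gauss_pow hlp k4 k2 hg1
  rw [jacobiSum_ringHomComp] at hmain
  simp only [MulChar.ringHomComp_apply] at hmain
  have hev : ∀ n : ℕ, Even n → (G (jacobiSum χ χ) * g1) ^ n = G ω ^ n * (p : AlgebraicClosure k) ^ (n / 2) := by
    rintro n ⟨t, ht⟩
    have ht2 : n = 2 * t := by omega
    have h1 : G (jacobiSum χ χ) ^ n = G ω ^ n := by
      rcases hJ with h | h
      · rw [h]
      · rw [h, map_neg, Even.neg_pow ⟨t, ht⟩]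
    rw [mul_pow, h1]
    congr 1
    rw [ht2, pow_mul, hg1]
    congr 1
    omega
  refine ⟨fun h4 => ?_, fun h4 => ?_⟩
  · apply he
    have h1 := hmain.1 h4
    rw [hev _ (by rw [Nat.even_iff]; omega), show (l - 1) / 2 / 2 = (l - 1) / 4 by omega] at h1
    rw [map_mul, map_mul, map_pow, map_pow, map_one, map_natCast e p]
    change G ω ^ ((l - 1) / 2) * (p : AlgebraicClosure k) ^ ((l - 1) / 4) * G (χ (l : ZMod p)) = 1
    linear_combination h1
  · apply he
    have h1 := hmain.2 h4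
    rw [hev _ (by rw [Nat.even_iff]; omega), show (l + 1) / 2 / 2 = (l + 1) / 4 by omega] at h1
    rw [map_mul, map_mul, map_pow, map_pow, map_natCast e p]
    change G ω ^ ((l + 1) / 2) * (p : AlgebraicClosure k) ^ ((l + 1) / 4) =
      G (χ (l : ZMod p) * χ (-1)) * (p : AlgebraicClosure k)
    rw [map_mul]
    exact h1

theorem qx_prime {ω : GaussianInt} (hre : Odd ω.re) (him : Even ω.im) {p : ℕ} (hp : p.Prime)
    (hn : nmG ω = p) : ∃ X, QX ω X := by
  have : Fact p.Prime := ⟨hp⟩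
  have hsum : ω.re ^ 2 + ω.im ^ 2 = p := hn
  obtain ⟨b', hb'⟩ := him
  obtain ⟨a', ha'⟩ := hre
  have hb2 : ω.im = 2 * b' := by omega
  have hpm : (p : ℤ) = 4 * (a' ^ 2 + a' + b' ^ 2) + 1 := by
    rw [← hsum, ha', hb2]
    ring
  have hp4 : p % 4 = 1 := by omega
  have hp2 : p ≠ 2 := by omega
  obtain ⟨χ, hχ, hJ⟩ := spr_exists ⟨a', ha'⟩ ⟨b', hb'⟩ hn hp4
  have hne : ∀ n : ℤ, IsCoprime n (nmG ω) → (n : ZMod p) ≠ 0 := by
    intro n hnc h0
    rw [hn] at hnc
    have h1 : (p : ℤ) ∣ n := (ZMod.intCast_zmod_eq_zero_iff_dvd n p).1 h0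
    have h2 : IsUnit (p : ℤ) := hnc.isUnit_of_dvd' h1 dvd_rfl
    rw [Int.isUnit_iff] at h2
    have := hp.two_le
    omega
  -- reduction modulo `ω`
  have hbp : (ω.im : ZMod p) ≠ 0 := by
    intro h0
    have h1 : (p : ℤ) ∣ ω.im := (ZMod.intCast_zmod_eq_zero_iff_dvd _ p).1 h0
    have h2 : (p : ℤ) ∣ ω.re ^ 2 := by
      have : ω.re ^ 2 = p - ω.im * ω.im := by linear_combination hsum
      rw [this]
      exact dvd_sub dvd_rfl (Dvd.dvd.mul_right h1 _)
    have h3 : (p : ℤ) ∣ ω.re := Int.Prime.dvd_pow' hp h2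
    obtain ⟨u, hu⟩ := h1
    obtain ⟨v, hv⟩ := h3
    have hp0 : (p : ℤ) ≠ 0 := by exact_mod_cast hp.ne_zero
    have h4 : (p : ℤ) * (v ^ 2 + u ^ 2) = 1 := by
      apply mul_left_cancel₀ hp0
      rw [hu, hv] at hsum
      linear_combination hsum
    have h5 : IsUnit (p : ℤ) := IsUnit.of_mul_eq_one _ h4
    rw [Int.isUnit_iff] at h5
    have := hp.two_le
    omega
  have hr : (-(ω.re : ZMod p) / ω.im) * (-(ω.re : ZMod p) / ω.im) = ((-1 : ℤ) : ZMod p) := by
    have h1 : (ω.re : ZMod p) ^ 2 + (ω.im : ZMod p) ^ 2 = 0 := by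
      have h2 := congrArg (fun x : ℤ => (x : ZMod p)) hsum
      push_cast at h2
      rw [h2, ZMod.natCast_self]
    push_cast
    rw [div_mul_div_comm, div_eq_iff (mul_ne_zero hbp hbp)]
    linear_combination h1
  let g : GaussianInt →+* ZMod p := Zsqrtd.lift ⟨-(ω.re : ZMod p) / ω.im, hr⟩
  have hgω : g ω = 0 := by
    show (Zsqrtd.lift ⟨-(ω.re : ZMod p) / ω.im, hr⟩ : ℤ√(-1) →+* ZMod p) ω = 0
    rw [Zsqrtd.lift_apply_apply]
    field_simp
    ring
  have hgJ : g (jacobiSum χ χ) = 0 := by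
    rcases hJ with h | h
    · rw [h, hgω]
    · rw [h, map_neg, hgω, neg_zero]
  have hpow := W5.quart_pow hp4 hχ g hgJ
  have h20 : (2 : ZMod p) ≠ 0 := by
    intro h0
    have h1 : ((2 : ℕ) : ZMod p) = 0 := by exact_mod_cast h0
    rw [ZMod.natCast_eq_zero_iff] at h1
    exact hp2 ((Nat.prime_dvd_prime_iff_eq hp Nat.prime_two).1 h1)
  have hm10 : (-1 : ZMod p) ≠ 0 := neg_ne_zero.2 one_ne_zero
  refine ⟨fun n => χ (n : ZMod p), ?_, ?_, ?_, ?_, ?_, ?_, ?_, ?_, ?_⟩
  · show χ ((1 : ℤ) : ZMod p) = 1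
    rw [Int.cast_one, map_one]
  · intro m n
    show χ ((m * n : ℤ) : ZMod p) = χ (m : ZMod p) * χ (n : ZMod p)
    rw [Int.cast_mul, map_mul]
  · intro m n hmn
    show χ (m : ZMod p) = χ (n : ZMod p)
    congr 1
    rw [hn] at hmn
    exact ((ZMod.intCast_eq_intCast_iff_dvd_sub n m p).2 hmn).symm
  · intro n hnc
    exact spr_four (W5.quart_val hχ (hne n hnc))
  · intro n hnc
    show χ ((n ^ 2 : ℤ) : ZMod p) = _
    rw [Int.cast_pow, map_pow, W5.quart_sq hχ n, jacobiSym.legendreSym.to_jacobiSym, hn,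
      Int.natAbs_natCast]
  · show χ ((2 : ℤ) : ZMod p) = ipw (ω.re * (ω.im / 2))
    have h1 : ((2 : ℤ) : ZMod p) ≠ 0 := by
      push_cast
      exact h20
    refine spr_sep g h20 (W5.quart_val hχ h1) (spr_ipw _) ?_
    rw [hpow 2, ← two_quart hp ⟨a', ha'⟩ ⟨b', hb'⟩ hsum g (by
      show g ⟨ω.re, ω.im⟩ = 0
      exact hgω)]
    push_cast
    rfl
  · show χ ((-1 : ℤ) : ZMod p) = (-1) ^ (ω.im / 2).natAbs
    have h1 : ((-1 : ℤ) : ZMod p) ≠ 0 := by
      push_cast
      exact hm10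
    have hbb : ω.im / 2 = b' := by omega
    rw [hbb]
    have h2 : ((-1 : GaussianInt)) ^ b'.natAbs = 1 ∨ ((-1 : GaussianInt)) ^ b'.natAbs = -1 :=
      neg_one_pow_eq_or _ _
    refine spr_sep g h20 (W5.quart_val hχ h1) (by tauto) ?_
    rw [hpow (-1), map_pow, map_neg, map_one]
    push_cast
    have h3 : (Even ((p - 1) / 4) ↔ Even b'.natAbs) := by
      rw [Int.natAbs_even]
      have h5 : (((p - 1) / 4 : ℕ) : ℤ) = a' ^ 2 + a' + b' ^ 2 := by omega
      rw [← Int.even_coe_nat, h5, Int.even_add, show a' ^ 2 + a' = a' * (a' + 1) by ring]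
      have h6 : Even (a' * (a' + 1)) := Int.even_mul_succ_self a'
      have h7 : Even (b' ^ 2) ↔ Even b' := Int.even_pow' two_ne_zero
      tauto
    by_cases h4 : Even b'.natAbs
    · rw [(h3.2 h4).neg_one_pow, h4.neg_one_pow]
    · rw [(Nat.not_even_iff_odd.1 (fun h5 => h4 (h3.1 h5))).neg_one_pow,
        (Nat.not_even_iff_odd.1 h4).neg_one_pow]
  · intro l hl hl4 hlp k _ _ g'
    have hlp' : l ≠ p := by
      rintro rfl
      exact hlp (by rw [hn])
    have h1 := (spr_frob hχ hJ hl (by omega) hlp' g').1 hl4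
    rw [hn]
    push_cast
    exact h1
  · intro l hl hl4 hlp k _ _ g'
    have hlp' : l ≠ p := by
      rintro rfl
      exact hlp (by rw [hn])
    have h1 := (spr_frob hχ hJ hl (by omega) hlp' g').2 hl4
    rw [hn]
    have h2 : χ ((-(l : ℤ) : ℤ) : ZMod p) = χ (l : ZMod p) * χ (-1) := by
      rw [← map_mul]
      congr 1
      push_cast
      ring
    show g' ω ^ ((l + 1) / 2) * (((p : ℤ)) : k) ^ ((l + 1) / 4) =
      g' (χ ((-(l : ℤ) : ℤ) : ZMod p)) * (((p : ℤ)) : k)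
    rw [h2, Int.cast_natCast]
    exact h1

end Pool.Agent.Work.MP_8efaaa_nt.W6
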