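import Mathlib
import Pool.Agent.Work.MP_8efaaa_nt.W6.Defs
import Pool.Agent.Work.MP_8efaaa_nt.W6.SPr
import Pool.Agent.Work.MP_8efaaa_nt.W6.SMul

/-!
# W6/SX (S-M): the quartic symbol of a Gaussian integer

PROOF. Strong induction on `(nmG ω).natAbs` (positive and odd, as `ω.re` is odd and `ω.im` even). If `nmG ω = 1`: `ω.im = 0`, `ω.re = ±1`: `qx_rat`. Otherwise a prime `l ∣ nmG ω`, `l` odd.
`l % 4 = 3`: `l ∣ ω.re^2 + ω.im^2` implies `l ∣ ω.re`, `l ∣ ω.im` (`-1` is not a square modulo `l`: `ZMod.mod_four_ne_three_of_sq_eq_neg_one`, or `Nat.Prime`-lemmas), `ω = ⟨l, 0⟩ * ω'`, `ω'.re` odd, `ω'.im` even; `qx_rat`, `qx_mul`, induction for `ω'`.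
`l % 4 = 1`: `l = c^2 + d^2` (`Nat.Prime.sq_add_sq`), one of `c`, `d` is odd, the other is even: `c` odd. `(re d - im c)(re d + im c) = re^2 d^2 - im^2 c^2 = re^2 d^2 + re^2 c^2 = 0 (mod l)`. If `l ∣ re d - im c`: `ω * ⟨c, -d⟩ = ⟨re c + im d, im c - re d⟩`; also `l ∣ re c + im d` (`(re c + im d)^2 + (im c - re d)^2 = l * nmG ω`, so `l ∣ (re c + im d)^2`), so `ω * ⟨c, -d⟩ = l ω'`, and `ω = ⟨c, d⟩ * ω'` (multiply by `⟨c, d⟩`, cancel `l`). The other case with `-d`. Parities of `ω'`: `re = c re' - d im'` odd and `im = c im' + d re'` even, `c` odd, `d` even give `re'` odd, `im'` even. `qx_prime` for `⟨c, ±d⟩`, `qx_mul`, induction (`nmG_mul`, the norm is divided by `l`).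
-/

set_option autoImplicit false

namespace Pool.Agent.Work.MP_8efaaa_nt.W6

private theorem sx_nm (a b : ℤ) : nmG (⟨a, b⟩ : GaussianInt) = a ^ 2 + b ^ 2 := rfl

private theorem sx_mul (a b c d : ℤ) : (⟨a, b⟩ : GaussianInt) * ⟨c, d⟩ = ⟨a * c - b * d, a * d + b * c⟩ := by
  rw [Zsqrtd.ext_iff]
  refine ⟨?_, rfl⟩
  show a * c + (-1) * b * d = a * c - b * d
  ring

private theorem sx_three {l : ℕ} (hl : l.Prime) (h4 : l % 4 = 3) {a b : ℤ}
    (h : (l : ℤ) ∣ a ^ 2 + b ^ 2) : (l : ℤ) ∣ a ∧ (l : ℤ) ∣ b := by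
  have : Fact l.Prime := ⟨hl⟩
  have h1 : ((a : ZMod l)) ^ 2 + (b : ZMod l) ^ 2 = 0 := by
    have := (ZMod.intCast_zmod_eq_zero_iff_dvd (a ^ 2 + b ^ 2) l).2 h
    push_cast at this
    exact this
  have hb : (b : ZMod l) = 0 := by
    by_contra hb
    have h2 : ((a : ZMod l) / b) ^ 2 = -1 := by
      rw [div_pow, div_eq_iff (pow_ne_zero 2 hb)]
      linear_combination h1
    exact ZMod.mod_four_ne_three_of_sq_eq_neg_one h2 h4
  have ha : (a : ZMod l) = 0 := by
    rw [hb] at h1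
    have : (a : ZMod l) ^ 2 = 0 := by linear_combination h1
    exact pow_eq_zero_iff (two_ne_zero) |>.1 this
  exact ⟨(ZMod.intCast_zmod_eq_zero_iff_dvd a l).1 ha, (ZMod.intCast_zmod_eq_zero_iff_dvd b l).1 hb⟩

private theorem sx_one {l : ℕ} (hl : l.Prime) (h2 : l % 2 = 1) (h4 : l % 4 ≠ 3) :
    ∃ c d : ℤ, Odd c ∧ Even d ∧ c ^ 2 + d ^ 2 = l := by
  have : Fact l.Prime := ⟨hl⟩
  obtain ⟨a, b, hab⟩ := Nat.Prime.sq_add_sq h4
  have hab' : (a : ℤ) ^ 2 + (b : ℤ) ^ 2 = l := by exact_mod_cast hab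
  have hodd : Odd (a ^ 2 + b ^ 2) := by
    rw [hab]
    exact Nat.odd_iff.2 h2
  rw [Nat.odd_add] at hodd
  rcases Nat.even_or_odd a with ha | ha
  · have hb : Odd b := by
      by_contra hb
      rw [Nat.not_odd_iff_even] at hb
      have h5 : Even (b ^ 2) := hb.pow_of_ne_zero two_ne_zero
      have h6 := hodd.2 h5
      have h7 : Even (a ^ 2) := ha.pow_of_ne_zero two_ne_zero
      exact (Nat.not_even_iff_odd.2 h6) h7
    exact ⟨b, a, by exact_mod_cast hb, by exact_mod_cast ha, by rw [add_comm]; exact hab'⟩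
  · have hb : Even b := by
      have h5 := hodd.1 (ha.pow)
      by_contra hb
      rw [Nat.not_even_iff_odd] at hb
      exact (Nat.not_even_iff_odd.2 hb.pow) h5
    exact ⟨a, b, by exact_mod_cast ha, by exact_mod_cast hb, hab'⟩

private theorem sx_main (N : ℕ) : ∀ ω : GaussianInt, Odd ω.re → Even ω.im →
    (nmG ω).natAbs = N → ∃ X, QX ω X := by
  induction N using Nat.strong_induction_on with
  | _ N ih =>
  rintro ⟨re, im⟩ hre him hN
  simp only at hre him
  by_cases h0 : im = 0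
  · subst h0
    exact ⟨_, qx_rat hre⟩
  have hnm : nmG (⟨re, im⟩ : GaussianInt) = re ^ 2 + im ^ 2 := rfl
  have hre0 : re ≠ 0 := by
    rintro rfl
    simp at hre
  have hr1 : 1 ≤ re ^ 2 := by
    have := sq_pos_of_ne_zero hre0
    omega
  have hi1 : 1 ≤ im ^ 2 := by
    have := sq_pos_of_ne_zero h0
    omega
  have hNz : (N : ℤ) = re ^ 2 + im ^ 2 := by
    rw [← hN, hnm, Int.natCast_natAbs, abs_of_nonneg (by positivity)]
  have hN1 : N ≠ 1 := by
    intro h1
    rw [h1] at hNz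
    push_cast at hNz
    omega
  have hl : N.minFac.Prime := Nat.minFac_prime hN1
  set l := N.minFac with hldef
  have hlN : (l : ℤ) ∣ re ^ 2 + im ^ 2 := by
    rw [← hNz]
    exact_mod_cast Nat.minFac_dvd N
  have hodd : Odd (re ^ 2 + im ^ 2) := hre.pow.add_even (him.pow_of_ne_zero two_ne_zero)
  have hlo : Odd (l : ℤ) := by
    by_contra hcon
    rw [Int.not_odd_iff_even] at hcon
    exact (Int.not_even_iff_odd.2 hodd) (even_iff_two_dvd.2 (hcon.two_dvd.trans hlN))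
  have hl2 : l % 2 = 1 := by
    have : Odd l := by exact_mod_cast hlo
    exact Nat.odd_iff.1 this
  have hlpos : (2 : ℤ) ≤ l := by exact_mod_cast hl.two_le
  -- reduction step
  have key : ∀ (c d r i : ℤ), Odd c → Even d → re = c * r - d * i → im = c * i + d * r →
      (2 : ℤ) ≤ c ^ 2 + d ^ 2 → (∃ X, QX (⟨c, d⟩ : GaussianInt) X) →
      ∃ X, QX (⟨re, im⟩ : GaussianInt) X := by
    rintro c d r i hc hd e1 e2 hcd ⟨X, hX⟩
    have hr : Odd r := by
      by_contra hr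
      rw [Int.not_odd_iff_even] at hr
      have : Even re := by
        rw [e1]
        exact (hr.mul_left c).sub (hd.mul_right i)
      exact (Int.not_even_iff_odd.2 hre) this
    have hi : Even i := by
      by_contra hi
      rw [Int.not_even_iff_odd] at hi
      have : Odd im := by
        rw [e2]
        exact (hc.mul hi).add_even (hd.mul_right r)
      exact (Int.not_even_iff_odd.2 this) him
    have hprod : (⟨re, im⟩ : GaussianInt) = ⟨c, d⟩ * ⟨r, i⟩ := by
      rw [sx_mul, e1, e2]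
    have hr0 : r ≠ 0 := by
      rintro rfl
      simp at hr
    have hpos : 1 ≤ r ^ 2 + i ^ 2 := by
      have := sq_pos_of_ne_zero hr0
      have := sq_nonneg i
      omega
    have hnn : (N : ℤ) = (c ^ 2 + d ^ 2) * (r ^ 2 + i ^ 2) := by
      rw [hNz, e1, e2]
      ring
    have hlt : (nmG (⟨r, i⟩ : GaussianInt)).natAbs < N := by
      rw [sx_nm]
      zify
      rw [abs_of_nonneg (by positivity), hnn]
      nlinarith
    obtain ⟨X', hX'⟩ := ih _ hlt ⟨r, i⟩ hr hi rfl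
    rw [hprod]
    exact ⟨_, qx_mul (ω := ⟨c, d⟩) (ω' := ⟨r, i⟩) hc hd hr hi hX hX'⟩
  by_cases h3 : l % 4 = 3
  · obtain ⟨⟨r, hr⟩, ⟨i, hi⟩⟩ := sx_three hl h3 hlN
    refine key l 0 r i hlo (by simp) (by rw [hr]; ring) (by rw [hi]; ring) (by nlinarith)
      ⟨_, qx_rat hlo⟩
  · obtain ⟨c0, d0, hc0, hd0, hcd0⟩ := sx_one hl hl2 h3
    have hlz : Prime (l : ℤ) := Nat.prime_iff_prime_int.1 hl
    -- choose the sign
    obtain ⟨c, d, hc, hd, hcd, hdvd⟩ : ∃ c d : ℤ, Odd c ∧ Even d ∧ c ^ 2 + d ^ 2 = l ∧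
        (l : ℤ) ∣ im * c - re * d := by
      have h5 : (l : ℤ) ∣ (im * c0 - re * d0) * (im * c0 + re * d0) := by
        obtain ⟨t, ht⟩ := hlN
        have e : (im * c0 - re * d0) * (im * c0 + re * d0) =
            im ^ 2 * (c0 ^ 2 + d0 ^ 2) - (re ^ 2 + im ^ 2) * d0 ^ 2 := by ring
        rw [e, hcd0, ht]
        exact ⟨im ^ 2 - t * d0 ^ 2, by ring⟩
      rcases hlz.dvd_or_dvd h5 with h6 | h6
      · exact ⟨c0, d0, hc0, hd0, hcd0, h6⟩
      · refine ⟨c0, -d0, hc0, hd0.neg, by rw [neg_sq]; exact hcd0, ?_⟩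
        have e : im * c0 - re * -d0 = im * c0 + re * d0 := by ring
        rw [e]
        exact h6
    have hdvd2 : (l : ℤ) ∣ re * c + im * d := by
      have h5 : (l : ℤ) ∣ (re * c + im * d) ^ 2 := by
        have e : (re * c + im * d) ^ 2 =
            (c ^ 2 + d ^ 2) * (re ^ 2 + im ^ 2) - (im * c - re * d) * (im * c - re * d) := by ring
        rw [e, hcd]
        exact (Dvd.intro _ rfl).sub (hdvd.mul_right _)
      exact hlz.dvd_of_dvd_pow h5
    obtain ⟨i, hi⟩ := hdvd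
    obtain ⟨r, hr⟩ := hdvd2
    have hl0 : (l : ℤ) ≠ 0 := by omega
    have e1 : re = c * r - d * i := by
      apply mul_left_cancel₀ hl0
      have : (l : ℤ) * (c * r - d * i) = c * (l * r) - d * (l * i) := by ring
      rw [this, ← hr, ← hi, ← hcd]
      ring
    have e2 : im = c * i + d * r := by
      apply mul_left_cancel₀ hl0
      have : (l : ℤ) * (c * i + d * r) = c * (l * i) + d * (l * r) := by ring
      rw [this, ← hr, ← hi, ← hcd]
      ring
    exact key c d r i hc hd e1 e2 (by rw [hcd]; exact hlpos)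
      (qx_prime (ω := ⟨c, d⟩) hc hd hl (by rw [sx_nm]; exact hcd))

theorem exists_qx {ω : GaussianInt} (hre : Odd ω.re) (him : Even ω.im) : ∃ X, QX ω X :=
  sx_main _ ω hre him rfl

end Pool.Agent.Work.MP_8efaaa_nt.W6
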