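import Mathlib
import Pool.Agent.Work.MP_8efaaa_nt.W6.Defs

/-!
# W6/SAr (M): the arithmetic at the end
-/

set_option autoImplicit false

namespace Pool.Agent.Work.MP_8efaaa_nt.W6

private theorem sar_rep {l : ℕ} (hl : l.Prime) (h : l % 8 = 1 ∨ l % 8 = 3) :
    ∃ x y : ℤ, x ^ 2 + 2 * y ^ 2 = (l : ℤ) := by
  have : Fact l.Prime := ⟨hl⟩
  have hl2 : l ≠ 2 := by omega
  obtain ⟨t, ht⟩ : IsSquare (-2 : ZMod l) := (ZMod.exists_sq_eq_neg_two_iff hl2).2 h
  have hk1 : l < (Nat.sqrt l + 1) * (Nat.sqrt l + 1) := Nat.lt_succ_sqrt l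
  have hk2 : Nat.sqrt l * Nat.sqrt l < l := by
    refine lt_of_le_of_ne (Nat.sqrt_le l) fun he => ?_
    exact (Nat.prime_iff.1 hl).not_isSquare ⟨Nat.sqrt l, he.symm⟩
  obtain ⟨k, hk⟩ : ∃ k, k = Nat.sqrt l := ⟨_, rfl⟩
  rw [← hk] at hk1 hk2
  have hcard : (Finset.univ : Finset (ZMod l)).card <
      (Finset.range (k + 1) ×ˢ Finset.range (k + 1)).card := by
    rw [Finset.card_product, Finset.card_range, Finset.card_univ, ZMod.card]
    exact hk1
  obtain ⟨P, hP, Q, hQ, hne, hPQ⟩ := Finset.exists_ne_map_eq_of_card_lt_of_maps_to hcard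
    (f := fun z : ℕ × ℕ => (z.1 : ZMod l) - t * (z.2 : ZMod l)) (fun _ _ => Finset.mem_coe.2 (Finset.mem_univ _))
  obtain ⟨a, b⟩ := P
  obtain ⟨c, d⟩ := Q
  simp only [Finset.mem_product, Finset.mem_range] at hP hQ hPQ
  obtain ⟨x, hx⟩ : ∃ x : ℤ, x = (a : ℤ) - c := ⟨_, rfl⟩
  obtain ⟨y, hy⟩ : ∃ y : ℤ, y = (b : ℤ) - d := ⟨_, rfl⟩
  have hx1 : x ^ 2 ≤ (k : ℤ) * k := by nlinarith
  have hy1 : y ^ 2 ≤ (k : ℤ) * k := by nlinarith
  have hk3 : (k : ℤ) * k < l := by exact_mod_cast hk2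
  have hdvd : (l : ℤ) ∣ x ^ 2 + 2 * y ^ 2 := by
    rw [← ZMod.intCast_zmod_eq_zero_iff_dvd]
    have e1 : (x : ZMod l) = t * (y : ZMod l) := by
      rw [hx, hy]
      push_cast
      linear_combination hPQ
    push_cast
    rw [e1]
    linear_combination (-(y : ZMod l) ^ 2) * ht
  have hpos : 0 < x ^ 2 + 2 * y ^ 2 := by
    rcases eq_or_ne x 0 with hx0 | hx0
    · rcases eq_or_ne y 0 with hy0 | hy0
      · exfalso
        apply hne
        have h1 : a = c := by omega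
        have h2 : b = d := by omega
        rw [h1, h2]
      · positivity
    · positivity
  obtain ⟨w, hw⟩ := hdvd
  have hl0 : (0 : ℤ) < l := by exact_mod_cast hl.pos
  have hw1 : 0 < w := by
    by_contra hc
    nlinarith
  have hw3 : w < 3 := by
    by_contra hc
    nlinarith
  have hw12 : w = 1 ∨ w = 2 := by omega
  rcases hw12 with rfl | rfl
  · exact ⟨x, y, by linarith⟩
  · have hxe : Even x := by
      have h1 : Even (x ^ 2) := ⟨(l : ℤ) - y ^ 2, by linarith⟩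
      exact (Int.even_pow' (by norm_num)).1 h1
    obtain ⟨z, hz⟩ := hxe
    refine ⟨y, z, ?_⟩
    rw [hz] at hw
    linarith

theorem exists_uv {p q : ℕ} (hp : p.Prime) (hq : q.Prime) (hp8 : p % 8 = 1) (hq8 : q % 8 = 3) :
    ∃ u v : ℤ, 0 < u ∧ 0 < v ∧ Odd u ∧ Odd v ∧ u ^ 2 + 2 * v ^ 2 = ((p * q : ℕ) : ℤ) := by
  obtain ⟨x, y, hxy⟩ := sar_rep hp (Or.inl hp8)
  obtain ⟨z, w, hzw⟩ := sar_rep hq (Or.inr hq8)
  obtain ⟨u, hu⟩ : ∃ u : ℤ, u = x * z - 2 * y * w := ⟨_, rfl⟩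
  obtain ⟨v, hv⟩ : ∃ v : ℤ, v = x * w + y * z := ⟨_, rfl⟩
  have h : u ^ 2 + 2 * v ^ 2 = ((p * q : ℕ) : ℤ) := by
    push_cast
    rw [← hxy, ← hzw, hu, hv]
    ring
  have h8 : (u ^ 2 + 2 * v ^ 2) % 8 = 3 := by
    rw [h]
    have : (p * q) % 8 = 3 := by rw [Nat.mul_mod, hp8, hq8]
    exact_mod_cast this
  have huo : Odd u := by
    rw [← Int.not_even_iff_odd]
    rintro ⟨c, hc⟩
    rw [hc] at h8
    have e : ((c + c) ^ 2 + 2 * v ^ 2) % 8 = (2 * (2 * c ^ 2 + v ^ 2)) % 8 := by ring_nf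
    omega
  have hvo : Odd v := by
    rw [← Int.not_even_iff_odd]
    rintro ⟨c, hc⟩
    obtain ⟨d, hd⟩ := huo
    rw [hc, hd] at h8
    have e : ((2 * d + 1) ^ 2 + 2 * (c + c) ^ 2) % 8 = (1 + 4 * (d ^ 2 + d) + 8 * c ^ 2) % 8 := by ring_nf
    omega
  refine ⟨|u|, |v|, ?_, ?_, ?_, ?_, ?_⟩
  · rw [abs_pos]
    rintro rfl
    exact absurd huo (by decide)
  · rw [abs_pos]
    rintro rfl
    exact absurd hvo (by decide)
  · exact odd_abs.2 huo
  · exact odd_abs.2 hvo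
  · rw [sq_abs, sq_abs]
    exact h

private theorem sar_chi8 {U V a b : ℕ} {p q : ℕ} (hU : Odd U) (hV : Odd V) (hp : p = 8 * a + 1)
    (hq : q = 8 * b + 3) (h : U ^ 2 + 2 * V ^ 2 = p * q) :
    jacobiSym 2 U = (-1) ^ (a + b) := by
  rw [jacobiSym.at_two hU]
  have hV16 : V ^ 2 % 8 = 1 := by
    obtain ⟨c, rfl⟩ := hV
    rcases Nat.even_or_odd c with ⟨d, rfl⟩ | ⟨d, rfl⟩
    · have : (2 * (d + d) + 1) ^ 2 = 8 * (2 * d ^ 2 + d) + 1 := by ring
      omega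
    · have : (2 * (2 * d + 1) + 1) ^ 2 = 8 * (2 * d ^ 2 + 3 * d + 1) + 1 := by ring
      omega
  have hpq : p * q = 16 * (4 * a * b + a) + 8 * (a + b) + 3 := by
    rw [hp, hq]
    ring
  have hU16 : U ^ 2 % 16 = (8 * (a + b) + 1) % 16 := by omega
  have hUm : U % 8 = 1 ∨ U % 8 = 3 ∨ U % 8 = 5 ∨ U % 8 = 7 := by
    rw [Nat.odd_iff] at hU
    omega
  have hχ : ZMod.χ₈ (U : ZMod 8) = ZMod.χ₈ ((U % 8 : ℕ) : ZMod 8) := by
    rw [ZMod.natCast_mod]
  have hUd : U = 8 * (U / 8) + U % 8 := by omega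
  obtain ⟨c, hc⟩ : ∃ c, c = U / 8 := ⟨_, rfl⟩
  rw [← hc] at hUd
  rw [hχ]
  have hev : ∀ n, n % 2 = 0 → (-1 : ℤ) ^ n = 1 := fun n hn => Even.neg_one_pow (Nat.even_iff.2 hn)
  have hod : ∀ n, n % 2 = 1 → (-1 : ℤ) ^ n = -1 := fun n hn => Odd.neg_one_pow (Nat.odd_iff.2 hn)
  rcases hUm with h1 | h1 | h1 | h1
  · rw [h1] at hUd ⊢
    have e : U ^ 2 = 16 * (4 * c ^ 2 + c) + 1 := by rw [hUd]; ring
    rw [hev _ (by omega)]
    decide
  · rw [h1] at hUd ⊢
    have e : U ^ 2 = 16 * (4 * c ^ 2 + 3 * c) + 9 := by rw [hUd]; ring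
    rw [hod _ (by omega)]
    decide
  · rw [h1] at hUd ⊢
    have e : U ^ 2 = 16 * (4 * c ^ 2 + 5 * c + 1) + 9 := by rw [hUd]; ring
    rw [hod _ (by omega)]
    decide
  · rw [h1] at hUd ⊢
    have e : U ^ 2 = 16 * (4 * c ^ 2 + 7 * c + 3) + 1 := by rw [hUd]; ring
    rw [hev _ (by omega)]
    decide

private theorem sar_cop {U V p q : ℕ} (hp : p.Prime) (hq : q.Prime) (hne : p ≠ q)
    (h : U ^ 2 + 2 * V ^ 2 = p * q) : Nat.Coprime U V := by
  by_contra hc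
  obtain ⟨r, hr, h1, h2⟩ := Nat.Prime.not_coprime_iff_dvd.1 hc
  have hd : r * r ∣ p * q := by
    rw [← h]
    refine Dvd.dvd.add ?_ ?_
    · rw [pow_two]; exact Nat.mul_dvd_mul h1 h1
    · rw [pow_two]; exact Dvd.dvd.mul_left (Nat.mul_dvd_mul h2 h2) 2
  have hsq : Squarefree (p * q) := by
    rw [Nat.squarefree_mul ((Nat.coprime_primes hp hq).2 hne)]
    exact ⟨(Nat.prime_iff.1 hp).squarefree, (Nat.prime_iff.1 hq).squarefree⟩
  have := hsq r hd
  exact hr.one_lt.ne' (Nat.isUnit_iff.1 this)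

theorem arith_end {p q : ℕ} (hp : p.Prime) (hq : q.Prime) (hp8 : p % 8 = 1) (hq8 : q % 8 = 3)
    {u v x y : ℤ} (hu : 0 < u) (hv : 0 < v) (huo : Odd u) (hvo : Odd v)
    (h : u ^ 2 + 2 * v ^ 2 = ((p * q : ℕ) : ℤ)) (hx : Odd x) (hy : Odd y)
    (hxy : (4 : ℤ) ∣ x * y + u * v)
    (hc : (q : ℤ) ∣ (-1) ^ ((x * y + 1) / 2).natAbs * (-1) ^ ((p - 1) / 8) * u +
      (-1) ^ ((q - 3) / 8) * 2 ^ ((q + 1) / 4) * v) :
    (2 : ZMod p) ^ ((p - 1) / 4) = 1 := by
  obtain ⟨U, rfl⟩ : ∃ U : ℕ, u = (U : ℤ) := ⟨u.toNat, (Int.toNat_of_nonneg hu.le).symm⟩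
  obtain ⟨V, rfl⟩ : ∃ V : ℕ, v = (V : ℤ) := ⟨v.toNat, (Int.toNat_of_nonneg hv.le).symm⟩
  have hU : Odd U := by exact_mod_cast huo
  have hV : Odd V := by exact_mod_cast hvo
  have hN : U ^ 2 + 2 * V ^ 2 = p * q := by exact_mod_cast h
  have hne : p ≠ q := by rintro rfl; omega
  have hcop := sar_cop hp hq hne hN
  have fp : Fact p.Prime := ⟨hp⟩
  have fq : Fact q.Prime := ⟨hq⟩
  obtain ⟨a, ha⟩ : ∃ a, a = (p - 1) / 8 := ⟨_, rfl⟩
  obtain ⟨b, hb⟩ : ∃ b, b = (q - 3) / 8 := ⟨_, rfl⟩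
  have hpa : p = 8 * a + 1 := by omega
  have hqb : q = 8 * b + 3 := by omega
  have hχ := sar_chi8 hU hV hpa hqb hN
  have hpo : Odd p := Nat.odd_iff.2 (by omega)
  have hqo : Odd q := Nat.odd_iff.2 (by omega)
  have hNo : Odd (p * q) := hpo.mul hqo
  have hN4 : (p * q) % 4 = 3 := by rw [Nat.mul_mod]; have : p % 4 = 1 := by omega
                                   have h2 : q % 4 = 3 := by omega
                                   rw [this, h2]
  -- values at the product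
  have hcopUN : Nat.Coprime U (p * q) := by
    rw [← hN]
    have h1 : Nat.Coprime U (2 * V ^ 2) := by
      refine Nat.Coprime.mul_right (Nat.coprime_two_right.2 hU) (hcop.pow_right 2)
    rw [pow_two, Nat.coprime_mul_right_add_right]
    exact h1
  have hcopVN : Nat.Coprime V (p * q) := by
    rw [← hN]
    have h1 : Nat.Coprime V (U ^ 2) := (hcop.symm.pow_right 2)
    have h2 : U ^ 2 + 2 * V ^ 2 = U ^ 2 + (2 * V) * V := by ring
    rw [h2, Nat.coprime_add_mul_right_right]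
    exact h1
  have hcast : ((p * q : ℕ) : ℤ) = (U : ℤ) ^ 2 + 2 * (V : ℤ) ^ 2 := by exact_mod_cast hN.symm
  have hJU : jacobiSym U (p * q) = (if U % 4 = 3 then -1 else 1) * (-1) ^ (a + b) := by
    have e1 : jacobiSym ((p * q : ℕ) : ℤ) U = (-1) ^ (a + b) := by
      have e2 : (((p * q : ℕ) : ℤ)) % (U : ℤ) = (2 * (V : ℤ) ^ 2) % (U : ℤ) := by
        rw [hcast, pow_two, add_comm, Int.add_mul_emod_self_right]
      rw [jacobiSym.mod_left' e2, jacobiSym.mul_left, hχ, jacobiSym.sq_one', mul_one]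
      rw [Int.gcd_natCast_natCast]
      exact hcop.symm
    have e3 := jacobiSym.quadratic_reciprocity_if (Nat.odd_iff.1 hU) (Nat.odd_iff.1 hNo)
    rw [← e3, e1]
    split_ifs with i1 i2 i2
    · ring
    · exact absurd i1.1 i2
    · exact absurd ⟨i2, hN4⟩ i1
    · ring
  have hJV : jacobiSym V (p * q) = (if V % 4 = 3 then -1 else 1) := by
    have e1 : jacobiSym ((p * q : ℕ) : ℤ) V = 1 := by
      have e2 : (((p * q : ℕ) : ℤ)) % (V : ℤ) = ((U : ℤ) ^ 2) % (V : ℤ) := by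
        have e4 : ((p * q : ℕ) : ℤ) = (U : ℤ) ^ 2 + (2 * (V : ℤ)) * (V : ℤ) := by rw [hcast]; ring
        rw [e4, Int.add_mul_emod_self_right]
      rw [jacobiSym.mod_left' e2, jacobiSym.sq_one']
      rw [Int.gcd_natCast_natCast]
      exact hcop
    have e3 := jacobiSym.quadratic_reciprocity_if (Nat.odd_iff.1 hV) (Nat.odd_iff.1 hNo)
    rw [← e3, e1]
    split_ifs with i1 i2 i2
    · ring
    · exact absurd i1.1 i2
    · exact absurd ⟨i2, hN4⟩ i1
    · ring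
  -- the sign of the exponent
  have hs : (-1 : ℤ) ^ ((x * y + 1) / 2).natAbs =
      (if U % 4 = 3 then -1 else 1) * (if V % 4 = 3 then -1 else 1) := by
    have hxyo : Odd (x * y) := hx.mul hy
    have hUm : U % 4 = 1 ∨ U % 4 = 3 := by rw [Nat.odd_iff] at hU; omega
    have hVm : V % 4 = 1 ∨ V % 4 = 3 := by rw [Nat.odd_iff] at hV; omega
    obtain ⟨w, hw⟩ := hxy
    obtain ⟨c, hc'⟩ : ∃ c : ℤ, (U : ℤ) = 4 * c + ((U % 4 : ℕ) : ℤ) := ⟨((U / 4 : ℕ) : ℤ), by omega⟩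
    obtain ⟨d, hd'⟩ : ∃ d : ℤ, (V : ℤ) = 4 * d + ((V % 4 : ℕ) : ℤ) := ⟨((V / 4 : ℕ) : ℤ), by omega⟩
    have hev : ∀ n : ℤ, n % 2 = 0 → (-1 : ℤ) ^ n.natAbs = 1 := fun n hn =>
      Even.neg_one_pow (Int.natAbs_even.2 (Int.even_iff.2 hn))
    have hod : ∀ n : ℤ, n % 2 = 1 → (-1 : ℤ) ^ n.natAbs = -1 := fun n hn =>
      Odd.neg_one_pow (Int.natAbs_odd.2 (Int.odd_iff.2 hn))
    rcases hUm with h1 | h1 <;> rcases hVm with h2 | h2 <;> rw [h1] at hc' <;> rw [h2] at hd'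
    · rw [hc', hd'] at hw
      have e : x * y = 4 * (w - (4 * c * d + c + d)) - 1 := by push_cast at hw; linear_combination hw
      rw [hev _ (by omega), if_neg (by omega), if_neg (by omega)]
      norm_num
    · rw [hc', hd'] at hw
      have e : x * y = 4 * (w - (4 * c * d + 3 * c + d)) - 3 := by push_cast at hw; linear_combination hw
      rw [hod _ (by omega), if_neg (by omega), if_pos (by omega)]
      norm_num
    · rw [hc', hd'] at hw
      have e : x * y = 4 * (w - (4 * c * d + c + 3 * d)) - 3 := by push_cast at hw; linear_combination hw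
      rw [hod _ (by omega), if_pos (by omega), if_neg (by omega)]
      norm_num
    · rw [hc', hd'] at hw
      have e : x * y = 4 * (w - (4 * c * d + 3 * c + 3 * d)) - 9 := by push_cast at hw; linear_combination hw
      rw [hev _ (by omega), if_pos (by omega), if_pos (by omega)]
      norm_num
  -- the symbols at `q`
  have hcopUq : Int.gcd (U : ℤ) q = 1 := by
    rw [Int.gcd_natCast_natCast]
    exact Nat.Coprime.coprime_mul_left_right hcopUN
  have hcopVq : Int.gcd (V : ℤ) q = 1 := by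
    rw [Int.gcd_natCast_natCast]
    exact Nat.Coprime.coprime_mul_left_right hcopVN
  have hcopUp : Int.gcd (U : ℤ) p = 1 := by
    rw [Int.gcd_natCast_natCast]
    exact Nat.Coprime.coprime_mul_right_right hcopUN
  have hcopVp : Int.gcd (V : ℤ) p = 1 := by
    rw [Int.gcd_natCast_natCast]
    exact Nat.Coprime.coprime_mul_right_right hcopVN
  have hm1q : jacobiSym (-1) q = -1 := by
    rw [jacobiSym.at_neg_one hqo, ZMod.χ₄_nat_three_mod_four (by omega)]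
  have h2q : jacobiSym 2 q = -1 := by
    rw [jacobiSym.at_two hqo, ← ZMod.natCast_mod, hq8]
    decide
  have hm1p : jacobiSym (-1) p = 1 := by
    rw [jacobiSym.at_neg_one hpo, ZMod.χ₄_nat_one_mod_four (by omega)]
  have hk : Odd ((q + 1) / 4) := Nat.odd_iff.2 (by omega)
  obtain ⟨e, he⟩ : ∃ e, e = (-1 : ℤ) ^ ((x * y + 1) / 2).natAbs * (-1) ^ a := ⟨_, rfl⟩
  have hJq : e * jacobiSym U q = (-1) ^ b * jacobiSym V q := by
    have hpm : ∀ n : ℕ, jacobiSym ((-1) ^ n) q = (-1) ^ n := fun n => by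
      rw [jacobiSym.pow_left, hm1q]
    have e1 : jacobiSym (e * U) q = e * jacobiSym U q := by
      rw [jacobiSym.mul_left, he, jacobiSym.mul_left, hpm, hpm]
    have e2 : jacobiSym (-((-1) ^ b * 2 ^ ((q + 1) / 4) * V)) q = (-1) ^ b * jacobiSym V q := by
      rw [← neg_one_mul, jacobiSym.mul_left, hm1q, jacobiSym.mul_left, jacobiSym.mul_left, hpm,
        jacobiSym.pow_left, h2q, hk.neg_one_pow]
      ring
    rw [← e1, ← e2]
    apply jacobiSym.mod_left'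
    rw [← Int.ModEq, Int.modEq_iff_dvd]
    rw [← ha, ← hb, ← he] at hc
    have e5 : -((-1) ^ b * 2 ^ ((q + 1) / 4) * (V : ℤ)) - e * (U : ℤ) =
      -(e * (U : ℤ) + (-1) ^ b * 2 ^ ((q + 1) / 4) * (V : ℤ)) := by ring
    rw [e5, dvd_neg]
    exact hc
  have hJUq := jacobiSym.sq_one hcopUq
  have hJVq := jacobiSym.sq_one hcopVq
  have hJUp := jacobiSym.sq_one hcopUp
  have hJVp := jacobiSym.sq_one hcopVp
  have hsplit : ∀ n : ℤ, jacobiSym n (p * q) = jacobiSym n p * jacobiSym n q := fun n =>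
    jacobiSym.mul_right' n hp.ne_zero hq.ne_zero
  rw [hsplit] at hJU hJV
  have hab : ((-1 : ℤ) ^ (a + b)) ^ 2 = 1 := by rw [← pow_mul, mul_comm, pow_mul]; norm_num
  have haa : ((-1 : ℤ) ^ a) ^ 2 = 1 := by rw [← pow_mul, mul_comm, pow_mul]; norm_num
  have hbb : ((-1 : ℤ) ^ b) ^ 2 = 1 := by rw [← pow_mul, mul_comm, pow_mul]; norm_num
  have hJp : jacobiSym U p * jacobiSym V p = 1 := by
    obtain ⟨sU, hsU⟩ : ∃ s : ℤ, s = (if U % 4 = 3 then -1 else 1) := ⟨_, rfl⟩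
    obtain ⟨sV, hsV⟩ : ∃ s : ℤ, s = (if V % 4 = 3 then -1 else 1) := ⟨_, rfl⟩
    have h1 : sU ^ 2 = 1 := by rw [hsU]; split_ifs <;> norm_num
    have h2 : sV ^ 2 = 1 := by rw [hsV]; split_ifs <;> norm_num
    rw [← hsU] at hJU
    rw [← hsV] at hJV
    rw [hs, ← hsU, ← hsV] at he
    rw [pow_add] at hJU
    obtain ⟨A, hA⟩ : ∃ A : ℤ, A = (-1) ^ a := ⟨_, rfl⟩
    obtain ⟨B, hB⟩ : ∃ B : ℤ, B = (-1) ^ b := ⟨_, rfl⟩
    rw [← hA] at hJU haa he
    rw [← hB] at hJU hbb hJq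
    rw [he] at hJq
    -- (Up Uq)(Vp Vq) = sU sV A B and Uq Vq = sU sV A B
    have h3 : jacobiSym U q * jacobiSym V q = sU * sV * A * B := by
      have : sU * sV * A * (sU * sV * A * jacobiSym U q) * jacobiSym V q =
        sU * sV * A * (B * jacobiSym V q) * jacobiSym V q := by rw [hJq]
      have h4 : sU * sV * A * (sU * sV * A * jacobiSym U q) * jacobiSym V q =
        (sU ^ 2 * sV ^ 2 * A ^ 2) * (jacobiSym U q * jacobiSym V q) := by ring
      rw [h4, h1, h2, haa] at this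
      linear_combination this + sU * sV * A * B * hJVq
    have h5 : (jacobiSym U p * jacobiSym V p) * (jacobiSym U q * jacobiSym V q) = sU * sV * A * B := by
      linear_combination (jacobiSym V p * jacobiSym V q) * hJU + sU * (A * B) * hJV
    rw [h3] at h5
    have h6 : (sU * sV * A * B) * (sU * sV * A * B) = 1 := by
      have : (sU * sV * A * B) * (sU * sV * A * B) = sU ^ 2 * sV ^ 2 * A ^ 2 * B ^ 2 := by ring
      rw [this, h1, h2, haa, hbb]
      norm_num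
    linear_combination (sU * sV * A * B) * h5 + (1 - jacobiSym U p * jacobiSym V p) * h6
  -- modulo `p`
  have hp2 : p / 2 = 4 * a := by omega
  have hUE : ((jacobiSym U p : ℤ) : ZMod p) = (U : ZMod p) ^ (4 * a) := by
    rw [← jacobiSym.legendreSym.to_jacobiSym, legendreSym.eq_pow, hp2]
    push_cast
    rfl
  have hVE : ((jacobiSym V p : ℤ) : ZMod p) = (V : ZMod p) ^ (4 * a) := by
    rw [← jacobiSym.legendreSym.to_jacobiSym, legendreSym.eq_pow, hp2]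
    push_cast
    rfl
  have hz : (U : ZMod p) ^ 2 + 2 * (V : ZMod p) ^ 2 = 0 := by
    have := congrArg (Nat.cast : ℕ → ZMod p) hN
    push_cast at this
    rw [this, ZMod.natCast_self, zero_mul]
  have hz2 : (U : ZMod p) ^ (4 * a) = 2 ^ (2 * a) * (V : ZMod p) ^ (4 * a) := by
    have e1 : (U : ZMod p) ^ 2 = -2 * (V : ZMod p) ^ 2 := by linear_combination hz
    have e2 : (U : ZMod p) ^ (4 * a) = ((U : ZMod p) ^ 2) ^ (2 * a) := by rw [← pow_mul]; congr 1; ring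
    rw [e2, e1, mul_pow, ← pow_mul, neg_pow, Even.neg_one_pow (even_two_mul a)]
    rw [one_mul]
    congr 2
    ring
  have h1 : ((jacobiSym U p : ℤ) : ZMod p) * ((jacobiSym V p : ℤ) : ZMod p) = 1 := by
    rw [← Int.cast_mul, hJp, Int.cast_one]
  have h2 : ((jacobiSym V p : ℤ) : ZMod p) * ((jacobiSym V p : ℤ) : ZMod p) = 1 := by
    rw [← Int.cast_mul, ← pow_two, hJVp, Int.cast_one]
  rw [hUE, hVE, hz2] at h1
  rw [hVE] at h2
  have hexp : (p - 1) / 4 = 2 * a := by omega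
  rw [hexp]
  linear_combination h1 - (2 : ZMod p) ^ (2 * a) * h2

end Pool.Agent.Work.MP_8efaaa_nt.W6
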