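import Mathlib
import Pool.Agent.Work.MP_8efaaa_nt.W6.Defs
import Pool.Agent.Work.MP_8efaaa_nt.W14.LPt
import Pool.Agent.Work.MP_8efaaa_nt.W14.LVx
import Pool.Agent.Work.MP_8efaaa_nt.W5.IIo
import Pool.Agent.Work.MP_8efaaa_nt.K6.DAc
import Pool.Agent.Work.MP_8efaaa_nt.K6.DIn

/-!
# W6/DIx (M): the inertia elements

Models: `pp_inert` (W14/LPt.lean), `inert_act6` (K6/DAc.lean), `iota_q` (W5/IIo.lean). PROOF. `exists_inert6` (K6/DIn): `ι : F ≃ₐ[ℚ] F`, `Inert ι L`, `ι s = -s`. `2 ∉ L`, `V 2 = 1` (`vl_odd`). The automorphism `ι κ⁻¹` fixes `s`; let `σ : F ≃ₐ[K] F` be it (as in K6/DAc.lean). `act4` for `σ` and `M * a` (`a ≠ 0`) gives `b`, `t`. Put `N = absNorm b`.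
(1) `κ (κ (z c)) = z c`, `κ⁻¹ (z c) = z (cj τ c)` for odd `c` (`UD6.cc`, `norm_cj6`), so `ι (z c) = σ (κ (z c)) = σ (z (cj τ c)) = z (b * cj τ c)`, the same for `k`, `v` (`MA6.act`). So `gal ι (PP c) = PP (b * cj τ c)` (`gal_pp`), and `PP (b cj τ c) - PP c ∈ E1 V` as in `pp_inert` (`vl_red` with `n = 1`, `W5.sub_mem` or `W5.gal_sub_mem`, `pp_val`).
(2) `ι ξ = ξ`: both are sixteenth roots of unity congruent modulo `L` (`Inert.triv`), `2 ∉ L`; see `inert_zeta` (for `ζ`): `ι ξ = ξ^j`; if `16 ∤ j - 1` then `1 - ξ^(j-1) ∈ L` divides `2`. `κ ξ = ξ^15`, so `κ⁻¹ ξ = ξ^15` and `σ ξ = ι (ξ^15) = ξ^15`; also `σ ξ = ξ^N`. `ξ` has order `16` (`ξ^8 = ζ^4 = -1`), so `N % 16 = 15`.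
(3) `d ∣ a`, `l ∤ d`: `ι (w d) = w d` (`inert_sq`), `κ (w d) = w d`, so `σ (w d) = w d ≠ 0`, `MA6.sq` (`d` prime to `N`): `jacobiSym d N = 1`.
(4) Suppose `V (u0 + v0 θ) < 1`. `e^2 = u0 + v0 θ`, `κ e ^ 2 = u0 - v0 θ`, and from `e * κ e * θ = s`: `(u0 + v0θ)(u0 - v0θ)(-2) = -a`, so `2 (u0^2 + 2v0^2) = a`. `V (u0 - v0θ) = 1`: it is `≤ 1` (`e` integral), and if it were `< 1` then `V (2 u0) < 1`, `l ∣ u0` (`V n < 1 ↔ l ∣ n` for integers `n`: `VL.lt`, `vl_odd`), `V (u0^2 + 2 v0^2) < 1`.. so `l ∣ 2 v0^2`, `l ∣ v0`, `l^2 ∣ a`, against `hb.sf`.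
`ι θ = ± θ` (`θ^2 = -2`), and `V (ι θ - θ) < 1`, `V (2θ) = 1`, so `ι θ = θ`; `(ι (κ e))^2 = (κ e)^2`, so `ι (κ e) = ± κ e`, and `V (ι (κ e) - κ e) < 1`, `V (2 κ e) = 1`: `ι (κ e) = κ e`. Apply `κ` to `e κ e θ = s`: `κ e * κ (κ e) * (-θ) = -s`, so `κ (κ e) = e`, `κ⁻¹ e = κ e`. So `σ e = ι (κ⁻¹ e) = ι (κ e) = κ e`. `N % 8 = 7`: `act4`: `σ e = nu N t * κ e`, `κ e ≠ 0`: `(nu : F) = 1`, `nu = 1`.
`exists_L6`: `exists_prime6` (K6/DIn): `L'` prime with `q ∈ L'`; `exists_vl` (W14/LVx): `V'`. `(u0 + v0θ)(u0 - v0θ) * 2 = a` (see (4)), `V' 2 = 1`, `V' a < 1`, so one of the two factors has `V' < 1`. If it is `u0 + v0 θ` done. Otherwise `vl_comap` for `κ`: `V x = V' (κ x)`, `L`, `q ∈ L`, `κ (u0 + v0 θ) = u0 - v0 θ`.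
-/

set_option autoImplicit false

namespace Pool.Agent.Work.MP_8efaaa_nt.W6

open NumberField Pool.Agent.Work.MP_8efaaa_nt.R Pool.Agent.Work.MP_8efaaa_nt.N5
  Pool.Agent.Work.MP_8efaaa_nt.K6 Pool.Agent.Work.MP_8efaaa_nt.W14
open scoped Classical nonZeroDivisors

section aux

variable {F : Type*} [Field F] [NumberField F] {Γ : Type} [LinearOrderedCommGroupWithZero Γ]
  {V : Valuation F Γ} {L : Ideal (𝓞 F)}

private theorem v_int (hV : VL V L) (n : ℤ) : V (n : F) ≤ 1 := by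
  have h := hV.int (n : 𝓞 F)
  rwa [map_intCast] at h

private theorem int_dvd (hV : VL V L) {l : ℕ} (hl : l.Prime) (hlL : (l : 𝓞 F) ∈ L) {n : ℤ}
    (hn : V (n : F) < 1) : (l : ℤ) ∣ n := by
  by_contra hc
  have hnL : (n : 𝓞 F) ∈ L := (hV.lt (n : 𝓞 F)).1 (by rwa [map_intCast])
  have hcop : IsCoprime (l : ℤ) n :=
    (Prime.coprime_iff_not_dvd (Nat.prime_iff_prime_int.1 hl)).2 hc
  obtain ⟨x, y, hxy⟩ := hcop
  have h1 : (1 : 𝓞 F) = (x : 𝓞 F) * (l : 𝓞 F) + (y : 𝓞 F) * (n : 𝓞 F) := by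
    have := congrArg (Int.cast : ℤ → 𝓞 F) hxy
    push_cast at this
    exact this.symm
  apply hV.prime.ne_top
  rw [Ideal.eq_top_iff_one, h1]
  exact L.add_mem (L.mul_mem_left _ hlL) (L.mul_mem_left _ hnL)

omit [NumberField F] in
private theorem v_root {x : F} {n : ℕ} (hn : n ≠ 0) (h : V (x ^ n) = 1) : V x = 1 := by
  rw [map_pow] at h
  exact (pow_eq_one_iff_of_nonneg zero_le hn).1 h

omit [NumberField F] in
private theorem fix_of (hV2 : V 2 = 1) {y y' : F} (h1 : V y = 1) (h2 : V (y' - y) < 1)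
    (h3 : y' ^ 2 = y ^ 2) : y' = y := by
  rcases sq_eq_sq_iff_eq_or_eq_neg.1 h3 with h | h
  · exact h
  · exfalso
    rw [h, show -y - y = -(2 * y) by ring, Valuation.map_neg, map_mul, hV2, h1, one_mul] at h2
    exact lt_irrefl _ h2

private theorem notMem_of_not_dvd (hL : L.IsPrime) {l d : ℕ} (hl : l.Prime)
    (hlL : (l : 𝓞 F) ∈ L) (hld : ¬ l ∣ d) : ((d : ℤ) : 𝓞 F) ∉ L := by
  intro hc
  have hcop : Nat.Coprime l d := hl.coprime_iff_not_dvd.2 hld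
  have h1 := Nat.gcd_eq_gcd_ab l d
  rw [hcop] at h1
  have h2 : (1 : 𝓞 F) = (l : 𝓞 F) * ((Nat.gcdA l d : ℤ) : 𝓞 F) +
      ((d : ℤ) : 𝓞 F) * ((Nat.gcdB l d : ℤ) : 𝓞 F) := by
    have := congrArg (fun x : ℤ => (x : 𝓞 F)) h1
    push_cast at this ⊢
    exact this
  have h3 : (1 : 𝓞 F) ∈ L := by
    rw [h2]
    exact L.add_mem (L.mul_mem_right _ hlL) (L.mul_mem_right _ hc)
  exact hL.ne_top ((Ideal.eq_top_iff_one L).2 h3)

end aux

private theorem jac_of_mul {F : Type*} [Field F] [CharZero F] {x : F} (hx : x ≠ 0) {j e : ℤ}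
    (h : (e : F) * x = (j : F) * x) : j = e := by
  have h1 : (e : F) = (j : F) := mul_right_cancel₀ hx h
  exact_mod_cast h1.symm

private theorem mod16 {F : Type*} [Field F] [CharZero F] {ξ : F} (h8 : ξ ^ 8 = -1) {n : ℕ}
    (h : ξ ^ 15 = ξ ^ n) : n % 16 = 15 := by
  have h1 : ¬ ξ ^ 2 ^ 3 = 1 := by
    intro h1
    rw [show (2 : ℕ) ^ 3 = 8 by norm_num, h8] at h1
    norm_num at h1
  have h2 : ξ ^ 2 ^ (3 + 1) = 1 := by
    rw [show (2 : ℕ) ^ (3 + 1) = 8 * 2 by norm_num, pow_mul, h8]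
    norm_num
  haveI : Fact (Nat.Prime 2) := ⟨Nat.prime_two⟩
  have h3 : orderOf ξ = 16 := by
    rw [orderOf_eq_prime_pow h1 h2]
    norm_num
  have h4 : IsPrimitiveRoot ξ 16 := by
    rw [← h3]
    exact IsPrimitiveRoot.orderOf ξ
  have h5 : ξ ^ (n % 16) = ξ ^ n := by
    have := pow_mod_orderOf ξ n
    rwa [h3] at this
  exact (h4.pow_inj (by norm_num : 15 < 16) (Nat.mod_lt _ (by norm_num)) (h.trans h5.symm)).symm

private theorem ke_sq {K F : Type*} [Field K] [NumberField K] [Field F] [NumberField F]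
    [Algebra K F] {a : ℕ} {s : K} {S : 𝓞 K} {τ : 𝓞 K ≃+* 𝓞 K} {ζ : F}
    {w : ℕ → F} {z k v : Ideal (𝓞 K) → F} {κ : F ≃ₐ[ℚ] F} {u0 v0 : ℤ} {nu : ℕ → ℤ → ℤ}
    {ξ θ e : F} (hX : XD6 K F a s S τ ζ w z k v κ u0 v0 nu ξ θ e) :
    (κ e) ^ 2 = (u0 : F) - (v0 : F) * θ := by
  rw [← map_pow, hX.sq, map_add, map_mul, hX.kth, map_intCast, map_intCast]
  ring

private theorem nrm_eq {K F : Type*} [Field K] [NumberField K] [Field F] [NumberField F]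
    [Algebra K F] {a : ℕ} {s : K} {S : 𝓞 K} {τ : 𝓞 K ≃+* 𝓞 K} {ζ : F}
    {w : ℕ → F} {z k v : Ideal (𝓞 K) → F} {κ : F ≃ₐ[ℚ] F} {u0 v0 : ℤ} {nu : ℕ → ℤ → ℤ}
    {ξ θ e : F} (hs : s ^ 2 = -(a : K))
    (hX : XD6 K F a s S τ ζ w z k v κ u0 v0 nu ξ θ e) :
    ((u0 : F) + (v0 : F) * θ) * ((u0 : F) - (v0 : F) * θ) * 2 = (a : F) ∧
      2 * (u0 ^ 2 + 2 * v0 ^ 2) = (a : ℤ) := by
  have h1 : (e * κ e * θ) ^ 2 = -(a : F) := by
    rw [hX.conj, ← map_pow, hs, map_neg, map_natCast]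
  have h2 : (e * κ e * θ) ^ 2 = e ^ 2 * (κ e) ^ 2 * θ ^ 2 := by ring
  rw [h2, hX.sq, ke_sq hX, hX.th] at h1
  have h3 : ((u0 : F) + (v0 : F) * θ) * ((u0 : F) - (v0 : F) * θ) * 2 = (a : F) := by
    linear_combination -h1
  refine ⟨h3, ?_⟩
  have h4 : 2 * ((u0 : F) ^ 2 + 2 * (v0 : F) ^ 2) = (a : F) := by
    rw [← h3]
    linear_combination (-2) * (v0 : F) ^ 2 * hX.th * (-1 : F)
  exact_mod_cast h4

theorem inert_x6 {K F : Type*} [Field K] [NumberField K] [Field F] [NumberField F]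
    [Algebra K F] [IsGalois ℚ F] {a : ℕ} {s : K} {S : 𝓞 K} {τ : 𝓞 K ≃+* 𝓞 K} {ζ : F}
    {w : ℕ → F} {z k v : Ideal (𝓞 K) → F} {κ : F ≃ₐ[ℚ] F} {u0 v0 : ℤ} {nu : ℕ → ℤ → ℤ}
    {ξ θ e : F} (hb : B6 K a s) (hS : algebraMap (𝓞 K) K S = s) (hτ : τ S = -S)
    (hX : XD6 K F a s S τ ζ w z k v κ u0 v0 nu ξ θ e) {Γ : Type}
    [LinearOrderedCommGroupWithZero Γ] {V : Valuation F Γ} {L : Ideal (𝓞 F)} (hV : VL V L)
    {l : ℕ} (hl : l.Prime) (hl2 : l ≠ 2) (hla : l ∣ a) (hlL : (l : 𝓞 F) ∈ L) {M : ℕ}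
    (hM : M ≠ 0) :
    ∃ (b : Ideal (𝓞 K)) (t : ℤ), OddI b ∧ Nat.Coprime (Ideal.absNorm b) M ∧
      Squarefree (Ideal.absNorm b) ∧ S - (t : 𝓞 K) ∈ b ∧ Ideal.absNorm b % 16 = 15 ∧
      (∀ d, d ∣ a → ¬ l ∣ d → jacobiSym d (Ideal.absNorm b) = 1) ∧
      (∀ c, OddI c → PP z k v (b * cj τ c) - PP z k v c ∈ W5.E1 V) ∧
      (V ((u0 : F) + (v0 : F) * θ) < 1 → nu (Ideal.absNorm b) t = 1) := by
  obtain ⟨ι, hin, hι⟩ := exists_inert6 hb hl hl2 hla hV.prime hlL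
  obtain ⟨h2L, hV2, hVl⟩ := vl_odd hV hl hl2 hlL
  have hU := hX.ud
  have hz := hU.z8
  have hred := vl_red hV (σ := ι) (n := 1) (fun t => by
    obtain ⟨u, hu, hu2⟩ := hin.triv t
    exact ⟨u, hu, by rw [hu2, pow_one]⟩)
  have hred' : ∀ x, V x ≤ 1 → V (ι x - x) < 1 := by
    intro x hx
    have := (hred x hx).2
    rwa [pow_one] at this
  have hζ : ι ζ = ζ := inert_zeta hin hz
  have hx8 : ξ ^ 8 = -1 := by
    have : ξ ^ 8 = (ξ ^ 2) ^ 4 := by ring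
    rw [this, hX.x16, hz]
  have hVξ : V ξ = 1 := by
    refine v_root (n := 8) (by norm_num) ?_
    rw [hx8, Valuation.map_neg, map_one]
  have hιξ : ι ξ = ξ := by
    refine fix_of hV2 hVξ (hred' ξ hVξ.le) ?_
    rw [← map_pow, hX.x16, hζ]
  have hfix : ∀ x : K, ι (κ (algebraMap K F x)) = algebraMap K F x := by
    have hint : ∀ y : 𝓞 K, ι (κ (algebraMap K F (algebraMap (𝓞 K) K y))) =
        algebraMap K F (algebraMap (𝓞 K) K y) := by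
      intro y
      obtain ⟨m, n, hmn⟩ := coords6 hb y
      have e1 : algebraMap K F ((m : K) + n * s) = (m : F) + n * algebraMap K F s := by
        rw [map_add, map_mul, map_intCast, map_intCast]
      rw [hmn, e1, map_add, map_mul, hU.cs, map_intCast, map_intCast, map_add, map_mul, map_neg, hι,
        map_intCast, map_intCast, neg_neg]
    intro x
    obtain ⟨y, t, -, hyt⟩ := IsFractionRing.div_surjective (A := 𝓞 K) x
    rw [← hyt, map_div₀, map_div₀, map_div₀, hint, hint]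
  let σ : F ≃ₐ[K] F := AlgEquiv.ofRingEquiv (f := (κ.trans ι).toRingEquiv) hfix
  have hσ : ∀ x, σ x = ι (κ x) := fun x => rfl
  have ha0 : a ≠ 0 := hb.sf.ne_zero
  obtain ⟨b, t, hbo, hbc, hbsf, hbt, hbA, hbξ, -, hbe⟩ := hX.act4 σ (M * a) (mul_ne_zero hM ha0)
  have hbM : Nat.Coprime (Ideal.absNorm b) M := Nat.Coprime.coprime_mul_right_right hbc
  have hba : Nat.Coprime (Ideal.absNorm b) a := Nat.Coprime.coprime_mul_left_right hbc
  have h16 : Ideal.absNorm b % 16 = 15 := by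
    rw [hσ, hX.kx, map_pow, hιξ] at hbξ
    exact mod16 hx8 hbξ
  have hw0 : ∀ d, d ∣ a → w d ≠ 0 := by
    intro d hd h0
    have h3 := hU.hw d hd
    rw [h0, zero_pow two_ne_zero] at h3
    have hd0 : d ≠ 0 := by
      rintro rfl
      exact ha0 (zero_dvd_iff.1 hd)
    exact (Nat.cast_ne_zero.mpr hd0) h3.symm
  have hcop : ∀ d, d ∣ a → Nat.Coprime d (Ideal.absNorm b) := fun d hd =>
    (Nat.Coprime.coprime_dvd_right hd hba).symm
  have hcj : ∀ c, OddI c → OddI (cj τ c) := by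
    intro c hc
    have := (norm_cj6 hb hS hτ c).1
    unfold OddI at hc ⊢
    rw [this]
    exact hc
  refine ⟨b, t, hbo, hbM, hbsf, hbt, h16, fun d hd hld => ?_, fun c hc => ?_, fun hVe => ?_⟩
  · have h4 := hbA.sq d hd (hcop d hd)
    have h5 : ι (w d) = w d := inert_sq hin (n := (d : ℤ)) (by rw [hU.hw d hd]; push_cast; rfl)
      (notMem_of_not_dvd hin.prime hl hlL hld)
    rw [hσ, hU.cw d hd, h5] at h4
    exact jac_of_mul (hw0 d hd) (e := 1) (by push_cast; rw [one_mul]; exact h4)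
  · have e1 := hU.cc (cj τ c) (hcj c hc)
    rw [(norm_cj6 hb hS hτ c).2.2] at e1
    have e2 := hbA.act (cj τ c) (hcj c hc)
    rw [hσ, hσ, hσ, e1.1, e1.2.1, e1.2.2] at e2
    obtain ⟨f1, f2, f3⟩ := e2
    have hg : gal ι (PP z k v c) = PP z k v (b * cj τ c) := gal_pp ι f1 f2 f3
    obtain ⟨x, y, h, e, hVx, hVy⟩ := pp_val hU hV h2L hc
    rw [← hg, e, gal_pt]
    exact W5.sub_mem hV2 hVx (hred' x hVx) (hred' y hVy)
  · -- the sign
    have hVθ : V θ = 1 := by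
      refine v_root (n := 2) (by norm_num) ?_
      rw [hX.th, Valuation.map_neg, hV2]
    have hιθ : ι θ = θ := by
      refine fix_of hV2 hVθ (hred' θ hVθ.le) ?_
      rw [← map_pow, hX.th, map_neg, map_ofNat]
    obtain ⟨hn1, hn2⟩ := nrm_eq hb.sq hX
    have hle : V ((u0 : F) - (v0 : F) * θ) ≤ 1 := by
      rw [sub_eq_add_neg]
      refine W5.vle V (v_int hV u0) ?_
      rw [Valuation.map_neg]
      exact W5.vlem V (v_int hV v0) hVθ.le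
    have hge : ¬ V ((u0 : F) - (v0 : F) * θ) < 1 := by
      intro hlt
      have k1 : V ((u0 : ℤ) : F) < 1 := by
        have h5 := W5.vlt V hVe hlt
        rw [show (u0 : F) + (v0 : F) * θ + ((u0 : F) - (v0 : F) * θ) = 2 * (u0 : F) by ring,
          map_mul, hV2, one_mul] at h5
        exact h5
      have k2 : V ((v0 : ℤ) : F) < 1 := by
        have h5 : V (-((u0 : F) - (v0 : F) * θ)) < 1 := by rwa [Valuation.map_neg]
        have h6 := W5.vlt V hVe h5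
        rw [show (u0 : F) + (v0 : F) * θ + -((u0 : F) - (v0 : F) * θ) = 2 * ((v0 : F) * θ) by ring,
          map_mul, hV2, one_mul, map_mul, hVθ, mul_one] at h6
        exact h6
      obtain ⟨x, hx⟩ := int_dvd hV hl hlL k1
      obtain ⟨y, hy⟩ := int_dvd hV hl hlL k2
      have h5 : ((l * l : ℕ) : ℤ) ∣ (a : ℤ) := by
        refine ⟨2 * (x ^ 2 + 2 * y ^ 2), ?_⟩
        rw [← hn2, hx, hy]
        push_cast
        ring
      have h6 : l * l ∣ a := by exact_mod_cast h5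
      exact hl.one_lt.ne' (Nat.isUnit_iff.1 (hb.sf l h6))
    have hVm : V ((u0 : F) - (v0 : F) * θ) = 1 := le_antisymm hle (not_lt.1 hge)
    have hVκ : V (κ e) = 1 := by
      refine v_root (n := 2) (by norm_num) ?_
      rw [ke_sq hX, hVm]
    have hικ : ι (κ e) = κ e := by
      refine fix_of hV2 hVκ (hred' _ hVκ.le) ?_
      rw [← map_pow, ke_sq hX, map_sub, map_mul, hιθ, map_intCast, map_intCast]
    have hκ0 : κ e ≠ 0 := by
      intro h0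
      rw [h0, map_zero] at hVκ
      exact zero_ne_one hVκ
    have h7 := hbe (by omega)
    rw [hσ, hικ] at h7
    exact jac_of_mul hκ0 (e := 1) (by push_cast; rw [one_mul]; exact h7)

theorem exists_L6 {K F : Type*} [Field K] [NumberField K] [Field F] [NumberField F]
    [Algebra K F] {a : ℕ} {s : K} {S : 𝓞 K} {τ : 𝓞 K ≃+* 𝓞 K} {ζ : F}
    {w : ℕ → F} {z k v : Ideal (𝓞 K) → F} {κ : F ≃ₐ[ℚ] F} {u0 v0 : ℤ} {nu : ℕ → ℤ → ℤ}
    {ξ θ e : F} (hs : s ^ 2 = -(a : K))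
    (hX : XD6 K F a s S τ ζ w z k v κ u0 v0 nu ξ θ e) {q : ℕ} (hq : q.Prime) (hq2 : q ≠ 2)
    (hqa : q ∣ a) :
    ∃ (L : Ideal (𝓞 F)) (Γ : Type) (_ : LinearOrderedCommGroupWithZero Γ)
      (V : Valuation F Γ), VL V L ∧ (q : 𝓞 F) ∈ L ∧ V ((u0 : F) + (v0 : F) * θ) < 1 := by
  obtain ⟨L', hL', hqL'⟩ := exists_prime6 (F := F) hq
  obtain ⟨Γ, iΓ, V', hV'⟩ := exists_vl (F := F) hL'
  obtain ⟨h2L, hV2, hVq⟩ := vl_odd hV' hq hq2 hqL'
  obtain ⟨hn1, hn2⟩ := nrm_eq hs hX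
  have hVθ : V' θ = 1 := by
    refine v_root (n := 2) (by norm_num) ?_
    rw [hX.th, Valuation.map_neg, hV2]
  have hle1 : V' ((u0 : F) + (v0 : F) * θ) ≤ 1 :=
    W5.vle V' (v_int hV' u0) (W5.vlem V' (v_int hV' v0) hVθ.le)
  have hle2 : V' ((u0 : F) - (v0 : F) * θ) ≤ 1 := by
    rw [sub_eq_add_neg]
    refine W5.vle V' (v_int hV' u0) ?_
    rw [Valuation.map_neg]
    exact W5.vlem V' (v_int hV' v0) hVθ.le
  have hVa : V' (a : F) < 1 := by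
    obtain ⟨m, hm⟩ := hqa
    have h1 : V' ((m : ℕ) : F) ≤ 1 := by
      have := v_int hV' (m : ℤ)
      rwa [Int.cast_natCast] at this
    rw [hm, Nat.cast_mul, mul_comm]
    exact W5.vltm V' h1 hVq
  by_cases h1 : V' ((u0 : F) + (v0 : F) * θ) < 1
  · exact ⟨L', Γ, iΓ, V', hV', hqL', h1⟩
  · have e1 : V' ((u0 : F) + (v0 : F) * θ) = 1 := le_antisymm hle1 (not_lt.1 h1)
    have h2 : V' ((u0 : F) - (v0 : F) * θ) < 1 := by
      rw [← hn1, map_mul, map_mul, e1, hV2, one_mul, mul_one] at hVa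
      exact hVa
    obtain ⟨V, L, hV, hnL, hVκ⟩ := vl_comap hV' κ
    refine ⟨L, Γ, iΓ, V, hV, hnL q hqL', ?_⟩
    rw [hVκ, map_add, map_mul, hX.kth, map_intCast, map_intCast, mul_neg, ← sub_eq_add_neg]
    exact h2

end Pool.Agent.Work.MP_8efaaa_nt.W6
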