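import Mathlib
import Pool.Agent.Work.MP_8efaaa_nt.W5.CPr
import Pool.Agent.Work.MP_8efaaa_nt.W14.CEq
import Pool.Agent.Work.MP_8efaaa_nt.W14.CCo
import Pool.Agent.Work.MP_8efaaa_nt.W14.CUu
import Pool.Agent.Work.MP_8efaaa_nt.K6.ARg
import Pool.Agent.Work.MP_8efaaa_nt.W6.Defs

/-!
# W6/CPr (M): primitive representatives of norm `1` modulo `16`

Model `W5/CPr.lean` (there `Base5`; coordinates here: `exists_S6`: every `x : 𝓞 K` is `p + q * S`), and the minimality argument (1) of `W14/CUu.lean`. `int_mem6`, `t2a6`: copy `int_mem`, `t2a`.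
`exists_prim6`: (1) Among the nonzero ideals `c` with `cls c = C` and `N c` prime to `2 M` (`exists_cop`) take one with minimal norm. As in W5/CPr or W14/CUu: there is `u1` with `S - u1 ∈ c`. Its norm is odd, and `N c = ±1 (mod 8)`: with the `c'` of `hC`: `c * cj τ c'` is principal, of norm `N c N c'`, odd, so `±1 (mod 8)` (`norm_prin`). (`τ` from `exists_tau6`.)
(2) `M0 := ` the odd part of `M * N c` (`M0` odd, every odd prime dividing `M` or `N c` divides `M0`), choose `x` with `x = 1 (mod M0)` and `x = 1` or `3 (mod 8)` (CRT), and `α = x + 8 M0 S` or `α = x + M0 S`: `N α = x^2 + 64 a M0^2 = x^2 (mod 16)` is `1` or `9`; `N α = x^2 + a M0^2 = x^2 + 6 (mod 16)` (`a M0^2 = 6 * 1` or `6 * 9 = 54 = 6 (mod 16)`) is `7` or `15`. So (four cases) `N α N c = 1 (mod 16)` can be reached for `N c ∈ {1, 7, 9, 15} (mod 16)` (`7 * 7 = 1`, `9 * 9 = 1`, `15 * 15 = 1`). `N α`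 is prime to `M0` (it is `x^2 = 1 (mod M0)`) and odd.
(3) `c0 := (α) * c`: `cls c0 = C` (`cls_span`), norm `N α N c = 1 (mod 16)`, prime to `M` (odd; `N c`, `N α` prime to `M`). `S - u ∈ c0`: `x` and `y' = 8 M0` or `M0` are coprime and `gcd(y', N α) = 1`, so there is `u2` with `S - u2 ∈ (α)` (`y' y'' = 1 (mod N α)`, `y'' α = y'' x + S (mod N α)`, `N α ∈ (α)`: `u2 = -y'' x`); `u` by CRT: `u = u1 (mod N c)`, `u = u2 (mod N α)` (`N c`, `N α` coprime), and `(α)`, `c` are coprime ideals, so `(α) ⊓ c = (α) * c`.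
-/

set_option autoImplicit false

namespace Pool.Agent.Work.MP_8efaaa_nt.W6

open NumberField Pool.Agent.Work.MP_8efaaa_nt.R Pool.Agent.Work.MP_8efaaa_nt.N5
  Pool.Agent.Work.MP_8efaaa_nt.K6 Pool.Agent.Work.MP_8efaaa_nt.W14
open scoped Classical nonZeroDivisors

variable {K : Type*} [Field K] [NumberField K] {a : ℕ} {s : K} {S : 𝓞 K}

private theorem cpr6_prim (hb : B6 K a s) (hS : algebraMap (𝓞 K) K S = s) {v : Ideal (𝓞 K)}
    (hmin : ∀ (w : Ideal (𝓞 K)) (c0 : ℤ), v = Ideal.span {(c0 : 𝓞 K)} * w → c0.natAbs = 1) :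
    ∃ x : ℤ, (x : 𝓞 K) + S ∈ v := by
  let J : Ideal ℤ :=
    { carrier := {y | ∃ x : ℤ, (x : 𝓞 K) + (y : 𝓞 K) * S ∈ v}
      zero_mem' := ⟨0, by simp⟩
      add_mem' := by
        rintro y1 y2 ⟨x1, h1⟩ ⟨x2, h2⟩
        refine ⟨x1 + x2, ?_⟩
        have h3 := v.add_mem h1 h2
        convert h3 using 1
        push_cast
        ring
      smul_mem' := by
        rintro k y ⟨x, h⟩
        refine ⟨k * x, ?_⟩
        have h3 := v.mul_mem_left (k : 𝓞 K) h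
        convert h3 using 1
        simp only [smul_eq_mul]
        push_cast
        ring }
  obtain ⟨c0, hc0⟩ := (IsPrincipalIdealRing.principal J).principal
  have hmem : ∀ y : ℤ, (∃ x : ℤ, (x : 𝓞 K) + (y : 𝓞 K) * S ∈ v) ↔ c0 ∣ y := by
    intro y
    have h1 : y ∈ J ↔ c0 ∣ y := by
      rw [hc0]
      exact Ideal.mem_span_singleton
    exact h1
  have hdiv : v ≤ Ideal.span {(c0 : 𝓞 K)} := by
    intro g hg
    obtain ⟨x, y, rfl⟩ := (q6 hb hS).coords g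
    have h1 : c0 ∣ y := (hmem y).1 ⟨x, hg⟩
    have h2 : c0 ∣ x := by
      refine (hmem x).1 ⟨-a * y, ?_⟩
      have h3 := v.mul_mem_left S hg
      convert h3 using 1
      have hsq : S * S = -(a : 𝓞 K) := (q6 hb hS).sq
      push_cast
      linear_combination (-(y : 𝓞 K)) * hsq
    rw [Ideal.mem_span_singleton]
    obtain ⟨y', rfl⟩ := h1
    obtain ⟨x', rfl⟩ := h2
    exact ⟨x' + y' * S, by push_cast; ring⟩
  obtain ⟨w, hw⟩ := Ideal.dvd_iff_le.2 hdiv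
  have h0 := hmin w c0 hw
  have h1 : c0 ∣ 1 := by
    rw [← Int.natAbs_dvd_natAbs, h0]
    norm_num
  obtain ⟨x, hx⟩ := (hmem 1).2 h1
  exact ⟨x, by simpa using hx⟩

private theorem cpr6_min (hb : B6 K a s) (hS : algebraMap (𝓞 K) K S = s)
    (C : ClassGroup (𝓞 K)) {M : ℕ} (hM : M ≠ 0) :
    ∃ (c : Ideal (𝓞 K)) (u : ℤ), c ≠ 0 ∧ Nat.Coprime (Ideal.absNorm c) M ∧
      S - (u : 𝓞 K) ∈ c ∧ cls c = C := by
  have hex : ∃ n : ℕ, ∃ v : Ideal (𝓞 K), v ≠ 0 ∧ Nat.Coprime (Ideal.absNorm v) M ∧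
      cls v = C ∧ Ideal.absNorm v = n := by
    obtain ⟨v, h1, h2, h3⟩ := exists_cop C hM
    exact ⟨_, v, h1, h2, h3, rfl⟩
  obtain ⟨v, h1, h2, h3, h4⟩ := Nat.find_spec hex
  have hmin : ∀ w : Ideal (𝓞 K), w ≠ 0 → Nat.Coprime (Ideal.absNorm w) M →
      cls w = C → Ideal.absNorm v ≤ Ideal.absNorm w := by
    intro w h5 h6 h7
    rw [h4]
    exact Nat.find_min' hex ⟨w, h5, h6, h7, rfl⟩
  obtain ⟨x, hx⟩ := cpr6_prim hb hS (v := v) (by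
    intro w c0 hw
    have hw0 : w ≠ 0 := by
      rintro rfl
      exact h1 (by rw [hw, mul_zero])
    have hc0 : (c0 : 𝓞 K) ≠ 0 := by
      intro h0
      apply h1
      rw [hw, h0]
      have h5 : Ideal.span {(0 : 𝓞 K)} = (0 : Ideal (𝓞 K)) := Ideal.span_singleton_eq_bot.2 rfl
      rw [h5, zero_mul]
    have hs0 : Ideal.span {(c0 : 𝓞 K)} ≠ (0 : Ideal (𝓞 K)) := by
      intro h
      exact hc0 (Ideal.span_singleton_eq_bot.1 h)
    have hcl : cls w = C := by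
      rw [← h3, hw, cls_mul hs0 hw0, cls_span hc0, one_mul]
    have hnm : Ideal.absNorm v = Ideal.absNorm (Ideal.span {(c0 : 𝓞 K)}) * Ideal.absNorm w := by
      rw [← map_mul, ← hw]
    have hcop : Nat.Coprime (Ideal.absNorm w) M :=
      Nat.Coprime.coprime_dvd_left (by rw [hnm]; exact Dvd.intro_left _ rfl) h2
    have hmm := hmin w hw0 hcop hcl
    have hpos : 0 < Ideal.absNorm w :=
      Nat.pos_of_ne_zero fun h => hw0 (Ideal.absNorm_eq_zero_iff.1 h)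
    have hpos2 : 0 < Ideal.absNorm (Ideal.span {(c0 : 𝓞 K)}) :=
      Nat.pos_of_ne_zero fun h => hs0 (Ideal.absNorm_eq_zero_iff.1 h)
    have hone : Ideal.absNorm (Ideal.span {(c0 : 𝓞 K)}) = 1 := by
      rw [hnm] at hmm
      by_contra hne
      have h5 : 2 ≤ Ideal.absNorm (Ideal.span {(c0 : 𝓞 K)}) := by omega
      nlinarith
    have h5 := (q6 hb hS).norm_gen c0 0
    have e : (c0 : 𝓞 K) + ((0 : ℤ) : 𝓞 K) * S = (c0 : 𝓞 K) := by push_cast; ring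
    rw [e, hone] at h5
    have h6 : c0 ^ 2 = 1 := by
      push_cast at h5
      linarith
    rcases sq_eq_sq_iff_eq_or_eq_neg.1 (h6.trans (one_pow 2).symm) with h7 | h7 <;> rw [h7] <;> rfl)
  refine ⟨v, -x, h1, h2, ?_, h3⟩
  have e : S - ((-x : ℤ) : 𝓞 K) = (x : 𝓞 K) + S := by
    push_cast
    ring
  rw [e]
  exact hx

private theorem cpr6_span (hb : B6 K a s) (hS : algebraMap (𝓞 K) K S = s) {x y : ℤ}
    (h : IsCoprime y (x ^ 2 + a * y ^ 2)) :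
    ∃ u : ℤ, S - (u : 𝓞 K) ∈ Ideal.span {(x : 𝓞 K) + (y : 𝓞 K) * S} := by
  obtain ⟨p, q, hpq⟩ := h
  refine ⟨-(p * x), ?_⟩
  have h1 : ((x ^ 2 + a * y ^ 2 : ℤ) : 𝓞 K) ∈ Ideal.span {(x : 𝓞 K) + (y : 𝓞 K) * S} := by
    rw [Ideal.mem_span_singleton]
    refine ⟨(x : 𝓞 K) - (y : 𝓞 K) * S, ?_⟩
    have hsq : S * S = -(a : 𝓞 K) := (q6 hb hS).sq
    push_cast
    linear_combination (y : 𝓞 K) ^ 2 * hsq
  have h2 : (x : 𝓞 K) + (y : 𝓞 K) * S ∈ Ideal.span {(x : 𝓞 K) + (y : 𝓞 K) * S} :=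
    Ideal.mem_span_singleton_self _
  have h3 := Ideal.add_mem _ (Ideal.mul_mem_left _ (p : 𝓞 K) h2)
    (Ideal.mul_mem_left _ ((q : 𝓞 K) * S) h1)
  have hpq' : (p : 𝓞 K) * (y : 𝓞 K) + (q : 𝓞 K) * ((x ^ 2 + a * y ^ 2 : ℤ) : 𝓞 K) = 1 := by
    exact_mod_cast congrArg (Int.cast : ℤ → 𝓞 K) hpq
  have e : S - ((-(p * x) : ℤ) : 𝓞 K) = (p : 𝓞 K) * ((x : 𝓞 K) + (y : 𝓞 K) * S) +
      (q : 𝓞 K) * S * ((x ^ 2 + a * y ^ 2 : ℤ) : 𝓞 K) := by
    push_cast at hpq' ⊢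
    linear_combination (-S) * hpq'
  rw [e]
  exact h3

private theorem cpr6_par (ha : a % 16 = 6) {n M0 : ℕ} (hn : n % 8 = 1 ∨ n % 8 = 7)
    (hM0 : M0 % 2 = 1) : ∃ x y : ℤ, IsCoprime y (x ^ 2 + a * y ^ 2) ∧
      IsCoprime (M0 : ℤ) (x ^ 2 + a * y ^ 2) ∧ ((x ^ 2 + a * y ^ 2) * n) % 16 = 1 := by
  obtain ⟨t, ht⟩ : ∃ t : ℤ, (M0 : ℤ) ^ 2 = 8 * t + 1 := by
    obtain ⟨k, hk⟩ : ∃ k : ℤ, (M0 : ℤ) = 2 * k + 1 := ⟨(M0 : ℤ) / 2, by omega⟩
    obtain ⟨r, hr⟩ := Int.even_mul_succ_self k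
    exact ⟨r, by rw [hk]; linear_combination 4 * hr⟩
  obtain ⟨j, hj⟩ : ∃ j : ℤ, (a : ℤ) = 16 * j + 6 := ⟨(a : ℤ) / 16, by omega⟩
  have hM0c : IsCoprime (M0 : ℤ) (1 + 2 * (M0 : ℤ) ^ 2) := ⟨-(2 * M0), 1, by ring⟩
  have h16 : n % 16 = 1 ∨ n % 16 = 9 ∨ n % 16 = 7 ∨ n % 16 = 15 := by omega
  rcases h16 with h | h | h | h
  · -- `1`
    obtain ⟨m, hm⟩ : ∃ m : ℤ, (n : ℤ) = 16 * m + 1 := ⟨(n : ℤ) / 16, by omega⟩
    refine ⟨1, 0, ?_, ?_, ?_⟩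
    · refine ⟨0, 1, by ring⟩
    · refine ⟨0, 1, by ring⟩
    · rw [hm]
      have e : ((1 : ℤ) ^ 2 + a * 0 ^ 2) * (16 * m + 1) = 16 * m + 1 := by ring
      rw [e]
      omega
  · -- `9`
    obtain ⟨m, hm⟩ : ∃ m : ℤ, (n : ℤ) = 16 * m + 9 := ⟨(n : ℤ) / 16, by omega⟩
    refine ⟨1 + 2 * (M0 : ℤ) ^ 2, 8 * M0, ?_, ?_, ?_⟩
    · have h8 : IsCoprime (8 : ℤ) (1 + 2 * (M0 : ℤ) ^ 2) := by
        have h2 : IsCoprime (2 : ℤ) (1 + 2 * (M0 : ℤ) ^ 2) := ⟨-(M0 : ℤ) ^ 2, 1, by ring⟩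
        have h3 := h2.pow_left (m := 3)
        norm_num at h3
        exact h3
      have h1 : IsCoprime (8 * (M0 : ℤ)) ((1 + 2 * (M0 : ℤ) ^ 2) ^ 2) :=
        (IsCoprime.mul_left h8 hM0c).pow_right
      have h2 := h1.add_mul_left_right (a * (8 * (M0 : ℤ)))
      have e : (1 + 2 * (M0 : ℤ) ^ 2) ^ 2 + 8 * (M0 : ℤ) * (a * (8 * (M0 : ℤ))) =
          (1 + 2 * (M0 : ℤ) ^ 2) ^ 2 + a * (8 * (M0 : ℤ)) ^ 2 := by ring
      rw [e] at h2
      exact h2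
    · have h1 : IsCoprime (M0 : ℤ) ((1 + 2 * (M0 : ℤ) ^ 2) ^ 2) := hM0c.pow_right
      have h2 := h1.add_mul_left_right (a * (64 * (M0 : ℤ)))
      have e : (1 + 2 * (M0 : ℤ) ^ 2) ^ 2 + (M0 : ℤ) * (a * (64 * (M0 : ℤ))) =
          (1 + 2 * (M0 : ℤ) ^ 2) ^ 2 + a * (8 * (M0 : ℤ)) ^ 2 := by ring
      rw [e] at h2
      exact h2
    · rw [ht, hm, hj]
      have e : ((1 + 2 * (8 * t + 1)) ^ 2 + (16 * j + 6) * (8 * (M0 : ℤ)) ^ 2) * (16 * m + 9) =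
          16 * (((6 * t + 16 * t ^ 2) + (16 * j + 6) * 4 * (M0 : ℤ) ^ 2) * (16 * m + 9) +
            9 * m + 5) + 1 := by ring
      rw [e]
      omega
  · -- `7`
    obtain ⟨m, hm⟩ : ∃ m : ℤ, (n : ℤ) = 16 * m + 7 := ⟨(n : ℤ) / 16, by omega⟩
    refine ⟨1, M0, ?_, ?_, ?_⟩
    · exact ⟨-(a * M0), 1, by ring⟩
    · exact ⟨-(a * M0), 1, by ring⟩
    · rw [ht, hm, hj]
      have e : ((1 : ℤ) ^ 2 + (16 * j + 6) * (8 * t + 1)) * (16 * m + 7) =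
          16 * ((8 * j * t + j + 3 * t) * (16 * m + 7) + 7 * m + 3) + 1 := by ring
      rw [e]
      omega
  · -- `15`
    obtain ⟨m, hm⟩ : ∃ m : ℤ, (n : ℤ) = 16 * m + 15 := ⟨(n : ℤ) / 16, by omega⟩
    refine ⟨1 + 2 * (M0 : ℤ) ^ 2, M0, ?_, ?_, ?_⟩
    · have h1 : IsCoprime (M0 : ℤ) ((1 + 2 * (M0 : ℤ) ^ 2) ^ 2) := hM0c.pow_right
      have h2 := h1.add_mul_left_right (a * (M0 : ℤ))
      have e : (1 + 2 * (M0 : ℤ) ^ 2) ^ 2 + (M0 : ℤ) * (a * (M0 : ℤ)) =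
          (1 + 2 * (M0 : ℤ) ^ 2) ^ 2 + a * (M0 : ℤ) ^ 2 := by ring
      rw [e] at h2
      exact h2
    · have h1 : IsCoprime (M0 : ℤ) ((1 + 2 * (M0 : ℤ) ^ 2) ^ 2) := hM0c.pow_right
      have h2 := h1.add_mul_left_right (a * (M0 : ℤ))
      have e : (1 + 2 * (M0 : ℤ) ^ 2) ^ 2 + (M0 : ℤ) * (a * (M0 : ℤ)) =
          (1 + 2 * (M0 : ℤ) ^ 2) ^ 2 + a * (M0 : ℤ) ^ 2 := by ring
      rw [e] at h2
      exact h2
    · rw [ht, hm, hj]
      have e : ((1 + 2 * (8 * t + 1)) ^ 2 + (16 * j + 6) * (8 * t + 1)) * (16 * m + 15) =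
          16 * ((6 * t + 16 * t ^ 2 + 8 * j * t + j + 3 * t) * (16 * m + 15) + 15 * m + 14) +
            1 := by ring
      rw [e]
      omega

theorem int_mem6 (hb : B6 K a s) (hS : algebraMap (𝓞 K) K S = s)
    {b : Ideal (𝓞 K)} {t : ℤ} (ht : S - (t : 𝓞 K) ∈ b) {n : ℤ} (hn : (n : 𝓞 K) ∈ b) :
    (Ideal.absNorm b : ℤ) ∣ n := by
  have hQ := q6 hb hS
  have hsurj : Function.Surjective (Int.castRingHom (𝓞 K ⧸ b)) := by
    intro z
    obtain ⟨z, rfl⟩ := Ideal.Quotient.mk_surjective z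
    obtain ⟨x, y, rfl⟩ := hQ.coords z
    refine ⟨x + y * t, ?_⟩
    rw [eq_intCast]
    have e : ((x + y * t : ℤ) : 𝓞 K ⧸ b) = Ideal.Quotient.mk b ((x + y * t : ℤ) : 𝓞 K) := by
      rw [map_intCast]
    rw [e, Ideal.Quotient.eq]
    have e2 : ((x + y * t : ℤ) : 𝓞 K) - ((x : 𝓞 K) + (y : 𝓞 K) * S) =
        -(y : 𝓞 K) * (S - (t : 𝓞 K)) := by
      push_cast
      ring
    rw [e2]
    exact b.mul_mem_left _ ht
  have hcard : Ideal.absNorm (RingHom.ker (Int.castRingHom (𝓞 K ⧸ b))) = Ideal.absNorm b := by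
    rw [Ideal.absNorm_apply, Ideal.absNorm_apply, Submodule.cardQuot_apply,
      Submodule.cardQuot_apply]
    exact Nat.card_congr (RingHom.quotientKerEquivOfSurjective hsurj).toEquiv
  have hker : n ∈ RingHom.ker (Int.castRingHom (𝓞 K ⧸ b)) := by
    rw [RingHom.mem_ker, eq_intCast]
    have e : ((n : ℤ) : 𝓞 K ⧸ b) = Ideal.Quotient.mk b (n : 𝓞 K) := by
      rw [map_intCast]
    rw [e, Ideal.Quotient.eq_zero_iff_mem]
    exact hn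
  rw [← Int.ideal_span_absNorm_eq_self (RingHom.ker (Int.castRingHom (𝓞 K ⧸ b))), hcard,
    Ideal.mem_span_singleton] at hker
  exact hker

theorem t2a6 (hb : B6 K a s) (hS : algebraMap (𝓞 K) K S = s)
    {b : Ideal (𝓞 K)} {t : ℤ} (ht : S - (t : 𝓞 K) ∈ b) :
    (Ideal.absNorm b : ℤ) ∣ t ^ 2 + a := by
  have hQ := q6 hb hS
  apply int_mem6 hb hS ht
  have e : ((t ^ 2 + a : ℤ) : 𝓞 K) = -(S + (t : 𝓞 K)) * (S - (t : 𝓞 K)) := by
    push_cast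
    linear_combination hQ.sq
  rw [e]
  exact b.mul_mem_left _ ht

theorem exists_prim6 (hb : B6 K a s) (ha : a % 16 = 6) (hS : algebraMap (𝓞 K) K S = s)
    {C : ClassGroup (𝓞 K)} (hC : ∃ c : Ideal (𝓞 K), Ideal.absNorm c % 8 = 1 ∧ cls c = C)
    {M : ℕ} (hM : M ≠ 0) :
    ∃ (c0 : Ideal (𝓞 K)) (u : ℤ), Ideal.absNorm c0 % 16 = 1 ∧
      Nat.Coprime (Ideal.absNorm c0) M ∧ S - (u : 𝓞 K) ∈ c0 ∧ cls c0 = C := by
  obtain ⟨τ, hτ⟩ := exists_tau6 hb hS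
  obtain ⟨c', hc'8, hc'C⟩ := hC
  obtain ⟨c, u1, hc0, hcop, hu1, hcC⟩ := cpr6_min hb hS C (M := 2 * M)
    (mul_ne_zero two_ne_zero hM)
  have hcodd : Ideal.absNorm c % 2 = 1 :=
    Nat.odd_iff.1 (Nat.coprime_two_right.1 (Nat.Coprime.coprime_dvd_right ⟨M, rfl⟩ hcop))
  have hcM : Nat.Coprime (Ideal.absNorm c) M :=
    Nat.Coprime.coprime_dvd_right ⟨2, by ring⟩ hcop
  have hc'0 : c' ≠ 0 := by
    rintro rfl
    rw [map_zero] at hc'8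
    omega
  -- the norm modulo `8`
  have hn8 : Ideal.absNorm c % 8 = 1 ∨ Ideal.absNorm c % 8 = 7 := by
    obtain ⟨h1, h2⟩ := cls_cj hb hS hτ hc'0
    obtain ⟨n1, -, -⟩ := norm_cj6 hb hS hτ c'
    have h3 : cls (c * cj τ c') = 1 := by
      rw [cls_mul hc0 h1, h2, hcC, hc'C, mul_inv_cancel]
    obtain ⟨γ, hγ0, hγ⟩ := prin_of_cls (mul_ne_zero hc0 h1) h3
    have hNγ : Ideal.absNorm (Ideal.span {γ}) = Ideal.absNorm c * Ideal.absNorm c' := by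
      rw [← hγ, map_mul, n1]
    have hm : Ideal.absNorm (Ideal.span {γ}) % 8 = Ideal.absNorm c % 8 := by
      rw [hNγ, Nat.mul_mod, hc'8, mul_one, Nat.mod_mod]
    have hodd : OddI (Ideal.span {γ}) := by
      unfold OddI
      rw [Nat.odd_iff]
      omega
    rcases norm_prin hb hS hodd with h4 | h4
    · left
      omega
    · right
      omega
  obtain ⟨k, Mo, hMo, hMeq⟩ := Nat.exists_eq_two_pow_mul_odd hM
  have hMo2 := Nat.odd_iff.1 hMo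
  obtain ⟨x, y, hy, hM0, h16⟩ := cpr6_par ha hn8 (M0 := Ideal.absNorm c * Mo)
    (by rw [Nat.mul_mod, hcodd, hMo2])
  obtain ⟨u2, hu2⟩ := cpr6_span hb hS hy
  have hNα := (q6 hb hS).norm_gen x y
  generalize hα : (x : 𝓞 K) + (y : 𝓞 K) * S = α at hu2 hNα
  rw [← hNα] at hM0 h16
  have hM0' : Nat.Coprime (Ideal.absNorm c * Mo) (Ideal.absNorm (Ideal.span {α})) := by
    rw [← Nat.isCoprime_iff_coprime]
    exact_mod_cast hM0
  have h16' : (Ideal.absNorm (Ideal.span {α}) * Ideal.absNorm c) % 16 = 1 := by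
    have h1 : ((Ideal.absNorm (Ideal.span {α}) * Ideal.absNorm c : ℕ) : ℤ) % 16 = 1 := by
      push_cast
      exact h16
    omega
  have hαodd : Ideal.absNorm (Ideal.span {α}) % 2 = 1 := by
    have h1 : (Ideal.absNorm (Ideal.span {α}) * Ideal.absNorm c) % 2 = 1 := by omega
    rw [Nat.mul_mod, hcodd, mul_one, Nat.mod_mod] at h1
    exact h1
  have hα0 : α ≠ 0 := by
    rintro rfl
    have h1 : Ideal.span {(0 : 𝓞 K)} = (0 : Ideal (𝓞 K)) := Ideal.span_singleton_eq_bot.2 rfl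
    rw [h1, map_zero] at hαodd
    omega
  have hs0 : Ideal.span {α} ≠ (0 : Ideal (𝓞 K)) := by
    intro h
    exact hα0 (Ideal.span_singleton_eq_bot.1 h)
  have hcc : Nat.Coprime (Ideal.absNorm c) (Ideal.absNorm (Ideal.span {α})) :=
    Nat.Coprime.coprime_mul_right hM0'
  have hMoα : Nat.Coprime Mo (Ideal.absNorm (Ideal.span {α})) :=
    Nat.Coprime.coprime_mul_left hM0'
  have hαM : Nat.Coprime (Ideal.absNorm (Ideal.span {α})) M := by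
    rw [hMeq]
    refine Nat.Coprime.mul_right ?_ hMoα.symm
    exact (Nat.coprime_two_right.2 (Nat.odd_iff.2 hαodd)).pow_right k
  -- the coefficients
  have hcc' : IsCoprime ((Ideal.absNorm c : ℕ) : ℤ)
      ((Ideal.absNorm (Ideal.span {α}) : ℕ) : ℤ) := Nat.isCoprime_iff_coprime.2 hcc
  obtain ⟨p, q, hpq⟩ := hcc'
  have hnc : ((Ideal.absNorm c : ℕ) : 𝓞 K) ∈ c := Ideal.absNorm_mem c
  have hna : ((Ideal.absNorm (Ideal.span {α}) : ℕ) : 𝓞 K) ∈ Ideal.span {α} :=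
    Ideal.absNorm_mem _
  have hpq' : (p : 𝓞 K) * ((Ideal.absNorm c : ℕ) : 𝓞 K) +
      (q : 𝓞 K) * ((Ideal.absNorm (Ideal.span {α}) : ℕ) : 𝓞 K) = 1 := by
    exact_mod_cast congrArg (Int.cast : ℤ → 𝓞 K) hpq
  have hco : IsCoprime (Ideal.span {α}) c := by
    rw [Ideal.isCoprime_iff_exists]
    exact ⟨_, Ideal.mul_mem_left _ (q : 𝓞 K) hna, _, Ideal.mul_mem_left _ (p : 𝓞 K) hnc, by
      rw [← hpq']; ring⟩
  refine ⟨Ideal.span {α} * c, u1 * (q * ((Ideal.absNorm (Ideal.span {α}) : ℕ) : ℤ)) +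
    u2 * (p * ((Ideal.absNorm c : ℕ) : ℤ)), ?_, ?_, ?_, ?_⟩
  · rw [map_mul]
    exact h16'
  · rw [map_mul]
    exact Nat.Coprime.mul_left hαM hcM
  · rw [Ideal.mul_eq_inf_of_isCoprime hco]
    refine ⟨?_, ?_⟩
    · have e : S - ((u1 * (q * ((Ideal.absNorm (Ideal.span {α}) : ℕ) : ℤ)) +
          u2 * (p * ((Ideal.absNorm c : ℕ) : ℤ)) : ℤ) : 𝓞 K) =
          (S - (u2 : 𝓞 K)) + ((u2 : 𝓞 K) - (u1 : 𝓞 K)) * (q : 𝓞 K) *
            ((Ideal.absNorm (Ideal.span {α}) : ℕ) : 𝓞 K) := by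
        push_cast
        linear_combination (-(u2 : 𝓞 K)) * hpq'
      rw [e]
      exact Ideal.add_mem _ hu2 (Ideal.mul_mem_left _ _ hna)
    · have e : S - ((u1 * (q * ((Ideal.absNorm (Ideal.span {α}) : ℕ) : ℤ)) +
          u2 * (p * ((Ideal.absNorm c : ℕ) : ℤ)) : ℤ) : 𝓞 K) =
          (S - (u1 : 𝓞 K)) + ((u1 : 𝓞 K) - (u2 : 𝓞 K)) * (p : 𝓞 K) *
            ((Ideal.absNorm c : ℕ) : 𝓞 K) := by
        push_cast
        linear_combination (-(u1 : 𝓞 K)) * hpq'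
      rw [e]
      exact Ideal.add_mem _ hu1 (Ideal.mul_mem_left _ _ hnc)
  · rw [cls_mul hs0 hc0, cls_span hα0, one_mul, hcC]

end Pool.Agent.Work.MP_8efaaa_nt.W6
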