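import Mathlib
import Pool.Agent.Work.MP_8efaaa_nt.W6.Defs
import Pool.Agent.Work.MP_8efaaa_nt.W6.SDir

/-!
# W6/SLa (M): the symbol at the primes `1` and `3` modulo `8`

PROOF. `m = u^2 + 2 v^2`. Work in an algebraic closure `k` of `ZMod l` (or any field with the needed elements). Let `g : GaussianInt →+* k` be any homomorphism, `i = g I`, and `h : ℤ√(-2) →+* k` any homomorphism, `θ = h ⟨0, 1⟩`, `θ^2 = -2` (both exist: `i`, `θ` roots of polynomials; `Zsqrtd.lift`). Put `r = θ / i`, `r^2 = 2`, `θ = r i`. `B = u + v θ = h ⟨u, v⟩`, `B (u - vθ) = m ≠ 0`.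
`ω = ⟨x, 2 v y⟩`; in `k`: `x = -t y`, `g ω = y ω_l`, `ω_l = -t + 2 v i`, `t^2 = -2 m`, so `ω_l (-t - 2vi) = t^2 + 4 v^2 = -2 u^2 ≠ 0`, `nmG ω = x^2 + 4 v^2 y^2 = y^2 (t^2 + 4v^2) = -2 u^2 y^2 ≠ 0`. `Z := -t + r u + 2 v i`; `Z^2 = 2 r B ω_l` (both sides are `-8 v^2 - 2 r t u - 4 t v i + 4 r u v i`).
CASE `l = 1 (mod 8)`: `i`, `r`, `θ`, `Z` are in the prime field (`i^l = i` etc.: `i^(l-1) = (i^4)^((l-1)/4) = 1`; `r^(l-1) = 2^((l-1)/2) = 1` as `(2/l) = 1`), so `Z^l = Z`, `Z^(l-1) = 1`: `(2r)^((l-1)/2) B^((l-1)/2) ω_l^((l-1)/2) = 1`, `2 r = r^3`, `(2r)^((l-1)/2) = r^(3(l-1)/2) = 2^(3 (l-1)/4) = 2^((l-1)/4) 2^((l-1)/2) = 2^((l-1)/4)`.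
`QX.f1`: `(g ω)^((l-1)/2) (nmG ω)^((l-1)/4) g(X l) = 1`, i.e. `y^((l-1)/2) ω_l^((l-1)/2) (-2u^2y^2)^((l-1)/4) g(X l) = 1`; `y^(l-1) = 1`, `(-1)^((l-1)/4) = 1` (`(l-1)/4` even), `u^((l-1)/2) = (u/l)`: `ω_l^((l-1)/2) 2^((l-1)/4) (u/l) g(X l) = 1`. So `B^((l-1)/2) = (u/l) g(X l)`.
CASE `l = 3 (mod 8)`: `θ^l = θ` (`(-2)^((l-1)/2) = 1`), `i^l = -i`, `r^l = -r` (`2^((l-1)/2) = -1`), so `Z^l = -t - r u - 2 v i`, `Z^(l+1) = t^2 - (r u + 2 v i)^2 = t^2 - 2u^2 + 4v^2 - 4 u v θ = -4 u B` (`t^2 = -2u^2 - 4v^2`). So `(2r)^((l+1)/2) B^((l+1)/2) ω_l^((l+1)/2) = -4 u B`.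
`QX.f3`: `y^((l+1)/2) ω_l^((l+1)/2) (-2u^2y^2)^((l+1)/4) = g(X(-l)) (-2u^2y^2)`; `y^((l+1)/2) (y^2)^((l+1)/4) = y^(l+1) = y^2`, `(u^2)^((l+1)/4) = u^((l+1)/2) = (u/l) u`: `ω_l^((l+1)/2) (-2)^((l+1)/4) (u/l) = -2 u g(X(-l))`. `(2r)^((l+1)/2) = 8^((l+1)/4)`, `(l+1)/4` is odd, `8^n / (-2)^n = -(4^n) = -2^((l+1)/2) = -2 * 2^((l-1)/2) = 2` for `n = (l+1)/4`. Hence `B^((l-1)/2) g(X(-l)) (u/l) = 1`.
END. In both cases `B^((l-1)/2) * g(X(l*)) * (u/l) = 1` for EVERY `h` (both signs of `θ`), `l* = l` or `-l`; `B^(l-1) = 1` (`B` in the prime field, not `0`), so `g(X(l*))^2 = 1`, and `X(l*)` is a fourth root of unity (`QX.four`, `l` prime to `nmG ω`), so `X(l*) = ±1 =: c'` (`g` separates `1, -1, I, -I`), `c := c' (u/l) = ±1`, and `h(⟨u,v⟩^((l-1)/2)) = c` for both `h` over the prime field `ZMod l`; so `l ∣ ⟨u,v⟩^((l-1)/2) - c` in `ℤ√(-2)` (an element `A + B √-2` killed by both homomorphisms to `ZMod l` (or `k`): `A + Bθ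 = A - Bθ = 0`, so `l ∣ A, B`). If `c = 1`: `nuP = 1`; if `c = -1`: `nuP = -1` because `l ∤ 2`. So `nuP = c` and `X(l*) = c (u/l)`.
-/

set_option autoImplicit false

namespace Pool.Agent.Work.MP_8efaaa_nt.W6

private theorem sla_jac {k : Type} [Field k] {l : ℕ} [Fact l.Prime] [Algebra (ZMod l) k] (a : ℤ) :
    ((jacobiSym a l : ℤ) : k) = (a : k) ^ (l / 2) := by
  have h2 := congrArg (algebraMap (ZMod l) k) (legendreSym.eq_pow l a)
  rw [map_intCast, map_pow, map_intCast] at h2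
  rw [← jacobiSym.legendreSym.to_jacobiSym]
  exact h2

/-- the algebra, `l = 8 a + 1`. -/
private theorem sla_alg1 {k : Type} [Field k] {a : ℕ} {r u y w B Z J G : k}
    (h2 : (2 : k) ^ (4 * a) = 1) (hr : r ^ 2 = 2) (hZ2 : Z ^ 2 = 2 * r * B * w)
    (hZ : Z ^ (8 * a) = 1) (hy : y ^ (8 * a) = 1) (hJ : u ^ (4 * a) = J)
    (hB : B ^ (8 * a) = 1)
    (hf : (y * w) ^ (4 * a) * (-2 * u ^ 2 * y ^ 2) ^ (2 * a) * G = 1) :
    B ^ (4 * a) * G * J = 1 := by
  have e1 : 2 ^ (2 * a) * B ^ (4 * a) * w ^ (4 * a) = 1 := by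
    have h3 : (Z ^ 2) ^ (4 * a) = 1 := by
      rw [← pow_mul, show 2 * (4 * a) = 8 * a by ring]
      exact hZ
    rw [hZ2, mul_pow, mul_pow, mul_pow, h2, one_mul] at h3
    have h4 : r ^ (4 * a) = 2 ^ (2 * a) := by
      rw [show 4 * a = 2 * (2 * a) by ring, pow_mul, hr]
    rw [h4] at h3
    exact h3
  have e2 : 2 ^ (2 * a) * w ^ (4 * a) * J * G = 1 := by
    have h3 : (-2 * u ^ 2 * y ^ 2) ^ (2 * a) = 2 ^ (2 * a) * u ^ (4 * a) * y ^ (4 * a) := by
      rw [mul_pow, mul_pow, ← pow_mul, ← pow_mul, show 2 * (2 * a) = 4 * a by ring,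
        (even_two_mul a).neg_pow]
    rw [h3, mul_pow, hJ] at hf
    have h4 : y ^ (4 * a) * y ^ (4 * a) = 1 := by
      rw [← pow_add, show 4 * a + 4 * a = 8 * a by ring]
      exact hy
    linear_combination hf - 2 ^ (2 * a) * w ^ (4 * a) * J * G * h4
  have e3 : B ^ (4 * a) * B ^ (4 * a) = 1 := by
    rw [← pow_add, show 4 * a + 4 * a = 8 * a by ring]
    exact hB
  linear_combination (-(B ^ (4 * a) * G * J)) * e1 + (B ^ (4 * a) * B ^ (4 * a)) * e2 + e3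

/-- the algebra, `l = 8 a + 3`. -/
private theorem sla_alg3 {k : Type} [Field k] {a : ℕ} {r u y w B Z J G : k} (h20 : (2 : k) ≠ 0)
    (hu0 : u ≠ 0) (hy0 : y ≠ 0) (hB0 : B ≠ 0)
    (h2 : (2 : k) ^ (4 * a + 1) = -1) (hr : r ^ 2 = 2) (hZ2 : Z ^ 2 = 2 * r * B * w)
    (hZ : Z ^ (8 * a + 4) = -4 * u * B) (hy : y ^ (8 * a + 2) = 1) (hJ : u ^ (4 * a + 1) = J)
    (hJ2 : J * J = 1)
    (hf : (y * w) ^ (4 * a + 2) * (-2 * u ^ 2 * y ^ 2) ^ (2 * a + 1) =
      G * (-2 * u ^ 2 * y ^ 2)) :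
    B ^ (4 * a + 1) * G * J = 1 := by
  have hD : (2 : k) ^ (2 * a + 1) * 2 ^ (2 * a + 1) = -2 := by
    rw [← pow_add, show 2 * a + 1 + (2 * a + 1) = (4 * a + 1) + 1 by ring, pow_succ, h2]
    ring
  set D : k := 2 ^ (2 * a + 1) with hDdef
  have e1 : D * B ^ (4 * a + 1) * w ^ (4 * a + 2) = 2 * u := by
    have h3 : (Z ^ 2) ^ (4 * a + 2) = -4 * u * B := by
      rw [← pow_mul, show 2 * (4 * a + 2) = 8 * a + 4 by ring]
      exact hZ
    have h4 : r ^ (4 * a + 2) = D := by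
      rw [show 4 * a + 2 = 2 * (2 * a + 1) by ring, pow_mul, hr]
    have h5 : (2 : k) ^ (4 * a + 2) = -2 := by
      rw [show 4 * a + 2 = (4 * a + 1) + 1 by ring, pow_succ, h2]
      ring
    rw [hZ2, mul_pow, mul_pow, mul_pow, h4, h5, pow_succ B (4 * a + 1)] at h3
    apply mul_left_cancel₀ hB0
    apply mul_left_cancel₀ h20
    linear_combination (-1) * h3
  have e2 : w ^ (4 * a + 2) * D * J = 2 * u * G := by
    have h3 : (-2 * u ^ 2 * y ^ 2) ^ (2 * a + 1) = -D * (J * u) * y ^ (4 * a + 2) := by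
      rw [mul_pow, mul_pow, ← pow_mul, ← pow_mul, show 2 * (2 * a + 1) = 4 * a + 1 + 1 by ring,
        pow_succ u, hJ, Odd.neg_pow ⟨a, rfl⟩]
    rw [h3, mul_pow] at hf
    have h4 : y ^ (4 * a + 2) * y ^ (4 * a + 2) = y ^ 2 := by
      rw [← pow_add, show 4 * a + 2 + (4 * a + 2) = (8 * a + 2) + 2 by ring, pow_add, hy, one_mul]
    apply mul_left_cancel₀ (pow_ne_zero 2 hy0)
    apply mul_left_cancel₀ hu0
    linear_combination (-1) * hf - u * w ^ (4 * a + 2) * D * J * h4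
  have e3 : J = B ^ (4 * a + 1) * G := by
    apply mul_left_cancel₀ hu0
    apply mul_left_cancel₀ h20
    linear_combination (-J) * e1 + B ^ (4 * a + 1) * e2
  rw [← e3]
  exact hJ2

private theorem sla_core {k : Type} [Field k] {l : ℕ} [hF : Fact l.Prime] [CharP k l]
    [Algebra (ZMod l) k] (h8 : l % 8 = 1 ∨ l % 8 = 3) {u v x y t : ℤ} {X : ℤ → GaussianInt}
    (hX : QX ⟨x, 2 * v * y⟩ X) (ht : (l : ℤ) ∣ t ^ 2 + 2 * (u ^ 2 + 2 * v ^ 2))
    (hxt : (l : ℤ) ∣ x + t * y) (hy : ¬ (l : ℤ) ∣ y) (hu : ¬ (l : ℤ) ∣ u)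
    (hm : ¬ (l : ℤ) ∣ u ^ 2 + 2 * v ^ 2) (g : GaussianInt →+* k) (θ : k) (hθ : θ ^ 2 = -2) :
    ((u : k) + v * θ) ^ (l / 2) * g (X (if l % 4 = 1 then l else -l)) *
      ((jacobiSym u l : ℤ) : k) = 1 ∧ ((u : k) + v * θ) ^ (l - 1) = 1 ∧
      ¬ (l : ℤ) ∣ nmG ⟨x, 2 * v * y⟩ ∧ (2 : k) ≠ 0 := by
  have hl := hF.out
  have hz : ∀ a : ℤ, (a : k) = 0 ↔ (l : ℤ) ∣ a := fun a => CharP.intCast_eq_zero_iff k l a
  have h20 : (2 : k) ≠ 0 := by
    intro h
    have h1 : ((2 : ℤ) : k) = 0 := by exact_mod_cast h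
    have h2 := (hz 2).1 h1
    have h3 := Int.le_of_dvd (by norm_num) h2
    have h4 := hl.two_le
    have h5 : l = 2 := by omega
    omega
  have hyk : (y : k) ≠ 0 := fun h => hy ((hz y).1 h)
  have huk : (u : k) ≠ 0 := fun h => hu ((hz u).1 h)
  have hmk : (u : k) ^ 2 + 2 * (v : k) ^ 2 ≠ 0 := by
    intro h
    apply hm
    rw [← hz]
    push_cast
    exact h
  have htk : (t : k) ^ 2 = -2 * ((u : k) ^ 2 + 2 * (v : k) ^ 2) := by
    have h1 := (hz _).2 ht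
    push_cast at h1
    linear_combination h1
  have hxk : (x : k) = -(t : k) * y := by
    have h1 := (hz _).2 hxt
    push_cast at h1
    linear_combination h1
  have hgI : (g ⟨0, 1⟩) ^ 2 = -1 := by
    rw [← map_pow]
    have h1 : (⟨0, 1⟩ : GaussianInt) ^ 2 = -1 := by
      rw [sq, Zsqrtd.ext_iff]
      exact ⟨rfl, rfl⟩
    rw [h1, map_neg, map_one]
  set i : k := g ⟨0, 1⟩ with hi
  have hgω : g ⟨x, 2 * v * y⟩ = y * (-t + 2 * v * i) := by
    have h1 : (⟨x, 2 * v * y⟩ : GaussianInt) = (x : GaussianInt) + ⟨0, 1⟩ * ((2 * v * y : ℤ) : GaussianInt) :=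
      Zsqrtd.decompose
    rw [h1, map_add, map_mul, map_intCast, map_intCast, ← hi, hxk]
    push_cast
    ring
  have hnm : ((nmG ⟨x, 2 * v * y⟩ : ℤ) : k) = -2 * (u : k) ^ 2 * (y : k) ^ 2 := by
    unfold nmG
    push_cast
    rw [hxk]
    linear_combination (y : k) ^ 2 * htk
  have hnm0 : ¬ (l : ℤ) ∣ nmG ⟨x, 2 * v * y⟩ := by
    rw [← hz, hnm]
    exact mul_ne_zero (mul_ne_zero (neg_ne_zero.2 h20) (pow_ne_zero 2 huk)) (pow_ne_zero 2 hyk)
  have hi2 : i ^ 2 = -1 := hgI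
  set r : k := -θ * i with hr
  have hr2 : r ^ 2 = 2 := by
    rw [hr]
    linear_combination i ^ 2 * hθ - 2 * hi2
  have hri : r * i = θ := by
    rw [hr]
    linear_combination (-θ) * hi2
  set B : k := (u : k) + v * θ with hB
  set w : k := -(t : k) + 2 * v * i with hw
  have hB0 : B ≠ 0 := by
    intro h
    apply hmk
    have h1 : B * ((u : k) - v * θ) = (u : k) ^ 2 + 2 * (v : k) ^ 2 := by
      rw [hB]
      linear_combination (-(v : k) ^ 2) * hθ
    rw [← h1, h, zero_mul]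
  have hw0 : w ≠ 0 := by
    intro h
    have h1 : w * (-(t : k) - 2 * v * i) = -2 * (u : k) ^ 2 := by
      rw [hw]
      linear_combination htk - 4 * (v : k) ^ 2 * hi2
    rw [h, zero_mul] at h1
    exact mul_ne_zero (neg_ne_zero.2 h20) (pow_ne_zero 2 huk) h1.symm
  have hr0 : r ≠ 0 := by
    intro h
    rw [h] at hr2
    apply h20
    rw [← hr2]
    ring
  set Z : k := w + r * u with hZdef
  have hZ2 : Z ^ 2 = 2 * r * B * w := by
    rw [hZdef, hB, hw]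
    linear_combination htk + ((u : k) ^ 2 - 2 * v * i * (-(t : k) + 2 * v * i)) * hr2 +
      2 * r * v * (-(t : k) + 2 * v * i) * hri - 4 * (v : k) ^ 2 * hi2
  have hZ0 : Z ≠ 0 := by
    intro h
    rw [h] at hZ2
    have h1 : 2 * r * B * w ≠ 0 := mul_ne_zero (mul_ne_zero (mul_ne_zero h20 hr0) hB0) hw0
    exact h1 (by rw [← hZ2]; ring)
  have hint : ∀ a : ℤ, (a : k) ^ l = a := by
    intro a
    have h1 := congrArg (algebraMap (ZMod l) k) (ZMod.pow_card (a : ZMod l))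
    rw [map_pow, map_intCast] at h1
    exact h1
  have hJu : ((jacobiSym u l : ℤ) : k) = (u : k) ^ (l / 2) := sla_jac u
  have hlodd : Odd l := Nat.odd_iff.2 (by omega)
  -- the Frobenius endomorphism
  have hfr : ∀ a : k, a ^ l = frobenius k l a := fun a => (frobenius_def l a).symm
  have hFi : ∀ a : ℤ, frobenius k l (a : k) = a := fun a => map_intCast _ a
  have hF2 : frobenius k l (2 : k) = 2 := map_ofNat _ 2
  have hθl : θ ^ l = θ := by
    have h1 : (-2 : k) ^ (l / 2) = 1 := by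
      have h2 := sla_jac (k := k) (l := l) (-2)
      have h3 : jacobiSym (-2) l = 1 := by
        rw [jacobiSym.at_neg_two hlodd, ZMod.χ₈'_nat_eq_if_mod_eight]
        rw [if_neg (by omega), if_pos h8]
      rw [h3] at h2
      push_cast at h2
      exact h2.symm
    have h2 : θ ^ l = (θ ^ 2) ^ (l / 2) * θ := by
      rw [← pow_mul, ← pow_succ]
      congr 1
      omega
    rw [h2, hθ, h1, one_mul]
  have hBl : B ^ (l - 1) = 1 := by
    have h1 : B ^ l = B := by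
      rw [hfr, hB, map_add, map_mul, hFi, hFi, ← hfr, hθl]
    have h2 : B ^ (l - 1) * B = 1 * B := by
      rw [one_mul, ← pow_succ, Nat.sub_add_cancel hl.one_le, h1]
    exact mul_right_cancel₀ hB0 h2
  refine ⟨?_, hBl, hnm0, h20⟩
  have hyl : (y : k) ^ (l - 1) = 1 := by
    have h2 : (y : k) ^ (l - 1) * y = 1 * y := by
      rw [one_mul, ← pow_succ, Nat.sub_add_cancel hl.one_le, hint]
    exact mul_right_cancel₀ hyk h2
  have hul : (u : k) ^ (l - 1) = 1 := by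
    have h2 : (u : k) ^ (l - 1) * u = 1 * u := by
      rw [one_mul, ← pow_succ, Nat.sub_add_cancel hl.one_le, hint]
    exact mul_right_cancel₀ huk h2
  rcases h8 with h8 | h8
  · obtain ⟨a, ha⟩ : ∃ a, l = 8 * a + 1 := ⟨l / 8, by omega⟩
    have hl2 : l / 2 = 4 * a := by omega
    have hl1 : l - 1 = 8 * a := by omega
    have hla : (l - 1) / 2 = 4 * a := by omega
    have hlb : (l - 1) / 4 = 2 * a := by omega
    have h2p : (2 : k) ^ (4 * a) = 1 := by
      have h2 := sla_jac (k := k) (l := l) 2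
      have h3 : jacobiSym 2 l = 1 := by
        rw [jacobiSym.at_two hlodd, ZMod.χ₈_nat_eq_if_mod_eight]
        rw [if_neg (by omega), if_pos (Or.inl h8)]
      rw [h3, hl2] at h2
      push_cast at h2
      exact h2.symm
    have hil : i ^ l = i := by
      rw [ha, pow_succ, show 8 * a = 2 * (4 * a) by ring, pow_mul, hi2,
        (show Even (4 * a) from ⟨2 * a, by ring⟩).neg_one_pow, one_mul]
    have hZl : Z ^ l = Z := by
      have h1 : frobenius k l r = r := by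
        rw [hr, map_mul, map_neg, ← hfr, ← hfr, hθl, hil]
      rw [hfr, hZdef, hw]
      simp only [map_add, map_mul, map_neg, hFi, hF2, h1]
      rw [← hfr i, hil]
    have hZ1 : Z ^ (8 * a) = 1 := by
      have h2 : Z ^ (8 * a) * Z = 1 * Z := by
        rw [one_mul, ← pow_succ, ← ha, hZl]
      exact mul_right_cancel₀ hZ0 h2
    have hf := hX.f1 l hl (by omega) hnm0 k g
    rw [hgω, hnm, hla, hlb] at hf
    rw [if_pos (show l % 4 = 1 by omega), hl2]
    rw [hl1] at hyl hBl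
    rw [hl2] at hJu
    exact sla_alg1 h2p hr2 hZ2 hZ1 hyl hJu.symm hBl hf
  · obtain ⟨a, ha⟩ : ∃ a, l = 8 * a + 3 := ⟨l / 8, by omega⟩
    have hl2 : l / 2 = 4 * a + 1 := by omega
    have hl1 : l - 1 = 8 * a + 2 := by omega
    have hla : (l + 1) / 2 = 4 * a + 2 := by omega
    have hlb : (l + 1) / 4 = 2 * a + 1 := by omega
    have h2p : (2 : k) ^ (4 * a + 1) = -1 := by
      have h2 := sla_jac (k := k) (l := l) 2
      have h3 : jacobiSym 2 l = -1 := by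
        rw [jacobiSym.at_two hlodd, ZMod.χ₈_nat_eq_if_mod_eight]
        rw [if_neg (by omega), if_neg (by omega)]
      rw [h3, hl2] at h2
      push_cast at h2
      exact h2.symm
    have hil : i ^ l = -i := by
      rw [ha, show 8 * a + 3 = 2 * (4 * a + 1) + 1 by ring, pow_succ, pow_mul, hi2,
        (show Odd (4 * a + 1) from ⟨2 * a, by ring⟩).neg_one_pow, neg_one_mul]
    have hZl : Z ^ l = -(t : k) - r * u - 2 * v * i := by
      have h1 : frobenius k l r = -r := by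
        rw [hr, map_mul, map_neg, ← hfr, ← hfr, hθl, hil]
        ring
      rw [hfr, hZdef, hw]
      simp only [map_add, map_mul, map_neg, hFi, hF2, h1]
      rw [← hfr i, hil]
      ring
    have hZ1 : Z ^ (8 * a + 4) = -4 * u * B := by
      rw [show 8 * a + 4 = l + 1 by omega, pow_succ, hZl, hZdef, hw, hB]
      linear_combination htk - (u : k) ^ 2 * hr2 - 4 * (u : k) * v * hri -
        4 * (v : k) ^ 2 * hi2
    have hf := hX.f3 l hl (by omega) hnm0 k g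
    rw [hgω, hnm, hla, hlb] at hf
    rw [if_neg (show ¬ l % 4 = 1 by omega), hl2]
    rw [hl1] at hyl
    have hJ2 : ((jacobiSym u l : ℤ) : k) * ((jacobiSym u l : ℤ) : k) = 1 := by
      rw [hJu, hl2, ← pow_add, show 4 * a + 1 + (4 * a + 1) = l - 1 by omega]
      exact hul
    rw [hl2] at hJu
    exact sla_alg3 h20 huk hyk hB0 h2p hr2 hZ2 hZ1 hyl hJu.symm hJ2 hf

theorem loc13 {u v x y t : ℤ} {l : ℕ} (hl : l.Prime) (h8 : l % 8 = 1 ∨ l % 8 = 3)
    {X : ℤ → GaussianInt} (hX : QX ⟨x, 2 * v * y⟩ X)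
    (ht : (l : ℤ) ∣ t ^ 2 + 2 * (u ^ 2 + 2 * v ^ 2)) (hxt : (l : ℤ) ∣ x + t * y)
    (hy : ¬ (l : ℤ) ∣ y) (hu : ¬ (l : ℤ) ∣ u) (hm : ¬ (l : ℤ) ∣ u ^ 2 + 2 * v ^ 2) :
    X (if l % 4 = 1 then l else -l) = ((nuP u v l t * jacobiSym u l : ℤ) : GaussianInt) := by
  have hF : Fact l.Prime := ⟨hl⟩
  let k : Type := AlgebraicClosure (ZMod l)
  have hC : CharP k l := charP_of_injective_algebraMap (algebraMap (ZMod l) k).injective l
  obtain ⟨i, hi⟩ := IsAlgClosed.exists_pow_nat_eq (-1 : k) (n := 2) (by norm_num)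
  obtain ⟨θ, hθ⟩ := IsAlgClosed.exists_pow_nat_eq (-2 : k) (n := 2) (by norm_num)
  let g : GaussianInt →+* k := Zsqrtd.lift ⟨i, by rw [← sq, hi]; push_cast; rfl⟩
  obtain ⟨a1, a2, hnm0, h20⟩ := sla_core h8 hX ht hxt hy hu hm g θ hθ
  obtain ⟨b1, b2, -, -⟩ := sla_core h8 hX ht hxt hy hu hm g (-θ) (by rw [neg_sq]; exact hθ)
  have hlp : Prime (l : ℤ) := Nat.prime_iff_prime_int.1 hl
  have hl2 : (l - 1) / 2 = l / 2 := by omega
  -- the Jacobi symbol
  have hJ : jacobiSym u l = 1 ∨ jacobiSym u l = -1 := by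
    apply jacobiSym.eq_one_or_neg_one
    rw [← Int.isCoprime_iff_gcd_eq_one, isCoprime_comm]
    exact hlp.irreducible.coprime_iff_not_dvd.2 hu
  have hJ2 : jacobiSym u l * jacobiSym u l = 1 := by
    rcases hJ with h | h <;> rw [h] <;> norm_num
  have hJ2k : ((jacobiSym u l : ℤ) : k) * ((jacobiSym u l : ℤ) : k) = 1 := by
    rw [← Int.cast_mul, hJ2, Int.cast_one]
  have hcop : IsCoprime (if l % 4 = 1 then (l : ℤ) else -l) (nmG ⟨x, 2 * v * y⟩) := by
    have h1 := hlp.irreducible.coprime_iff_not_dvd.2 hnm0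
    split_ifs
    · exact h1
    · exact h1.neg_left
  have hfour := hX.four _ hcop
  set X1 := X (if l % 4 = 1 then (l : ℤ) else -l) with hX1
  have hG2 : g X1 * g X1 = 1 := by
    have h1 : ((u : k) + v * θ) ^ (l / 2) * ((u : k) + v * θ) ^ (l / 2) = 1 := by
      rw [← pow_add, show l / 2 + l / 2 = l - 1 by omega]
      exact a2
    have h2 : (((u : k) + v * θ) ^ (l / 2) * g X1 * ((jacobiSym u l : ℤ) : k)) *
        (((u : k) + v * θ) ^ (l / 2) * g X1 * ((jacobiSym u l : ℤ) : k)) = 1 := by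
      rw [a1, one_mul]
    linear_combination h2 - (g X1 * g X1 * ((jacobiSym u l : ℤ) : k) *
      ((jacobiSym u l : ℤ) : k)) * h1 - g X1 * g X1 * hJ2k
  obtain ⟨c', hc', hXc⟩ : ∃ c' : ℤ, (c' = 1 ∨ c' = -1) ∧ X1 = (c' : GaussianInt) := by
    have h1 : (X1 ^ 2 - 1) * (X1 ^ 2 + 1) = 0 := by linear_combination hfour
    rcases mul_eq_zero.1 h1 with h2 | h2
    · have h4 : (X1 - 1) * (X1 + 1) = 0 := by linear_combination h2
      rcases mul_eq_zero.1 h4 with h3 | h3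
      · exact ⟨1, Or.inl rfl, by rw [Int.cast_one]; linear_combination h3⟩
      · exact ⟨-1, Or.inr rfl, by rw [Int.cast_neg, Int.cast_one]; linear_combination h3⟩
    · exfalso
      apply h20
      have h3 := congrArg g h2
      rw [map_add, map_pow, map_one, map_zero] at h3
      linear_combination h3 - hG2
  have hc2 : (c' * jacobiSym u l) * (c' * jacobiSym u l) = 1 := by
    rcases hc' with h | h <;> rw [h] <;> linarith [hJ2]
  have hval : ∀ b : k, b * g X1 * ((jacobiSym u l : ℤ) : k) = 1 →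
      b = ((c' * jacobiSym u l : ℤ) : k) := by
    intro b hb
    rw [hXc, map_intCast] at hb
    have h1 : ((c' * jacobiSym u l : ℤ) : k) * ((c' * jacobiSym u l : ℤ) : k) = 1 := by
      rw [← Int.cast_mul, hc2, Int.cast_one]
    rw [Int.cast_mul] at h1 ⊢
    linear_combination ((c' : ℤ) : k) * ((jacobiSym u l : ℤ) : k) * hb - b * h1
  have hb1 := hval _ a1
  have hb2 := hval _ b1
  set c : ℤ := c' * jacobiSym u l with hc
  set P : ℤ√(-2) := (⟨u, v⟩ : ℤ√(-2)) ^ (l / 2) with hP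
  have hth : ∀ η : k, η ^ 2 = -2 → (P.re : k) + P.im * η = ((u : k) + v * η) ^ (l / 2) := by
    intro η hη
    let f : ℤ√(-2) →+* k := Zsqrtd.lift ⟨η, by rw [← sq, hη]; push_cast; rfl⟩
    have h1 : f P = (f ⟨u, v⟩) ^ (l / 2) := by rw [hP, map_pow]
    exact h1
  have e1 := hth θ hθ
  have e2 := hth (-θ) (by rw [neg_sq]; exact hθ)
  rw [hb1] at e1
  rw [hb2] at e2
  have hθ0 : θ ≠ 0 := by
    rintro rfl
    apply h20
    linear_combination hθ
  have hre : ((P.re - c : ℤ) : k) = 0 := by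
    apply mul_left_cancel₀ h20
    push_cast
    push_cast at e1 e2
    linear_combination e1 + e2
  have him : ((P.im : ℤ) : k) = 0 := by
    apply mul_left_cancel₀ h20
    apply mul_right_cancel₀ hθ0
    linear_combination e1 - e2
  have hdvd : ((l : ℤ) : ℤ√(-2)) ∣ P - (c : ℤ√(-2)) := by
    rw [Zsqrtd.intCast_dvd]
    constructor
    · have h1 := (CharP.intCast_eq_zero_iff k l _).1 hre
      simpa using h1
    · have h1 := (CharP.intCast_eq_zero_iff k l _).1 him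
      simpa using h1
  rw [Int.cast_natCast] at hdvd
  have hcc : c = 1 ∨ c = -1 := by
    have h1 : (c - 1) * (c + 1) = 0 := by linear_combination hc2
    rcases mul_eq_zero.1 h1 with h2 | h2
    · left; omega
    · right; omega
  have hnu : nuP u v l t = c := by
    unfold nuP
    rw [if_pos h8, hl2, ← hP]
    rcases hcc with h1 | h1
    · rw [h1, Int.cast_one] at hdvd
      rw [if_pos hdvd, h1]
    · rw [h1, Int.cast_neg, Int.cast_one] at hdvd
      rw [if_neg, h1]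
      intro h2
      have h3 := hdvd.sub h2
      have h4 : P - -1 - (P - 1) = ((2 : ℤ) : ℤ√(-2)) := by
        push_cast
        ring
      rw [h4, ← Int.cast_natCast l, Zsqrtd.intCast_dvd_intCast] at h3
      have h5 := Int.le_of_dvd (by norm_num) h3
      have h6 := hl.two_le
      omega
  rw [hnu, hXc, hc, mul_assoc, hJ2, mul_one]

end Pool.Agent.Work.MP_8efaaa_nt.W6
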