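import Mathlib
import Pool.Agent.Work.MP_8efaaa_nt.W6.Defs
import Pool.Agent.Work.MP_8efaaa_nt.W6.SDir

/-!
# W6/SLb (M): the symbol at the primes `5` and `7` modulo `8`

PROOF. Notation and preliminaries as in `SLa`: in an algebraic closure `k` of `ZMod l`: `i = g I`, `θ = h ⟨0, 1⟩`, `θ^2 = -2`, `r = θ / i`, `r^2 = 2`, `θ = r i`, `B = u + v θ = h ⟨u, v⟩`, `g ω = y ω_l`, `ω_l = -t + 2 v i`, `t^2 = -2 m`, `m = u^2 + 2v^2`, `nmG ω = -2 u^2 y^2 ≠ 0`, `Z := -t + r u + 2 v i`, `Z^2 = 2 r B ω_l`, everything nonzero.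
CASE `l = 5 (mod 8)`: `i^l = i`, `r^l = -r` (`(2/l) = -1`). `Z^l = -t - r u + 2 v i`, `Z^(l+1) = ω_l^2 - 2 u^2 = -2 t ω_l` (because `t^2 + 4v^2 + 2u^2 = 0`). So `(2r)^((l+1)/2) B^((l+1)/2) ω_l^((l-1)/2) = -2t`.
`QX.f1`: `ω_l^((l-1)/2) (-2)^((l-1)/4) (u/l) g(X l) = 1`, `(l-1)/4` odd: `ω_l^((l-1)/2) = -1 / (2^((l-1)/4) (u/l) g(X l))`. `(2r)^((l+1)/2) = 2 r * 8^((l-1)/4)`. So `B^((l+1)/2) * 2 r * 4^((l-1)/4) * (-1) = -2t (u/l) g(X l)`, `4^((l-1)/4) = 2^((l-1)/2) = -1`: `B^((l+1)/2) r = -t (u/l) g(X l)`, times `i`: `B^((l+1)/2) θ = - i t (u/l) g(X l)`.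
CASE `l = 7 (mod 8)`: `i^l = -i`, `r^l = r` (`(2/l) = 1`). `Z^l = -t + r u - 2 v i`, `Z^(l+1) = (-t + r u)^2 + 4v^2 = -2 r t u` (`t^2 + 2u^2 + 4v^2 = 0`). So `(2r)^((l+1)/2) B^((l+1)/2) ω_l^((l+1)/2) = -2 r t u`.
`QX.f3`: `ω_l^((l+1)/2) (-2)^((l+1)/4) (u/l) = -2 u g(X(-l))`, `(l+1)/4` even: `ω_l^((l+1)/2) = -2 u (u/l) g(X(-l)) / 2^((l+1)/4)`; `(2r)^((l+1)/2) = 8^((l+1)/4)`, `4^((l+1)/4) = 2^((l+1)/2) = 2`: `B^((l+1)/2) * 2 * (-2 u) (u/l) g(X(-l)) = -2 r t u`, `B^((l+1)/2) * 2 * (u/l) g(X(-l)) = r t`, times `θ = r i`: `B^((l+1)/2) θ (u/l) g(X(-l)) = t i`.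
END. `θ^l = -θ` (`(-2/l) = -1`), so `B^l = u - vθ`, `B^(l+1) = m`, `(B^((l+1)/2) θ)^2 = -2m = t^2`, `t ≠ 0`, so `B^((l+1)/2) θ = c t`, `c = ±1`, the same `c` for both `θ` (apply the Frobenius `x ↦ x^l`: `(B^((l+1)/2) θ)^l = c t`, and `(B^l)^((l+1)/2) θ^l` is the value for `-θ`). In the case `5`: `c = -i (u/l) g(X l)`, in the case `7`: `c (u/l) g(X(-l)) = i`. In both cases `g(X(l*)) = i c (u/l)`, and `X(l*)` is a fourth root of unity (`QX.four`), so `X(l*) = I c (u/l)`. As in `SLa`: `l ∣ ⟨u,v⟩^((l+1)/2) * ⟨0,1⟩ - c t` in `ℤ√(-2)`, so `nuP = c` (if `c = -1` the divisibility with `+t` would give `l ∣ 2t`).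
-/

set_option autoImplicit false

namespace Pool.Agent.Work.MP_8efaaa_nt.W6

private theorem s57_leg {l : ℕ} [Fact l.Prime] (k : Type) [Field k] [CharP k l] (a : ℤ) :
    ((jacobiSym a l : ℤ) : k) = (a : k) ^ (l / 2) := by
  have h := legendreSym.eq_pow l a
  rw [jacobiSym.legendreSym.to_jacobiSym] at h
  have h2 := congrArg (ZMod.castHom (dvd_refl l) k) h
  rw [map_intCast, map_pow, map_intCast] at h2
  exact h2

private theorem s57_two {l : ℕ} [Fact l.Prime] (k : Type) [Field k] [CharP k l] :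
    (l % 8 = 5 → (2 : k) ^ (l / 2) = -1) ∧ (l % 8 = 7 → (2 : k) ^ (l / 2) = 1) := by
  have h := s57_leg (l := l) k 2
  push_cast at h
  rw [← h]
  constructor
  · intro h8
    have h1 : Odd l := Nat.odd_iff.2 (by omega)
    rw [jacobiSym.at_two h1, ZMod.χ₈_nat_eq_if_mod_eight, if_neg (by omega), if_neg (by omega)]
    simp
  · intro h8
    have h1 : Odd l := Nat.odd_iff.2 (by omega)
    rw [jacobiSym.at_two h1, ZMod.χ₈_nat_eq_if_mod_eight, if_neg (by omega), if_pos (by omega)]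
    simp

private theorem s57_fermat {l : ℕ} [Fact l.Prime] (k : Type) [Field k] [CharP k l] (a : ℤ) :
    (a : k) ^ l = a := by
  have h := map_intCast (frobenius k l) a
  rw [frobenius_def] at h
  exact h

private theorem s57_core {u v x y t : ℤ} {l : ℕ} [hF : Fact l.Prime]
    (h8 : l % 8 = 5 ∨ l % 8 = 7) {X : ℤ → GaussianInt} (hX : QX ⟨x, 2 * v * y⟩ X)
    (ht : (l : ℤ) ∣ t ^ 2 + 2 * (u ^ 2 + 2 * v ^ 2)) (hxt : (l : ℤ) ∣ x + t * y)
    (hy : ¬ (l : ℤ) ∣ y) (hu : ¬ (l : ℤ) ∣ u) (hm : ¬ (l : ℤ) ∣ u ^ 2 + 2 * v ^ 2)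
    (k : Type) [Field k] [CharP k l] (g : GaussianInt →+* k) (i r : k)
    (hg : g ⟨x, 2 * v * y⟩ = x + 2 * v * y * i) (hi : i ^ 2 = -1) (hr : r ^ 2 = 2) :
    (nmG ⟨x, 2 * v * y⟩ : k) ≠ 0 ∧ (t : k) ≠ 0 ∧ (2 : k) ≠ 0 ∧
    (g (X (if l % 4 = 1 then l else -l))) ^ 2 = -1 ∧
    r * ((u : k) + v * (r * i)) ^ ((l + 1) / 2) =
      -(t * (jacobiSym u l : ℤ) * g (X (if l % 4 = 1 then l else -l))) := by
  have hl : l.Prime := hF.out
  have hT : (t : k) ^ 2 = -2 * (u ^ 2 + 2 * v ^ 2) := by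
    have h := (CharP.intCast_eq_zero_iff k l _).2 ht
    push_cast at h
    linear_combination h
  have hx : (x : k) = -(t * y) := by
    have h := (CharP.intCast_eq_zero_iff k l _).2 hxt
    push_cast at h
    linear_combination h
  have hyk : (y : k) ≠ 0 := fun h => hy ((CharP.intCast_eq_zero_iff k l _).1 h)
  have huk : (u : k) ≠ 0 := fun h => hu ((CharP.intCast_eq_zero_iff k l _).1 h)
  have hmk : (u : k) ^ 2 + 2 * v ^ 2 ≠ 0 := fun h => hm (by
    apply (CharP.intCast_eq_zero_iff k l _).1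
    push_cast
    exact h)
  have h2k : (2 : k) ≠ 0 := by
    intro h
    have h1 : ((2 : ℤ) : k) = 0 := by
      push_cast
      exact h
    have h2 := (CharP.intCast_eq_zero_iff k l _).1 h1
    have h3 : l ∣ 2 := by exact_mod_cast h2
    have h4 := Nat.le_of_dvd (by norm_num) h3
    omega
  have htk : (t : k) ≠ 0 := by
    intro h
    rw [h] at hT
    have h1 : (2 : k) * (u ^ 2 + 2 * v ^ 2) = 0 := by
      linear_combination hT
    exact (mul_ne_zero h2k hmk) h1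
  have hN : (nmG ⟨x, 2 * v * y⟩ : k) = -2 * u ^ 2 * y ^ 2 := by
    unfold nmG
    push_cast
    rw [hx]
    linear_combination (y : k) ^ 2 * hT
  have hN0 : (nmG ⟨x, 2 * v * y⟩ : k) ≠ 0 := by
    rw [hN]
    exact mul_ne_zero (mul_ne_zero (neg_ne_zero.2 h2k) (pow_ne_zero _ huk)) (pow_ne_zero _ hyk)
  have hNd : ¬ (l : ℤ) ∣ nmG ⟨x, 2 * v * y⟩ := fun h =>
    hN0 ((CharP.intCast_eq_zero_iff k l _).2 h)
  refine ⟨hN0, htk, h2k, ?_⟩
  have hgW : g ⟨x, 2 * v * y⟩ = y * (-t + 2 * v * i) := by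
    rw [hg, hx]
    ring
  have hW0 : -(t : k) + 2 * v * i ≠ 0 := by
    intro h
    have h1 : (-(t : k) + 2 * v * i) * (-t - 2 * v * i) = -2 * u ^ 2 := by
      linear_combination hT - 4 * (v : k) ^ 2 * hi
    rw [h, zero_mul] at h1
    have h3 : (2 : k) * u ^ 2 = 0 := by linear_combination h1
    exact (mul_ne_zero h2k (pow_ne_zero 2 huk)) h3
  have hJu : ((jacobiSym u l : ℤ) : k) = (u : k) ^ (l / 2) := s57_leg k u
  have hJ2 : ((jacobiSym u l : ℤ) : k) ^ 2 = 1 := by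
    rw [hJu, ← pow_mul]
    have h1 : l / 2 * 2 + 1 = l := by omega
    have h2 : (u : k) * (u : k) ^ (l / 2 * 2) = (u : k) * 1 := by
      rw [← pow_succ', h1, s57_fermat, mul_one]
    exact mul_left_cancel₀ huk h2
  have hZ2 : (-(t : k) + r * u + 2 * v * i) ^ 2 =
      2 * r * (u + v * (r * i)) * (-t + 2 * v * i) := by
    linear_combination hT + ((u : k) ^ 2 + 2 * v * i * t - 4 * v ^ 2 * i ^ 2) * hr -
      4 * (v : k) ^ 2 * hi
  have hfrZ : (-(t : k) + r * u + 2 * v * i) ^ l = -t + r ^ l * u + 2 * v * i ^ l := by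
    have h1 : frobenius k l (-(t : k) + r * u + 2 * v * i) =
        -t + frobenius k l r * u + 2 * v * frobenius k l i := by
      simp only [map_add, map_neg, map_mul, map_intCast, map_ofNat]
    simpa only [frobenius_def] using h1
  have hfrB : ((u : k) + v * (r * i)) ^ l = u + v * (r ^ l * i ^ l) := by
    have h1 : frobenius k l ((u : k) + v * (r * i)) =
        u + v * (frobenius k l r * frobenius k l i) := by
      simp only [map_add, map_mul, map_intCast]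
    simpa only [frobenius_def] using h1
  have hZl : (2 * r * ((u : k) + v * (r * i)) * (-t + 2 * v * i)) ^ ((l + 1) / 2) =
      (-t + r ^ l * u + 2 * v * i ^ l) * (-(t : k) + r * u + 2 * v * i) := by
    rw [← hZ2, ← pow_mul, ← hfrZ, ← pow_succ]
    congr 1
    omega
  have hBl : (((u : k) + v * (r * i)) ^ ((l + 1) / 2)) ^ 2 =
      (u + v * (r ^ l * i ^ l)) * ((u : k) + v * (r * i)) := by
    rw [← pow_mul, ← hfrB, ← pow_succ]
    congr 1
    omega
  have hrl : r ^ l = 2 ^ (l / 2) * r := by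
    have h1 : l = 2 * (l / 2) + 1 := by omega
    calc r ^ l = r ^ (2 * (l / 2) + 1) := by rw [← h1]
      _ = 2 ^ (l / 2) * r := by rw [pow_succ, pow_mul, hr]
  have hil : i ^ l = (-1) ^ (l / 2) * i := by
    have h1 : l = 2 * (l / 2) + 1 := by omega
    calc i ^ l = i ^ (2 * (l / 2) + 1) := by rw [← h1]
      _ = (-1) ^ (l / 2) * i := by rw [pow_succ, pow_mul, hi]
  obtain ⟨h25, h27⟩ := s57_two (l := l) k
  have hyl := s57_fermat (l := l) k y
  rcases h8 with h8 | h8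
  · obtain ⟨a, ha⟩ : ∃ a, l = 8 * a + 5 := ⟨l / 8, by omega⟩
    have e1 : (l + 1) / 2 = 4 * a + 3 := by omega
    have e2 : (l - 1) / 2 = 4 * a + 2 := by omega
    have e3 : (l - 1) / 4 = 2 * a + 1 := by omega
    have e4 : l / 2 = 4 * a + 2 := by omega
    have e5 : l % 4 = 1 := by omega
    have f := hX.f1 l hl e5 hNd k g
    have h25' := h25 h8
    rw [if_pos e5]
    rw [hgW, hN, e2, e3] at f
    rw [e1] at hZl hBl ⊢
    rw [e4] at hrl hil hJu h25'
    have hrl' : r ^ l = -r := by rw [hrl, h25', neg_one_mul]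
    have hil' : i ^ l = i := by
      rw [hil]
      have h1 : Even (4 * a + 2) := ⟨2 * a + 1, by ring⟩
      rw [h1.neg_one_pow, one_mul]
    rw [hrl', hil'] at hZl hBl
    have hN2 : ((2 : k) ^ (2 * a + 1)) ^ 2 = -1 := by
      rw [← pow_mul, ← h25']
      congr 1
      ring
    have hodd : Odd (2 * a + 1) := ⟨a, rfl⟩
    have hyp : (y : k) ^ (4 * a + 2) * (y ^ 2) ^ (2 * a + 1) = 1 := by
      have h1 : (y : k) * (y ^ (4 * a + 2) * (y ^ 2) ^ (2 * a + 1)) = y * 1 := by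
        rw [← pow_mul, ← pow_add, ← pow_succ', mul_one]
        calc (y : k) ^ (4 * a + 2 + 2 * (2 * a + 1) + 1) = y ^ l := by
              congr 1
              omega
          _ = y := hyl
      exact mul_left_cancel₀ hyk h1
    have hup : ((u : k) ^ 2) ^ (2 * a + 1) = ((jacobiSym u l : ℤ) : k) := by
      rw [hJu, ← pow_mul]
      congr 1
      ring
    have K2 : (-(t : k) + 2 * v * i) ^ (4 * a + 2) * (-(2 : k) ^ (2 * a + 1)) *
        ((jacobiSym u l : ℤ) : k) * g (X l) = 1 := by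
      rw [mul_pow, mul_pow, mul_pow, hodd.neg_pow, hup] at f
      linear_combination f - (-(t : k) + 2 * v * i) ^ (4 * a + 2) * (-(2 : k) ^ (2 * a + 1)) *
        ((jacobiSym u l : ℤ) : k) * g (X l) * hyp
    have K1 : 2 * r * ((2 : k) ^ (2 * a + 1)) ^ 3 * ((u : k) + v * (r * i)) ^ (4 * a + 3) *
        (-(t : k) + 2 * v * i) ^ (4 * a + 2) = -2 * t := by
      have h1 : (2 * r) ^ (4 * a + 3) = 2 * r * ((2 : k) ^ (2 * a + 1)) ^ 3 := by
        have h2 : (2 * r) ^ 2 = (2 : k) ^ 3 := by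
          linear_combination (4 : k) * hr
        calc (2 * r) ^ (4 * a + 3) = ((2 * r) ^ 2) ^ (2 * a + 1) * (2 * r) := by
              rw [← pow_mul, ← pow_succ]
              congr 1
              ring
          _ = 2 * r * ((2 : k) ^ (2 * a + 1)) ^ 3 := by
              rw [h2, ← pow_mul, ← pow_mul, mul_comm 3 (2 * a + 1), mul_comm]
      rw [mul_pow, mul_pow, h1, pow_succ (-(t : k) + 2 * v * i)] at hZl
      apply mul_right_cancel₀ hW0
      rw [mul_assoc, hZl]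
      linear_combination -hT + 4 * (v : k) ^ 2 * hi - (u : k) ^ 2 * hr
    generalize ((u : k) + v * (r * i)) ^ (4 * a + 3) = BP at *
    generalize (-(t : k) + 2 * v * i) ^ (4 * a + 2) = W' at *
    have hN1 : (2 : k) ^ (2 * a + 1) ≠ 0 := pow_ne_zero _ h2k
    generalize (2 : k) ^ (2 * a + 1) = N at *
    generalize g (X l) = G at *
    generalize ((jacobiSym u l : ℤ) : k) = J at *
    have main : r * BP = -(t * J * G) := by
      apply mul_left_cancel₀ (mul_ne_zero h2k hN1)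
      linear_combination (N * J * G) * K1 + (2 * r * N ^ 3 * BP) * K2 + (2 * N * r * BP) * hN2
    refine ⟨?_, main⟩
    have hB2 : BP ^ 2 = u ^ 2 + 2 * v ^ 2 := by
      rw [hBl]
      linear_combination -(v : k) ^ 2 * i ^ 2 * hr - 2 * (v : k) ^ 2 * hi
    have h5 : (t : k) ^ 2 * (G ^ 2 + 1) = 0 := by
      have h6 : r ^ 2 * BP ^ 2 = t ^ 2 * J ^ 2 * G ^ 2 := by
        calc r ^ 2 * BP ^ 2 = (r * BP) ^ 2 := by ring
          _ = t ^ 2 * J ^ 2 * G ^ 2 := by rw [main]; ring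
      rw [hr, hB2, hJ2] at h6
      linear_combination -h6 + hT
    rcases mul_eq_zero.1 h5 with h6 | h6
    · exact absurd h6 (pow_ne_zero 2 htk)
    · linear_combination h6
  · obtain ⟨a, ha⟩ : ∃ a, l = 8 * a + 7 := ⟨l / 8, by omega⟩
    have e1 : (l + 1) / 2 = 4 * a + 4 := by omega
    have e3 : (l + 1) / 4 = 2 * a + 2 := by omega
    have e4 : l / 2 = 4 * a + 3 := by omega
    have e5 : l % 4 = 3 := by omega
    have e6 : ¬ l % 4 = 1 := by omega
    have f := hX.f3 l hl e5 hNd k g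
    have h27' := h27 h8
    rw [if_neg e6]
    rw [hgW, hN, e1, e3] at f
    rw [e1] at hZl hBl ⊢
    rw [e4] at hrl hil hJu h27'
    have hrl' : r ^ l = r := by rw [hrl, h27', one_mul]
    have hil' : i ^ l = -i := by
      rw [hil]
      have h1 : Odd (4 * a + 3) := ⟨2 * a + 1, by ring⟩
      rw [h1.neg_one_pow, neg_one_mul]
    rw [hrl', hil'] at hZl hBl
    have hN2 : ((2 : k) ^ (2 * a + 2)) ^ 2 = 2 := by
      rw [← pow_mul]
      calc (2 : k) ^ ((2 * a + 2) * 2) = 2 ^ (4 * a + 3) * 2 := by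
            rw [← pow_succ]
            congr 1
            ring
        _ = 2 := by rw [h27', one_mul]
    have hev : Even (2 * a + 2) := ⟨a + 1, by ring⟩
    have hyp : (y : k) ^ (4 * a + 4) * (y ^ 2) ^ (2 * a + 2) = y ^ 2 := by
      rw [← pow_mul, ← pow_add]
      calc (y : k) ^ (4 * a + 4 + 2 * (2 * a + 2)) = y ^ l * y := by
            rw [← pow_succ]
            congr 1
            omega
        _ = y ^ 2 := by rw [hyl, sq]
    have hup : ((u : k) ^ 2) ^ (2 * a + 2) = u * ((jacobiSym u l : ℤ) : k) := by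
      rw [hJu, ← pow_mul, ← pow_succ']
      congr 1
      ring
    have K2 : (-(t : k) + 2 * v * i) ^ (4 * a + 4) * (2 : k) ^ (2 * a + 2) *
        ((jacobiSym u l : ℤ) : k) = -2 * u * g (X (-l)) := by
      rw [mul_pow, mul_pow, mul_pow, hev.neg_pow, hup] at f
      apply mul_left_cancel₀ (mul_ne_zero huk (pow_ne_zero 2 hyk))
      linear_combination f - (-(t : k) + 2 * v * i) ^ (4 * a + 4) * (2 : k) ^ (2 * a + 2) *
        (u * ((jacobiSym u l : ℤ) : k)) * hyp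
    have K1 : ((2 : k) ^ (2 * a + 2)) ^ 3 * ((u : k) + v * (r * i)) ^ (4 * a + 4) *
        (-(t : k) + 2 * v * i) ^ (4 * a + 4) = -2 * r * t * u := by
      have h1 : (2 * r) ^ (4 * a + 4) = ((2 : k) ^ (2 * a + 2)) ^ 3 := by
        have h2 : (2 * r) ^ 2 = (2 : k) ^ 3 := by
          linear_combination (4 : k) * hr
        calc (2 * r) ^ (4 * a + 4) = ((2 * r) ^ 2) ^ (2 * a + 2) := by
              rw [← pow_mul]
              congr 1
              ring
          _ = ((2 : k) ^ (2 * a + 2)) ^ 3 := by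
              rw [h2, ← pow_mul, ← pow_mul, mul_comm 3 (2 * a + 2)]
      rw [mul_pow, mul_pow, h1] at hZl
      rw [hZl]
      linear_combination hT + (u : k) ^ 2 * hr - 4 * (v : k) ^ 2 * hi
    generalize ((u : k) + v * (r * i)) ^ (4 * a + 4) = BP at *
    generalize (-(t : k) + 2 * v * i) ^ (4 * a + 4) = W' at *
    generalize (2 : k) ^ (2 * a + 2) = N at *
    generalize g (X (-l)) = G at *
    generalize ((jacobiSym u l : ℤ) : k) = J at *
    have main : BP * r * G = t * J := by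
      apply mul_left_cancel₀ (mul_ne_zero (mul_ne_zero h2k h2k) huk)
      linear_combination -(r * J) * K1 + (r * J * N * BP * W') * hN2 + (2 * r * BP) * K2 +
        (2 * t * u * J) * hr
    have hB2 : BP ^ 2 = u ^ 2 + 2 * v ^ 2 := by
      rw [hBl]
      linear_combination -(v : k) ^ 2 * i ^ 2 * hr - 2 * (v : k) ^ 2 * hi
    have hG : G ^ 2 = -1 := by
      have h5 : (t : k) ^ 2 * (G ^ 2 + 1) = 0 := by
        have h6 : BP ^ 2 * r ^ 2 * G ^ 2 = t ^ 2 * J ^ 2 := by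
          calc BP ^ 2 * r ^ 2 * G ^ 2 = (BP * r * G) ^ 2 := by ring
            _ = t ^ 2 * J ^ 2 := by rw [main]; ring
        rw [hr, hB2, hJ2] at h6
        linear_combination -h6 + (G ^ 2) * hT
      rcases mul_eq_zero.1 h5 with h6 | h6
      · exact absurd h6 (pow_ne_zero 2 htk)
      · linear_combination h6
    refine ⟨hG, ?_⟩
    linear_combination (r * BP) * hG - G * main

private theorem s57_four {z : GaussianInt} (h : z ^ 4 = 1) :
    z ^ 2 = 1 ∨ z = W5.gI ∨ z = -W5.gI := by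
  have hI : W5.gI ^ 2 = -1 := by decide
  have h1 : (z ^ 2 - 1) * ((z - W5.gI) * (z + W5.gI)) = 0 := by
    linear_combination h - (z ^ 2 - 1) * hI
  rcases mul_eq_zero.1 h1 with h2 | h2
  · left
    linear_combination h2
  · rcases mul_eq_zero.1 h2 with h3 | h3
    · right; left
      linear_combination h3
    · right; right
      linear_combination h3

private theorem s57_dvd {l : ℕ} (hodd : l % 2 = 1) {k : Type} [Field k] [CharP k l] (h2k : (2 : k) ≠ 0)
    (θ : k) (hθ : θ ^ 2 = -2) (w : ℤ√(-2)) (h1 : (w.re : k) + w.im * θ = 0)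
    (h2 : (w.re : k) + w.im * (-θ) = 0) : (l : ℤ√(-2)) ∣ w := by
  have h3 : (w.re : k) = 0 := by
    apply mul_left_cancel₀ h2k
    linear_combination h1 + h2
  have h4 : (w.im : k) = 0 := by
    have h5 : (w.im : k) * 2 = 0 := by
      linear_combination -θ * h1 + θ * h3 + (w.im : k) * hθ
    rcases mul_eq_zero.1 h5 with h6 | h6
    · exact h6
    · exact absurd h6 h2k
  have h5 := (CharP.intCast_eq_zero_iff k l _).1 h3
  have h6 := (CharP.intCast_eq_zero_iff k l _).1 h4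
  have h7 : ((l : ℤ) : ℤ√(-2)) ∣ w := (Zsqrtd.intCast_dvd _ _).2 ⟨h5, h6⟩
  simpa using h7

theorem loc57 {u v x y t : ℤ} {l : ℕ} (hl : l.Prime) (h8 : l % 8 = 5 ∨ l % 8 = 7)
    {X : ℤ → GaussianInt} (hX : QX ⟨x, 2 * v * y⟩ X)
    (ht : (l : ℤ) ∣ t ^ 2 + 2 * (u ^ 2 + 2 * v ^ 2)) (hxt : (l : ℤ) ∣ x + t * y)
    (hy : ¬ (l : ℤ) ∣ y) (hu : ¬ (l : ℤ) ∣ u) (hm : ¬ (l : ℤ) ∣ u ^ 2 + 2 * v ^ 2) :
    X (if l % 4 = 1 then l else -l) =
      W5.gI * ((nuP u v l t * jacobiSym u l : ℤ) : GaussianInt) := by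
  have hF : Fact l.Prime := ⟨hl⟩
  have hcl : CharP (AlgebraicClosure (ZMod l)) l :=
    charP_of_injective_algebraMap (algebraMap (ZMod l) (AlgebraicClosure (ZMod l))).injective l
  obtain ⟨i, hi⟩ := IsAlgClosed.exists_pow_nat_eq (-1 : AlgebraicClosure (ZMod l)) (n := 2)
    (by norm_num)
  obtain ⟨r, hr⟩ := IsAlgClosed.exists_pow_nat_eq (2 : AlgebraicClosure (ZMod l)) (n := 2)
    (by norm_num)
  have hii : i * i = ((-1 : ℤ) : AlgebraicClosure (ZMod l)) := by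
    rw [← sq, hi]
    push_cast
    rfl
  obtain ⟨g, hg⟩ : ∃ g : GaussianInt →+* AlgebraicClosure (ZMod l),
      ∀ a b : ℤ, g ⟨a, b⟩ = a + b * i := ⟨Zsqrtd.lift ⟨i, hii⟩, fun a b => rfl⟩
  have hg1 : g ⟨x, 2 * v * y⟩ = x + 2 * v * y * i := by
    rw [hg]
    push_cast
    rfl
  obtain ⟨hN0, htk, h2k, hG2, hC1⟩ :=
    s57_core h8 hX ht hxt hy hu hm _ g i r hg1 hi hr
  obtain ⟨-, -, -, -, hC2⟩ :=
    s57_core h8 hX ht hxt hy hu hm _ g i (-r) hg1 hi (by rw [neg_sq, hr])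
  have hNd : ¬ (l : ℤ) ∣ nmG ⟨x, 2 * v * y⟩ := fun h =>
    hN0 ((CharP.intCast_eq_zero_iff _ l _).2 h)
  have hcop : IsCoprime (l : ℤ) (nmG ⟨x, 2 * v * y⟩) :=
    ((Nat.prime_iff_prime_int.1 hl).coprime_iff_not_dvd).2 hNd
  have hfour : X (if l % 4 = 1 then l else -l) ^ 4 = 1 := by
    apply hX.four
    split_ifs
    · exact hcop
    · exact hcop.neg_left
  generalize X (if l % 4 = 1 then (l : ℤ) else -l) = Y at *
  have hgI : g W5.gI = i := by
    have h := hg 0 1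
    unfold W5.gI
    rw [h]
    push_cast
    ring
  obtain ⟨ε, hε, hY⟩ : ∃ ε : ℤ, (ε = 1 ∨ ε = -1) ∧ Y = W5.gI * (ε : GaussianInt) := by
    rcases s57_four hfour with h | h | h
    · exfalso
      have h1 := congrArg g h
      rw [map_pow, hG2, map_one] at h1
      apply h2k
      linear_combination -h1
    · exact ⟨1, Or.inl rfl, by rw [h]; push_cast; ring⟩
    · exact ⟨-1, Or.inr rfl, by rw [h]; push_cast; ring⟩
  have hgY : g Y = i * ε := by
    rw [hY, map_mul, hgI, map_intCast]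
  have hJ : jacobiSym u l = 1 ∨ jacobiSym u l = -1 := by
    rcases jacobiSym.trichotomy u l with h | h | h
    · exfalso
      have h1 := s57_leg (l := l) (AlgebraicClosure (ZMod l)) u
      rw [h, Int.cast_zero] at h1
      apply hu
      apply (CharP.intCast_eq_zero_iff (AlgebraicClosure (ZMod l)) l _).1
      exact pow_eq_zero_iff (by have := hl.two_le; omega) |>.1 h1.symm
    · exact Or.inl h
    · exact Or.inr h
  rw [hgY] at hC1 hC2
  have hθ : (r * i) ^ 2 = -2 := by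
    linear_combination (i ^ 2) * hr + 2 * hi
  -- the value
  have hval : ∀ (θ : AlgebraicClosure (ZMod l)), θ ^ 2 = -2 →
      ((u : AlgebraicClosure (ZMod l)) + v * θ) ^ ((l + 1) / 2) * θ =
        ((ε * jacobiSym u l : ℤ) : AlgebraicClosure (ZMod l)) * t →
      (((⟨u, v⟩ : ℤ√(-2)) ^ ((l + 1) / 2) * ⟨0, 1⟩ -
        ((ε * jacobiSym u l * t : ℤ) : ℤ√(-2))).re : AlgebraicClosure (ZMod l)) +
      ((⟨u, v⟩ : ℤ√(-2)) ^ ((l + 1) / 2) * ⟨0, 1⟩ -
        ((ε * jacobiSym u l * t : ℤ) : ℤ√(-2))).im * θ = 0 := by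
    intro θ hθ hv
    have hθθ : θ * θ = ((-2 : ℤ) : AlgebraicClosure (ZMod l)) := by
      rw [← sq, hθ]
      push_cast
      rfl
    obtain ⟨h, hh⟩ : ∃ h : ℤ√(-2) →+* AlgebraicClosure (ZMod l),
        ∀ w : ℤ√(-2), h w = w.re + w.im * θ := ⟨Zsqrtd.lift ⟨θ, hθθ⟩, fun w => rfl⟩
    rw [← hh, map_sub, map_mul, map_pow, map_intCast, hh, hh]
    push_cast
    push_cast at hv
    linear_combination hv
  have hdvd : (l : ℤ√(-2)) ∣ (⟨u, v⟩ : ℤ√(-2)) ^ ((l + 1) / 2) * ⟨0, 1⟩ -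
      ((ε * jacobiSym u l * t : ℤ) : ℤ√(-2)) := by
    refine s57_dvd (by omega) h2k (r * i) hθ _ ?_ ?_
    · apply hval _ hθ
      push_cast
      linear_combination i * hC1 - t * (jacobiSym u l : ℤ) * ε * hi
    · apply hval _ (by rw [neg_sq, hθ])
      have hneg : -(r * i) = -r * i := by ring
      rw [hneg]
      push_cast
      linear_combination i * hC2 - t * (jacobiSym u l : ℤ) * ε * hi
  have hnu : nuP u v l t = ε * jacobiSym u l := by
    have hc : ε * jacobiSym u l = 1 ∨ ε * jacobiSym u l = -1 := by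
      rcases hε with h | h <;> rcases hJ with h' | h' <;> rw [h, h'] <;> norm_num
    unfold nuP
    rw [if_neg (by omega)]
    rcases hc with h | h
    · rw [h, one_mul] at hdvd
      rw [if_pos hdvd, h]
    · rw [h, neg_one_mul] at hdvd
      rw [h, if_neg]
      intro h3
      have h4 := dvd_sub hdvd h3
      have h5 : (⟨u, v⟩ : ℤ√(-2)) ^ ((l + 1) / 2) * ⟨0, 1⟩ - ((-t : ℤ) : ℤ√(-2)) -
          ((⟨u, v⟩ : ℤ√(-2)) ^ ((l + 1) / 2) * ⟨0, 1⟩ - (t : ℤ√(-2))) =
          ((2 * t : ℤ) : ℤ√(-2)) := by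
        push_cast
        ring
      rw [h5] at h4
      have h6 : ((l : ℤ) : ℤ√(-2)) ∣ ((2 * t : ℤ) : ℤ√(-2)) := by simpa using h4
      have h7 := (Zsqrtd.intCast_dvd_intCast _ _).1 h6
      have h8 := (CharP.intCast_eq_zero_iff (AlgebraicClosure (ZMod l)) l _).2 h7
      push_cast at h8
      exact (mul_ne_zero h2k htk) h8
  rw [hnu, hY]
  have hJJ : ε * jacobiSym u l * jacobiSym u l = ε := by
    rcases hJ with h' | h' <;> rw [h'] <;> ring
  rw [hJJ]

end Pool.Agent.Work.MP_8efaaa_nt.W6
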