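import Mathlib
import Pool.Agent.Work.MP_8efaaa_nt.W6.LFd
import Pool.Agent.Work.MP_8efaaa_nt.W14.LVx
import Pool.Agent.Work.MP_8efaaa_nt.W14.LTo
import Pool.Agent.Work.MP_8efaaa_nt.W14.LEp
import Pool.Agent.Work.MP_8efaaa_nt.W14.PGa

/-!
# W6/LLo (M): the local lemma, `q = 3 (mod 8)`

`V 2 = 1` (`vl_odd`). `V J = V r = 1`, `V (J + 1) = V (J - 1) = 1` (product `-2`). Write `a ~ b` for `V (a - b) < 1`.
1. `h ∉ E1 V`: otherwise `TJ hJ = 2h - (2h - TJ) ∈ E1 V`, but `V J = 1` (`W5.pt_mem`). So `h = pt x y`, `V x ≤ 1`, `V y ≤ 1` (`pt_cases`, `W5.v_y`). `2h = pt x2 y2`, `x2 ~ J` (`W5.int_of_sub_mem`, `W5.x_of_sub_mem`). `V y = 1`: if `V y < 1` (`y ≠ 0`) then from `x2 (2y)^2 = (x^2+1)^2` (`W5.dbl_pt`): `V (x^2+1) < 1`, so `V x = 1`, and `y^2 = x (x^2+1) - 2x` gives `V (2x) < 1`, contradiction. (`y = 0`: `2h = 0` is in `E1`, excluded as before.)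
2. `B := (x^2+2x-1)/(2y)`. `B^2 = x2 + 1`: `(x^2+1)^2 + 4 y^2 = (x^2+2x-1)^2` using `y^2 = x^3 - x`. So `B^2 ~ J + 1`, `V B = 1`.
3. `e := J r`, `D0 := pt (-1+r) (e (-1+r))`, `D1 := D0 + em = pt (-1+r) (-e (-1+r))` (`em_add`). `tj_add`: `TJ + D0 = TR`. From `hx`: `gal φ h - (h + D0) = (h + gal φ h - TR) - (2h - TJ) ∈ E1 V`, or (second case) `gal φ h - (h + D1) = (h + gal φ h - TR + em) - (2h - TJ) - (em + em) ∈ E1 V` (`em + em = 0`, `two_ep`; careful with signs: `em = -em`).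
4. `V (x - (-1+r)) = 1`: otherwise `x ~ -1 + r`, `x^2 + 2x - 1 ~ 0`, `V B < 1`. So `b_add` (with `e` or `-e`): `h + D = pt x' y'`, `(x'^2+2x'-1)(x^2+2x-1) = -4 r y y'`. `gal φ h = pt (φ x) (φ y)`, `V (φ x) ≤ 1` (`hφ`), so `x'` is integral and `φ x ~ x'`, `φ y ~ y'` (`W5.int_of_sub_mem`, `x_of_sub_mem`, `y_of_sub_mem`). So `((φ x)^2 + 2 φ x - 1)(x^2+2x-1) ~ -4 r y φ y`; divide by `4 y φ y` (`V (φ y) = 1`: `φ y ~ y^q`): `φ B * B ~ -r`.
5. `φ B ~ B^q` (`hφ`), so `B^(q+1) ~ -r`, `B^(q+1) = (B^2)^((q+1)/2) ~ (J+1)^((q+1)/2) = ((J+1)^2)^((q+1)/4) = (2J)^((q+1)/4) = 2^((q+1)/4) J^((q+1)/4)`; `q = 8 k + 3`: `(q+1)/4 = 2k + 1`, `J^(2k+1) = (-1)^k J`, `k = (q-3)/8`. So `-r ~ (-1)^k 2^((q+1)/4) J`; multiply by `-J`: `J r ~ (-1)^k 2^((q+1)/4)` (`-J * J = 1`).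
-/

set_option autoImplicit false

namespace Pool.Agent.Work.MP_8efaaa_nt.W6

open NumberField Pool.Agent.Work.MP_8efaaa_nt.R Pool.Agent.Work.MP_8efaaa_nt.N5
  Pool.Agent.Work.MP_8efaaa_nt.K6 Pool.Agent.Work.MP_8efaaa_nt.W14
open scoped Classical nonZeroDivisors

private theorem v_of_sub6 {F : Type*} [Field F] {Γ : Type*}
    [LinearOrderedCommGroupWithZero Γ] {V : Valuation F Γ} {a b : F} (h1 : V (a - b) < 1)
    (h2 : V b = 1) : V a = 1 := by
  have h3 : a = (a - b) + b := by ring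
  rw [h3, Valuation.map_add_eq_of_lt_right V (by rw [h2]; exact h1), h2]

private theorem v_prod6 {F : Type*} [Field F] {Γ : Type*}
    [LinearOrderedCommGroupWithZero Γ] {V : Valuation F Γ} {a b : F} (ha : V a ≤ 1)
    (hb : V b ≤ 1) (h : V (a * b) = 1) : V a = 1 := by
  rw [map_mul] at h
  by_contra h1
  have h2 : V a < 1 := lt_of_le_of_ne ha h1
  have h3 : V a * V b < 1 := by
    calc V a * V b ≤ V a * 1 := by gcongr
      _ = V a := mul_one _
      _ < 1 := h2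
  exact absurd h (ne_of_lt h3)

private theorem v_sqrt6 {F : Type*} [Field F] {Γ : Type*}
    [LinearOrderedCommGroupWithZero Γ] {V : Valuation F Γ} {a : F} (h : V (a ^ 2) = 1) :
    V a = 1 := by
  rw [map_pow] at h
  rcases lt_trichotomy (V a) 1 with h1 | h1 | h1
  · exact absurd h (ne_of_lt (pow_lt_one₀ zero_le h1 (by norm_num)))
  · exact h1
  · exact absurd h (ne_of_gt (one_lt_pow₀ h1 (by norm_num)))

private theorem v_powsub6 {F : Type*} [Field F] {Γ : Type*}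
    [LinearOrderedCommGroupWithZero Γ] {V : Valuation F Γ} {a b : F} (ha : V a ≤ 1)
    (hb : V b ≤ 1) (h : V (a - b) < 1) (n : ℕ) : V (a ^ n - b ^ n) < 1 := by
  induction n with
  | zero => rw [pow_zero, pow_zero, sub_self, map_zero]; exact zero_lt_one
  | succ n ih =>
    rw [show a ^ (n + 1) - b ^ (n + 1) = a ^ n * (a - b) + b * (a ^ n - b ^ n) by ring]
    refine W5.vlt V (W5.vltm V ?_ h) (W5.vltm V hb ih)
    rw [map_pow]
    exact pow_le_one₀ zero_le ha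

private theorem v_B6 {F : Type*} [Field F] {Γ : Type*}
    [LinearOrderedCommGroupWithZero Γ] {V : Valuation F Γ} (hV2 : V 2 = 1) {X Y X1 Y1 : F}
    (hX : V X ≤ 1) (hY : V Y = 1) (h1 : V (X1 - X) < 1) (h2 : V (Y1 - Y) < 1) :
    V ((X1 ^ 2 + 2 * X1 - 1) / (2 * Y1) - (X ^ 2 + 2 * X - 1) / (2 * Y)) < 1 := by
  have hY1 : V Y1 = 1 := v_of_sub6 h2 hY
  have h20 : (2 : F) ≠ 0 := by
    intro h0
    rw [h0, map_zero] at hV2
    exact zero_ne_one hV2
  have hY0 : Y ≠ 0 := by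
    rintro rfl
    rw [map_zero] at hY
    exact zero_ne_one hY
  have hY10 : Y1 ≠ 0 := by
    rintro rfl
    rw [map_zero] at hY1
    exact zero_ne_one hY1
  have hX1 : V X1 ≤ 1 := by
    rw [show X1 = (X1 - X) + X by ring]
    exact W5.vle V h1.le hX
  have e : (X1 ^ 2 + 2 * X1 - 1) / (2 * Y1) - (X ^ 2 + 2 * X - 1) / (2 * Y) =
      ((X1 + X + 2) * Y * (X1 - X) + (-(X ^ 2 + 2 * X - 1)) * (Y1 - Y)) / (2 * (Y1 * Y)) := by
    field_simp
    ring
  have hd : V (2 * (Y1 * Y)) = 1 := by rw [map_mul, map_mul, hV2, hY1, hY, one_mul, one_mul]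
  rw [e, map_div₀, hd, div_one]
  refine W5.vlt V (W5.vltm V (W5.vlem V (W5.vle V (W5.vle V hX1 hX) hV2.le) hY.le) h1)
    (W5.vltm V ?_ h2)
  rw [Valuation.map_neg, show X ^ 2 + 2 * X - 1 = (X * X + 2 * X) + -1 by ring]
  refine W5.vle V (W5.vle V (W5.vlem V hX hX) (W5.vlem V hV2.le hX)) ?_
  rw [Valuation.map_neg, map_one]

theorem loc6 {F : Type*} [Field F] [NumberField F] {Γ : Type*}
    [LinearOrderedCommGroupWithZero Γ] {V : Valuation F Γ} {L : Ideal (𝓞 F)} {k0 : Type*}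
    [Field k0] [Algebra k0 F] (hV : VL V L) {q : ℕ} (hq : q.Prime) (hq8 : q % 8 = 3)
    (hqL : (q : 𝓞 F) ∈ L) {φ : F ≃ₐ[k0] F}
    (hφ : ∀ x : F, V x ≤ 1 → V (φ x) ≤ 1 ∧ V (φ x - x ^ q) < 1)
    (hφ' : ∀ x : F, 1 < V x → 1 < V (φ x)) {J r : F} (hJ : J ^ 2 = -1) (hr : r ^ 2 = 2)
    {h : (cQ F).Point} (hh : h + h - TJ hJ ∈ W5.E1 V)
    (hx : h + gal φ h - TR hr ∈ W5.E1 V ∨ h + gal φ h - TR hr + W14.em F ∈ W5.E1 V) :
    V (J * r - (-1) ^ ((q - 3) / 8) * 2 ^ ((q + 1) / 4)) < 1 := by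
  have hq2 : q ≠ 2 := by
    rintro rfl
    norm_num at hq8
  obtain ⟨-, hV2, -⟩ := vl_odd hV hq hq2 hqL
  obtain ⟨-, t2, -, -, -, -⟩ := two_ep (F := F)
  have h20 : (2 : F) ≠ 0 := two_ne_zero
  have hm1 : V (-1 : F) = 1 := by rw [Valuation.map_neg, map_one]
  have hVJ : V J = 1 := v_sqrt6 (by rw [hJ, hm1])
  have he : (J * r) ^ 2 = -2 := by rw [mul_pow, hJ, hr]; ring
  have he' : (-(J * r)) ^ 2 = -2 := by rw [neg_sq, he]
  have hTJ : TJ hJ ∉ W5.E1 V := by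
    intro h1
    unfold TJ at h1
    rw [W5.pt_mem, hVJ] at h1
    exact lt_irrefl _ h1
  have hhn : h + h ∉ W5.E1 V := by
    intro h1
    apply hTJ
    have h2 := (W5.E1 V).sub_mem h1 hh
    rwa [sub_sub_cancel] at h2
  -- the translation
  have hD : ∃ (e : F) (he : e ^ 2 = -2),
      gal φ h - (h + pt (-1 + r) (e * (-1 + r)) (sq_D0 hr he)) ∈ W5.E1 V := by
    have hT := tj_add hJ hr he
    rcases hx with hx | hx
    · refine ⟨J * r, he, ?_⟩
      have h1 := (W5.E1 V).sub_mem hx hh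
      rw [← hT] at h1
      have h2 : h + gal φ h - (TJ hJ + pt (-1 + r) (J * r * (-1 + r)) (sq_D0 hr he)) -
          (h + h - TJ hJ) = gal φ h - (h + pt (-1 + r) (J * r * (-1 + r)) (sq_D0 hr he)) := by
        abel
      rwa [h2] at h1
    · refine ⟨-(J * r), he', ?_⟩
      have h1 := (W5.E1 V).sub_mem hx hh
      rw [← hT] at h1
      have h3 := em_add hr he he'
      rw [← h3]
      have h2 : h + gal φ h - (TJ hJ + pt (-1 + r) (J * r * (-1 + r)) (sq_D0 hr he)) +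
          W14.em F - (h + h - TJ hJ) =
          gal φ h - (h + (pt (-1 + r) (J * r * (-1 + r)) (sq_D0 hr he) + W14.em F)) +
            (W14.em F + W14.em F) := by
        abel
      rw [h2, t2, add_zero] at h1
      exact h1
  obtain ⟨e, hee, hm⟩ := hD
  clear hx
  rcases pt_cases h with rfl | ⟨x, y, hxy, rfl⟩
  · exfalso
    apply hhn
    rw [add_zero]
    exact (W5.E1 V).zero_mem
  have hVx : V x ≤ 1 := by
    by_contra h1
    push Not at h1
    have h2 : pt x y hxy ∈ W5.E1 V := W5.pt_mem.2 h1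
    exact hhn ((W5.E1 V).add_mem h2 h2)
  have hVy1 : V y ≤ 1 := W5.v_y V hxy hVx
  have hy0 : y ≠ 0 := by
    rintro rfl
    apply hhn
    have h1 : -(pt x 0 hxy) = pt x 0 hxy := by
      rw [W5.neg_pt, pt_inj]
      exact ⟨rfl, neg_zero⟩
    have h2 : pt x 0 hxy + pt x 0 hxy = 0 := by
      nth_rewrite 2 [← h1]
      exact add_neg_cancel _
    rw [h2]
    exact (W5.E1 V).zero_mem
  -- the double
  obtain ⟨x2, y2, h3, e1, e2⟩ := W5.dbl_pt hxy hy0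
  rw [e1] at hh
  unfold TJ at hh
  have hVx2 : V x2 ≤ 1 := W5.int_of_sub_mem hVJ.le hh
  have hxx := W5.x_of_sub_mem hVJ.le hh
  have hVy : V y = 1 := by
    by_contra hc
    have hlt : V y < 1 := lt_of_le_of_ne hVy1 hc
    have h4 : V (x ^ 2 + 1) < 1 := by
      apply W5.vsq
      rw [← e2]
      refine W5.vltm V hVx2 ?_
      rw [pow_two]
      have h5 : V (2 * y) < 1 := W5.vltm V hV2.le hlt
      exact W5.vltm V h5.le h5
    have h5 : V (x ^ 2) = 1 := v_of_sub6 (b := -1) (by rw [sub_neg_eq_add]; exact h4) hm1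
    have h6 : V x = 1 := v_sqrt6 h5
    have h7 : V (2 * x) < 1 := by
      rw [show 2 * x = x * (x ^ 2 + 1) + -(y * y) by linear_combination hxy]
      refine W5.vlt V (W5.vltm V hVx h4) ?_
      rw [Valuation.map_neg]
      exact W5.vltm V hVy1 hlt
    rw [map_mul, hV2, h6, one_mul] at h7
    exact lt_irrefl _ h7
  have hJ1 : V (J + 1) = 1 := by
    refine v_prod6 (a := J + 1) (b := J + -1) ?_ ?_ ?_
    · exact W5.vle V hVJ.le (by rw [map_one])
    · exact W5.vle V hVJ.le hm1.le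
    · rw [show (J + 1) * (J + -1) = -2 by linear_combination hJ, Valuation.map_neg, hV2]
  -- the square root
  obtain ⟨B, hB⟩ : ∃ B : F, B = (x ^ 2 + 2 * x - 1) / (2 * y) := ⟨_, rfl⟩
  have hB2 : B ^ 2 - (J + 1) = x2 - J := by
    have h4 : x2 = (x ^ 2 + 1) ^ 2 / (2 * y) ^ 2 := by
      rw [← e2]
      field_simp
    have h5 : (2 * y) ^ 2 ≠ 0 := pow_ne_zero 2 (mul_ne_zero h20 hy0)
    have h6 : B ^ 2 = x2 + 1 := by
      rw [hB, div_pow, h4, div_add_one h5]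
      congr 1
      linear_combination -4 * hxy
    rw [h6]
    ring
  have hVB2 : V (B ^ 2) = 1 := v_of_sub6 (by rw [hB2]; exact hxx) hJ1
  have hVB : V B = 1 := v_sqrt6 hVB2
  have hxr : x ≠ -1 + r := by
    rintro rfl
    have h4 : B = 0 := by
      rw [hB, show (-1 + r) ^ 2 + 2 * (-1 + r) - 1 = 0 by linear_combination hr, zero_div]
    rw [h4, map_zero] at hVB
    exact zero_ne_one hVB
  -- the Frobenius
  obtain ⟨x', y', h', e3, e4⟩ := b_add hxy hr hee hxr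
  rw [e3, gal_pt] at hm
  have hm' : pt x' y' h' - pt (φ x) (φ y) (gal_eq φ hxy) ∈ W5.E1 V := by
    have h4 := (W5.E1 V).neg_mem hm
    rwa [neg_sub] at h4
  have hVφx : V (φ x) ≤ 1 := (hφ x hVx).1
  have hVx' : V x' ≤ 1 := W5.int_of_sub_mem hVφx hm'
  have hdx := W5.x_of_sub_mem hVx' hm
  have hdy := W5.y_of_sub_mem hV2 hVx' hm
  have hVφy : V (φ y) = 1 := by
    refine v_of_sub6 (hφ y hVy.le).2 ?_
    rw [map_pow, hVy, one_pow]
  have hVy' : V y' = 1 := by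
    refine v_of_sub6 (b := φ y) ?_ hVφy
    rw [← neg_sub, Valuation.map_neg]
    exact hdy
  have hy'0 : y' ≠ 0 := by
    rintro rfl
    rw [map_zero] at hVy'
    exact zero_ne_one hVy'
  have hφB : φ B = ((φ x) ^ 2 + 2 * φ x - 1) / (2 * φ y) := by
    rw [hB, map_div₀, map_sub, map_add, map_mul, map_mul, map_pow, map_ofNat, map_one]
  have h5 : V (φ B - (x' ^ 2 + 2 * x' - 1) / (2 * y')) < 1 := by
    rw [hφB]
    exact v_B6 hV2 hVx' hVy' hdx hdy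
  have h6 : (x' ^ 2 + 2 * x' - 1) / (2 * y') * B = -r := by
    rw [hB, div_mul_div_comm, e4]
    field_simp
    ring
  have h7 : V (φ B * B + r) < 1 := by
    rw [show φ B * B + r = B * (φ B - (x' ^ 2 + 2 * x' - 1) / (2 * y')) +
      ((x' ^ 2 + 2 * x' - 1) / (2 * y') * B + r) by ring, h6, neg_add_cancel, add_zero]
    exact W5.vltm V hVB.le h5
  have h8 : V (B ^ q * B + r) < 1 := by
    rw [show B ^ q * B + r = (-B) * (φ B - B ^ q) + (φ B * B + r) by ring]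
    refine W5.vlt V (W5.vltm V ?_ (hφ B hVB.le).2) h7
    rw [Valuation.map_neg]
    exact hVB.le
  obtain ⟨n, hn⟩ : ∃ n, q = 8 * n + 3 := ⟨(q - 3) / 8, by omega⟩
  have hn1 : (q - 3) / 8 = n := by omega
  have hn2 : (q + 1) / 4 = 2 * n + 1 := by omega
  rw [hn1, hn2]
  have h9 : B ^ q * B = (B ^ 2) ^ (4 * n + 2) := by
    rw [hn]
    ring
  have h10 : (J + 1) ^ (4 * n + 2) = 2 ^ (2 * n + 1) * ((-1) ^ n * J) := by
    have h11 : (J + 1) ^ 2 = 2 * J := by linear_combination hJ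
    rw [show 4 * n + 2 = 2 * (2 * n + 1) by ring, pow_mul, h11, mul_pow, pow_succ J (2 * n),
      pow_mul J 2 n, hJ]
  have h11 : V ((B ^ 2) ^ (4 * n + 2) - (J + 1) ^ (4 * n + 2)) < 1 :=
    v_powsub6 hVB2.le hJ1.le (by rw [hB2]; exact hxx) _
  rw [show J * r - (-1) ^ n * 2 ^ (2 * n + 1) =
      J * ((B ^ q * B + r) + -((B ^ 2) ^ (4 * n + 2) - (J + 1) ^ (4 * n + 2))) by
    rw [h9, h10]
    linear_combination (-(2 ^ (2 * n + 1) * (-1) ^ n)) * hJ]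
  refine W5.vltm V hVJ.le (W5.vlt V h8 ?_)
  rw [Valuation.map_neg]
  exact h11

end Pool.Agent.Work.MP_8efaaa_nt.W6
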