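import Mathlib
import Pool.Agent.Work.MP_8efaaa_nt.W6.Defs
import Pool.Agent.Work.MP_8efaaa_nt.V6.PEx

/-!
# W6/PFx (M): the Fricke involution, exactly

`n' = r6 S (a/2)` (odd norm `a/2`), `c' = n' * c`. Adapt the private `step1f` of `V6/PEx.lean` (copy the private lemmas it needs: `add_T0`, `sq_T0`, `I_eqs`, `pp_inv`, `pp_of_vu` are there or in `W14/PVu.lean`): for ANY `r` with `r^2 = 2` it shows `PP c' + PP c = T0` or `T0 + ez`, `T0 = pt (1+r) (r (1+r)) = TR (r)`,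
and `TR(r) + ez = TR(-r)`: `pt (1-r) (-r (1-r))` (`ez + (x, y) = (-1/x, y/x^2)`). So for a suitable `r' = ± r`: `PP c' + PP c = TR r'`, `r'^2 = 2`. It remains to show `r' = rr a S z v c = z(c) z(c') (1 + v(c)) (1 + v(c')) / 2`.
With `PP c = (X, Y)` and `PP c' = (x, y)` (`pp_inv`): `z = (X^2+1)/(X^2-1)`, `v = 2Y/(X^2+1)` (from `zk`, `vz` and the definition `X = (1+z)/k`, `Y = 2X/(v z)`: `k = 2X/(X^2-1)`), so `z (1+v) = (X^2+1+2Y)/(X^2-1)`, the same for `c'`, and the claim is the identity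
`(X^2+1+2Y)(x^2+1+2y) = 2 r' (X^2-1)(x^2-1)` for `(x, y) = TR(r') - (X, Y)` (`Y^2 = X^3 - X`, `r'^2 = 2`; addition formula with the slope `(r'(1+r') + Y)/(1+r' - X)`; it was checked by computer; `X ≠ 1 + r'` as in `step1f`). The square root of two: `ζ - ζ^3` or `ζ + ζ^7` (`UD6.z8`).
-/

set_option autoImplicit false

namespace Pool.Agent.Work.MP_8efaaa_nt.W6

open NumberField Pool.Agent.Work.MP_8efaaa_nt.R Pool.Agent.Work.MP_8efaaa_nt.N5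
  Pool.Agent.Work.MP_8efaaa_nt.K6 Pool.Agent.Work.MP_8efaaa_nt.W14
open scoped Classical nonZeroDivisors

variable {K F : Type*} [Field K] [NumberField K] [Field F] [NumberField F] [Algebra K F] {a : ℕ}
  {s : K} {S : 𝓞 K} {τ : 𝓞 K ≃+* 𝓞 K} {ζ : F} {w : ℕ → F} {z k v : Ideal (𝓞 K) → F}
  {κ : F ≃ₐ[ℚ] F}

omit [NumberField F] in
private theorem add_eq [CharZero F] {x1 y1 x2 y2 x3 y3 L : F} (h1 : y1 ^ 2 = x1 ^ 3 - x1)
    (h2 : y2 ^ 2 = x2 ^ 3 - x2) (hx : x1 ≠ x2) (hL : L = (y1 - y2) / (x1 - x2))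
    (h3x : x3 = L ^ 2 - x1 - x2) (h3y : y3 = -(L * (x3 - x1) + y1)) :
    ∃ h3, pt x1 y1 h1 + pt x2 y2 h2 = pt x3 y3 h3 := by
  have hn := WeierstrassCurve.Affine.nonsingular_add (cQ_nonsingular.2 h1) (cQ_nonsingular.2 h2)
    (fun hc => hx hc.1)
  have hs : (cQ F).slope x1 x2 y1 y2 = L := by
    rw [WeierstrassCurve.Affine.slope_of_X_ne hx, hL]
  have eX : (cQ F).addX x1 x2 ((cQ F).slope x1 x2 y1 y2) = x3 := by
    rw [hs, h3x]
    simp only [WeierstrassCurve.Affine.addX, cQ]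
    ring
  have eY : (cQ F).addY x1 x2 y1 ((cQ F).slope x1 x2 y1 y2) = y3 := by
    simp only [WeierstrassCurve.Affine.addY, WeierstrassCurve.Affine.negAddY, eX]
    rw [hs, h3y]
    simp only [WeierstrassCurve.Affine.negY, cQ]
    ring
  refine ⟨?_, ?_⟩
  · have h3 := cQ_nonsingular.1 hn
    rw [eX, eY] at h3
    exact h3
  · unfold pt
    rw [WeierstrassCurve.Affine.Point.add_of_X_ne hx,
      WeierstrassCurve.Affine.Point.some.injEq]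
    exact ⟨eX, eY⟩

omit [NumberField F] in
private theorem add_ez [CharZero F] {x y : F} (h : y ^ 2 = x ^ 3 - x) (hx : x ≠ 0) :
    ∃ h3, pt x y h + ez F = pt (-1 / x) (y / x ^ 2) h3 := by
  have h3x : -1 / x = (y / x) ^ 2 - x - 0 := by
    field_simp
    linear_combination -h
  unfold ez
  refine add_eq h _ hx rfl ?_ ?_
  · rw [sub_zero, sub_zero, sub_zero]
    rw [sub_zero] at h3x
    exact h3x
  · rw [sub_zero, sub_zero]
    field_simp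
    ring

private theorem add_T0 {F : Type*} [Field F] [CharZero F] {X Y r : F} (h : Y ^ 2 = X ^ 3 - X)
    (hr : r ^ 2 = 2) (hX : X ≠ 1 + r) (h1 : (-Y) ^ 2 = X ^ 3 - X)
    (h2 : (r * (1 + r)) ^ 2 = (1 + r) ^ 3 - (1 + r)) :
    ∃ (x y : F) (hxy : y ^ 2 = x ^ 3 - x), pt X (-Y) h1 + pt (1 + r) (r * (1 + r)) h2 =
      pt x y hxy ∧
      x * (X - (1 + r)) ^ 2 = (1 + r) * ((X ^ 2 + 2 * X - 1) + 2 * r * Y) ∧
      y * (X - (1 + r)) ^ 3 = r * ((1 + r) * X + 1) *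
        (X ^ 2 + (2 * (1 + r) + 2) * X - (1 + r) ^ 2 + 2 * (1 + r) * Y) := by
  have hn : (cQ F).Nonsingular
      ((cQ F).addX X (1 + r) ((cQ F).slope X (1 + r) (-Y) (r * (1 + r))))
      ((cQ F).addY X (1 + r) (-Y) ((cQ F).slope X (1 + r) (-Y) (r * (1 + r)))) :=
    WeierstrassCurve.Affine.nonsingular_add (cQ_nonsingular.2 h1) (cQ_nonsingular.2 h2)
      (fun hc => hX hc.1)
  have hd : X - (1 + r) ≠ 0 := sub_ne_zero.2 hX
  have hl : (cQ F).slope X (1 + r) (-Y) (r * (1 + r)) * (X - (1 + r)) = -Y - r * (1 + r) := by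
    rw [WeierstrassCurve.Affine.slope_of_X_ne hX]
    exact div_mul_cancel₀ _ hd
  have hx : (cQ F).addX X (1 + r) ((cQ F).slope X (1 + r) (-Y) (r * (1 + r))) *
      (X - (1 + r)) ^ 2 = (1 + r) * ((X ^ 2 + 2 * X - 1) + 2 * r * Y) := by
    generalize (cQ F).slope X (1 + r) (-Y) (r * (1 + r)) = lam at hl ⊢
    simp only [WeierstrassCurve.Affine.addX, cQ]
    linear_combination (lam * (X - (1 + r)) + (-Y - r * (1 + r))) * hl + h +
      (r ^ 2 + X + r) * hr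
  refine ⟨_, _, cQ_nonsingular.1 hn, ?_, hx, ?_⟩
  · unfold pt
    rw [WeierstrassCurve.Affine.Point.add_of_X_ne hX]
  · unfold WeierstrassCurve.Affine.addY WeierstrassCurve.Affine.negAddY
    generalize hx3 : (cQ F).addX X (1 + r)
      ((cQ F).slope X (1 + r) (-Y) (r * (1 + r))) = x3 at hx ⊢
    generalize hlam : (cQ F).slope X (1 + r) (-Y) (r * (1 + r)) = lam at hl ⊢
    simp only [WeierstrassCurve.Affine.negY, cQ]
    linear_combination (-(x3 * (X - (1 + r)) ^ 2 - X * (X - (1 + r)) ^ 2)) * hl -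
      (-Y - r * (1 + r)) * hx + (2 * r ^ 2 + 2 * r) * h +
      (-2 * X * Y * r + X ^ 2 * r + 2 * Y * r ^ 2 - 2 * X * Y + 2 * X * r + 3 * Y * r + Y) * hr

private theorem I_eqs {F : Type*} [Field F] {X Y r x Q D B : F} (h : Y ^ 2 = X ^ 3 - X)
    (hr : r ^ 2 = 2) (hQ : Q = X ^ 2 + 2 * X - 1) (hD : D = X - (1 + r))
    (hB : B = X ^ 2 + (2 * (1 + r) + 2) * X - (1 + r) ^ 2 + 2 * (1 + r) * Y)
    (hx : x * D ^ 2 = (1 + r) * (Q + 2 * r * Y)) :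
    (x ^ 2 + 1) * D ^ 4 = 2 * r * (1 + r) * Q * B ∧
    (x ^ 2 + 2 * x - 1) * D ^ 4 = 4 * (1 + r) * (X ^ 2 + 1) * B ∧
    (x ^ 2 - 2 * x - 1) * D ^ 4 = 8 * (1 + r) * Y * B := by
  subst hQ hD hB
  refine ⟨?_, ?_, ?_⟩
  · linear_combination (x * (X - (1 + r)) ^ 2 + (1 + r) * ((X ^ 2 + 2 * X - 1) + 2 * r * Y)) * hx +
      (4 * r ^ 4 + 8 * r ^ 3 + 4 * r ^ 2) * h +
      (4 * X ^ 3 * r ^ 2 + 2 * X ^ 2 * r ^ 2 + 4 * X ^ 3 * r - X ^ 4 - 2 * X ^ 2 * r +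
        4 * X * r - 4 * X ^ 2 - r ^ 2 + 4 * X - 2 * r - 1) * hr
  · linear_combination (x * (X - (1 + r)) ^ 2 + (1 + r) * ((X ^ 2 + 2 * X - 1) + 2 * r * Y) +
        2 * (X - (1 + r)) ^ 2) * hx +
      (4 * r ^ 4 + 8 * r ^ 3 + 4 * r ^ 2) * h +
      (4 * X ^ 3 * r ^ 2 + 4 * X ^ 2 * Y * r + 8 * X ^ 3 * r + X ^ 4 - 4 * X * r ^ 2 +
        4 * X ^ 2 * Y + 6 * X ^ 2 * r + 4 * X ^ 3 + 4 * Y * r ^ 2 + 6 * X ^ 2 + 8 * Y * r -
        r ^ 2 + 4 * X + 4 * Y - 2 * r - 1) * hr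
  · linear_combination (x * (X - (1 + r)) ^ 2 + (1 + r) * ((X ^ 2 + 2 * X - 1) + 2 * r * Y) -
        2 * (X - (1 + r)) ^ 2) * hx +
      (4 * r ^ 4 + 8 * r ^ 3 - 12 * r ^ 2 - 32 * r - 16) * h +
      (4 * X ^ 3 * r ^ 2 + 4 * X ^ 2 * Y * r + 8 * X ^ 3 * r + X ^ 4 + 16 * X * Y * r -
        4 * X * r ^ 2 + 4 * X ^ 2 * Y - 2 * X ^ 2 * r + 4 * X ^ 3 - 4 * Y * r ^ 2 +
        16 * X * Y - 8 * X * r - 2 * X ^ 2 - 8 * Y * r - r ^ 2 - 4 * X - 4 * Y - 2 * r - 1) * hr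

private theorem step1f (hU : UD6 K F a s S τ ζ w z k v κ) {c c' : Ideal (𝓞 K)} (hc : OddI c)
    (hc' : OddI c') {r : F} (hr : r ^ 2 = 2)
    (h1 : v c' * (1 + v c ^ 2) = 2 / z c ^ 2 - 1)
    (h2 : (2 / z c' ^ 2 - 1) * (1 + v c ^ 2) = 2 * v c) :
    PP z k v c' + PP z k v c = TR hr ∨ PP z k v c' + PP z k v c = TR hr + ez F := by
  obtain ⟨X, Y, h, e, hY, hX, -, -, -, -, hv, hu⟩ := pp_inv hU hc
  obtain ⟨-, -, hvc⟩ := hU.ne c hc
  obtain ⟨-, -, hvc'⟩ := hU.ne c' hc'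
  have two_ne : (2 : F) ≠ 0 := two_ne_zero
  have hvY : v c * (X ^ 2 + 1) = 2 * Y := by
    apply mul_right_cancel₀ hY
    linear_combination hv - 2 * h
  obtain ⟨Q, hQ⟩ : ∃ Q : F, Q = X ^ 2 + 2 * X - 1 := ⟨_, rfl⟩
  obtain ⟨D, hD⟩ : ∃ D : F, D = X - (1 + r) := ⟨_, rfl⟩
  obtain ⟨B, hB⟩ : ∃ B : F, B = X ^ 2 + (2 * (1 + r) + 2) * X - (1 + r) ^ 2 +
    2 * (1 + r) * Y := ⟨_, rfl⟩
  have hk : (1 + v c ^ 2) * (X ^ 2 + 1) ^ 2 = Q ^ 2 := by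
    rw [hQ]
    linear_combination (v c * (X ^ 2 + 1) + 2 * Y) * hvY + 4 * h
  have hQ0 : Q ≠ 0 := by
    intro h3
    rw [h3] at hk
    have h4 : (1 + v c ^ 2) * (X ^ 2 + 1) ^ 2 = 0 := by rw [hk]; ring
    have h5 : 1 + v c ^ 2 = 0 := (mul_eq_zero.1 h4).resolve_right (pow_ne_zero _ hX)
    rw [h5, mul_zero] at h2
    exact mul_ne_zero two_ne hvc h2.symm
  have hvQ : v c' * Q = X ^ 2 - 2 * X - 1 := by
    apply mul_right_cancel₀ hQ0
    linear_combination -v c' * hk + (X ^ 2 + 1) ^ 2 * h1 + hu - (X ^ 2 - 2 * X - 1) * hQ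
  have huQ : (2 / z c' ^ 2 - 1) * Q ^ 2 = 4 * Y * (X ^ 2 + 1) := by
    generalize 2 / z c' ^ 2 - 1 = U' at h2 ⊢
    linear_combination -U' * hk + (X ^ 2 + 1) ^ 2 * h2 + 2 * (X ^ 2 + 1) * hvY
  have hP : X ^ 2 - 2 * X - 1 ≠ 0 := by
    rw [← hvQ]
    exact mul_ne_zero hvc' hQ0
  have hr0 : r ≠ 0 := by
    intro h3
    rw [h3] at hr
    exact two_ne (by linear_combination -hr)
  have hr1 : (1 + r : F) ≠ 0 := by
    intro h3
    have h4 : r = -1 := by linear_combination h3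
    rw [h4] at hr
    have h5 : (1 : F) = 0 := by linear_combination -hr
    exact one_ne_zero h5
  have hD0 : D ≠ 0 := by
    intro h3
    apply hP
    have h4 : X = 1 + r := by rw [hD] at h3; linear_combination h3
    rw [h4]
    linear_combination hr
  have hE : D * ((1 + r) * X + 1) = (1 + r) * (X ^ 2 - 2 * X - 1) - X * (r ^ 2 - 2) := by
    rw [hD]
    ring
  have hE0 : (1 + r) * X + 1 ≠ 0 := by
    intro h3
    rw [h3, mul_zero, hr, sub_self, mul_zero, sub_zero] at hE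
    exact mul_ne_zero hr1 hP hE.symm
  have hXne : X ≠ 1 + r := by
    intro h3
    apply hD0
    rw [hD, h3, sub_self]
  have h1' : (-Y) ^ 2 = X ^ 3 - X := by rw [neg_sq]; exact h
  obtain ⟨x, y, hxy, e3, ex, ey⟩ := add_T0 h hr hXne h1' (sq_TR hr)
  rw [← hQ, ← hD] at ex
  rw [← hD, ← hB] at ey
  obtain ⟨i3, i4, i5⟩ := I_eqs h hr hQ hD hB ex
  have hD4 : D ^ 4 ≠ 0 := pow_ne_zero _ hD0
  have hB0 : B ≠ 0 := by
    intro h3
    rw [h3, mul_zero] at i3 i4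
    have h4 : x ^ 2 + 1 = 0 := (mul_eq_zero.1 i3).resolve_right hD4
    have h5 : x ^ 2 + 2 * x - 1 = 0 := (mul_eq_zero.1 i4).resolve_right hD4
    have h6 : 2 * (x - 1) = 0 := by linear_combination h5 - h4
    have h7 : x = 1 := by
      have h8 := (mul_eq_zero.1 h6).resolve_left two_ne
      linear_combination h8
    rw [h7] at h4
    exact two_ne (by linear_combination h4)
  have hy : y ≠ 0 := by
    intro h3
    rw [h3, zero_mul] at ey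
    exact mul_ne_zero (mul_ne_zero hr0 hE0) hB0 ey.symm
  have hx1 : x ^ 2 + 1 ≠ 0 := by
    intro h3
    rw [h3, zero_mul] at i3
    exact mul_ne_zero (mul_ne_zero (mul_ne_zero (mul_ne_zero two_ne hr0) hr1) hQ0) hB0 i3.symm
  have hv1 : v c' * (x ^ 2 + 1) = 2 * y := by
    apply mul_right_cancel₀ (mul_ne_zero hQ0 hD4)
    linear_combination (x ^ 2 + 1) * D ^ 4 * hvQ + (X ^ 2 - 2 * X - 1) * i3 - 2 * Q * D * ey -
      2 * r * Q * B * hE + 2 * r * Q * B * X * hr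
  have hv' : v c' * ((x ^ 2 + 1) * y) = 2 * x * (x ^ 2 - 1) := by
    linear_combination y * hv1 + 2 * hxy
  have hu' : (2 / z c' ^ 2 - 1) * (x ^ 2 + 1) ^ 2 =
      2 * (x ^ 2 - 1) ^ 2 - (x ^ 2 + 1) ^ 2 := by
    apply mul_right_cancel₀ (mul_ne_zero (pow_ne_zero 2 hQ0) (pow_ne_zero 2 hD4))
    generalize 2 / z c' ^ 2 - 1 = U' at huQ ⊢
    linear_combination ((x ^ 2 + 1) * D ^ 4) ^ 2 * huQ +
      4 * Y * (X ^ 2 + 1) * ((x ^ 2 + 1) * D ^ 4 + 2 * r * (1 + r) * Q * B) * i3 -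
      Q ^ 2 * ((x ^ 2 - 2 * x - 1) * D ^ 4) * i4 -
      Q ^ 2 * (4 * (1 + r) * (X ^ 2 + 1) * B) * i5 +
      16 * Y * (X ^ 2 + 1) * (1 + r) ^ 2 * Q ^ 2 * B ^ 2 * hr
  have hneg : -(pt X Y h) = pt X (-Y) h1' := W5.neg_pt h
  have hsum : pt x y hxy + pt X Y h = TR hr := by
    unfold TR
    rw [← e3, ← hneg]
    abel
  rw [e]
  rcases pp_of_vu hU hc' hxy hy hx1 hv' hu' with h9 | h9
  · left
    rw [h9, hsum]
  · right
    rw [h9, ← hsum]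
    abel

private theorem pfx_P (hU : UD6 K F a s S τ ζ w z k v κ) {c c' : Ideal (𝓞 K)} (hc : OddI c)
    (hc' : OddI c') (h1 : v c' * (1 + v c ^ 2) = 2 / z c ^ 2 - 1)
    (h2 : (2 / z c' ^ 2 - 1) * (1 + v c ^ 2) = 2 * v c) {X Y : F} (h : Y ^ 2 = X ^ 3 - X)
    (hY : Y ≠ 0) (hX : X ^ 2 + 1 ≠ 0) (hv : v c * ((X ^ 2 + 1) * Y) = 2 * X * (X ^ 2 - 1))
    (hu : (2 / z c ^ 2 - 1) * (X ^ 2 + 1) ^ 2 = 2 * (X ^ 2 - 1) ^ 2 - (X ^ 2 + 1) ^ 2) :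
    X ^ 2 - 2 * X - 1 ≠ 0 := by
  obtain ⟨-, -, hvc⟩ := hU.ne c hc
  obtain ⟨-, -, hvc'⟩ := hU.ne c' hc'
  have two_ne : (2 : F) ≠ 0 := two_ne_zero
  have hvY : v c * (X ^ 2 + 1) = 2 * Y := by
    apply mul_right_cancel₀ hY
    linear_combination hv - 2 * h
  obtain ⟨Q, hQ⟩ : ∃ Q : F, Q = X ^ 2 + 2 * X - 1 := ⟨_, rfl⟩
  have hk : (1 + v c ^ 2) * (X ^ 2 + 1) ^ 2 = Q ^ 2 := by
    rw [hQ]
    linear_combination (v c * (X ^ 2 + 1) + 2 * Y) * hvY + 4 * h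
  have hQ0 : Q ≠ 0 := by
    intro h3
    rw [h3] at hk
    have h4 : (1 + v c ^ 2) * (X ^ 2 + 1) ^ 2 = 0 := by rw [hk]; ring
    have h5 : 1 + v c ^ 2 = 0 := (mul_eq_zero.1 h4).resolve_right (pow_ne_zero _ hX)
    rw [h5, mul_zero] at h2
    exact mul_ne_zero two_ne hvc h2.symm
  have hvQ : v c' * Q = X ^ 2 - 2 * X - 1 := by
    apply mul_right_cancel₀ hQ0
    linear_combination -v c' * hk + (X ^ 2 + 1) ^ 2 * h1 + hu - (X ^ 2 - 2 * X - 1) * hQ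
  rw [← hvQ]
  exact mul_ne_zero hvc' hQ0

private theorem pfx_r {F : Type*} [Field F] [CharZero F] {r : F} (hr : r ^ 2 = 2) :
    (1 + r : F) ≠ 0 := by
  intro h3
  have h4 : r = -1 := by linear_combination h3
  rw [h4] at hr
  have h5 : (1 : F) = 0 := by linear_combination -hr
  exact one_ne_zero h5

private theorem pfx_neg {F : Type*} [Field F] {r : F} (hr : r ^ 2 = 2) : (-r) ^ 2 = 2 := by
  rw [neg_sq]; exact hr

omit [NumberField F] in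
private theorem TR_ez [CharZero F] {r : F} (hr : r ^ 2 = 2) : TR hr + ez F = TR (pfx_neg hr) := by
  have h1 := pfx_r hr
  obtain ⟨h3, h4⟩ := add_ez (sq_TR hr) h1
  unfold TR
  rw [h4, pt_inj]
  constructor
  · rw [div_eq_iff h1]
    linear_combination hr
  · rw [div_eq_iff (pow_ne_zero 2 h1)]
    linear_combination (-r * (1 + r)) * hr

private theorem pfx_id {F : Type*} [Field F] {X Y r x y : F} (h : Y ^ 2 = X ^ 3 - X)
    (hr : r ^ 2 = 2) (hX : X ≠ 1 + r)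
    (hx : x * (X - (1 + r)) ^ 2 = (1 + r) * ((X ^ 2 + 2 * X - 1) + 2 * r * Y))
    (hy : y * (X - (1 + r)) ^ 3 = r * ((1 + r) * X + 1) *
        (X ^ 2 + (2 * (1 + r) + 2) * X - (1 + r) ^ 2 + 2 * (1 + r) * Y)) (h2 : (2 : F) ≠ 0) :
    (X ^ 2 + 1 + 2 * Y) * (x ^ 2 + 1 + 2 * y) = 2 * r * ((X ^ 2 - 1) * (x ^ 2 - 1)) := by
  obtain ⟨Q, hQ⟩ : ∃ Q : F, Q = X ^ 2 + 2 * X - 1 := ⟨_, rfl⟩
  obtain ⟨D, hD⟩ : ∃ D : F, D = X - (1 + r) := ⟨_, rfl⟩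
  obtain ⟨B, hB⟩ : ∃ B : F, B = X ^ 2 + (2 * (1 + r) + 2) * X - (1 + r) ^ 2 +
    2 * (1 + r) * Y := ⟨_, rfl⟩
  rw [← hQ, ← hD] at hx
  rw [← hD, ← hB] at hy
  obtain ⟨i3, i4, i5⟩ := I_eqs h hr hQ hD hB hx
  have hD0 : D ≠ 0 := by
    rw [hD]
    exact sub_ne_zero.2 hX
  have hE : D * ((1 + r) * X + 1) = (1 + r) * (X ^ 2 - 2 * X - 1) := by
    rw [hD]
    linear_combination (-X) * hr
  have j1 : (x ^ 2 - 1) * D ^ 4 = 2 * (1 + r) * B * (X ^ 2 + 1 + 2 * Y) := by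
    apply mul_left_cancel₀ h2
    linear_combination i4 + i5
  have j2 : (x ^ 2 + 1 + 2 * y) * D ^ 4 = 4 * r * (1 + r) * B * (X ^ 2 - 1) := by
    linear_combination i3 + 2 * D * hy + 2 * r * B * hE + 2 * r * (1 + r) * B * hQ
  apply mul_right_cancel₀ (pow_ne_zero 4 hD0)
  linear_combination (X ^ 2 + 1 + 2 * Y) * j2 - 2 * r * (X ^ 2 - 1) * j1

private theorem pfx_sq {F : Type*} [Field F] {ζ : F} (hz : ζ ^ 4 = -1) :
    (ζ - ζ ^ 3) ^ 2 = 2 := by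
  linear_combination (ζ ^ 2 - 2) * hz

private theorem pfx_odd {b c : Ideal (𝓞 K)} (hb' : OddI b) (hc' : OddI c) : OddI (b * c) := by
  unfold OddI at *
  rw [map_mul]
  exact hb'.mul hc'

theorem fr_ex (hb : B6 K a s) (hS : algebraMap (𝓞 K) K S = s)
    (hU : UD6 K F a s S τ ζ w z k v κ) {c : Ideal (𝓞 K)} (hc : OddI c) :
    ∃ hr : (rr a S z v c) ^ 2 = 2,
      PP z k v (r6 S (a / 2) * c) + PP z k v c = TR hr := by
  have hm := hb.mod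
  have hdvd : a / 2 ∣ a := Nat.div_dvd_of_dvd (by omega)
  have hno : OddI (r6 S (a / 2)) := by
    unfold OddI
    rw [norm_r6 hb hS hdvd, Nat.odd_iff]
    omega
  have hc' : OddI (r6 S (a / 2) * c) := pfx_odd hno hc
  have h1 := hU.fr1 c hc
  have h2 := hU.fr2 c hc
  have h2F : (2 : F) ≠ 0 := two_ne_zero
  -- the exact square root of two
  obtain ⟨r, hr, hsum⟩ : ∃ (r : F) (hr : r ^ 2 = 2),
      PP z k v (r6 S (a / 2) * c) + PP z k v c = TR hr := by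
    rcases step1f hU hc hc' (pfx_sq hU.z8) h1 h2 with h3 | h3
    · exact ⟨_, _, h3⟩
    · rw [TR_ez] at h3
      exact ⟨_, _, h3⟩
  obtain ⟨X, Y, h, e, hY, hX, -, -, hzX, -, hv, hu⟩ := pp_inv hU hc
  obtain ⟨x', y', h', e', hy', hx', -, -, hzx, -, hv', -⟩ := pp_inv hU hc'
  have hP := pfx_P hU hc hc' h1 h2 h hY hX hv hu
  have hXne : X ≠ 1 + r := by
    intro h4
    apply hP
    rw [h4]
    linear_combination hr
  have h1' : (-Y) ^ 2 = X ^ 3 - X := by rw [neg_sq]; exact h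
  obtain ⟨x, y, hxy, e3, ex, ey⟩ := add_T0 h hr hXne h1' (sq_TR hr)
  have hneg : -(pt X Y h) = pt X (-Y) h1' := W5.neg_pt h
  have hpt : pt x' y' h' = pt x y hxy := by
    have h5 : pt x' y' h' + pt X Y h = TR hr := by rw [← e, ← e']; exact hsum
    rw [← e3, ← hneg, add_comm (-(pt X Y h)), ← sub_eq_add_neg, eq_sub_iff_add_eq]
    exact h5
  rw [pt_inj] at hpt
  obtain ⟨hxe, hye⟩ := hpt
  rw [← hxe] at ex
  rw [← hye] at ey
  have hid := pfx_id h hr hXne ex ey h2F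
  have hvY : v c * (X ^ 2 + 1) = 2 * Y := by
    apply mul_right_cancel₀ hY
    linear_combination hv - 2 * h
  have hvY' : v (r6 S (a / 2) * c) * (x' ^ 2 + 1) = 2 * y' := by
    apply mul_right_cancel₀ hy'
    linear_combination hv' - 2 * h'
  have hXm : X ^ 2 - 1 ≠ 0 := by
    intro h4
    rw [h4, mul_zero] at hzX
    exact hX hzX.symm
  have hxm : x' ^ 2 - 1 ≠ 0 := by
    intro h4
    rw [h4, mul_zero] at hzx
    exact hx' hzx.symm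
  have hrr : rr a S z v c = r := by
    unfold rr
    rw [div_eq_iff h2F]
    apply mul_right_cancel₀ (mul_ne_zero hXm hxm)
    have g1 : z c * (1 + v c) * (X ^ 2 - 1) = X ^ 2 + 1 + 2 * Y := by
      linear_combination (1 + v c) * hzX + hvY
    have g2 : z (r6 S (a / 2) * c) * (1 + v (r6 S (a / 2) * c)) * (x' ^ 2 - 1) =
        x' ^ 2 + 1 + 2 * y' := by
      linear_combination (1 + v (r6 S (a / 2) * c)) * hzx + hvY'
    calc z c * z (r6 S (a / 2) * c) * ((1 + v c) * (1 + v (r6 S (a / 2) * c))) *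
          ((X ^ 2 - 1) * (x' ^ 2 - 1)) =
        (z c * (1 + v c) * (X ^ 2 - 1)) *
          (z (r6 S (a / 2) * c) * (1 + v (r6 S (a / 2) * c)) * (x' ^ 2 - 1)) := by ring
      _ = (X ^ 2 + 1 + 2 * Y) * (x' ^ 2 + 1 + 2 * y') := by rw [g1, g2]
      _ = r * 2 * ((X ^ 2 - 1) * (x' ^ 2 - 1)) := by rw [hid]; ring
  have hr2 : (rr a S z v c) ^ 2 = 2 := by rw [hrr]; exact hr
  refine ⟨hr2, ?_⟩
  rw [hsum]
  unfold TR
  rw [pt_inj, hrr]
  exact ⟨rfl, rfl⟩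

end Pool.Agent.Work.MP_8efaaa_nt.W6
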