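import Mathlib
import Pool.Agent.Work.MP_8efaaa_nt.V6.SFr
import Pool.Agent.Work.MP_8efaaa_nt.V6.SIn
import Pool.Agent.Work.MP_8efaaa_nt.V6.QFa
import Pool.Agent.Work.MP_8efaaa_nt.W6.Defs
import Pool.Agent.Work.MP_8efaaa_nt.W6.PFx

/-!
# W6/GFr: the relations at the primes with exact constants
-/

set_option autoImplicit false

namespace Pool.Agent.Work.MP_8efaaa_nt.W6

open NumberField Pool.Agent.Work.MP_8efaaa_nt.R Pool.Agent.Work.MP_8efaaa_nt.N5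
  Pool.Agent.Work.MP_8efaaa_nt.K6 Pool.Agent.Work.MP_8efaaa_nt.W14
open scoped Classical nonZeroDivisors

/-- the two points of order four -/
theorem TR_neg {F : Type*} [Field F] [CharZero F] {r : F} (hr : r ^ 2 = 2)
    (hr' : (-r) ^ 2 = 2) : TR hr' = TR hr + ez F := by
  have hne : (1 + r : F) ≠ 0 := by
    intro h
    have h1 : r = -1 := by linear_combination h
    rw [h1] at hr
    have h2 : (1 : F) = 0 := by linear_combination -hr
    exact one_ne_zero h2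
  have hn := WeierstrassCurve.Affine.nonsingular_add (cQ_nonsingular.2 (sq_TR hr))
    (cQ_nonsingular.2 (show (0 : F) ^ 2 = 0 ^ 3 - 0 by norm_num)) (fun hc => hne hc.1)
  have hs : (cQ F).slope (1 + r) 0 (r * (1 + r)) 0 = r := by
    rw [WeierstrassCurve.Affine.slope_of_X_ne hne, sub_zero, sub_zero]
    field_simp
  have eX : (cQ F).addX (1 + r) 0 ((cQ F).slope (1 + r) 0 (r * (1 + r)) 0) = 1 + -r := by
    rw [hs]
    simp only [WeierstrassCurve.Affine.addX, cQ]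
    linear_combination hr
  have eY : (cQ F).addY (1 + r) 0 (r * (1 + r)) ((cQ F).slope (1 + r) 0 (r * (1 + r)) 0) =
      -r * (1 + -r) := by
    simp only [WeierstrassCurve.Affine.addY, WeierstrassCurve.Affine.negAddY, eX]
    rw [hs]
    simp only [WeierstrassCurve.Affine.negY, cQ]
    ring
  unfold TR ez pt
  rw [WeierstrassCurve.Affine.Point.add_of_X_ne hne,
    WeierstrassCurve.Affine.Point.some.injEq]
  exact ⟨eX.symm, eY.symm⟩

variable {K F : Type*} [Field K] [NumberField K] [Field F] [NumberField F] [Algebra K F] {a : ℕ}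
  {s : K} {S : 𝓞 K} {τ : 𝓞 K ≃+* 𝓞 K} {ζ : F} {w : ℕ → F} {z k v : Ideal (𝓞 K) → F}
  {κ : F ≃ₐ[ℚ] F}

private theorem odd_one6 : OddI (1 : Ideal (𝓞 K)) := by
  unfold OddI
  rw [map_one]
  exact odd_one

/-- the Fricke relation with its constant -/
theorem fr_T3 (hb : B6 K a s) (hS : algebraMap (𝓞 K) K S = s)
    (hU : UD6 K F a s S τ ζ w z k v κ) :
    ∃ hr : (rr a S z v 1) ^ 2 = 2, TR hr + TR hr = ep F ∧ ∀ c, OddI c →
      PP z k v (r6 S (a / 2) * c) + PP z k v c =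
        TR hr + if Ideal.absNorm c % 8 = 1 ∨ Ideal.absNorm c % 8 = 7 then 0 else ez F := by
  obtain ⟨T', hT', hfr⟩ := V6.fr_px hb hS hU
  obtain ⟨hr, h1⟩ := fr_ex hb hS hU (c := 1) odd_one6
  have h2 := hfr 1 odd_one6
  rw [h1, map_one, if_pos (Or.inl (by norm_num)), add_zero] at h2
  refine ⟨hr, ?_, ?_⟩
  · rw [h2]
    exact hT'
  · rw [h2]
    exact hfr

theorem fr_pi_ex (hb : B6 K a s) (hS : algebraMap (𝓞 K) K S = s)
    {Γ : Type}
    [LinearOrderedCommGroupWithZero Γ] {V : Valuation F Γ} {r : ℕ} (hr8 : r % 8 = 3)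
    (hra : r ∣ a) {φ : F ≃ₐ[K] F}
    (hφ : ∀ c, OddI c → PP z k v (r6 S r * c) - gal φ (PP z k v c) ∈ W5.E1 V) {ρ : V6.M1 K}
    (hρ : (ρ : Ideal (𝓞 K)) = r6 S (a / 2) * r6 S r) {f : CG S → V6.QB F}
    (hf : V6.HPi S z k v f)
    (hsu : Function.Surjective (V6.clN S)) {T' : (cQ F).Point}
    (hfr : ∀ c, OddI c →
      PP z k v (r6 S (a / 2) * c) + PP z k v c =
        T' + if Ideal.absNorm c % 8 = 1 ∨ Ideal.absNorm c % 8 = 7 then 0 else ez F) (g : CG S) :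
    f (V6.clN S ρ * g) + V6.galB φ (f g) -
      (V6.qn T' + V6.n1 F + V6.dd F (Ideal.absNorm (ρ : Ideal (𝓞 K)))) ∈ V6.EB V := by
  obtain ⟨q1, q2, q3, q4, -⟩ := V6.qn_em (F := F)
  obtain ⟨c, rfl⟩ := hsu g
  rw [← map_mul, ← hf (ρ * c), ← hf c]
  have hc := V6.M1.odd c.2
  have hnr : Ideal.absNorm (r6 S r * (c : Ideal (𝓞 K))) =
      r * Ideal.absNorm (c : Ideal (𝓞 K)) := by
    rw [map_mul, norm_r6 hb hS hra]
  have h8 : Ideal.absNorm (r6 S r * (c : Ideal (𝓞 K))) % 8 = 3 := by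
    rw [hnr, Nat.mul_mod, hr8, V6.M1.nrm c.2]
  have hrc : OddI (r6 S r * (c : Ideal (𝓞 K))) := by
    unfold OddI
    rw [Nat.odd_iff]
    omega
  have h1 := hfr _ hrc
  rw [if_neg (by omega)] at h1
  have h2 : ((ρ * c : V6.M1 K) : Ideal (𝓞 K)) =
      r6 S (a / 2) * (r6 S r * (c : Ideal (𝓞 K))) := by
    rw [Submonoid.coe_mul, hρ, mul_assoc]
  have h3 : Ideal.absNorm ((ρ * c : V6.M1 K) : Ideal (𝓞 K)) =
      Ideal.absNorm (ρ : Ideal (𝓞 K)) * Ideal.absNorm (c : Ideal (𝓞 K)) := by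
    rw [Submonoid.coe_mul, map_mul]
  have h4 : V6.PB z k v ((ρ * c : V6.M1 K) : Ideal (𝓞 K)) = V6.qn T' + V6.n1 F -
      V6.qn (PP z k v (r6 S r * (c : Ideal (𝓞 K)))) := by
    unfold V6.PB
    rw [h2, eq_sub_iff_add_eq, ← map_add, h1, map_add]
    rfl
  rw [h4, h3, V6.dd_mul (V6.M1.nrm ρ.2) (V6.M1.nrm c.2), map_add, (V6.galB_n1 φ).2]
  have h5 : V6.galB φ (V6.PB z k v (c : Ideal (𝓞 K))) =
      V6.qn (gal φ (PP z k v (c : Ideal (𝓞 K)))) := rfl
  rw [h5]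
  have h6 := V6.dd_add (F := F) (Ideal.absNorm (c : Ideal (𝓞 K)))
  have h7 : V6.qn T' + V6.n1 F - V6.qn (PP z k v (r6 S r * (c : Ideal (𝓞 K)))) +
      (V6.dd F (Ideal.absNorm (ρ : Ideal (𝓞 K))) + V6.dd F (Ideal.absNorm (c : Ideal (𝓞 K)))) +
      (V6.qn (gal φ (PP z k v (c : Ideal (𝓞 K)))) +
        V6.dd F (Ideal.absNorm (c : Ideal (𝓞 K)))) -
      (V6.qn T' + V6.n1 F + V6.dd F (Ideal.absNorm (ρ : Ideal (𝓞 K)))) =
      -V6.qn (PP z k v (r6 S r * (c : Ideal (𝓞 K))) - gal φ (PP z k v (c : Ideal (𝓞 K)))) +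
      (V6.dd F (Ideal.absNorm (c : Ideal (𝓞 K))) +
        V6.dd F (Ideal.absNorm (c : Ideal (𝓞 K)))) := by
    rw [map_sub]
    abel
  rw [h7, h6, add_zero]
  exact (V6.EB V).neg_mem (AddSubgroup.mem_map_of_mem V6.qn (hφ _ hc))

/-- from the relation of `inert_x6` to the one of `V6.in_pi` -/
theorem in_w0 (hb : B6 K a s) (hS : algebraMap (𝓞 K) K S = s) (hτ : τ S = -S)
    (ha : a % 16 = 6) {T : (cQ F).Point}
    (hT : ∀ c, OddI c → PP z k v (Ideal.span {1 + S} * c) + PP z k v c =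
        T + if Ideal.absNorm c % 4 = 1 then 0 else W14.em F) {Γ : Type}
    [LinearOrderedCommGroupWithZero Γ] {V : Valuation F Γ} {b : Ideal (𝓞 K)}
    (h16 : Ideal.absNorm b % 16 = 15)
    (hmem : ∀ c, OddI c → PP z k v (b * cj τ c) - PP z k v c ∈ W5.E1 V) :
    ∃ w0 : V6.M1 K, (w0 : Ideal (𝓞 K)) = Ideal.span {1 + S} * b ∧
      Ideal.absNorm (w0 : Ideal (𝓞 K)) % 16 = 9 ∧
      ∀ c ∈ V6.M1 K, PP z k v ((w0 : Ideal (𝓞 K)) * cj τ c) + PP z k v c -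
        (T + W14.em F) ∈ W5.E1 V := by
  have hw16 : Ideal.absNorm (Ideal.span {1 + S} * b) % 16 = 9 := by
    rw [map_mul, norm_g hb hS, Nat.mul_mod, h16]
    have h5 : (1 + a) % 16 = 7 := by omega
    rw [h5]
  have hw0 : Ideal.absNorm (Ideal.span {1 + S} * b) % 8 = 1 := by omega
  refine ⟨⟨Ideal.span {1 + S} * b, hw0⟩, rfl, hw16, fun c hc => ?_⟩
  have hco := V6.M1.odd hc
  obtain ⟨n1', -, -⟩ := norm_cj6 hb hS hτ c
  have hN : Ideal.absNorm (b * cj τ c) % 8 = 7 := by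
    have h8 : Ideal.absNorm b % 8 = 7 := by omega
    rw [map_mul, n1', Nat.mul_mod, h8, V6.M1.nrm hc]
  have hodd : OddI (b * cj τ c) := by
    unfold OddI
    rw [Nat.odd_iff]
    omega
  have h1 := hT _ hodd
  rw [if_neg (by omega), ← mul_assoc] at h1
  have h2 : PP z k v (Ideal.span {1 + S} * b * cj τ c) + PP z k v c - (T + W14.em F) =
      -(PP z k v (b * cj τ c) - PP z k v c) := by
    rw [← h1]
    abel
  show PP z k v (Ideal.span {1 + S} * b * cj τ c) + PP z k v c - (T + W14.em F) ∈ W5.E1 V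
  rw [h2]
  exact (W5.E1 V).neg_mem (hmem c hco)

end Pool.Agent.Work.MP_8efaaa_nt.W6
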