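import Mathlib
import Pool.Agent.Work.MP_8efaaa_nt.W6.LFd
import Pool.Agent.Work.MP_8efaaa_nt.W14.PVu

/-!
# W6/JTw (M): the exact value of the quarter turns

`UD6` is `hX.ud`. `e8 x` is `1` or `-1`.
`pq_x6` (exact quarter turn of the points): model: `step1` (private) in W14/PTq.lean and V6/PEx.lean, with `I := -v(δc) v(c)` for `x0` (copy its proof: `pp_inv` for `c`; `X`, `Y`; `R := TJ(I) - PP c = pt x1 y1`). There `v(R) = v(δc)`, `u(R) = u(δc)` (`u = 2/z^2 - 1`), so `z(δc) = ± z(R)`, `z(R) = (x1^2+1)/(x1^2-1)`. Now use `hX.trx`: `z(δc) (1 + I k(c)) = e8 x (1 + I) v(c) z(c)`, with `k(c) = 2X/(X^2-1)`, `v(c) z(c) = 2X/Y`: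
`1 + I k = (X + I)^2/(X^2 - 1)` (as `X^2 + 2 I X - 1 = (X + I)^2`), so `z(δc) = e8 x (1 + I) (2X/Y)(X^2-1)/(X+I)^2 = e8 x (1+I) 2Y/(X+I)^2` (`Y^2 = X (X^2-1)`), and `z(R) = -(1 + I) 2Y/(X + I)^2` (checked numerically; equivalently `(x1^2+1)(X+I)^2 = -(1+I) 2Y (x1^2-1)`: this is the second statement of the private lemma `R_eqs` there). So `z(δc) = -e8 x z(R)`: if `e8 x = -1`: `PP (δc) = R`, `PP (δc) + PP c = TJ(I)`. (Only this case is stated. `X + I ≠ 0` because `X^2 + 1 ≠ 0`.)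
`turn_v`: (1) `mov c0`: `σ : F ≃ₐ[K] F` with `σ (v c) = v (c0 * c)`, `σ ζ = ζ^(N c0)`. `(v(γ) v(1))^2 = -1 = (ζ^2)^2` (`trx` for `c = 1`, `mul_one`), so `v(γ) v(1) = ± ζ^2` is fixed by `σ` (`ζ^(2 N c0) = ζ^2` as `N c0 = 1 (mod 4)`, `ζ^8 = 1`). So `v(γ c0) v(c0) = v(γ) v(1)` (`mul_comm` for ideals).
(2) In `𝓞 K`: `(1 + a) γ = (1 + S) u`, `u = (x + a y) + (y - x) S` (`S^2 = -a`). `tr1` for the integer `1 + a` (odd, `y = 0`): `v (span {1+a} * span {γ}) = v (span {γ})`. `span {1+a} * span {γ} = span {u} * span {1 + S}`. `x + a y` is odd; `y - x = 2 y1`: if `y1` is even: `tr1` for `u`: `v (span {u} * span {1+S}) = v (span {1+S})`; if `y1` is odd: `trh`: `= -v (span {1+S})`. So `v(γ) = (-1)^(y1) v(1+S)`, and `(y - x)/2 = (x y - 1)/2 (mod 2)` for odd `x`, `y`.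
`J_eq`: `J = -v(γ c0) v(c0)`, `rr a S z v 1 = z(1) z(n') (1+v(1))(1+v(n'))/2`, `n' = r6 S (a/2)`, `ori`: `v(1+S) v(1) rr = θ`. So `J * (ε rr) = -(-1)^((xy-1)/2) ε θ = (-1)^((xy+1)/2) ε θ`.
-/

set_option autoImplicit false

namespace Pool.Agent.Work.MP_8efaaa_nt.W6

open NumberField Pool.Agent.Work.MP_8efaaa_nt.R Pool.Agent.Work.MP_8efaaa_nt.N5
  Pool.Agent.Work.MP_8efaaa_nt.K6 Pool.Agent.Work.MP_8efaaa_nt.W14
open scoped Classical nonZeroDivisors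

variable {K F : Type*} [Field K] [NumberField K] [Field F] [NumberField F]
    [Algebra K F] {a : ℕ} {s : K} {S : 𝓞 K} {τ : 𝓞 K ≃+* 𝓞 K} {ζ : F}
    {w : ℕ → F} {z k v : Ideal (𝓞 K) → F} {κ : F ≃ₐ[ℚ] F} {u0 v0 : ℤ} {nu : ℕ → ℤ → ℤ}
    {ξ θ e : F}

private theorem sq_T {F : Type*} [Field F] {c : F} (hc : c ^ 2 = -1) :
    (1 - c) ^ 2 = c ^ 3 - c := by
  linear_combination (1 - c) * hc

private theorem one_sub_ne {F : Type*} [Field F] [CharZero F] {c : F} (hc : c ^ 2 = -1) :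
    1 - c ≠ 0 := by
  intro h
  have h1 : c = 1 := by linear_combination -h
  rw [h1] at hc
  have h2 : (2 : F) = 0 := by linear_combination hc
  exact two_ne_zero h2

private theorem add_T {F : Type*} [Field F] [CharZero F] {X Y c : F} (h : Y ^ 2 = X ^ 3 - X)
    (hc : c ^ 2 = -1) (hX : X ≠ c) (h1 : (-Y) ^ 2 = X ^ 3 - X) (h2 : (1 - c) ^ 2 = c ^ 3 - c) :
    ∃ (x y : F) (hxy : y ^ 2 = x ^ 3 - x), pt X (-Y) h1 + pt c (1 - c) h2 = pt x y hxy ∧
      x * (X - c) ^ 2 = c * (X + c) ^ 2 + 2 * (1 - c) * Y ∧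
      y * (X - c) ^ 3 = (X + c) * ((1 - c) * (X + c) ^ 2 - 4 * Y) := by
  have hn : (cQ F).Nonsingular ((cQ F).addX X c ((cQ F).slope X c (-Y) (1 - c)))
      ((cQ F).addY X c (-Y) ((cQ F).slope X c (-Y) (1 - c))) :=
    WeierstrassCurve.Affine.nonsingular_add (cQ_nonsingular.2 h1) (cQ_nonsingular.2 h2)
      (fun hc => hX hc.1)
  have hd : X - c ≠ 0 := sub_ne_zero.2 hX
  have hl : (cQ F).slope X c (-Y) (1 - c) * (X - c) = -Y - (1 - c) := by
    rw [WeierstrassCurve.Affine.slope_of_X_ne hX]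
    field_simp
  have hx : (cQ F).addX X c ((cQ F).slope X c (-Y) (1 - c)) * (X - c) ^ 2 =
      c * (X + c) ^ 2 + 2 * (1 - c) * Y := by
    generalize (cQ F).slope X c (-Y) (1 - c) = lam at hl ⊢
    simp only [WeierstrassCurve.Affine.addX, cQ]
    linear_combination (lam * (X - c) + (-Y - (1 - c))) * hl + h + (-X - 2 * c + 1) * hc
  refine ⟨_, _, cQ_nonsingular.1 hn, ?_, hx, ?_⟩
  · unfold pt
    rw [WeierstrassCurve.Affine.Point.add_of_X_ne hX]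
  · unfold WeierstrassCurve.Affine.addY WeierstrassCurve.Affine.negAddY
    generalize hx3 : (cQ F).addX X c ((cQ F).slope X c (-Y) (1 - c)) = x3 at hx ⊢
    generalize hlam : (cQ F).slope X c (-Y) (1 - c) = lam at hl ⊢
    simp only [WeierstrassCurve.Affine.negY, cQ]
    linear_combination (-(x3 * (X - c) ^ 2 - X * (X - c) ^ 2)) * hl -
      (-Y - (1 - c)) * hx + (2 - 2 * c) * h + (4 * X * Y + 2 * X * c - 2 * X + 2 * Y) * hc

private theorem R_eqs {F : Type*} [Field F] {X Y c x : F} (h : Y ^ 2 = X ^ 3 - X)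
    (hc : c ^ 2 = -1) (hX : X ≠ c)
    (hx : x * (X - c) ^ 2 = c * (X + c) ^ 2 + 2 * (1 - c) * Y) :
    (x ^ 2 + 1) * (X - c) ^ 4 = 4 * c * Y * ((1 - c) * (X + c) ^ 2 - 4 * Y) ∧
      (x ^ 2 - 1) * (2 * c * (1 - c) * Y) = -((X + c) ^ 2 * (x ^ 2 + 1)) := by
  have hE : (x ^ 2 + 1) * (X - c) ^ 4 = 4 * c * Y * ((1 - c) * (X + c) ^ 2 - 4 * Y) := by
    linear_combination (x * (X - c) ^ 2 + (c * (X + c) ^ 2 + 2 * (1 - c) * Y)) * hx +
      (4 * c ^ 2 + 8 * c + 4) * h + (X ^ 4 + 4 * X ^ 3 * c + 4 * X ^ 3 + 6 * X ^ 2 * c ^ 2 +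
        4 * X * c ^ 3 - 8 * X * c - 4 * X + c ^ 4) * hc
  have hk : (1 - c) * (2 * c * Y * ((1 - c) * (X + c) ^ 2 - 4 * Y) - (X - c) ^ 4) =
      -(((1 - c) * (X + c) ^ 2 - 4 * Y) * (X + c) ^ 2) := by
    linear_combination (8 * c ^ 2 - 8 * c) * h + (2 * X ^ 2 * Y * c - 4 * X ^ 2 * Y +
      4 * X * Y * c ^ 2 - 8 * X * Y * c - 8 * X * c ^ 2 + 8 * X * c + 2 * Y * c ^ 3 -
      4 * Y * c ^ 2) * hc
  refine ⟨hE, ?_⟩
  have hd : (X - c) ^ 4 ≠ 0 := pow_ne_zero _ (sub_ne_zero.2 hX)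
  apply mul_right_cancel₀ hd
  linear_combination (2 * c * (1 - c) * Y + (X + c) ^ 2) * hE + 4 * c * Y * hk


private theorem add_ez {x y : F} (h : y ^ 2 = x ^ 3 - x) (hx : x ≠ 0)
    (h' : (y / x ^ 2) ^ 2 = (-1 / x) ^ 3 - -1 / x) :
    pt x y h + ez F = pt (-1 / x) (y / x ^ 2) h' := by
  have h1 : ((cQ F).addX x 0 ((cQ F).slope x 0 y 0)) = -1 / x := by
    rw [WeierstrassCurve.Affine.slope_of_X_ne hx]
    simp only [WeierstrassCurve.Affine.addX, cQ]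
    field_simp
    linear_combination x * h
  have h2 : ((cQ F).addY x 0 y ((cQ F).slope x 0 y 0)) = y / x ^ 2 := by
    unfold WeierstrassCurve.Affine.addY WeierstrassCurve.Affine.negAddY
    rw [h1, WeierstrassCurve.Affine.slope_of_X_ne hx]
    simp only [WeierstrassCurve.Affine.negY, cQ]
    field_simp
    ring
  unfold ez pt
  rw [WeierstrassCurve.Affine.Point.add_of_X_ne hx, WeierstrassCurve.Affine.Point.some.injEq]
  exact ⟨h1, h2⟩


private theorem jt_oddδ (hX : XD6 K F a s S τ ζ w z k v κ u0 v0 nu ξ θ e) {x y : ℤ} (hx : Odd x)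
    {δ : 𝓞 K} (hδ : algebraMap (𝓞 K) K δ = x + y * s) : OddI (Ideal.span {δ}) := by
  have hκ : (κ e) ^ 2 = (u0 : F) - (v0 : F) * θ := by
    rw [← map_pow, hX.sq, map_add, map_mul, map_intCast, map_intCast, hX.kth]
    ring
  have hs2F : (algebraMap K F s) ^ 2 = algebraMap K F (-(2 * ((u0 : K) ^ 2 + 2 * (v0 : K) ^ 2))) := by
    rw [← hX.conj]
    simp only [map_neg, map_mul, map_add, map_pow, map_intCast, map_ofNat]
    linear_combination (κ e) ^ 2 * θ ^ 2 * hX.sq + ((u0 : F) + (v0 : F) * θ) * θ ^ 2 * hκ +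
      ((u0 : F) ^ 2 - (v0 : F) ^ 2 * θ ^ 2 + 2 * (v0 : F) ^ 2) * hX.th
  have hs2 : s ^ 2 = -(2 * ((u0 : K) ^ 2 + 2 * (v0 : K) ^ 2)) := by
    rw [← map_pow] at hs2F
    exact (algebraMap K F).injective hs2F
  have hprod : δ * (((2 * x : ℤ) : 𝓞 K) - δ) =
      ((x ^ 2 + 2 * (u0 ^ 2 + 2 * v0 ^ 2) * y ^ 2 : ℤ) : 𝓞 K) := by
    apply (FaithfulSMul.algebraMap_injective (𝓞 K) K)
    rw [map_mul, map_sub, hδ, map_intCast, map_intCast]
    push_cast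
    linear_combination -(y : K) ^ 2 * hs2
  have hodd : Odd (x ^ 2 + 2 * (u0 ^ 2 + 2 * v0 ^ 2) * y ^ 2) := by
    apply Odd.add_even hx.pow
    rw [mul_assoc]
    exact even_two_mul _
  have hn : Ideal.absNorm (Ideal.span {δ}) * Ideal.absNorm (Ideal.span {((2 * x : ℤ) : 𝓞 K) - δ}) =
      ((x ^ 2 + 2 * (u0 ^ 2 + 2 * v0 ^ 2) * y ^ 2) ^ (Module.finrank ℤ (𝓞 K))).natAbs := by
    rw [← map_mul, Ideal.span_singleton_mul_span_singleton, hprod, Ideal.absNorm_span_singleton]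
    have h1 := Algebra.norm_algebraMap (S := 𝓞 K) (x ^ 2 + 2 * (u0 ^ 2 + 2 * v0 ^ 2) * y ^ 2)
    rw [← h1]
    congr 2
  have hodd2 : Odd (Ideal.absNorm (Ideal.span {δ}) *
      Ideal.absNorm (Ideal.span {((2 * x : ℤ) : 𝓞 K) - δ})) := by
    rw [hn, Int.natAbs_odd]
    exact hodd.pow
  exact (Nat.odd_mul.1 hodd2).1

private theorem jt_mul {b c : Ideal (𝓞 K)} (hb' : OddI b) (hc' : OddI c) : OddI (b * c) := by
  unfold OddI at *
  rw [map_mul]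
  exact hb'.mul hc'

private theorem jt_one : OddI (1 : Ideal (𝓞 K)) := by
  unfold OddI
  rw [map_one]
  exact odd_one

theorem pq_x6 (hX : XD6 K F a s S τ ζ w z k v κ u0 v0 nu ξ θ e) {x y : ℤ} (hx : Odd x)
    (hy : Odd y) (hx8 : e8 x = -1) {δ : 𝓞 K} (hδ : algebraMap (𝓞 K) K δ = x + y * s)
    {c : Ideal (𝓞 K)} (hc : OddI c) (hJ : (-(v (Ideal.span {δ} * c) * v c)) ^ 2 = -1) :
    PP z k v (Ideal.span {δ} * c) + PP z k v c = TJ hJ := by
  have hU := hX.ud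
  have hc' : OddI (Ideal.span {δ} * c) := jt_mul (jt_oddδ hX hx hδ) hc
  obtain ⟨h1, h2⟩ := hU.trq x y δ hx hy hδ c hc
  obtain ⟨-, htr⟩ := hX.trx x y δ hx hy hδ c hc
  rw [hx8] at htr
  unfold TJ
  generalize hcd : Ideal.span {δ} * c = c' at *
  obtain ⟨X, Y, h, e0, hY, hXX, -, -, gz, gk, hv, hu⟩ := pp_inv hU hc
  obtain ⟨x0, hx0⟩ : ∃ x0 : F, x0 = -(v c' * v c) := ⟨_, rfl⟩
  have hi : x0 ^ 2 = -1 := by
    rw [hx0]
    exact hJ
  have hXne : X ≠ x0 := by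
    intro h3
    apply hXX
    rw [h3, hi]
    norm_num
  have hXp : X + x0 ≠ 0 := by
    intro h3
    apply hXX
    linear_combination (X - x0) * h3 + hi
  have hd : X - x0 ≠ 0 := sub_ne_zero.2 hXne
  have hi0 : x0 ≠ 0 := by
    intro h3
    rw [h3] at hi
    norm_num at hi
  have h1' : (-Y) ^ 2 = X ^ 3 - X := by rw [neg_sq]; exact h
  obtain ⟨x1, y1, hxy, e3, ex, ey⟩ := add_T h hi hXne h1' (sq_T hi)
  obtain ⟨hE, hr⟩ := R_eqs h hi hXne ex
  -- the values at the point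
  have hvY : v c * (X ^ 2 + 1) = 2 * Y := by
    apply mul_right_cancel₀ hY
    linear_combination hv - 2 * h
  have hQ : (1 - x0) * (X + x0) ^ 2 - 4 * Y ≠ 0 := by
    intro h3
    rw [h3, mul_zero] at hE ey
    have h4 : x1 ^ 2 + 1 = 0 := (mul_eq_zero.1 hE).resolve_right (pow_ne_zero _ hd)
    have h5 : y1 = 0 := (mul_eq_zero.1 ey).resolve_right (pow_ne_zero _ hd)
    rw [h5] at hxy
    have h6 : x1 * 2 = 0 := by linear_combination x1 * h4 + hxy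
    have h7 : x1 = 0 := (mul_eq_zero.1 h6).resolve_right two_ne_zero
    rw [h7] at h4
    norm_num at h4
  have hyn : y1 ≠ 0 := by
    intro h3
    rw [h3, zero_mul] at ey
    rcases mul_eq_zero.1 ey.symm with h4 | h4
    · exact hXp h4
    · exact hQ h4
  have hx1 : x1 ^ 2 + 1 ≠ 0 := by
    intro h3
    rw [h3, zero_mul] at hE
    have h4 : 4 * x0 * Y ≠ 0 := mul_ne_zero (mul_ne_zero (by norm_num) hi0) hY
    rcases mul_eq_zero.1 hE.symm with h5 | h5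
    · exact h4 h5
    · exact hQ h5
  have hv1 : v c' * (x1 ^ 2 + 1) = 2 * y1 := by
    apply mul_right_cancel₀ (pow_ne_zero 4 hd)
    linear_combination v c' * hE - 2 * (X - x0) * ey -
      2 * x0 * ((1 - x0) * (X + x0) ^ 2 - 4 * Y) * v c' * hvY +
      2 * x0 * ((1 - x0) * (X + x0) ^ 2 - 4 * Y) * (X ^ 2 + 1) * hx0 -
      2 * ((1 - x0) * (X + x0) ^ 2 - 4 * Y) * X ^ 2 * hi
  have hv' : v c' * ((x1 ^ 2 + 1) * y1) = 2 * x1 * (x1 ^ 2 - 1) := by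
    linear_combination y1 * hv1 + 2 * hxy
  have hU4 : (2 / z c' ^ 2 - 1) * (4 * Y ^ 2) = -x0 * (X ^ 4 - 6 * X ^ 2 + 1) := by
    generalize 2 / z c' ^ 2 - 1 = U' at h2 ⊢
    generalize 2 / z c ^ 2 - 1 = U at h2 hu
    linear_combination -U' * (v c * (X ^ 2 + 1) + 2 * Y) * hvY +
      v c * (X ^ 2 + 1) ^ 2 * h2 + U * (X ^ 2 + 1) ^ 2 * hx0 - x0 * hu
  have hr2 : 8 * x0 * Y ^ 2 * (x1 ^ 2 - 1) ^ 2 = (X + x0) ^ 4 * (x1 ^ 2 + 1) ^ 2 := by
    linear_combination ((x1 ^ 2 - 1) * (2 * x0 * (1 - x0) * Y) - (X + x0) ^ 2 * (x1 ^ 2 + 1)) * hr -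
      (4 * x0 ^ 2 - 8 * x0) * Y ^ 2 * (x1 ^ 2 - 1) ^ 2 * hi
  have hu' : (2 / z c' ^ 2 - 1) * (x1 ^ 2 + 1) ^ 2 =
      2 * (x1 ^ 2 - 1) ^ 2 - (x1 ^ 2 + 1) ^ 2 := by
    have h8 : 8 * x0 * Y ^ 2 ≠ 0 := mul_ne_zero (mul_ne_zero (by norm_num) hi0) (pow_ne_zero _ hY)
    apply mul_left_cancel₀ h8
    generalize 2 / z c' ^ 2 - 1 = U' at hU4 ⊢
    linear_combination 2 * x0 * (x1 ^ 2 + 1) ^ 2 * hU4 - 2 * hr2 +
      (x1 ^ 2 + 1) ^ 2 * (8 * x0) * h + (x1 ^ 2 + 1) ^ 2 * (-2 * X ^ 4 - 8 * X * x0 -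
        2 * x0 ^ 2) * hi
  -- the exact value of `z`
  have hX1 : X ^ 2 - 1 ≠ 0 := by
    intro h3
    rw [h3, mul_zero] at gz
    exact hXX gz.symm
  have hz1 : z c' * (X + x0) ^ 2 = -(2 * (1 + x0) * Y) := by
    push_cast at htr
    linear_combination (X ^ 2 - 1) * htr - z c' * x0 * gk + z c' * hi -
      v c * (1 + x0) * gz - (1 + x0) * hvY +
      (z c' * k c * (X ^ 2 - 1) + v c * z c * (X ^ 2 - 1)) * hx0
  have hzR : z c' * (x1 ^ 2 - 1) = x1 ^ 2 + 1 := by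
    apply mul_right_cancel₀ (pow_ne_zero 2 hXp)
    linear_combination (x1 ^ 2 - 1) * hz1 - hr - 2 * Y * (x1 ^ 2 - 1) * hi
  have hneg : -(pt X Y h) = pt X (-Y) h1' := W5.neg_pt h
  have hsum : pt x1 y1 hxy + pt X Y h = pt x0 (1 - x0) (sq_T hi) := by
    rw [← e3, ← hneg]
    abel
  have hfin : PP z k v c' = pt x1 y1 hxy := by
    rcases pp_of_vu hU hc' hxy hyn hx1 hv' hu' with h9 | h9
    · exact h9
    · exfalso
      have hx10 : x1 ≠ 0 := by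
        rintro rfl
        apply hyn
        have h3 : y1 ^ 2 = 0 := by rw [hxy]; ring
        exact pow_eq_zero_iff two_ne_zero |>.1 h3
      have h' : (y1 / x1 ^ 2) ^ 2 = (-1 / x1) ^ 3 - -1 / x1 := by
        rw [div_pow, hxy]
        field_simp
        ring
      rw [add_ez hxy hx10 h'] at h9
      obtain ⟨X', Y', hXY', e', -, -, -, -, gz', -, -, -⟩ := pp_inv hU hc'
      rw [e', pt_inj] at h9
      rw [h9.1] at gz'
      have h3 : z c' * (1 - x1 ^ 2) = 1 + x1 ^ 2 := by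
        have h4 : (-1 / x1) ^ 2 * x1 ^ 2 = 1 := by
          field_simp
        linear_combination x1 ^ 2 * gz' - z c' * h4 + h4
      have h5 : 2 * (x1 ^ 2 + 1) = 0 := by linear_combination -hzR - h3
      exact hx1 ((mul_eq_zero.1 h5).resolve_left two_ne_zero)
  rw [e0, hfin, hsum, pt_inj]
  exact ⟨hx0, by rw [hx0]⟩

private theorem jt_sgn {F : Type*} [Field F] (m : ℤ) :
    ((-1 : F)) ^ m.natAbs = if Even m then 1 else -1 := by
  by_cases h : Even m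
  · rw [if_pos h, (Int.natAbs_even.2 h).neg_one_pow]
  · rw [if_neg h]
    exact (Int.natAbs_odd.2 (Int.not_even_iff_odd.1 h)).neg_one_pow

theorem turn_v (hb : B6 K a s) (hS : algebraMap (𝓞 K) K S = s)
    (hX : XD6 K F a s S τ ζ w z k v κ u0 v0 nu ξ θ e) {x y : ℤ} (hx : Odd x)
    (hy : Odd y) {γ : 𝓞 K} (hγ : γ = x + y * S) {c0 : Ideal (𝓞 K)}
    (hc0 : Ideal.absNorm c0 % 4 = 1) :
    v (Ideal.span {γ} * c0) * v c0 =
      (-1) ^ ((x * y - 1) / 2).natAbs * (v (Ideal.span {1 + S}) * v 1) := by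
  have hU := hX.ud
  have hc : OddI c0 := by
    unfold OddI
    rw [Nat.odd_iff]
    omega
  have hγK : algebraMap (𝓞 K) K γ = x + y * s := by
    rw [hγ, map_add, map_mul, map_intCast, map_intCast, hS]
  have hγo : OddI (Ideal.span {γ}) := (oddI_span6 hb hγK).2 hx
  -- the reduction to `c0 = 1`
  have hstep1 : v (Ideal.span {γ} * c0) * v c0 = v (Ideal.span {γ}) * v 1 := by
    obtain ⟨σ, hσ⟩ := hU.mov c0 hc
    obtain ⟨-, -, a3⟩ := hσ.act (Ideal.span {γ}) hγo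
    obtain ⟨-, -, b3⟩ := hσ.act 1 jt_one
    rw [mul_comm c0] at a3
    rw [mul_one] at b3
    obtain ⟨h1, -⟩ := hX.trx x y γ hx hy hγK 1 jt_one
    rw [mul_one] at h1
    have hz8 : ζ ^ 8 = 1 := by
      rw [show ζ ^ 8 = (ζ ^ 4) ^ 2 by ring, hU.z8]
      norm_num
    have hσi : σ (ζ ^ 2) = ζ ^ 2 := by
      rw [map_pow, hσ.z8, ← pow_mul, ← Nat.div_add_mod (Ideal.absNorm c0) 4, hc0,
        show (4 * (Ideal.absNorm c0 / 4) + 1) * 2 = 8 * (Ideal.absNorm c0 / 4) + 2 by ring,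
        pow_add, pow_mul, hz8, one_pow, one_mul]
    have h2 : (v (Ideal.span {γ}) * v 1 - ζ ^ 2) * (v (Ideal.span {γ}) * v 1 + ζ ^ 2) = 0 := by
      linear_combination h1 - hU.z8
    rw [← a3, ← b3, ← map_mul]
    rcases mul_eq_zero.1 h2 with h3 | h3
    · rw [sub_eq_zero.1 h3, hσi]
    · rw [eq_neg_of_add_eq_zero_left h3, map_neg, hσi]
  rw [hstep1]
  have hSS : S * S = -(a : 𝓞 K) := by
    apply (FaithfulSMul.algebraMap_injective (𝓞 K) K)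
    rw [map_mul, hS, map_neg, map_natCast, ← pow_two, hb.sq]
  have ha : Even (a : ℤ) := by
    rw [Int.even_iff]
    have := hb.mod
    omega
  obtain ⟨u, hu⟩ : ∃ u : 𝓞 K, u = ((x + a * y : ℤ) : 𝓞 K) + ((y - x : ℤ) : 𝓞 K) * S := ⟨_, rfl⟩
  have hmul : ((1 + a : ℕ) : 𝓞 K) * γ = u * (1 + S) := by
    rw [hu, hγ]
    push_cast
    linear_combination (-(y : 𝓞 K) + x) * hSS
  have hideal : Ideal.span {((1 + a : ℕ) : 𝓞 K)} * Ideal.span {γ} =
      Ideal.span {u} * Ideal.span {1 + S} := by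
    rw [Ideal.span_singleton_mul_span_singleton, Ideal.span_singleton_mul_span_singleton, hmul]
  have h1S : algebraMap (𝓞 K) K (1 + S) = ((1 : ℤ) : K) + ((1 : ℤ) : K) * s := by
    rw [map_add, map_one, hS]
    push_cast
    ring
  have hSo : OddI (Ideal.span {1 + S}) := (oddI_span6 hb h1S).2 odd_one
  have e1 : v (Ideal.span {((1 + a : ℕ) : 𝓞 K)} * Ideal.span {γ}) = v (Ideal.span {γ}) := by
    refine (hU.tr1 (1 + a) 0 ((1 + a : ℕ) : 𝓞 K) ?_ ?_ (Ideal.span {γ}) hγo).2.2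
    · exact odd_one.add_even ha
    · rw [map_natCast]
      push_cast
      ring
  have hxo : Odd (x + a * y) := hx.add_even (ha.mul_right y)
  obtain ⟨y1, hy1⟩ : ∃ y1 : ℤ, y - x = 2 * y1 := by
    obtain ⟨t, ht⟩ := hy.sub_odd hx
    exact ⟨t, by rw [ht]; ring⟩
  have hpar : (Even ((x * y - 1) / 2) ↔ Even y1) := by
    obtain ⟨t, ht⟩ := hx
    have hyy : y = x + 2 * y1 := by linear_combination hy1
    have h3 : x * y - 1 = 2 * (2 * (t * (t + 1)) + x * y1) := by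
      rw [hyy, ht]
      ring
    rw [h3, Int.mul_ediv_cancel_left _ (by norm_num), Int.even_add]
    have hxodd : ¬ Even x := by
      rw [Int.not_even_iff_odd]
      exact ⟨t, ht⟩
    simp [Int.even_mul, hxodd]
  have e2 : v (Ideal.span {u} * Ideal.span {1 + S}) =
      (-1) ^ ((x * y - 1) / 2).natAbs * v (Ideal.span {1 + S}) := by
    rw [jt_sgn]
    by_cases hev : Even y1
    · rw [if_pos (hpar.2 hev), one_mul]
      obtain ⟨t, ht⟩ := hev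
      refine (hU.tr1 (x + a * y) t u hxo ?_ (Ideal.span {1 + S}) hSo).2.2
      rw [hu, map_add, map_mul, map_intCast, map_intCast, hS, hy1, ht]
      push_cast
      ring
    · rw [if_neg (fun h => hev (hpar.1 h))]
      have h3 := (hU.trh (x + a * y) y1 u hxo (Int.not_even_iff_odd.1 hev) (by
        rw [hu, map_add, map_mul, map_intCast, map_intCast, hS, hy1]
        push_cast
        ring) (Ideal.span {1 + S}) hSo).1
      rw [h3]
      ring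
  rw [← e1, hideal, e2]
  ring

theorem J_eq (hb : B6 K a s) (hS : algebraMap (𝓞 K) K S = s)
    (hX : XD6 K F a s S τ ζ w z k v κ u0 v0 nu ξ θ e) {x y : ℤ} (hx : Odd x)
    (hy : Odd y) {γ : 𝓞 K} (hγ : γ = x + y * S) {c0 : Ideal (𝓞 K)}
    (hc0 : Ideal.absNorm c0 % 4 = 1) (n : ℕ) :
    -(v (Ideal.span {γ} * c0) * v c0) * ((-1) ^ n * rr a S z v 1) =
      (-1) ^ ((x * y + 1) / 2).natAbs * (-1) ^ n * θ := by
  rw [turn_v hb hS hX hx hy hγ hc0]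
  have h1 := hX.ori
  have h2 : v (Ideal.span {1 + S}) * v 1 * rr a S z v 1 = θ := by
    unfold rr
    rw [mul_one]
    have h3 : (2 : F) ≠ 0 := two_ne_zero
    field_simp
    linear_combination h1
  obtain ⟨m, hm⟩ : ∃ m : ℤ, x * y = 2 * m + 1 := hx.mul hy
  have h3 : (x * y + 1) / 2 = (x * y - 1) / 2 + 1 := by omega
  have h4 : ((-1 : F)) ^ ((x * y + 1) / 2).natAbs = -((-1) ^ ((x * y - 1) / 2).natAbs) := by
    by_cases h : Even ((x * y - 1) / 2)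
    · rw [h3, jt_sgn, jt_sgn, if_pos h, if_neg (by rw [Int.even_add_one]; exact not_not.2 h)]
    · rw [h3, jt_sgn, jt_sgn, if_neg h, if_pos (by rw [Int.even_add_one]; exact h), neg_neg]
  rw [h4]
  linear_combination (-((-1) ^ ((x * y - 1) / 2).natAbs) * (-1) ^ n) * h2

end Pool.Agent.Work.MP_8efaaa_nt.W6
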