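import Mathlib
import Pool.Agent.Work.MP_8efaaa_nt.W6.Defs
import Pool.Agent.Work.MP_8efaaa_nt.W14.LVx

/-!
# W6/JFi: from the valuation to the integers
-/

set_option autoImplicit false

namespace Pool.Agent.Work.MP_8efaaa_nt.W6

open NumberField Pool.Agent.Work.MP_8efaaa_nt.R Pool.Agent.Work.MP_8efaaa_nt.N5
  Pool.Agent.Work.MP_8efaaa_nt.K6 Pool.Agent.Work.MP_8efaaa_nt.W14

variable {F : Type*} [Field F] [NumberField F] {Γ : Type*} [LinearOrderedCommGroupWithZero Γ]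
  {V : Valuation F Γ} {L : Ideal (𝓞 F)}

theorem dvd_of_v (hV : VL V L) {q : ℕ} (hq : q.Prime) (hqL : (q : 𝓞 F) ∈ L) {n : ℤ}
    (h : V (n : F) < 1) : (q : ℤ) ∣ n := by
  by_contra hn
  have hc : IsCoprime (q : ℤ) n := by
    rw [(Nat.prime_iff_prime_int.1 hq).coprime_iff_not_dvd]
    exact hn
  obtain ⟨α, β, hαβ⟩ := hc
  have h1 : ((n : ℤ) : 𝓞 F) ∈ L := by
    rw [← hV.lt]
    simpa using h
  apply hV.prime.ne_top
  rw [Ideal.eq_top_iff_one]
  have h2 : (1 : 𝓞 F) = (α : 𝓞 F) * (q : 𝓞 F) + (β : 𝓞 F) * (n : 𝓞 F) := by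
    have := congrArg (fun m : ℤ => (m : 𝓞 F)) hαβ
    push_cast at this
    exact this.symm
  rw [h2]
  exact L.add_mem (L.mul_mem_left _ hqL) (L.mul_mem_left _ h1)

theorem final_dvd (hV : VL V L) {q : ℕ} (hq : q.Prime) (hqL : (q : 𝓞 F) ∈ L) {θ : F}
    {u v A B : ℤ} (h1 : V ((u : F) + (v : F) * θ) < 1) (h2 : V ((A : F) * θ - (B : F)) < 1) :
    (q : ℤ) ∣ A * u + B * v := by
  have hint : ∀ n : ℤ, V (n : F) ≤ 1 := by
    intro n
    have := hV.int (n : 𝓞 F)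
    simpa using this
  apply dvd_of_v hV hq hqL
  have e : ((A * u + B * v : ℤ) : F) = (A : F) * ((u : F) + (v : F) * θ) -
      (v : F) * ((A : F) * θ - (B : F)) := by
    push_cast
    ring
  rw [e]
  refine V.map_sub_lt ?_ ?_
  · rw [map_mul]
    exact mul_lt_one_of_nonneg_of_lt_one_right (hint A) zero_le' h1
  · rw [map_mul]
    exact mul_lt_one_of_nonneg_of_lt_one_right (hint v) zero_le' h2

end Pool.Agent.Work.MP_8efaaa_nt.W6
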