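import Mathlib
import Pool.Agent.Work.MP_8efaaa_nt.R.AInt
import Pool.Agent.Work.MP_8efaaa_nt.R.SH

/-!
# W6/AQu (M): the exact quarter turn

The same situation as `quarter_turnE` (R/SH.lean): start from ITS PROOF (copy it), which establishes most of the facts below. Notation: `Λ = Ch M w 3`, `B = Ch M w 2`, `A = half (Ch M w 4)`, `D = half (Ch M' w' 4)`, `t1 : Tri Λ A B D`; `f_X = gf Λ X`; `q = 2 w`, `b = 4 w` (`b ∈ B`, `∉ Λ`), `aa = 2 g` (`∈ A`, `∉ B`, `∉ Λ`), `m = w' - (w + g) ∈ M`; `S_j = SS M w j`, `S_j' = SS M' w' j`. Put `i := f_B(aa) / S2`.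
(1) `f_A(b) = S2` (`SS_eq`), `f_D(b) = S1 - S2` (`F3a2`), `S2' = S2 - S1`, `S1' = 2 S2 - S1`, `f_A(b + aa) = 2 S3 - S2` (`F1a3`), `-f_D(aa) = 2 S3' - S2'` (`F3a1`), `sympl` (`r1`): `f_A(b + aa) f_B(aa) = f_A(b) f_D(aa)`, so `f_D(aa) = i (2 S3 - S2)`. `i^2 = -1`: `Tri.val`: `f_B(aa)^2 = ev Λ A - ev Λ B`, `f_A(b)^2 = ev Λ B - ev Λ A`.
(2) `S0 - S1 = 2 f_B(q)`: in the proof `D0 : gf B (Ch M' w' 1) (2 w) = S0 - S1`; `gsum` (for `Λ`, `B`, `C = Ch M' w' 1`, `c = 4 w'`, `c / 2 = 2 w' ∈ C`): `gf B C (2w) = f_B(2w) + f_B(2w + 4w')`, `2w + 4w' = 6w + 4g + 4m`; `f_B(z + 4g) = -f_B(z)` (`gf_add_anti`: `4g ∈ Λ`, `2g ∉ B`), `4m` is a period, `f_B(6w) = f_B(8w - 2w) = f_B(-2w) = -f_B(2w)` (`8w ∈ Λ`, `4w ∈ B`: period). (`B` is called `Ch M w 2`.)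
(3) `S0' - S1' = 2 f_B(q + aa)`: `D0''` and `gsum` with `C = Ch M w 1`, `c = 4w`: `f_B(2w + 2g) + f_B(6w + 2g)`, `f_B(6w + 2g) = f_B(-2w + 2g) = -f_B(2w - 2g) = -f_B(2w + 2g - 4g) = f_B(2w + 2g)`.
(4) `Tri.shift` (`aa ∈ A`): `f_B(q + aa) f_A(q) = f_B(aa) f_D(q)`; `sgB`: `sg Λ B q f_B(q) = f_A(q) f_D(q)`; `qsq`: `f_A(q)^2 = f_A(2q) sg Λ B q = S2 S1` (`sg Λ B q = S1`). So `f_B(q + aa) = f_B(aa) S1 f_B(q) / (S1 S2) = i f_B(q)`, `S0' - S1' = i (S0 - S1)`.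
(5) With `v = fv M w = (S0 - S1)/(2 S2)`, `v' = (S0' - S1')/(2 S2')` and `SS_rec` (`(S0-S1)^2 = 4 S2 (S1 - S2)`): `v v' = -i`. This gives the first claim and the third: `v' v S2 = -f_B(aa)`.
(6) `k = fk M w = (S1 - S2)/(2 S3)`, `z^2 S3 = S2`, `z^2 = 1 + k^2`: `S1 - S2 = 2 k S3`, `S2 = (1+k^2) S3`. `2 S3' = S2' - f_D(aa) = -2k S3 - i (1 - k^2) S3 = -i (1 - i k)^2 S3`.
(7) `N4 = sg (Ch 5) (Ch 4) (4 w) = z S3`; `fk_aux` (R/SF): `2 N4 sg (Ch 4) (Ch 3) (2w) = S2 (S1 + 2 S3 - S2)`, `sg (Ch M w 4) (Ch M w 3) = gf Λ A`. So `f_A(q) = (1+k^2) S3 (1 + k)/z`. `f_B(q) = (S0 - S1)/2 = v S2 = v (1+k^2) S3`. So `f_B(q)/f_A(q) = v z/(1+k)` (`1 + k ≠ 0`: `f_A(q) ≠ 0`).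
(8) Shift for `Tri Λ A D B`: `f_D(q + aa) f_A(q) = f_D(aa) f_B(q)`: `f_D(q + aa) = i (1 - k^2) S3 v z/(1+k) = i (1-k) S3 v z`. `f_D(2w') = f_D(q + aa)` (`2m` is a period), and `gf Λ D = sg (Ch M' w' 4) (Ch M' w' 3)`.
(9) `fk_aux` for `(M', w')`: `2 N4' f_D(2w') = S2' (S1' + 2 S3' - S2')`, `S1' - S2' = S2`, `S1' + 2S3' - S2' = S3 ((1+k^2) - i(1-ik)^2) = S3 (1 - ik)(1 - i)(1 - k)`. `S2' = -2k S3`. So `N4' i (1-k) v z = -k (1-ik)(1-i)(1-k) S3`, `1 - k ≠ 0` (`f_D(2w') ≠ 0`, or `2 S_(j+1) - S_j ≠ 0`: `SS_two_ne`): `N4' = i k (1 - ik)(1 - i) S3/(v z)`.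
(10) `z' = N4'/S3' = -2k (1-i)/(v z (1 - ik))` and `(v z)^2 = 2k` (`fvz_sq`): `z' (1 - ik) = -(1 - i) v z`. With `-i = v' v` this is the second claim.
-/

set_option autoImplicit false

namespace Pool.Agent.Work.MP_8efaaa_nt.W6

open Pool.Agent.Work.CM Pool.Agent.Work.MP_8efaaa_nt.R
open scoped Pointwise

variable {M M' : Submodule ℤ ℂ} {w w' : ℂ}

theorem quarter_exact (h : Fr M w) (h' : Fr M' w') (h3 : Ch M' w' 3 = Ch M w 3)
    {g : ℂ} (hg : 4 * g ∈ M) (hg' : 2 * g ∉ Ch M w 2) (hm : 8 * w - 4 * g ∈ M')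
    (hw : w' - (w + g) ∈ M) :
    (fv M' w' * fv M w) ^ 2 = -1 ∧
      fz M' w' * (1 + fv M' w' * fv M w * fk M w) =
        -((1 + fv M' w' * fv M w) * (fv M w * fz M w)) ∧
      fv M' w' * fv M w * SS M w 2 = -gf (Ch M w 3) (Ch M w 2) (2 * g) := by
  set m : ℂ := w' - (w + g) with hmdef
  have hw' : w' = w + g + m := by rw [hmdef]; ring
  have m3 : m ∈ Ch M w 3 := le_Ch 3 hw
  -- lattices
  have d2 : (2 : ℂ) ^ 2 * w' - 2 ^ 2 * w ∈ Ch M w 3 := by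
    have e : (2 : ℂ) ^ 2 * w' - 2 ^ 2 * w = 4 * g + ((4 : ℕ) : ℂ) * m := by
      rw [hw']
      push_cast
      ring
    rw [e]
    exact add_mem (le_Ch 3 hg) (natmul_mem m3 4)
  have C2 : Ch M' w' 2 = Ch M w 2 := Ch_eq_of h3 d2
  have hA1 : 2 * g ∈ half (Ch M w 4) := by
    rw [mem_half]
    have e : 2 * (2 * g) = 4 * g := by ring
    rw [e]
    exact le_Ch 4 hg
  have hgL : 2 * g ∉ Ch M w 3 := fun h1 => hg' (Ch_le 2 h1)
  have h4w : (2 : ℂ) ^ 2 * w ∈ Ch M w 2 := pow_mem_Ch 2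
  have h4w' : (2 : ℂ) ^ 2 * w ∉ Ch M w 3 := pow_notMem h (by norm_num) (by norm_num)
  have T34' : Two (Ch M' w' 4) (Ch M w 3) := by
    have := twoCh h' (k := 3) (by norm_num)
    rwa [h3] at this
  have hne4 : Ch M' w' 4 ≠ Ch M w 4 := by
    intro h0
    have h1 : (2 : ℂ) ^ 3 * w ∈ Ch M w 4 := by
      have e : (2 : ℂ) ^ 3 * w = (8 * w - 4 * g) + 4 * g := by ring
      rw [e]
      refine add_mem ?_ (le_Ch 4 hg)
      rw [← h0]
      exact le_Ch 4 hm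
    exact pow_notMem h (by norm_num) (by norm_num) h1
  have t1 : Tri (Ch M w 3) (half (Ch M w 4)) (Ch M w 2) (half (Ch M' w' 4)) := by
    refine ⟨two_half_Ch h (k := 2) (by norm_num), twoCh h (k := 2) (by norm_num), T34'.half_two,
      half_ne h (k := 2) (by norm_num), ?_, fun h1 => hne4 (half_inj h1)⟩
    have := half_ne h' (k := 2) (by norm_num)
    rw [C2] at this
    exact this.symm
  have mA3 : m ∈ half (Ch M' w' 4) := T34'.half_two.le m3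
  have m2A3 : 2 * m ∈ half (Ch M' w' 4) := by
    have := natmul_mem mA3 2
    push_cast at this
    exact this
  -- the value F3 (4 w) and S_2'
  have F3a2 : gf (Ch M w 3) (half (Ch M' w' 4)) (2 ^ 2 * w) = SS M w 1 - SS M w 2 :=
    SS_step h (j := 1) (by norm_num) t1
  have S2' : SS M' w' 2 = SS M w 2 - SS M w 1 := by
    have e0 : SS M' w' 2 = gf (Ch M w 3) (half (Ch M' w' 4)) (2 ^ 2 * w') := by
      rw [SS_eq, h3]
    have e : (2 : ℂ) ^ 2 * w' = 2 ^ 2 * w + 2 * (2 * g) + 2 * (2 * m) := by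
      rw [hw']
      ring
    rw [e0, e, Tri.per2 t1.d m2A3, t1.rot.rot.anti2 hA1 hgL h4w', F3a2]
    ring
  have S1' : SS M' w' 1 = 2 * SS M w 2 - SS M w 1 := by
    have g1 := SS_diff h (j := 1) (by norm_num) (x := 2 * g) (mem_half.1 hA1) hgL
    have e0 : SS M' w' 1 = sg (Ch M w 3) (Ch M w 2) (2 ^ 1 * w') := by
      unfold SS
      rw [h3, C2]
    have e : (2 : ℂ) ^ 1 * w' = 2 ^ 1 * w + 2 * g + ((2 : ℕ) : ℂ) * m := by
      rw [hw']
      push_cast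
      ring
    rw [e0, e, sg_add (twoCh h (k := 2) (by norm_num)).lat _ (natmul_mem m3 2)]
    exact g1
  -- the lattice Ch 1
  have C1 : Two (Ch M w 2) (Ch M' w' 1) := by
    have := twoCh h' (k := 1) (by norm_num)
    rwa [C2] at this
  have hne1 : Ch M w 1 ≠ Ch M' w' 1 := by
    intro h0
    have h1 : (2 : ℂ) ^ 1 * w' ∈ Ch M w 1 := by
      rw [h0]
      exact pow_mem_Ch 1
    have h5 : 2 * g ∈ Ch M w 1 := by
      have e : 2 * g = 2 ^ 1 * w' - 2 ^ 1 * w - ((2 : ℕ) : ℂ) * m := by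
        rw [hw']
        push_cast
        ring
      rw [e]
      exact _root_.sub_mem (_root_.sub_mem h1 (pow_mem_Ch 1)) (natmul_mem (le_Ch 1 hw) 2)
    obtain ⟨m1, hm1, n, hn⟩ := mem_Ch.1 h5
    have h6 : ((4 * n : ℤ) : ℂ) * w ∈ M := by
      have e : ((4 * n : ℤ) : ℂ) * w = 4 * g - ((2 : ℕ) : ℂ) * m1 := by
        push_cast
        linear_combination -2 * hn
      rw [e]
      exact _root_.sub_mem hg (natmul_mem hm1 2)
    have h7 := (int_mem_M h).1 h6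
    obtain ⟨c, hc⟩ : (8 : ℤ) ∣ n := by omega
    apply hg'
    rw [hn, hc]
    refine mem_Ch.2 ⟨m1, hm1, 4 * c, ?_⟩
    push_cast
    ring
  have t0 : Tri (Ch M w 2) (half (Ch M w 3)) (Ch M w 1) (Ch M' w' 1) := by
    refine ⟨two_half_Ch h (k := 1) (by norm_num), twoCh h (k := 1) (by norm_num), C1,
      half_ne h (k := 1) (by norm_num), hne1, ?_⟩
    have := half_ne h' (k := 1) (by norm_num)
    rw [h3] at this
    exact this.symm
  have t0' : Tri (Ch M' w' 2) (half (Ch M' w' 3)) (Ch M' w' 1) (Ch M w 1) := by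
    rw [C2, h3]
    exact t0.sw
  have D0 : gf (Ch M w 2) (Ch M' w' 1) (2 ^ 1 * w) = SS M w 0 - SS M w 1 :=
    SS_step h (j := 0) (by norm_num) t0
  have D0' : gf (Ch M w 2) (Ch M w 1) (2 ^ 1 * w') = SS M' w' 0 - SS M' w' 1 := by
    have := SS_step h' (j := 0) (by norm_num) t0'
    have e2 : (0 : ℕ) + 2 = 2 := rfl
    have e1 : (0 : ℕ) + 1 = 1 := rfl
    rw [e2, e1, C2] at this
    exact this
  have hmC1 : m ∈ Ch M w 1 := le_Ch 1 hw
  have D0'' : gf (Ch M w 2) (Ch M w 1) (2 ^ 1 * w + 2 * g) = SS M' w' 0 - SS M' w' 1 := by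
    rw [← D0']
    have e : (2 : ℂ) ^ 1 * w' = 2 ^ 1 * w + 2 * g + 2 * m := by
      rw [hw']
      ring
    rw [e, Tri.per2 t0.b hmC1]
  -- the values F1 (a3), F3 (a1)
  have F1a3 : gf (Ch M w 3) (half (Ch M w 4)) (2 ^ 2 * w + 2 * g) = 2 * SS M w 3 - SS M w 2 := by
    have g1 := SS_diff h (j := 2) (by norm_num) (x := 2 * g) (by
      have e5 : (2 : ℕ) + 3 = 5 := rfl
      rw [e5, chFive h]
      have e : 2 * (2 * g) = 4 * g := by ring
      rw [e]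
      exact hg) (fun h1 => hgL (Ch_le 3 h1))
    rw [← sg_eq_gf]
    exact g1
  have F3a1 : -gf (Ch M w 3) (half (Ch M' w' 4)) (2 * g) = 2 * SS M' w' 3 - SS M' w' 2 := by
    have g1 := SS_diff h' (j := 2) (by norm_num) (x := 4 * w - 2 * g) (by
      have e5 : (2 : ℕ) + 3 = 5 := rfl
      rw [e5, chFive h']
      have e : 2 * (4 * w - 2 * g) = 8 * w - 4 * g := by ring
      rw [e]
      exact hm) (fun h1 => by
        have h5 : 4 * w - 2 * g ∈ Ch M w 2 := by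
          rw [← C2]
          exact Ch_anti (by norm_num) h1
        apply hg'
        have e : 2 * g = 2 ^ 2 * w - (4 * w - 2 * g) := by ring
        rw [e]
        exact _root_.sub_mem h4w h5)
    have e4 : (2 : ℕ) + 2 = 4 := rfl
    have e3 : (2 : ℕ) + 1 = 3 := rfl
    rw [e4, e3, h3, sg_eq_gf] at g1
    rw [← g1]
    have e : (2 : ℂ) ^ 2 * w' + (4 * w - 2 * g) = 2 * g + 2 * (2 ^ 2 * w) + 2 * (2 * m) := by
      rw [hw']
      ring
    rw [e, Tri.per2 t1.d m2A3]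
    have t1' : Tri (Ch M w 3) (half (Ch M' w' 4)) (Ch M w 2) (half (Ch M w 4)) :=
      ⟨t1.d, t1.b, t1.a, t1.bd.symm, t1.ab.symm, t1.da.symm⟩
    rw [t1'.anti2 h4w h4w' hgL]
  -- nonvanishing
  have n2 := SS_ne' h (j := 2) (by norm_num)
  have n3 := SS_ne' h (j := 3) le_rfl
  have n1 := SS_ne' h (j := 1) (by norm_num)
  have n2' := SS_ne' h' (j := 2) (by norm_num)
  have n3' := SS_ne' h' (j := 3) le_rfl
  have nz := fz_neE h
  have nk := fk_neE h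
  have nv := fv_neE h
  -- the point q = 2 w
  have h2w : (2 : ℂ) ^ 1 * w ∈ Ch M w 1 := pow_mem_Ch 1
  have h2w' : (2 : ℂ) ^ 1 * w ∉ Ch M w 2 := pow_notMem h (by norm_num) (by norm_num)
  have hqA : (2 : ℂ) ^ 1 * w ∉ half (Ch M w 4) := by
    rw [mem_half]
    have e : 2 * ((2 : ℂ) ^ 1 * w) = 2 ^ 2 * w := by ring
    rw [e]
    exact pow_notMem h (by norm_num) (by norm_num)
  have hqa : (2 : ℂ) ^ 1 * w + 2 * g ∉ Ch M w 2 := by
    intro h1
    have h5 : (2 : ℂ) ^ 1 * w' ∉ Ch M' w' 2 := pow_notMem h' (by norm_num) (by norm_num)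
    apply h5
    rw [C2]
    have e : (2 : ℂ) ^ 1 * w' = 2 ^ 1 * w + 2 * g + ((2 : ℕ) : ℂ) * m := by
      rw [hw']
      push_cast
      ring
    rw [e]
    exact add_mem h1 (natmul_mem (le_Ch 2 hw) 2)
  -- (1)
  obtain ⟨r1, -⟩ := t1.sympl hA1 hgL h4w h4w'
  have F1a2 : gf (Ch M w 3) (half (Ch M w 4)) (2 ^ 2 * w) = SS M w 2 := (SS_eq M w 2).symm
  have v1 := t1.val h4w h4w'
  have v2 := t1.swap.val hA1 hgL
  rw [F1a2] at r1 v1
  rw [F1a3] at r1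
  -- (2)
  have E2 : SS M w 0 - SS M w 1 = 2 * gf (Ch M w 3) (Ch M w 2) (2 ^ 1 * w) := by
    rw [← D0]
    have hc : (2 : ℂ) ^ 2 * w' ∈ Ch M w 2 := by
      rw [← C2]
      exact pow_mem_Ch 2
    have hc' : (2 : ℂ) ^ 2 * w' ∉ Ch M w 3 := by
      rw [← h3]
      exact pow_notMem h' (by norm_num) (by norm_num)
    have hcC : (2 : ℂ) ^ 2 * w' / 2 ∈ Ch M' w' 1 := by
      have e : (2 : ℂ) ^ 2 * w' / 2 = 2 ^ 1 * w' := by ring
      rw [e]
      exact pow_mem_Ch 1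
    rw [gsum t1.b hc hc' C1 hcC h2w']
    have e1 : (2 : ℂ) ^ 1 * w + 2 ^ 2 * w' = (((6 : ℕ) : ℂ) * w + 4 * g) + 2 * (((2 : ℕ) : ℂ) * m) := by
      rw [hw']
      push_cast
      ring
    have h6 : ((6 : ℕ) : ℂ) * w ∉ Ch M w 3 := nat_notMem h (k := 3) (by norm_num) (by norm_num)
    have e4g : (4 * g) / 2 = 2 * g := by ring
    rw [e1, Tri.per2 t1.b (natmul_mem (le_Ch 2 hw) 2),
      gf_add_anti t1.b (le_Ch 3 hg) (by rw [e4g]; exact hg') h6]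
    have e2 : ((6 : ℕ) : ℂ) * w = -(2 ^ 1 * w) + 2 * (2 ^ 2 * w) := by
      push_cast
      ring
    rw [e2, Tri.per2 t1.b h4w, gf_neg t1.b]
    ring
  -- (3)
  have E3 : SS M' w' 0 - SS M' w' 1 = 2 * gf (Ch M w 3) (Ch M w 2) (2 ^ 1 * w + 2 * g) := by
    rw [← D0'']
    have hcC : (2 : ℂ) ^ 2 * w / 2 ∈ Ch M w 1 := by
      have e : (2 : ℂ) ^ 2 * w / 2 = 2 ^ 1 * w := by ring
      rw [e]
      exact h2w
    rw [gsum t1.b h4w h4w' t0.b hcC hqa]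
    have e1 : (2 : ℂ) ^ 1 * w + 2 * g + 2 ^ 2 * w = -(2 ^ 1 * w - 2 * g) + 2 * (2 ^ 2 * w) := by
      ring
    have hz : (2 : ℂ) ^ 1 * w - 2 * g ∉ Ch M w 3 := by
      intro h1
      apply hqa
      have e : (2 : ℂ) ^ 1 * w + 2 * g = (2 ^ 1 * w - 2 * g) + 4 * g := by ring
      rw [e]
      exact add_mem (Ch_le 2 h1) (le_Ch 2 hg)
    have e4g : (4 * g) / 2 = 2 * g := by ring
    have e2 : gf (Ch M w 3) (Ch M w 2) (2 ^ 1 * w + 2 * g) =
        -gf (Ch M w 3) (Ch M w 2) (2 ^ 1 * w - 2 * g) := by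
      have e : (2 : ℂ) ^ 1 * w + 2 * g = (2 ^ 1 * w - 2 * g) + 4 * g := by ring
      rw [e, gf_add_anti t1.b (le_Ch 3 hg) (by rw [e4g]; exact hg') hz]
    rw [e1, Tri.per2 t1.b h4w, gf_neg t1.b, ← e2]
    ring
  -- (4)
  have s1 := t1.shift hA1 hgL hqA
  have s2 := t1.sgB h2w'
  have hS1 : sg (Ch M w 3) (Ch M w 2) (2 ^ 1 * w) = SS M w 1 := rfl
  have s3 := t1.qsq (q := 2 ^ 1 * w) (by rw [dbl_pow]; exact h4w) (by rw [dbl_pow]; exact h4w')
  rw [dbl_pow, F1a2, hS1] at s3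
  rw [hS1] at s2
  -- (8)
  have s4 := t1.sw.shift hA1 hgL hqA
  -- (7)
  have a1 := fk_aux h
  have a2 := fk_aux h'
  have hgA : ∀ x, sg (Ch M w 4) (Ch M w 3) x = gf (Ch M w 3) (half (Ch M w 4)) x := fun x => by
    rw [sg_eq_gf]
  have hgD : ∀ x, sg (Ch M' w' 4) (Ch M' w' 3) x = gf (Ch M w 3) (half (Ch M' w' 4)) x := fun x => by
    rw [sg_eq_gf, h3]
  have e2w : 2 * w = (2 : ℂ) ^ 1 * w := by ring
  have e2w' : 2 * w' = (2 : ℂ) ^ 1 * w + 2 * g + 2 * m := by rw [hw']; ring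
  rw [hgA, e2w] at a1
  rw [hgD, e2w', Tri.per2 t1.d mA3] at a2
  have hz1 : sg M (Ch M w 4) (4 * w) = fz M w * SS M w 3 := by
    unfold fz
    rw [sg_five h]
    field_simp
  have hz2 : sg M' (Ch M' w' 4) (4 * w') = fz M' w' * SS M' w' 3 := by
    unfold fz
    rw [sg_five h']
    field_simp
  rw [hz1] at a1
  rw [hz2] at a2
  have hAq : gf (Ch M w 3) (half (Ch M w 4)) (2 ^ 1 * w) ≠ 0 := gf_ne t1.a hqA
  have hDq : gf (Ch M w 3) (half (Ch M' w' 4)) (2 ^ 1 * w + 2 * g) ≠ 0 := by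
    refine gf_ne t1.d ?_
    intro h1
    have h5 : (2 : ℂ) ^ 1 * w' ∈ half (Ch M' w' 4) := by
      have e : (2 : ℂ) ^ 1 * w' = 2 ^ 1 * w + 2 * g + 2 * m := by rw [hw']; ring
      rw [e]
      exact add_mem h1 m2A3
    rw [mem_half, dbl_pow] at h5
    exact pow_notMem h' (by norm_num) (by norm_num) h5
  -- definitions of v, v', k
  have w1 : fv M w * (2 * SS M w 2) = SS M w 0 - SS M w 1 := by
    unfold fv
    field_simp
  have w2 : fv M' w' * (2 * SS M' w' 2) = SS M' w' 0 - SS M' w' 1 := by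
    unfold fv
    field_simp
  have w3 : fk M w * (2 * SS M w 3) = SS M w 1 - SS M w 2 := by
    unfold fk
    field_simp
  have w4 := fv_sqE h
  have w5 := fz_sq' h
  have w6 := fz_sqE h
  have w7 := fvz_sqE h
  rw [E2] at w1
  rw [E3, S2'] at w2
  -- names
  generalize gf (Ch M w 3) (half (Ch M w 4)) (2 ^ 1 * w) = Aq at *
  generalize gf (Ch M w 3) (half (Ch M' w' 4)) (2 ^ 1 * w + 2 * g) = Dqa at *
  generalize gf (Ch M w 3) (half (Ch M' w' 4)) (2 ^ 1 * w) = Dq at *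
  generalize gf (Ch M w 3) (Ch M w 2) (2 ^ 1 * w + 2 * g) = Bqa at *
  generalize gf (Ch M w 3) (Ch M w 2) (2 ^ 1 * w) = Bq at *
  generalize gf (Ch M w 3) (Ch M w 2) (2 * g) = Ba at *
  generalize gf (Ch M w 3) (half (Ch M' w' 4)) (2 * g) = Da at *
  generalize SS M w 0 = S0 at *
  generalize SS M w 1 = S1 at *
  generalize SS M w 2 = S2 at *
  generalize SS M w 3 = S3 at *
  generalize SS M' w' 0 = T0 at *
  rw [S1', S2'] at a2
  rw [S2'] at F3a1 n2'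
  generalize SS M' w' 3 = T3 at *
  generalize fv M w = v at *
  generalize fv M' w' = v' at *
  generalize fk M w = k at *
  generalize fz M w = z at *
  generalize fz M' w' = z' at *
  -- i = Ba / S2
  have i2 : Ba ^ 2 = -S2 ^ 2 := by linear_combination v1 + v2
  have hBq : Bqa * S2 = Ba * Bq := by
    apply mul_left_cancel₀ n1
    linear_combination (-Bqa) * s3 + Aq * s1 + (-Ba) * s2
  have hB0 : Bq = v * S2 := by
    apply mul_left_cancel₀ (two_ne_zero (α := ℂ))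
    linear_combination -w1
  have hvv : v' * v * S2 = -Ba := by
    apply mul_right_cancel₀ (mul_ne_zero n2' n2)
    have e : v' * (S2 - S1) = Bqa := by
      apply mul_left_cancel₀ (two_ne_zero (α := ℂ))
      linear_combination w2
    have e3 : Bqa * S2 = Ba * (v * S2) := by rw [hBq, hB0]
    linear_combination (v * S2 ^ 2) * e + (v * S2) * e3 + Ba * S2 * w4
  have hj2 : (v' * v) ^ 2 = -1 := by
    apply mul_right_cancel₀ (pow_ne_zero 2 n2)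
    have e : (v' * v) ^ 2 * S2 ^ 2 = (v' * v * S2) ^ 2 := by ring
    rw [e, hvv]
    linear_combination i2
  refine ⟨hj2, ?_, hvv⟩
  generalize v' * v = j at *
  have hS2 : S2 = (1 + k ^ 2) * S3 := by linear_combination -w5 + S3 * w6
  have hDa : Da = -j * ((1 - k ^ 2) * S3) := by
    apply mul_left_cancel₀ n2
    linear_combination -r1 + (2 * S3 - S2) * hvv + (j * S2) * hS2
  have hT3 : 2 * T3 = j * S3 * (1 + j * k) ^ 2 := by
    linear_combination -F3a1 - hDa + w3 - (2 * k * S3 + j * k ^ 2 * S3) * hj2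
  have hAz : z * Aq = S2 * (1 + k) := by
    apply mul_left_cancel₀ (mul_ne_zero (two_ne_zero (α := ℂ)) n3)
    linear_combination a1 - S2 * w3
  have h1k : 1 + k ≠ 0 := by
    intro h0
    rw [h0, mul_zero] at hAz
    exact mul_ne_zero nz hAq hAz
  have hDqa : Dqa = -j * ((1 - k) * S3 * (v * z)) := by
    apply mul_right_cancel₀ (mul_ne_zero n2 h1k)
    linear_combination (-Dqa) * hAz + z * s4 + (z * Bq) * hDa +
      (-j * ((1 - k ^ 2) * S3) * z) * hB0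
  have h1k' : 1 - k ≠ 0 := by
    intro h0
    apply hDq
    rw [hDqa, h0]
    ring
  have h1jk : 1 + j * k ≠ 0 := by
    intro h0
    rw [h0] at hT3
    apply n3'
    apply mul_left_cancel₀ (two_ne_zero (α := ℂ))
    rw [hT3]
    ring
  have key : z' * (1 + j * k) * (v * z) = -(2 * k) * (1 + j) := by
    apply mul_left_cancel₀ (mul_ne_zero (mul_ne_zero (pow_ne_zero 2 n3) h1jk) h1k')
    have e1 : 2 * (z' * T3 * Dqa) = z' * (j * S3 * (1 + j * k) ^ 2) *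
        (-j * ((1 - k) * S3 * (v * z))) := by
      rw [← hT3, ← hDqa]
      ring
    have e2 : (S2 - S1) * (2 * S2 - S1 + 2 * T3 - (S2 - S1)) = -(2 * k * S3) *
        ((1 + k ^ 2) * S3 + j * S3 * (1 + j * k) ^ 2) := by
      rw [← hT3, ← hS2]
      linear_combination (S2 + 2 * T3) * w3
    rw [e1, e2] at a2
    linear_combination a2 + (z' * S3 ^ 2 * (1 + j * k) ^ 2 * (1 - k) * (v * z)) * hj2 -
      (2 * k * S3 ^ 2 * (k + k ^ 2 + j * k ^ 2)) * hj2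
  apply mul_left_cancel₀ (mul_ne_zero (two_ne_zero (α := ℂ)) nk)
  linear_combination (v * z) * key - (z' * (1 + j * k)) * w7

end Pool.Agent.Work.MP_8efaaa_nt.W6
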