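import Mathlib
import Pool.Agent.Work.MP_8efaaa_nt.W5.FFrb
import Pool.Agent.Work.MP_8efaaa_nt.W6.DDefs

/-!
# W6/DFb (M): the Frobenius elements on the square root of `u0 + v0 θ`

Model: `W5/FFrb.lean` (`frb_e`). `B = u0 + v0 θ = e^2`, `e1^2 = u0 - v0 θ`, `e e1 θ = s`. PROOF. `e`, `e1`, `θ` are algebraic integers. `k = 𝓞 F ⧸ Q` (a field of characteristic `l`; `Law6.frob1`, `frob5` quantify over `k : Type`, `F : Type`), `g : ℤ√(-2) →+* k`, `g ⟨x, y⟩ = x + y θ` (`Zsqrtd.lift`). `S = t` in `k`, `t^2 = S^2 = -a = -2m`, so `l ∣ t^2 + 2 m`. `Frb σ Q l` for `x = e`: `σ e = e^l` in `k`; the same for `θ`.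
`l = 1, 3 (mod 8)`: `σ θ = ± θ` and `θ^l = θ` in `k` (`(-2)^((l-1)/2) = 1`: `ZMod.exists_sq_eq_neg_two_iff` and Euler), `2θ ≠ 0` in `k`: `σ θ = θ`. `(σ e)^2 = σ (e^2) = e^2`, so `σ e = ± e`; `e^l = e (e^2)^((l-1)/2) = e g⟨u0,v0⟩^((l-1)/2) = nu e` (`frob1`), `nu = ±1`; if `σ e = -nu e` then `2 nu e = 0` in `k`, `e^2 = B = 0` in `k`, but `B (u0 - v0θ) = m ≠ 0` in `k` (`l ∤ m`, `Law6.nrm`).
`l = 5, 7 (mod 8)`: `θ^l = -θ`: `σ θ = -θ`. `(σ e)^2 = u0 - v0 θ = e1^2`: `σ e = ± e1`. `e^l * e * θ = (e^2)^((l+1)/2) θ = nu t` (`frob5`) `= nu s = nu e e1 θ` in `k`, cancel `e θ ≠ 0`: `e^l = nu e1`. As before `σ e = nu e1`.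
`frb_xi`: `ξ^16 = 1`, `σ ξ` and `ξ^l` are roots of unity of order `16` congruent modulo `Q`; the differences of distinct sixteenth roots of unity divide a power of `2` (`∏_{j≠0} (1 - ξ^j) = 16`), which is not in `Q` (`l ∈ Q` odd): so they are equal. (See `inert_zeta`, N5/CFrb or `R/DFrob.lean` for the order `8`. For instance: `σ ξ = ξ^j` for some `j` (roots of `X^8 + 1`), `ξ^j - ξ^l ∈ Q`; if `16 ∤ j - l` then `1 - ξ^(j-l) ∈ Q` divides `1 - ξ^8 .. = 2`.)
-/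

set_option autoImplicit false

namespace Pool.Agent.Work.MP_8efaaa_nt.W6

open NumberField Pool.Agent.Work.MP_8efaaa_nt.R Pool.Agent.Work.MP_8efaaa_nt.N5

private theorem dfb_neg_two {l : ℕ} (hl : l.Prime) (hl2 : l ≠ 2) {k : Type*} [Field k] [CharP k l]
    {T : k} (hT : T ^ 2 = -2) :
    ((l % 8 = 1 ∨ l % 8 = 3) → T ^ l = T) ∧ ((l % 8 = 5 ∨ l % 8 = 7) → T ^ l = -T) := by
  haveI : Fact l.Prime := ⟨hl⟩
  have h1 : T ^ l = T * (T ^ 2) ^ (l / 2) := by
    rw [← pow_mul, ← pow_succ']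
    congr 1
    have := hl.eq_two_or_odd
    omega
  have h20 : (-2 : ZMod l) ≠ 0 := by
    intro h
    have h3 : ((2 : ℕ) : ZMod l) = 0 := by
      push_cast
      linear_combination -h
    rw [ZMod.natCast_eq_zero_iff] at h3
    exact hl2 ((Nat.prime_dvd_prime_iff_eq hl Nat.prime_two).1 h3)
  have h2 : ∀ x : ZMod l, (-2 : ZMod l) ^ (l / 2) = x →
      (T ^ 2) ^ (l / 2) = ZMod.castHom (dvd_refl l) k x := by
    intro x hx
    rw [← hx, map_pow, map_neg, map_ofNat, hT]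
  constructor
  · intro h8
    have h3 : IsSquare (-2 : ZMod l) := (ZMod.exists_sq_eq_neg_two_iff hl2).2 h8
    have h4 := (ZMod.euler_criterion l h20).1 h3
    rw [h1, h2 1 h4, map_one, mul_one]
  · intro h8
    have h3 : ¬ IsSquare (-2 : ZMod l) := by
      rw [ZMod.exists_sq_eq_neg_two_iff hl2]
      omega
    have h4 : (-2 : ZMod l) ^ (l / 2) = -1 := by
      rcases ZMod.pow_div_two_eq_neg_one_or_one l h20 with h | h
      · exact absurd ((ZMod.euler_criterion l h20).2 h) h3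
      · exact h
    rw [h1, h2 (-1) h4, map_neg, map_one]
    ring

theorem frb_e6 {K : Type*} {F : Type} [Field K] [NumberField K] [Field F] [NumberField F]
    [Algebra K F] {a m : ℕ} (ham : a = 2 * m) {s : K} {S : 𝓞 K}
    (hS : algebraMap (𝓞 K) K S = s) (hs : s ^ 2 = -(a : K)) {u0 v0 : ℤ} {nu : ℕ → ℤ → ℤ}
    (hL : Law6 m u0 v0 nu) {θ e e1 : F} (hθ : θ ^ 2 = -2)
    (he : e ^ 2 = (u0 : F) + (v0 : F) * θ) (he1 : e1 ^ 2 = (u0 : F) - (v0 : F) * θ)
    (hee : e * e1 * θ = algebraMap K F s) {l : ℕ} (hl : l.Prime) (hl2 : l ≠ 2)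
    (hlm : ¬ l ∣ m) {Q : Ideal (𝓞 F)} (hQ : Q.IsPrime) {σ : F ≃ₐ[K] F} (hlQ : (l : 𝓞 F) ∈ Q)
    (hσ : Frb σ Q l) {t : ℤ} (ht : S - (t : 𝓞 K) ∈ Q.comap (algebraMap (𝓞 K) (𝓞 F))) :
    ((l % 8 = 1 ∨ l % 8 = 3) → σ e = (nu l t : F) * e ∧ σ θ = θ) ∧
      ((l % 8 = 5 ∨ l % 8 = 7) → σ e = (nu l t : F) * e1 ∧ σ θ = -θ) := by
  classical
  have hodd : Odd l := hl.odd_of_ne_two hl2
  -- the residue field
  have hQ0 : Q ≠ ⊥ := by
    rintro rfl
    rw [Ideal.mem_bot] at hlQ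
    exact hl.ne_zero (by exact_mod_cast hlQ)
  have hQm : Q.IsMaximal := hQ.isMaximal hQ0
  letI : Field (𝓞 F ⧸ Q) := Ideal.Quotient.field Q
  have hlk : (l : 𝓞 F ⧸ Q) = 0 := by
    have h1 := Ideal.Quotient.eq_zero_iff_mem.2 hlQ
    rwa [map_natCast] at h1
  haveI hchar : CharP (𝓞 F ⧸ Q) l := (CharP.charP_iff_prime_eq_zero hl).2 hlk
  have h2k : (2 : 𝓞 F ⧸ Q) ≠ 0 := by
    intro h2
    have h3 : ((2 : ℕ) : 𝓞 F ⧸ Q) = 0 := by exact_mod_cast h2
    rw [CharP.cast_eq_zero_iff (𝓞 F ⧸ Q) l] at h3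
    exact hl2 ((Nat.prime_dvd_prime_iff_eq hl Nat.prime_two).1 h3)
  have hmk : (m : 𝓞 F ⧸ Q) ≠ 0 := by
    intro h2
    rw [CharP.cast_eq_zero_iff (𝓞 F ⧸ Q) l] at h2
    exact hlm h2
  -- the algebraic relations in `F`
  have hsF : algebraMap K F s ^ 2 = -(a : F) := by
    rw [← map_pow, hs, map_neg, map_natCast]
  have hnrm : ((u0 : 𝓞 F ⧸ Q)) ^ 2 + 2 * (v0 : 𝓞 F ⧸ Q) ^ 2 = (m : 𝓞 F ⧸ Q) := by
    have h1 := hL.nrm
    exact_mod_cast congrArg (fun x : ℤ => (x : 𝓞 F ⧸ Q)) h1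
  -- the integers
  have iθ : IsIntegral ℤ θ := by
    refine IsIntegral.of_pow (n := 2) (by norm_num) ?_
    rw [hθ]
    have h1 : (-2 : F) = algebraMap ℤ F (-2) := by simp
    rw [h1]
    exact isIntegral_algebraMap
  have iA : IsIntegral ℤ ((u0 : F) + (v0 : F) * θ) :=
    (isIntegral_algebraMap (x := u0)).add ((isIntegral_algebraMap (x := v0)).mul iθ)
  have iA' : IsIntegral ℤ ((u0 : F) - (v0 : F) * θ) :=
    (isIntegral_algebraMap (x := u0)).sub ((isIntegral_algebraMap (x := v0)).mul iθ)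
  have ie : IsIntegral ℤ e := IsIntegral.of_pow (n := 2) (by norm_num) (by rw [he]; exact iA)
  have ie1 : IsIntegral ℤ e1 := IsIntegral.of_pow (n := 2) (by norm_num) (by rw [he1]; exact iA')
  let T : 𝓞 F := ⟨θ, iθ⟩
  let E : 𝓞 F := ⟨e, ie⟩
  let E1 : 𝓞 F := ⟨e1, ie1⟩
  let S' : 𝓞 F := algebraMap (𝓞 K) (𝓞 F) S
  have vT : algebraMap (𝓞 F) F T = θ := rfl
  have vE : algebraMap (𝓞 F) F E = e := rfl
  have vE1 : algebraMap (𝓞 F) F E1 = e1 := rfl
  have vS : algebraMap (𝓞 F) F S' = algebraMap K F s := by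
    rw [← hS]
    show algebraMap (𝓞 F) F (algebraMap (𝓞 K) (𝓞 F) S) = _
    rw [← IsScalarTower.algebraMap_apply, ← IsScalarTower.algebraMap_apply]
  have hinj : Function.Injective (algebraMap (𝓞 F) F) := FaithfulSMul.algebraMap_injective _ _
  have rE : E ^ 2 = (u0 : 𝓞 F) + v0 * T := by
    apply hinj
    rw [map_pow, map_add, map_mul, map_intCast, map_intCast, vE, vT, he]
  have rE1 : E1 ^ 2 = (u0 : 𝓞 F) - v0 * T := by
    apply hinj
    rw [map_pow, map_sub, map_mul, map_intCast, map_intCast, vE1, vT, he1]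
  have rEE : E * E1 * T = S' := by
    apply hinj
    rw [map_mul, map_mul, vE, vE1, vT, vS, hee]
  have rT : T ^ 2 = -2 := by
    apply hinj
    rw [map_pow, map_neg, map_ofNat, vT, hθ]
  have rS : S' ^ 2 = -(a : 𝓞 F) := by
    apply hinj
    rw [map_pow, map_neg, map_natCast, vS, hsF]
  -- in the residue field
  set π : 𝓞 F →+* (𝓞 F ⧸ Q) := Ideal.Quotient.mk Q with hπ
  have pS : π S' = (t : 𝓞 F ⧸ Q) := by
    have h1 : algebraMap (𝓞 K) (𝓞 F) (S - (t : 𝓞 K)) ∈ Q := Ideal.mem_comap.1 ht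
    rw [map_sub, map_intCast] at h1
    have h2 := Ideal.Quotient.eq_zero_iff_mem.2 h1
    rw [map_sub, map_intCast, sub_eq_zero] at h2
    exact h2
  have hdvd : (l : ℤ) ∣ t ^ 2 + 2 * m := by
    rw [← CharP.intCast_eq_zero_iff (𝓞 F ⧸ Q) l]
    have h1 := congrArg π rS
    rw [map_pow, map_neg, map_natCast, pS, ham] at h1
    push_cast at h1 ⊢
    rw [h1]
    ring
  have pT : π T ^ 2 = -2 := by
    rw [← map_pow, rT, map_neg, map_ofNat]
  let g : ℤ√(-2) →+* (𝓞 F ⧸ Q) := Zsqrtd.lift ⟨π T, by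
    have h1 : π T * π T = π T ^ 2 := by ring
    rw [h1, pT]
    push_cast
    rfl⟩
  have gx : ∀ x : ℤ√(-2), g x = (x.re : 𝓞 F ⧸ Q) + x.im * π T := fun x => rfl
  have gB : g ⟨u0, v0⟩ = π E ^ 2 := by
    rw [gx, ← map_pow π E, rE, map_add, map_mul, map_intCast, map_intCast]
  have gI : g ⟨0, 1⟩ = π T := by
    rw [gx]
    simp
  have pE2 : π E ^ 2 = (u0 : 𝓞 F ⧸ Q) + v0 * π T := by
    rw [← map_pow π E, rE, map_add, map_mul, map_intCast, map_intCast]
  have pE12 : π E1 ^ 2 = (u0 : 𝓞 F ⧸ Q) - v0 * π T := by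
    rw [← map_pow π E1, rE1, map_sub, map_mul, map_intCast, map_intCast]
  have pEE : π E * π E1 * π T = (t : 𝓞 F ⧸ Q) := by
    rw [← map_mul, ← map_mul, rEE, pS]
  have pEE2 : (π E * π E1) ^ 2 = (m : 𝓞 F ⧸ Q) := by
    rw [mul_pow, pE2, pE12, ← hnrm]
    linear_combination (-(v0 : 𝓞 F ⧸ Q) ^ 2) * pT
  have pE0 : π E ≠ 0 := by
    intro h
    rw [h] at pEE2
    apply hmk
    rw [← pEE2]
    ring
  have pE10 : π E1 ≠ 0 := by
    intro h
    rw [h] at pEE2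
    apply hmk
    rw [← pEE2]
    ring
  have pT0 : π T ≠ 0 := by
    intro h
    rw [h] at pT
    apply h2k
    linear_combination pT
  -- the Frobenius element
  have key : ∀ X x : 𝓞 F, σ (algebraMap (𝓞 F) F X) = algebraMap (𝓞 F) F x → π x = π X ^ l := by
    intro X x hx
    obtain ⟨y, hyQ, hy⟩ := hσ X
    have hy' : σ (algebraMap (𝓞 F) F X) = algebraMap (𝓞 F) F (y + X ^ l) := by
      rw [map_add, map_pow, hy]
      ring
    rw [hy'] at hx
    rw [← hinj hx, map_add, map_pow, show π y = 0 from Ideal.Quotient.eq_zero_iff_mem.2 hyQ,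
      zero_add]
  have hneg : ∀ x : 𝓞 F ⧸ Q, x ≠ 0 → x ≠ -x := by
    intro x hx h
    have h1 : 2 * x = 0 := by linear_combination h
    exact (mul_ne_zero h2k hx) h1
  have hσθ2 : (σ θ) ^ 2 = θ ^ 2 := by
    rw [← map_pow, hθ, map_neg, map_ofNat]
  have hpm := hL.pm l t
  obtain ⟨hT1, hT5⟩ := dfb_neg_two hl hl2 pT
  constructor
  · intro h8
    have hθσ : σ θ = θ := by
      rcases sq_eq_sq_iff_eq_or_eq_neg.1 hσθ2 with h3 | h3
      · exact h3
      · exfalso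
        have h6 := key T (-T) (by rw [map_neg, vT, h3])
        rw [hT1 h8, map_neg] at h6
        exact hneg _ pT0 h6.symm
    refine ⟨?_, hθσ⟩
    have h1 := hL.frob1 l t hl h8 hlm hdvd (𝓞 F ⧸ Q) g
    rw [gB, ← pow_mul] at h1
    have h2 : π E ^ l = (nu l t : 𝓞 F ⧸ Q) * π E := by
      rw [← h1, ← pow_succ]
      congr 1
      omega
    have hσ2 : (σ e) ^ 2 = e ^ 2 := by
      rw [← map_pow, he, map_add, map_mul, map_intCast, map_intCast, hθσ]
    rcases sq_eq_sq_iff_eq_or_eq_neg.1 hσ2 with h3 | h3 <;> rcases hpm with h5 | h5 <;>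
      rw [h5] at h2 ⊢ <;> push_cast at h2 ⊢
    · rw [h3, one_mul]
    · exfalso
      have h6 := key E E (by rw [vE, h3])
      rw [h2] at h6
      exact hneg _ pE0 (by linear_combination h6)
    · exfalso
      have h6 := key E (-E) (by rw [map_neg, vE, h3])
      rw [h2, map_neg] at h6
      exact hneg _ pE0 (by linear_combination -h6)
    · rw [h3]
      ring
  · intro h8
    have hθσ : σ θ = -θ := by
      rcases sq_eq_sq_iff_eq_or_eq_neg.1 hσθ2 with h3 | h3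
      · exfalso
        have h6 := key T T (by rw [vT, h3])
        rw [hT5 h8] at h6
        exact hneg _ pT0 h6
      · exact h3
    refine ⟨?_, hθσ⟩
    have h1 := hL.frob5 l t hl h8 hlm hdvd (𝓞 F ⧸ Q) g
    rw [gB, gI, ← pow_mul] at h1
    have h2 : π E ^ l = (nu l t : 𝓞 F ⧸ Q) * π E1 := by
      apply mul_left_cancel₀ (mul_ne_zero pE0 pT0)
      have h3 : π E ^ (l + 1) = π E ^ (2 * ((l + 1) / 2)) := by
        congr 1
        omega
      have h4 : π E * π T * π E ^ l = π E ^ (l + 1) * π T := by ring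
      rw [h4, h3, h1, ← pEE]
      ring
    have h2' : (σ e) ^ 2 = e1 ^ 2 := by
      rw [← map_pow, he, map_add, map_mul, map_intCast, map_intCast, hθσ, he1]
      ring
    rcases sq_eq_sq_iff_eq_or_eq_neg.1 h2' with h3 | h3 <;> rcases hpm with h5 | h5 <;>
      rw [h5] at h2 ⊢ <;> push_cast at h2 ⊢
    · rw [h3, one_mul]
    · exfalso
      have h6 := key E E1 (by rw [vE, vE1, h3])
      rw [h2] at h6
      exact hneg _ pE10 (by linear_combination h6)
    · exfalso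
      have h6 := key E (-E1) (by rw [map_neg, vE, vE1, h3])
      rw [h2, map_neg] at h6
      exact hneg _ pE10 (by linear_combination -h6)
    · rw [h3]
      ring

theorem frb_xi {K : Type*} {F : Type*} [Field K] [NumberField K] [Field F] [NumberField F]
    [Algebra K F] {ξ : F} (hξ : ξ ^ 8 = -1) {l : ℕ} (hl : l.Prime) (hl2 : l ≠ 2)
    {Q : Ideal (𝓞 F)} (hQ : Q.IsPrime) (hlQ : (l : 𝓞 F) ∈ Q) {σ : F ≃ₐ[K] F}
    (hσ : Frb σ Q l) : σ ξ = ξ ^ l := by
  have hodd : Odd l := hl.odd_of_ne_two hl2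
  have iξ : IsIntegral ℤ ξ := by
    refine IsIntegral.of_pow (n := 8) (by norm_num) ?_
    rw [hξ]
    exact isIntegral_one.neg
  have hσξ : (σ ξ) ^ 8 = -1 := by
    rw [← map_pow, hξ, map_neg, map_one]
  have iη : IsIntegral ℤ (σ ξ) := by
    refine IsIntegral.of_pow (n := 8) (by norm_num) ?_
    rw [hσξ]
    exact isIntegral_one.neg
  let X : 𝓞 F := ⟨ξ, iξ⟩
  let H : 𝓞 F := ⟨σ ξ, iη⟩
  have vX : algebraMap (𝓞 F) F X = ξ := rfl
  have vH : algebraMap (𝓞 F) F H = σ ξ := rfl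
  have hinj : Function.Injective (algebraMap (𝓞 F) F) := FaithfulSMul.algebraMap_injective _ _
  have rH : H ^ 8 = -1 := by
    apply hinj
    rw [map_pow, map_neg, map_one, vH, hσξ]
  have rX : X ^ 8 = -1 := by
    apply hinj
    rw [map_pow, map_neg, map_one, vX, hξ]
  set G : 𝓞 F := X ^ l with hG
  have rG : G ^ 8 = -1 := by
    rw [hG, ← pow_mul, mul_comm, pow_mul, rX, hodd.neg_one_pow]
  haveI : IsDomain (𝓞 F ⧸ Q) := (Ideal.Quotient.isDomain_iff_prime Q).2 hQ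
  set π : 𝓞 F →+* (𝓞 F ⧸ Q) := Ideal.Quotient.mk Q with hπ
  have hlk : (l : 𝓞 F ⧸ Q) = 0 := by
    have h1 := Ideal.Quotient.eq_zero_iff_mem.2 hlQ
    rwa [map_natCast] at h1
  have h2k : (2 : 𝓞 F ⧸ Q) ≠ 0 := by
    intro h2
    obtain ⟨n, hn⟩ := hodd
    rw [hn] at hlk
    push_cast at hlk
    rw [h2, zero_mul, zero_add] at hlk
    exact one_ne_zero hlk
  have pHG : π H = π G := by
    obtain ⟨y, hyQ, hy⟩ := hσ X
    have hy' : H = y + X ^ l := by
      apply hinj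
      rw [map_add, map_pow, hy, vH, vX]
      ring
    rw [hy', map_add, show π y = 0 from Ideal.Quotient.eq_zero_iff_mem.2 hyQ, zero_add]
  have pG0 : π G ≠ 0 := by
    intro h
    have h1 := congrArg π rG
    rw [map_pow, h, map_neg, map_one] at h1
    have h2 : (0 : 𝓞 F ⧸ Q) ^ 8 = 0 := by ring
    rw [h2] at h1
    exact one_ne_zero (neg_eq_zero.1 h1.symm)
  have hbad : ∀ n : ℕ, H ^ n ≠ -G ^ n := by
    intro n hn
    have h1 := congrArg π hn
    rw [map_neg, map_pow, map_pow, pHG] at h1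
    have h2 : 2 * π G ^ n = 0 := by linear_combination h1
    exact (mul_ne_zero h2k (pow_ne_zero n pG0)) h2
  have hfac : (H - G) * ((H + G) * ((H ^ 2 + G ^ 2) * (H ^ 4 + G ^ 4))) = 0 := by
    linear_combination rH - rG
  have hHG : H = G := by
    rcases mul_eq_zero.1 hfac with h | h
    · exact sub_eq_zero.1 h
    rcases mul_eq_zero.1 h with h | h
    · exact absurd (by linear_combination h) (hbad 1)
    rcases mul_eq_zero.1 h with h | h
    · exact absurd (by linear_combination h) (hbad 2)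
    · exact absurd (by linear_combination h) (hbad 4)
  have h1 := congrArg (algebraMap (𝓞 F) F) hHG
  rw [vH, hG, map_pow, vX] at h1
  exact h1

end Pool.Agent.Work.MP_8efaaa_nt.W6
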