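import Mathlib
import Pool.Agent.Work.MP_8efaaa_nt.K6.ATr
import Pool.Agent.Work.MP_8efaaa_nt.K6.AHf
import Pool.Agent.Work.MP_8efaaa_nt.W6.AQu

/-!
# W6/ATx (M): the exact translation by `x + y s`, `x`, `y` odd

Same construction as `tr_quarter6` (K6/ATr.lean; copy its proof and its private lemmas): `w₁ = w + 1/2` (`same_half`: the values at `(M, w₁)` are `fz`, `fk`, `-fv` of `(M, w)`), `d` odd with `d x = 1 (mod 32)`, `w'' = d w'`, `g = -d y m / 4 - 1 / 2`. Use `quarter_exact` (AQu) for `(M, w₁)`, `(M', w'')` instead of `quarter_turn`. `f_odd` for `w'' = d w'`: `fz M' w'' = e8 d * fz M' w'`, `fk`, `fv` the same; `e8 d = e8 x` (`d x = 1 (mod 8)`), `e8 d ^ 2 = 1`.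
With `j = fv M' w'' * fv M w₁ = vc (δ c) * (-vc c)`: `fz M' w'' (1 + j kc) = -((1 + j) (-vc c) (zc c))`, so `zc (δ c) (1 - vc(δ c) vc(c) kc) = e8 x (1 - vc(δ c) vc(c)) vc(c) zc(c)`.
`turn6`: the case `x = y = 1`, `d = 1`: `g = -m/4 - 1/2`, `2 g = -m/2 - 1`, `m = a/2`; `Ch M w₁ k = Ch M w k` for `k = 2, 3` and `SS M w₁ 2 = SS M w 2` (`4 w₁ - 4 w = 2 ∈ M`). Third statement of `quarter_exact`: `vc(δ c) (-vc c) SS M w 2 = -gf (Ch M w 3) (Ch M w 2) (2 g)`.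
-/

set_option autoImplicit false

namespace Pool.Agent.Work.MP_8efaaa_nt.W6

open NumberField Pool.Agent.Work.CM Pool.Agent.Work.MP_8efaaa_nt.R Pool.Agent.Work.MP_8efaaa_nt.K6
open scoped Pointwise

variable {K : Type*} [Field K] [NumberField K] [Algebra K ℂ] {a : ℕ} {s : K}

private theorem at_int (s : K) (k : ℕ) (n : ℤ) : (n : ℂ) ∈ Lk6 s k :=
  mem_Lk6.2 ⟨0, n, by push_cast; ring⟩

private theorem at_one (s : K) (k : ℕ) : (1 : ℂ) ∈ Lk6 s k := by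
  have h := at_int s k 1
  rwa [Int.cast_one] at h

private theorem at_M (s : K) (c : Ideal (𝓞 K)) {z : ℂ} (h : z ∈ Lk6 s 5) : z ∈ M6 s c := by
  rw [M6_eq]
  exact Submodule.mem_sup_left h

private theorem at_Ch (s : K) (c : Ideal (𝓞 K)) {k : ℕ} (hk : k ≤ 5) :
    Ch (M6 s c) (w6 s) k = Lk6 s k ⊔ (8 : ℂ) • iv c := by
  have h := Ch_eq6 (1 : ℂ) ((8 : ℂ) • iv c) s hk
  rw [one_smul, one_smul, one_mul] at h
  exact h

private theorem at_half (hb : B6 K a s) {c : Ideal (𝓞 K)} (hc : OddI c) {k : ℕ} (hk : k ≤ 5) :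
    (1 / 2 : ℂ) ∉ Ch (M6 s c) (w6 s) k := by
  rw [at_Ch s c hk]
  intro h
  have h1 : (1 / 2 : ℂ) ∈ Lk6 s k := odd_mem6 hb hc hk h (n := 1) (by
    have h2 : (2 : ℂ) ^ 1 * (1 / 2) = 1 := by norm_num
    rw [h2]
    exact at_one s k)
  obtain ⟨m, n, hmn⟩ := mem_Lk6.1 h1
  have h2 : (((n : ℚ) - 1 / 2 : ℚ) : ℂ) + ((m : ℚ) * 2 ^ k / 8 : ℚ) * algebraMap K ℂ s = 0 := by
    push_cast
    unfold w6 at hmn
    linear_combination -hmn
  obtain ⟨h3, -⟩ := lin_indep6 hb h2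
  have h6 : 2 * (n : ℚ) = 1 := by linarith
  have h7 : 2 * n = 1 := by exact_mod_cast h6
  omega

private theorem at_fr {M : Submodule ℤ ℂ} {w : ℂ} (h : Fr M w) {d : ℤ} (hd : Odd d) :
    Fr M (d * w) := by
  obtain ⟨k, rfl⟩ := hd
  have e32 : ∀ n : ℤ, (n : ℂ) * (32 * w) ∈ M := by
    intro n
    have h1 := M.smul_mem n h.mem
    rwa [zsmul_eq_mul] at h1
  refine ⟨h.lat, ?_, fun h1 => h.nmem ?_⟩
  · have e : (32 : ℂ) * (((2 * k + 1 : ℤ) : ℂ) * w) = ((2 * k + 1 : ℤ) : ℂ) * (32 * w) := by ring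
    rw [e]
    exact e32 _
  · have e : 16 * w = 16 * (((2 * k + 1 : ℤ) : ℂ) * w) - (k : ℂ) * (32 * w) := by
      push_cast
      ring
    rw [e]
    exact M.sub_mem h1 (e32 k)

private theorem at_inv {x : ℤ} (hx : Odd x) : ∃ d r : ℤ, Odd d ∧ d * x = 1 + 32 * r := by
  have h1 : IsCoprime x 32 := by
    have h2 : IsCoprime x 2 := by
      obtain ⟨k, rfl⟩ := hx
      exact ⟨1, -k, by ring⟩
    have h3 : IsCoprime x (2 ^ 5) := h2.pow_right
    norm_num at h3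
    exact h3
  obtain ⟨d, b, hab⟩ := h1
  refine ⟨d, -b, ?_, by linear_combination hab⟩
  rcases Int.even_or_odd d with h | h
  · exfalso
    obtain ⟨t, ht⟩ := h
    have : (t + t) * x + b * 32 = 1 := by rw [← ht]; exact hab
    have h2 : 2 * (t * x + b * 16) = 1 := by linear_combination this
    omega
  · exact h

private theorem ax_m (hb : B6 K a s) : ∃ m : ℤ, m % 4 = 3 ∧
    algebraMap K ℂ s ^ 2 = -(2 * (m : ℂ)) := by
  obtain ⟨k, hk⟩ : ∃ k : ℕ, a = 2 * k := ⟨a / 2, by have := hb.mod; omega⟩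
  refine ⟨(k : ℤ), ?_, ?_⟩
  · have := hb.mod
    omega
  · rw [← map_pow, hb.sq, map_neg, map_natCast, hk]
    push_cast
    ring

private theorem ax_core (hb : B6 K a s) {c : Ideal (𝓞 K)} (hc : OddI c) {x y : ℤ} (hx : Odd x)
    (hy : Odd y) {δ : 𝓞 K} (hδ : algebraMap (𝓞 K) K δ = x + y * s) {m d r : ℤ} (hm : m % 4 = 3)
    (hsq : algebraMap K ℂ s ^ 2 = -(2 * (m : ℂ))) (hd : Odd d) (hdx : d * x = 1 + 32 * r) :
    (vc s (Ideal.span {δ} * c) * -vc s c) ^ 2 = -1 ∧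
      e8 d * zc s (Ideal.span {δ} * c) * (1 + vc s (Ideal.span {δ} * c) * -vc s c * kc s c) =
        -((1 + vc s (Ideal.span {δ} * c) * -vc s c) * (-vc s c * zc s c)) ∧
      vc s (Ideal.span {δ} * c) * -vc s c * SS (M6 s c) (w6 s) 2 =
        -gf (Ch (M6 s c) (w6 s) 3) (Ch (M6 s c) (w6 s) 2) (2 * (-(d * y * m : ℂ) / 4 - 1 / 2)) := by
  have hδ1 : algebraMap (𝓞 K) K δ = (x : K) + (y : K) * s := hδ
  have hO : OddI (Ideal.span {δ}) := (oddI_span6 hb hδ1).2 hx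
  obtain ⟨hF, hZ, -, hV⟩ := vals_span6 hb hc hO
  have hem : em δ = x + y * algebraMap K ℂ s := by
    show algebraMap K ℂ (algebraMap (𝓞 K) K δ) = _
    rw [hδ, map_add, map_intCast, map_mul, map_intCast]
  have hdxC : (d : ℂ) * x = 1 + 32 * r := by exact_mod_cast hdx
  set M' := em δ • La6 s 3 ⊔ (8 : ℂ) • iv c with hM'
  set w' := em δ * w6 s with hw'
  have hFM := fr_M6 hb hc
  obtain ⟨hF1, hz1, hk1, hv1⟩ := same_half (h := 1 / 2) hFM (by
      have h6 : (2 : ℂ) * (1 / 2) = 1 := by norm_num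
      rw [h6]
      exact at_M s c (at_one s 5)) (at_half hb hc (by norm_num))
  have hint : ∀ n : ℤ, (n : ℂ) ∈ M6 s c := fun n => at_M s c (at_int s 5 n)
  have hCh1 : ∀ k : ℕ, 1 ≤ k → Ch (M6 s c) (w6 s + 1 / 2) k = Ch (M6 s c) (w6 s) k := by
    intro k hk
    obtain ⟨k, rfl⟩ := Nat.exists_eq_add_of_le hk
    have hmul : ∀ {M : Submodule ℤ ℂ} {z : ℂ} (n : ℤ), z ∈ M → (n : ℂ) * z ∈ M := by
      intro M z n hz
      have h1 := M.smul_mem n hz
      rwa [zsmul_eq_mul] at h1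
    apply le_antisymm
    · intro z hz
      obtain ⟨u, hu, n, rfl⟩ := mem_Ch.1 hz
      refine mem_Ch.2 ⟨u + ((n * 2 ^ k : ℤ) : ℂ), add_mem hu (hint _), n, ?_⟩
      push_cast
      ring
    · intro z hz
      obtain ⟨u, hu, n, rfl⟩ := mem_Ch.1 hz
      refine mem_Ch.2 ⟨u - ((n * 2 ^ k : ℤ) : ℂ), sub_mem hu (hint _), n, ?_⟩
      push_cast
      ring
  have hself : (d : ℂ) * w' - (d : ℂ) * w' ∈ M' := by
    rw [sub_self]
    exact zero_mem _
  have hCh : Ch M' ((d : ℂ) * w') 3 = Ch (M6 s c) (w6 s + 1 / 2) 3 := by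
    rw [hCh1 3 (by norm_num), Ch_odd hF hd hself, at_Ch s c (by norm_num), hM', hw',
      Ch_eq6 (em δ) ((8 : ℂ) • iv c) s (by norm_num), Lk_La6 s 1]
    exact order_eq6 hb c (j := 1) (by norm_num) (p := x) (q := y) (by rw [hδ]; norm_num) hO
  have hF' : Fr M' ((d : ℂ) * w') := at_fr hF hd
  obtain ⟨h1, -, h3⟩ := f_odd hF hd hself
  have hmo : Odd m := by rw [Int.odd_iff]; omega
  have hq := quarter_exact hF1 hF' hCh (g := -(d * y * m : ℂ) / 4 - 1 / 2)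
    (by
      have h6 : (4 : ℂ) * (-(d * y * m : ℂ) / 4 - 1 / 2) = ((-(d * y * m) - 2 : ℤ) : ℂ) := by
        push_cast
        ring
      rw [h6]
      exact hint _)
    (by
      rw [hCh1 2 (by norm_num)]
      intro h
      apply at_half hb hc (k := 2) (by norm_num)
      obtain ⟨k, hk⟩ := (hd.mul hy).mul hmo
      have hkC : (d : ℂ) * y * m = 2 * k + 1 := by exact_mod_cast hk
      have h6 : (1 / 2 : ℂ) = -(2 * (-(d * y * m : ℂ) / 4 - 1 / 2)) - ((k + 1 : ℤ) : ℂ) := by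
        push_cast
        linear_combination -(1 : ℂ) / 2 * hkC
      rw [h6]
      refine sub_mem (neg_mem h) ?_
      exact Submodule.mem_sup_left (hint _))
    (by
      obtain ⟨e, he⟩ : ∃ e : ℤ, x ^ 2 = 1 + 8 * e := by
        have h8 := Int.sq_mod_four_eq_one_of_odd hx
        obtain ⟨k, rfl⟩ := hx
        obtain ⟨l, hl⟩ := Int.even_mul_succ_self k
        exact ⟨l, by linear_combination 4 * hl⟩
      obtain ⟨f, hf⟩ : ∃ f : ℤ, y ^ 2 = 1 + 8 * f := by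
        obtain ⟨k, rfl⟩ := hy
        obtain ⟨l, hl⟩ := Int.even_mul_succ_self k
        exact ⟨l, by linear_combination 4 * hl⟩
      obtain ⟨t, ht⟩ : ∃ t : ℤ, m + 6 * (x * y) = 1 - 4 * t := by
        obtain ⟨k, hk⟩ := hx.mul hy
        refine ⟨(1 - m - 6 * (x * y)) / 4, ?_⟩
        rw [hk]
        omega
      obtain ⟨S, hS, -, -⟩ := exists_S6 hb
      have heC : (x : ℂ) ^ 2 = 1 + 8 * e := by exact_mod_cast he
      have hfC : (y : ℂ) ^ 2 = 1 + 8 * f := by exact_mod_cast hf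
      have htC : (m : ℂ) + 6 * (x * y) = 1 - 4 * t := by exact_mod_cast ht
      have hin1 : em δ * (((x * (d * y * m + 6) : ℤ) : ℂ) +
          ((t * x : ℤ) : ℂ) * (4 * algebraMap K ℂ s)) ∈ em δ • La6 s 3 := by
        refine Submodule.smul_mem_pointwise_smul _ _ _ ?_
        rw [← Lk_La6 s 3]
        refine mem_Lk6.2 ⟨t * x, x * (d * y * m + 6), ?_⟩
        unfold w6
        push_cast
        ring
      have hin2 : (8 : ℂ) * algebraMap K ℂ (algebraMap (𝓞 K) K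
          (((-(e * (d * y * m + 6)) + t * x * y * m : ℤ) : 𝓞 K) +
            ((-(4 * r * y ^ 2 * m + f * m + 4 * t * e) : ℤ) : 𝓞 K) * S)) ∈ (8 : ℂ) • iv c :=
        Submodule.smul_mem_pointwise_smul _ _ _ (int_mem_iv c _)
      have hkey : 8 * (w6 s + 1 / 2) - 4 * (-(d * y * m : ℂ) / 4 - 1 / 2) =
          em δ * (((x * (d * y * m + 6) : ℤ) : ℂ) +
            ((t * x : ℤ) : ℂ) * (4 * algebraMap K ℂ s)) +
          (8 : ℂ) * algebraMap K ℂ (algebraMap (𝓞 K) K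
          (((-(e * (d * y * m + 6)) + t * x * y * m : ℤ) : 𝓞 K) +
            ((-(4 * r * y ^ 2 * m + f * m + 4 * t * e) : ℤ) : 𝓞 K) * S)) := by
        rw [map_add, map_mul, map_intCast, map_intCast, hS, map_add, map_mul, map_intCast,
          map_intCast, hem]
        unfold w6
        push_cast
        generalize algebraMap K ℂ s = φ at hsq ⊢
        linear_combination -((d : ℂ) * y * m + 6 + 4 * t * φ) * heC - 4 * (t : ℂ) * x * y * hsq -
          φ * (y : ℂ) ^ 2 * m * hdxC - φ * (m : ℂ) * hfC - φ * htC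
      rw [hkey]
      exact Submodule.add_mem_sup hin1 hin2)
    (by
      have h6 : (d : ℂ) * w' - (w6 s + 1 / 2 + (-(d * y * m : ℂ) / 4 - 1 / 2)) =
          (r : ℂ) * (2 ^ 5 * w6 s) + ((0 : ℤ) : ℂ) := by
        rw [hw', hem]
        unfold w6
        push_cast
        linear_combination (d : ℂ) * y / 8 * hsq + algebraMap K ℂ s / 8 * hdxC
      rw [h6]
      exact at_M s c (mem_Lk6.2 ⟨r, 0, rfl⟩))
  have hSS : SS (M6 s c) (w6 s + 1 / 2) 2 = SS (M6 s c) (w6 s) 2 := by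
    unfold SS
    rw [hCh1 (2 + 2) (by norm_num), hCh1 (2 + 1) (by norm_num)]
    have e : (2 : ℂ) ^ 2 * (w6 s + 1 / 2) = 2 ^ 2 * w6 s + ((2 : ℤ) : ℂ) := by
      push_cast
      ring
    rw [e, sg_add (twoCh hFM (k := 3) (by norm_num)).lat _ (le_Ch _ (hint 2))]
  rw [h1, h3, hz1, hk1, hv1, hSS, hCh1 3 (by norm_num), hCh1 2 (by norm_num), ← hV, ← hZ] at hq
  exact hq

theorem tr_exact6 (hb : B6 K a s) {c : Ideal (𝓞 K)} (hc : OddI c) {x y : ℤ} (hx : Odd x)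
    (hy : Odd y) {δ : 𝓞 K} (hδ : algebraMap (𝓞 K) K δ = x + y * s) :
    (vc s (Ideal.span {δ} * c) * vc s c) ^ 2 = -1 ∧
      zc s (Ideal.span {δ} * c) * (1 - vc s (Ideal.span {δ} * c) * vc s c * kc s c) =
        e8 x * ((1 - vc s (Ideal.span {δ} * c) * vc s c) * (vc s c * zc s c)) := by
  obtain ⟨m, hm, hsq⟩ := ax_m hb
  obtain ⟨d, r, hd, hdx⟩ := at_inv hx
  obtain ⟨h1, h2, -⟩ := ax_core hb hc hx hy hδ hm hsq hd hdx
  have he : e8 d = e8 x := by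
    have h8 : d % 8 = x % 8 := by
      obtain ⟨e, he⟩ : ∃ e : ℤ, x ^ 2 = 1 + 8 * e := by
        obtain ⟨k, rfl⟩ := hx
        obtain ⟨l, hl⟩ := Int.even_mul_succ_self k
        exact ⟨l, by linear_combination 4 * hl⟩
      have h3 : d - x = 8 * (4 * r * x - d * e) := by linear_combination x * hdx - d * he
      omega
    unfold e8
    rw [h8]
  have he2 : ((e8 x : ℤ) : ℂ) * (e8 x : ℤ) = 1 := by
    have h3 : e8 x * e8 x = 1 := by
      unfold e8
      split_ifs <;> norm_num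
    exact_mod_cast h3
  rw [he] at h2
  refine ⟨by linear_combination h1, ?_⟩
  linear_combination ((e8 x : ℤ) : ℂ) * h2 -
    (zc s (Ideal.span {δ} * c) * (1 - vc s (Ideal.span {δ} * c) * vc s c * kc s c)) * he2

theorem turn6 (hb : B6 K a s) {c : Ideal (𝓞 K)} (hc : OddI c) {δ : 𝓞 K}
    (hδ : algebraMap (𝓞 K) K δ = 1 + s) :
    vc s (Ideal.span {δ} * c) * vc s c * SS (M6 s c) (w6 s) 2 =
      gf (Ch (M6 s c) (w6 s) 3) (Ch (M6 s c) (w6 s) 2) (-((a / 2 : ℕ) : ℂ) / 2 - 1) := by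
  have hm : ((a / 2 : ℕ) : ℤ) % 4 = 3 := by
    have := hb.mod
    omega
  have hsq : algebraMap K ℂ s ^ 2 = -(2 * (((a / 2 : ℕ) : ℤ) : ℂ)) := by
    obtain ⟨k, hk⟩ : ∃ k : ℕ, a = 2 * k := ⟨a / 2, by have := hb.mod; omega⟩
    rw [← map_pow, hb.sq, map_neg, map_natCast, hk, Nat.mul_div_cancel_left _ (by norm_num)]
    push_cast
    ring
  obtain ⟨-, -, h3⟩ := ax_core (x := 1) (y := 1) (d := 1) (r := 0) hb hc odd_one odd_one
    (by rw [hδ]; push_cast; ring) hm hsq odd_one (by norm_num)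
  have e : (2 : ℂ) * (-(((1 : ℤ) : ℂ) * ((1 : ℤ) : ℂ) * (((a / 2 : ℕ) : ℤ) : ℂ)) / 4 - 1 / 2) =
      -((a / 2 : ℕ) : ℂ) / 2 - 1 := by
    rw [Int.cast_one, Int.cast_natCast]
    ring
  rw [e] at h3
  linear_combination -h3

end Pool.Agent.Work.MP_8efaaa_nt.W6
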