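import Mathlib
import Pool.Agent.Work.MP_8efaaa_nt.K6.CDt
import Pool.Agent.Work.MP_8efaaa_nt.W6.DDefs

/-!
# W6/DUd (S): the data `UD6` for complex conjugation

This is the private theorem `ud6_of` of K6/CDt.lean, with `κ` given (there it is obtained from `exists_conj`): copy its proof and the private lemmas (`conj_z8`, `oddm`, `odd1`, `val_pack`).
-/

set_option autoImplicit false

namespace Pool.Agent.Work.MP_8efaaa_nt.W6

open NumberField Pool.Agent.Work.CM Pool.Agent.Work.MP_8efaaa_nt.R Pool.Agent.Work.MP_8efaaa_nt.N5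
  Pool.Agent.Work.MP_8efaaa_nt.K6

universe u

/-- complex conjugation on the roots of unity of order `8` -/
private theorem conj_z8 {u : ℂ} (hu : u ^ 4 = -1) : (starRingEnd ℂ) u = u ^ 7 := by
  have h8 : u ^ 8 = 1 := by
    have : u ^ 8 = (u ^ 4) ^ 2 := by ring
    rw [this, hu]
    norm_num
  have hn : ‖u‖ = 1 := by
    have h1 : ‖u‖ ^ 8 = 1 := by rw [← norm_pow, h8, norm_one]
    exact (pow_eq_one_iff_of_nonneg (norm_nonneg u) (by norm_num)).1 h1
  have h0 : u ≠ 0 := by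
    intro h
    rw [h, norm_zero] at hn
    exact zero_ne_one hn
  have h2 : (starRingEnd ℂ) u * u = 1 := by
    rw [mul_comm, Complex.mul_conj, Complex.normSq_eq_norm_sq, hn]
    norm_num
  have h3 : u ^ 7 * u = 1 := by rw [← pow_succ, h8]
  exact mul_right_cancel₀ h0 (h2.trans h3.symm)

private theorem oddm {K : Type*} [Field K] [NumberField K] {b c : Ideal (𝓞 K)} (hb : OddI b)
    (hc : OddI c) : OddI (b * c) := by
  unfold OddI at *
  rw [map_mul]
  exact hb.mul hc

private theorem odd1 {K : Type*} [Field K] [NumberField K] : OddI (1 : Ideal (𝓞 K)) := by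
  unfold OddI
  rw [map_one]
  exact odd_one

/-- a valuation of `ℂ` for the prime ideal `L` of `F` -/
private theorem val_pack {K : Type u} {F : Type*} [Field K] [NumberField K] [Algebra K ℂ]
    [Field F] [NumberField F] [Algebra K F] [Algebra F ℂ] [IsScalarTower K F ℂ]
    (L : Ideal (𝓞 F)) (hL : L.IsPrime) :
    ∃ (Γ : Type) (_ : LinearOrderedCommGroupWithZero Γ) (V : Valuation ℂ Γ),
      VL (V.comap (algebraMap F ℂ)) L ∧ ((2 : 𝓞 F) ∉ L → V 2 = 1) ∧
      (∀ x : 𝓞 K, V (algebraMap K ℂ (algebraMap (𝓞 K) K x)) ≤ 1) ∧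
      ∀ x : 𝓞 K, V (algebraMap K ℂ (algebraMap (𝓞 K) K x)) < 1 ↔
        x ∈ L.comap (algebraMap (𝓞 K) (𝓞 F)) := by
  obtain ⟨Γ, i, V, h1, h2⟩ := exists_val L hL
  have e : ∀ x : 𝓞 K, algebraMap K ℂ (algebraMap (𝓞 K) K x) =
      algebraMap F ℂ (algebraMap (𝓞 F) F (algebraMap (𝓞 K) (𝓞 F) x)) := by
    intro x
    rw [IsScalarTower.algebraMap_apply K F ℂ]
    congr 1
  refine ⟨Γ, i, V, ⟨hL, h1, h2⟩, fun h => ?_, fun x => ?_, fun x => ?_⟩
  · have h3 := h1 2
    have h4 := (not_congr (h2 2)).2 h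
    rw [map_ofNat, map_ofNat] at h3 h4
    exact le_antisymm h3 (not_lt.1 h4)
  · rw [e]
    exact h1 _
  · rw [e]
    exact h2 _

theorem ud6_conj {K : Type u} {F : Type*} [Field K] [NumberField K] [Algebra K ℂ] [Field F]
    [NumberField F] [Algebra K F] [Algebra F ℂ] [IsScalarTower K F ℂ] [IsGalois K F]
    [IsGalois ℚ F] {a : ℕ} {s : K} (hb : B6 K a s)
    {S : 𝓞 K} (hS : algebraMap (𝓞 K) K S = s) {τ : 𝓞 K ≃+* 𝓞 K} (hτ : τ S = -S)
    {ζ : F} {w : ℕ → F} {z k v : Ideal (𝓞 K) → F} (h : C6 K F a s ζ w z k v)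
    {κ : F ≃ₐ[ℚ] F}
    (hκ : ∀ x : F, algebraMap F ℂ (κ x) = (starRingEnd ℂ) (algebraMap F ℂ x)) :
    UD6 K F a s S τ ζ w z k v κ := by
  have inj : Function.Injective (algebraMap F ℂ) := (algebraMap F ℂ).injective
  have hu : ∀ c, OddI c → algebraMap F ℂ (2 / z c ^ 2 - 1) = uc s c := by
    intro c hc
    rw [map_sub, map_div₀, map_pow, map_one, map_ofNat, h.hz c hc]
    rfl
  have ha2 : a / 2 ∣ a := by
    have h1 := hb.mod
    exact ⟨2, by omega⟩
  have hr : OddI (r6 S (a / 2)) := by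
    unfold OddI
    rw [norm_r6 hb hS ha2]
    have h1 := hb.mod
    exact Nat.odd_iff.2 (by omega)
  have hO : ∀ c : Ideal (𝓞 K), OddI c → OddI (cj τ c) := by
    intro c hc
    unfold OddI at *
    rw [(norm_cj6 hb hS hτ c).1]
    exact hc
  have hfr : v (r6 S (a / 2)) * (1 + v 1 ^ 2) = 2 / z 1 ^ 2 - 1 ∧
      (2 / z (r6 S (a / 2)) ^ 2 - 1) * (1 + v 1 ^ 2) = 2 * v 1 := by
    obtain ⟨f1, f2⟩ := frk_one6 hb hS
    constructor
    · apply inj
      rw [map_mul, map_add, map_one, map_pow, h.hv _ hr, h.hv _ odd1, hu _ odd1]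
      exact f1
    · apply inj
      rw [map_mul, map_add, map_one, map_pow, hu _ hr, h.hv _ odd1, map_mul, map_ofNat,
        h.hv _ odd1]
      exact f2
  have hsp : ∀ (x y : ℤ) (δ : 𝓞 K), Odd x → algebraMap (𝓞 K) K δ = x + y * s →
      OddI (Ideal.span {δ}) := fun x y δ hx hδ => (oddI_span6 hb hδ).2 hx
  refine
    { z8 := h.z8
      ne := fun c hc => ⟨fun h0 => ?_, fun h0 => ?_, fun h0 => ?_⟩
      zk := fun c hc => ?_
      vz := fun c hc => ?_
      hw := h.hw
      act := fun σ => act_of6 hb h σ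
      mov := fun b hbo => all_act6 hb h hbo
      tr1 := fun x y δ hx hδ c hc => ?_
      trh := fun x y δ hx hy hδ c hc => ?_
      trq := fun x y δ hx hy hδ c hc => ?_
      fr1 := fun c hc => ?_
      fr2 := fun c hc => ?_
      cs := ?_
      cz := ?_
      cw := fun d hd => ?_
      cc := fun c hc => ⟨?_, ?_, ?_⟩
      unit := fun L Γ _ V hV h2 c hc => ?_
      kron := fun l L Γ _ V hV hl hl2 hn c hc => ?_ }
  · have := h.hz c hc
    rw [h0, map_zero] at this
    exact fz_ne (fr_M6 hb hc) this.symm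
  · have := h.hk c hc
    rw [h0, map_zero] at this
    exact fk_ne (fr_M6 hb hc) this.symm
  · have := h.hv c hc
    rw [h0, map_zero] at this
    have h1 := fvz_sq (fr_M6 hb hc)
    have h2 : fv (M6 s c) (w6 s) = 0 := this.symm
    rw [h2, zero_mul, zero_pow two_ne_zero] at h1
    exact fk_ne (fr_M6 hb hc) ((mul_eq_zero.1 h1.symm).resolve_left two_ne_zero)
  · apply inj
    simp only [map_pow, map_add, map_one, h.hz c hc, h.hk c hc]
    exact fz_sq (fr_M6 hb hc)
  · apply inj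
    simp only [map_pow, map_mul, map_ofNat, h.hz c hc, h.hk c hc, h.hv c hc]
    exact fvz_sq (fr_M6 hb hc)
  · have ho : OddI (Ideal.span {δ} * c) := by
      refine oddm (hsp x (4 * y) δ hx ?_) hc
      rw [hδ]
      push_cast
      ring
    obtain ⟨t1, t2, t3⟩ := tr_one6 hb hc hx hδ
    refine ⟨?_, ?_, ?_⟩
    · apply inj
      rw [map_mul, map_intCast, h.hz _ ho, h.hz _ hc]
      exact t1
    · apply inj
      rw [h.hk _ ho, h.hk _ hc]
      exact t2
    · apply inj
      rw [h.hv _ ho, h.hv _ hc]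
      exact t3
  · have ho : OddI (Ideal.span {δ} * c) := by
      refine oddm (hsp x (2 * y) δ hx ?_) hc
      rw [hδ]
      push_cast
      ring
    obtain ⟨t1, t2⟩ := tr_half6 hb hc hx hy hδ
    refine ⟨?_, ?_⟩
    · apply inj
      rw [map_neg, h.hv _ ho, h.hv _ hc]
      exact t1
    · apply inj
      rw [map_neg, hu _ ho, hu _ hc]
      exact t2
  · have ho : OddI (Ideal.span {δ} * c) := oddm (hsp x y δ hx hδ) hc
    obtain ⟨t1, t2⟩ := tr_quarter6 hb hc hx hy hδ
    refine ⟨?_, ?_⟩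
    · apply inj
      rw [map_mul, map_pow, map_pow, map_neg, map_one, h.hv _ ho, h.hv _ hc]
      exact t1
    · apply inj
      rw [map_mul, map_mul, hu _ ho, hu _ hc, h.hv _ ho, h.hv _ hc]
      exact t2
  · obtain ⟨σ, M⟩ := all_act6 hb h hc
    have h1 := congrArg σ hfr.1
    rw [map_mul, map_add, map_one, map_pow, map_sub, map_div₀, map_pow, map_one, map_ofNat,
      (M.act _ hr).2.2, (M.act _ odd1).2.2, (M.act _ odd1).1, mul_one, mul_comm c] at h1
    exact h1
  · obtain ⟨σ, M⟩ := all_act6 hb h hc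
    have h1 := congrArg σ hfr.2
    rw [map_mul, map_add, map_one, map_pow, map_sub, map_div₀, map_pow, map_one, map_ofNat,
      (M.act _ hr).1, (M.act _ odd1).2.2, map_mul, map_ofNat, (M.act _ odd1).2.2, mul_one,
      mul_comm c] at h1
    exact h1
  · apply inj
    rw [hκ, map_neg, ← IsScalarTower.algebraMap_apply K F ℂ]
    exact conj_s6 hb
  · apply inj
    rw [hκ, map_pow]
    apply conj_z8
    rw [← map_pow, h.z8, map_neg, map_one]
  · apply inj
    rw [hκ]
    exact h.hwr d hd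
  · apply inj
    rw [hκ, h.hz c hc, h.hz _ (hO c hc)]
    exact (conj_val6 hb hS hτ hc).1
  · apply inj
    rw [hκ, h.hk c hc, h.hk _ (hO c hc)]
    exact (conj_val6 hb hS hτ hc).2.1
  · apply inj
    rw [hκ, h.hv c hc, h.hv _ (hO c hc)]
    exact (conj_val6 hb hS hτ hc).2.2
  · obtain ⟨Γ', _, V', hV', hV2, -, -⟩ := val_pack (K := K) L hV.prime
    have key : ∀ x : F, V' (algebraMap F ℂ x) = 1 → V x = 1 := by
      intro x hx
      obtain ⟨c1, c2⟩ := vl_comp hV hV' x
      refine le_antisymm (c1.2 hx.le) (not_lt.1 fun hlt => ?_)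
      have h3 : V' (algebraMap F ℂ x) < 1 := c2.1 hlt
      rw [hx] at h3
      exact lt_irrefl _ h3
    obtain ⟨u1, u2, u3, u4⟩ := unit6 hb V' (hV2 h2) hc
    refine ⟨key _ ?_, key _ ?_, key _ ?_, key _ ?_⟩
    · rw [h.hz c hc]
      exact u1
    · rw [map_sub, map_ofNat, map_pow, h.hz c hc]
      exact u2
    · rw [h.hk c hc]
      exact u3
    · rw [h.hv c hc]
      exact u4
  · obtain ⟨Γ', _, V', hV', hV2, hK1, hK2⟩ := val_pack (K := K) L hV.prime
    have key : ∀ x : F, V' (algebraMap F ℂ x) < 1 → V x < 1 := fun x hx =>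
      (vl_comp hV hV' x).2.2 hx
    have hLp := hV.prime
    have hq : (L.comap (algebraMap (𝓞 K) (𝓞 F))).IsPrime := Ideal.comap_isPrime _ _
    have hlq : (l : 𝓞 K) ∈ L.comap (algebraMap (𝓞 K) (𝓞 F)) := by
      have h1 := Ideal.absNorm_mem (L.comap (algebraMap (𝓞 K) (𝓞 F)))
      rw [hn] at h1
      exact h1
    have hlo : Odd l := hl.odd_of_ne_two hl2
    have hL2 : (2 : 𝓞 F) ∉ L := by
      intro h2
      obtain ⟨m, hm⟩ := hlo
      have h3 : (l : 𝓞 F) ∈ L := by
        have h4 := Ideal.mem_comap.1 hlq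
        rwa [map_natCast] at h4
      have h5 : (1 : 𝓞 F) = (l : 𝓞 F) - 2 * (m : 𝓞 F) := by
        rw [hm]
        push_cast
        ring
      apply hLp.ne_top
      rw [Ideal.eq_top_iff_one, h5]
      exact L.sub_mem h3 (L.mul_mem_right _ h2)
    have hqo : OddI (L.comap (algebraMap (𝓞 K) (𝓞 F))) := by
      unfold OddI
      rw [hn]
      exact hlo
    have hqc := oddm hqo hc
    have main : V' (zc s (L.comap (algebraMap (𝓞 K) (𝓞 F)) * c) - zc s c ^ l) < 1 ∧
        V' (kc s (L.comap (algebraMap (𝓞 K) (𝓞 F)) * c) - kc s c ^ l) < 1 ∧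
        V' (vc s (L.comap (algebraMap (𝓞 K) (𝓞 F)) * c) - vc s c ^ l) < 1 := by
      by_cases hla : l ∣ a
      · have e := r6_unique hb hS hl hla hq hlq
        rw [e] at hK2 ⊢
        exact kron_ram6 hb hS V' hl hl2 hla hK1 hK2 hc
      · obtain ⟨⟨-, k1⟩, ⟨-, k2⟩, ⟨-, k3⟩⟩ := kron6 hb V' hl hl2 hla hq hn hK1 hK2
          (fun c' hc' => ⟨(unit6 hb V' (hV2 hL2) hc').1, (unit6 hb V' (hV2 hL2) hc').2.1⟩) hc
        exact ⟨k1, k2, k3⟩
    obtain ⟨m1, m2, m3⟩ := main
    refine ⟨key _ ?_, key _ ?_, key _ ?_⟩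
    · rw [map_sub, map_pow, h.hz _ hqc, h.hz _ hc]
      exact m1
    · rw [map_sub, map_pow, h.hk _ hqc, h.hk _ hc]
      exact m2
    · rw [map_sub, map_pow, h.hv _ hqc, h.hv _ hc]
      exact m3

end Pool.Agent.Work.MP_8efaaa_nt.W6
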