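import Mathlib
import Pool.Agent.Work.MP_8efaaa_nt.W14.CNp
import Pool.Agent.Work.MP_8efaaa_nt.V6.GSu
import Pool.Agent.Work.MP_8efaaa_nt.V6.GNu

/-!
# W6/CGr (S-M): the classes of order two in `CG S`, `a = 2 p q`, `p = 1`, `q = 3 (mod 8)`

`a % 16 = 6`. `t = cls (r6 S 2)`, `c_q = cls (r6 S q)`. `ρ = r6 S (a/2) * r6 S q` has norm `p q q = 1 (mod 8)` (`norm_r6`, `q^2 = 1 (mod 8)`) and class `t c_q` (`cls_two`), so `clN S ρ = mk c_q`; `mk c_q ≠ 1`: `c_q ∉ {1, t}` (`two_cls`, W14/CNp.lean; `t * t = 1`, so `zpowers t = {1, t}`: `cls_two`).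
`g = mk C` (`QuotientGroup.mk_surjective`), `g * g = 1` iff `C * C ∈ {1, t}`; `C * C = t` is excluded by `V6.two_nsq` (with `q % 8 = 3`); `C * C = 1`: `two_cls`: `C ∈ {1, t, c_q, t c_q}`, so `g = 1` or `g = mk c_q`. Conversely `c_q * c_q = 1`. (Models: `W14/CAs.lean`, `V6/GTw.lean`.)
-/

set_option autoImplicit false

namespace Pool.Agent.Work.MP_8efaaa_nt.W6

open NumberField Pool.Agent.Work.MP_8efaaa_nt.R Pool.Agent.Work.MP_8efaaa_nt.N5
  Pool.Agent.Work.MP_8efaaa_nt.K6 Pool.Agent.Work.MP_8efaaa_nt.W14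
open scoped Classical nonZeroDivisors

variable {K : Type*} [Field K] [NumberField K] {a : ℕ} {s : K} {S : 𝓞 K} {τ : 𝓞 K ≃+* 𝓞 K}

private theorem cgr_zp (hb : B6 K a s) (hS : algebraMap (𝓞 K) K S = s)
    (g : ClassGroup (𝓞 K)) : (QuotientGroup.mk g : CG S) = 1 ↔
      g = 1 ∨ g = cls (r6 S 2) := by
  obtain ⟨ht, -⟩ := cls_two hb hS
  rw [QuotientGroup.eq_one_iff, Subgroup.mem_zpowers_iff]
  constructor
  · rintro ⟨k, rfl⟩
    rcases Int.even_or_odd' k with ⟨j, rfl | rfl⟩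
    · left
      rw [zpow_mul, zpow_two, ht, one_zpow]
    · right
      rw [zpow_add, zpow_mul, zpow_two, ht, one_zpow, one_mul, zpow_one]
  · rintro (rfl | rfl)
    · exact ⟨0, zpow_zero _⟩
    · exact ⟨1, zpow_one _⟩

theorem grp2 {p q : ℕ} (hp : p.Prime) (hq : q.Prime) (hp8 : p % 8 = 1) (hq8 : q % 8 = 3)
    (hb : B6 K (2 * p * q) s) (hS : algebraMap (𝓞 K) K S = s) (hτ : τ S = -S) :
    ∃ ρ : V6.M1 K, (ρ : Ideal (𝓞 K)) = r6 S ((2 * p * q) / 2) * r6 S q ∧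
      V6.clN S ρ ≠ 1 ∧ ∀ g : CG S, g * g = 1 ↔ g = 1 ∨ g = V6.clN S ρ := by
  have d2 : 2 ∣ 2 * p * q := ⟨p * q, by ring⟩
  have dq : q ∣ 2 * p * q := ⟨2 * p, by ring⟩
  have ha2 : 2 * p * q / 2 = p * q := by
    rw [show 2 * p * q = 2 * (p * q) by ring]
    exact Nat.mul_div_cancel_left _ (by norm_num)
  have da2 : 2 * p * q / 2 ∣ 2 * p * q := ⟨2, by rw [ha2]; ring⟩
  have hN : Ideal.absNorm (r6 S (2 * p * q / 2) * r6 S q) % 8 = 1 := by
    rw [map_mul, norm_r6 hb hS da2, norm_r6 hb hS dq, ha2,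
      show p * q * q = p * (q * q) by ring, Nat.mul_mod, hp8,
      show q * q % 8 = 1 by rw [Nat.mul_mod, hq8]]
  have hp2 : p ≠ 2 := by
    rintro rfl
    omega
  have hq2 : q ≠ 2 := by
    rintro rfl
    omega
  obtain ⟨n2, nq, nq2, eq, hall⟩ := two_cls hp hq hp2 hq2 hb hS hτ
  have hT : (QuotientGroup.mk (cls (r6 S 2)) : CG S) = 1 := (cgr_zp hb hS _).2 (Or.inr rfl)
  have hρ : V6.clN S ⟨r6 S (2 * p * q / 2) * r6 S q, hN⟩ = QuotientGroup.mk (cls (r6 S q)) := by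
    show (QuotientGroup.mk (cls (r6 S (2 * p * q / 2) * r6 S q)) : CG S) =
      QuotientGroup.mk (cls (r6 S q))
    rw [cls_mul (r6_ne hb hS da2) (r6_ne hb hS dq), (cls_two hb hS).2, QuotientGroup.mk_mul, hT,
      one_mul]
  refine ⟨⟨r6 S (2 * p * q / 2) * r6 S q, hN⟩, rfl, ?_, ?_⟩
  · rw [hρ]
    intro h
    rcases (cgr_zp hb hS _).1 h with h1 | h1
    · exact nq h1
    · exact nq2 h1
  · intro g
    rw [hρ]
    constructor
    · intro hg
      obtain ⟨C, rfl⟩ := QuotientGroup.mk_surjective g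
      rw [← QuotientGroup.mk_mul] at hg
      have hCC : C * C = 1 := by
        rcases (cgr_zp hb hS _).1 hg with h1 | h1
        · exact h1
        · exact absurd h1 (V6.two_nsq hb hS hτ hq (Or.inl hq8) dq C)
      rcases (hall C).1 hCC with rfl | rfl | rfl | rfl
      · left
        exact QuotientGroup.mk_one _
      · left
        exact hT
      · right
        rfl
      · right
        rw [QuotientGroup.mk_mul, hT, one_mul]
    · rintro (rfl | rfl)
      · exact mul_one 1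
      · rw [← QuotientGroup.mk_mul, eq, QuotientGroup.mk_one]

end Pool.Agent.Work.MP_8efaaa_nt.W6
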