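import Mathlib
import Pool.Agent.Work.MP_8efaaa_nt.W14.CDi
import Pool.Agent.Work.MP_8efaaa_nt.V6.GGe
import Pool.Agent.Work.MP_8efaaa_nt.W6.CGr

/-!
# W6/CSq (M): squares in `CG S`

`a = 2 p q`, `a % 16 = 6`. Models: `V6/GGe.lean` (`gen_nsq`, `gen_sq`), `W14/CGe.lean`, `W14/CDi.lean`.
`nsq_p`: `g = clN S c`, `c ∈ M1` (`clN_surj`). `clN (c * c) = clN w0` gives `cls (c * c) = cls w0 = cls b` (`clN_eq`; `cls (span {1+S}) = 1`), so `cls b = C * C`, `C = cls c`. `V6.chi_sq1` (or W14 `chi_sq` arguments) for the prime `q`: `jacobiSym (N b) q = 1`. But `jacobiSym q (N b) = 1`, `q` and `N b` are `3 (mod 4)`: `jacobiSym (N b) q = -1` (reciprocity).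
`exists_bp`: Dirichlet (`exists_l` of W14/CDi with `r = 1`, `u` a nonresidue modulo `p`, `v = q - 1`): a prime `l = 1 (mod 8)` with `(l/p) = -1`, `(l/q) = (-1/q) = -1`; `(-2/l) = 1`, `(p/l) = (l/p) = -1`, `(q/l) = (l/q) = -1` (`l = 1 (mod 4)`), so `(-2pq/l) = 1` and `ideal_of` gives an ideal of norm `l`.
`sq_q`: let `T` be the set of the `g : CG S` that have a representative `c ∈ M1` with `N c` prime to `p` and `jacobiSym (N c) p = 1`. If `clN c = clN c'` (both norms prime to `p`) then `jacobiSym (N c) p = jacobiSym (N c') p`: `cls c = cls c'` (`clN_eq`), `c * cj τ c' = (γ)` (`cls_cj`, `prin_of_cls`), `N c N c' = x^2 + a y^2`, `num_desc` (`M = 1`): the product of the symbols is `1`. So `T` is a subgroup (products; inverse: `cj τ c`, or finite order), it contains all squares: `g = mk C`, `C = cls c` with `N c` prime to `2 p` (`exists_cop`), `c * c` has norm `(N c)^2 = 1 (mod 8)`, symbol `1`, `clN (c * c) = g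 * g`.
`T ≠ ⊤` (the ideal of `exists_bp`), so `|T| ≤ |G|/2`; the squares have the index `|{g : g * g = 1}| = 2` (`grp2`: kernel of `g ↦ g * g`), so `T` is the group of the squares. `clN w0 ∈ T`: `N w0 = (1 + a) N b` (`norm_g`), prime to `p`, `jacobiSym (1 + a) p = jacobiSym 1 p = 1`, `jacobiSym (N b) p = jacobiSym p (N b) = 1` (`p = 1 (mod 4)`).
-/

set_option autoImplicit false

namespace Pool.Agent.Work.MP_8efaaa_nt.W6

open NumberField Pool.Agent.Work.MP_8efaaa_nt.R Pool.Agent.Work.MP_8efaaa_nt.N5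
  Pool.Agent.Work.MP_8efaaa_nt.K6 Pool.Agent.Work.MP_8efaaa_nt.W14
open scoped Classical nonZeroDivisors

variable {K : Type*} [Field K] [NumberField K] {a : ℕ} {s : K} {S : 𝓞 K} {τ : 𝓞 K ≃+* 𝓞 K}

private theorem J_pm {p : ℕ} (hp : p.Prime) {n : ℕ} (h : ¬ p ∣ n) :
    jacobiSym n p = 1 ∨ jacobiSym n p = -1 := by
  apply jacobiSym.eq_one_or_neg_one
  rw [Int.gcd_natCast_natCast]
  exact ((Nat.Prime.coprime_iff_not_dvd hp).2 h).symm

private theorem J_ne {p : ℕ} (hp : p.Prime) {n : ℕ} (h : jacobiSym n p ≠ 0) : ¬ p ∣ n := by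
  intro h1
  apply h
  haveI : NeZero p := ⟨hp.ne_zero⟩
  rw [jacobiSym.eq_zero_iff_not_coprime]
  rw [Int.gcd_natCast_natCast, Nat.gcd_eq_right h1]
  exact hp.one_lt.ne'

private theorem nd_of_cop {p n m : ℕ} (hp : p.Prime) (hpm : p ∣ m) (h : Nat.Coprime n m) :
    ¬ p ∣ n := by
  intro hln
  have h1 : Nat.Coprime n p := Nat.Coprime.coprime_dvd_right hpm h
  exact hp.one_lt.ne' ((Nat.gcd_eq_right hln).symm.trans h1)

private theorem a16 {p q : ℕ} (hp8 : p % 8 = 1) (hq8 : q % 8 = 3) : (2 * p * q) % 16 = 6 := by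
  have h : (p * q) % 8 = 3 := by
    rw [Nat.mul_mod, hp8, hq8]
  rw [mul_assoc]
  omega

private theorem cls_g {p q : ℕ} (hb : B6 K (2 * p * q) s) (hS : algebraMap (𝓞 K) K S = s) :
    Ideal.span {(1 + S : 𝓞 K)} ≠ 0 ∧ cls (Ideal.span {(1 + S : 𝓞 K)}) = 1 := by
  have hg := norm_g hb hS
  have hg0 : Ideal.span {(1 + S : 𝓞 K)} ≠ 0 := by
    intro h
    rw [h, map_zero] at hg
    omega
  refine ⟨hg0, cls_span (by
    intro h
    apply hg0
    rw [h]
    exact Ideal.span_singleton_eq_bot.2 rfl)⟩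

theorem nsq_p {p q : ℕ} (hp : p.Prime) (hq : q.Prime) (hp8 : p % 8 = 1) (hq8 : q % 8 = 3)
    (hb : B6 K (2 * p * q) s) (hS : algebraMap (𝓞 K) K S = s) (hτ : τ S = -S)
    {b : Ideal (𝓞 K)} (hb16 : Ideal.absNorm b % 16 = 15)
    (hbc : Nat.Coprime (Ideal.absNorm b) (2 * p * q))
    (hj : jacobiSym q (Ideal.absNorm b) = 1) {w0 : V6.M1 K}
    (hw : (w0 : Ideal (𝓞 K)) = Ideal.span {1 + S} * b) (g : CG S) :
    g * g ≠ V6.clN S w0 := by
  have _ := hp
  intro hg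
  obtain ⟨c, rfl⟩ := V6.clN_surj hb hS (a16 hp8 hq8) g
  rw [← map_mul] at hg
  have h1 := V6.clN_eq hb hS hτ (a16 hp8 hq8) hg
  have hb0 : b ≠ 0 := by
    rintro rfl
    rw [map_zero] at hb16
    norm_num at hb16
  obtain ⟨g0, g1⟩ := cls_g hb hS
  have hc0 : (c : Ideal (𝓞 K)) ≠ 0 := V6.M1.ne c.2
  have h2 : cls b = cls (c : Ideal (𝓞 K)) * cls (c : Ideal (𝓞 K)) := by
    rw [hw, cls_mul g0 hb0, g1, one_mul] at h1
    rw [← h1]
    exact cls_mul hc0 hc0
  have hqa : q ∣ 2 * p * q := ⟨2 * p, by ring⟩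
  have h3 := (V6.chi_sq1 hb hS hτ hq (by omega) hqa hb0 (nd_of_cop hq hqa hbc)).1 h2
  rw [jacobiSym.quadratic_reciprocity_three_mod_four (by omega) (by omega), h3] at hj
  norm_num at hj

private theorem exists_t {l : ℕ} (hl : l.Prime) {n : ℕ} (h : jacobiSym (-(n : ℤ)) l = 1) :
    ∃ t : ℤ, (l : ℤ) ∣ t ^ 2 + n := by
  have : Fact l.Prime := ⟨hl⟩
  obtain ⟨y, hy⟩ := ZMod.isSquare_of_jacobiSym_eq_one h
  obtain ⟨t, rfl⟩ := ZMod.intCast_surjective y
  refine ⟨t, (ZMod.intCast_zmod_eq_zero_iff_dvd _ _).1 ?_⟩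
  push_cast at hy ⊢
  linear_combination -hy

private theorem jac_neg_two {l : ℕ} (h : l % 8 = 1) : jacobiSym (-2) l = 1 := by
  have hlo : Odd l := Nat.odd_iff.2 (by omega)
  rw [show (-2 : ℤ) = -1 * 2 by norm_num, jacobiSym.mul_left, jacobiSym.at_neg_one hlo,
    jacobiSym.at_two hlo, ZMod.χ₄_nat_eq_if_mod_four, ZMod.χ₈_nat_eq_if_mod_eight]
  have h4 : l % 4 = 1 := by omega
  have h2 : l % 2 = 1 := by omega
  simp [h, h4, h2]

private theorem jac_prod {p q l : ℕ} : jacobiSym (-((2 * p * q : ℕ) : ℤ)) l =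
    jacobiSym (-2) l * (jacobiSym p l * jacobiSym q l) := by
  rw [← jacobiSym.mul_left, ← jacobiSym.mul_left]
  congr 1
  push_cast
  ring

private theorem jac_mod {a b l : ℕ} (h : a % l = b % l) : jacobiSym a l = jacobiSym b l := by
  apply jacobiSym.mod_left'
  exact_mod_cast h

theorem exists_bp {p q : ℕ} (hp : p.Prime) (hq : q.Prime) (hp8 : p % 8 = 1) (hq8 : q % 8 = 3)
    (hb : B6 K (2 * p * q) s) (hS : algebraMap (𝓞 K) K S = s) :
    ∃ b : Ideal (𝓞 K), Ideal.absNorm b % 8 = 1 ∧ jacobiSym (Ideal.absNorm b) p = -1 := by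
  have hpq : p ≠ q := by
    rintro rfl
    omega
  have : Fact p.Prime := ⟨hp⟩
  obtain ⟨y, hy⟩ := FiniteField.exists_nonsquare (F := ZMod p) (by
    rw [ZMod.ringChar_zmod_n]
    omega)
  obtain ⟨u, hu⟩ : ∃ u : ℕ, (u : ZMod p) = y := ⟨y.val, ZMod.natCast_zmod_val y⟩
  have hu1 : jacobiSym (u : ℤ) p = -1 := by
    rw [← jacobiSym.legendreSym.to_jacobiSym, legendreSym.eq_neg_one_iff]
    push_cast
    rw [hu]
    exact hy
  have hu2 : Nat.Coprime u p := by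
    rw [Nat.coprime_comm, Nat.Prime.coprime_iff_not_dvd hp]
    intro hd
    apply hy
    rw [← hu, (ZMod.natCast_eq_zero_iff _ _).2 hd]
    exact ⟨0, by simp⟩
  obtain ⟨l, hl, h8, hlp, hlq, -⟩ := exists_l hp hq (by omega) (by omega) hpq (r := 1) (u := u)
    (v := q - 1) (by decide) hu2
    ((Nat.coprime_self_sub_left hq.one_lt.le).2 (Nat.coprime_one_left q))
  have h8' : l % 8 = 1 := h8
  have hlo : Odd l := Nat.odd_iff.2 (by omega)
  have hqo : Odd q := Nat.odd_iff.2 (by omega)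
  have hlp' : jacobiSym (l : ℤ) p = -1 := by rw [jac_mod hlp, hu1]
  have j1 : jacobiSym p l = -1 := by
    rw [jacobiSym.quadratic_reciprocity_one_mod_four (by omega) hlo, hlp']
  have j2 : jacobiSym q l = -1 := by
    rw [jacobiSym.quadratic_reciprocity_one_mod_four' hqo (by omega), jac_mod hlq,
      Nat.cast_sub hq.one_lt.le]
    have h1 : jacobiSym ((q : ℤ) - (1 : ℕ)) q = jacobiSym (-1) q := by
      apply jacobiSym.mod_left'
      push_cast
      rw [sub_eq_add_neg, add_comm, Int.add_emod_right]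
    rw [h1, jacobiSym.at_neg_one hqo, ZMod.χ₄_nat_three_mod_four (by omega)]
  obtain ⟨t, ht⟩ := exists_t hl (n := 2 * p * q) (by
    rw [jac_prod, jac_neg_two h8', j1, j2]
    norm_num)
  obtain ⟨b, hb'⟩ := ideal_of hb hS hl (by omega) ht
  exact ⟨b, by rw [hb', h8'], by rw [hb', hlp']⟩

private theorem wdp (hb : B6 K a s) (hS : algebraMap (𝓞 K) K S = s) (hτ : τ S = -S)
    {p : ℕ} (hp : p.Prime) (hp2 : p ≠ 2) (hpa : p ∣ a)
    {b c : Ideal (𝓞 K)} (hb0 : b ≠ 0) (hc0 : c ≠ 0) (hbp : ¬ p ∣ Ideal.absNorm b)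
    (hcp : ¬ p ∣ Ideal.absNorm c) (h : cls b = cls c) :
    jacobiSym (Ideal.absNorm b) p = jacobiSym (Ideal.absNorm c) p := by
  obtain ⟨h1, h2⟩ := cls_cj hb hS hτ hc0
  obtain ⟨γ, hγ0, hγ⟩ := prin_of_cls (mul_ne_zero hb0 h1)
    (by rw [cls_mul hb0 h1, h2, h, mul_inv_cancel])
  obtain ⟨x, y, hxy⟩ := coords6 hb γ
  have h3 := norm_lin6 hb hxy
  rw [← hγ, map_mul, (norm_cj6 hb hS hτ c).1] at h3
  have h4 : jacobiSym ((Ideal.absNorm b * Ideal.absNorm c : ℕ) : ℤ) p = 1 := by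
    refine num_desc hp hp2 (a := a) hpa hb.sf (M := 1) (x := x) (y := y)
      one_ne_zero ?_ ?_
    · intro h5
      rcases (Nat.Prime.dvd_mul hp).1 h5 with h6 | h6
      · exact hbp h6
      · exact hcp h6
    · rw [h3]
      push_cast
      ring
  rw [Nat.cast_mul, jacobiSym.mul_left] at h4
  rcases J_pm hp hbp with h5 | h5 <;> rcases J_pm hp hcp with h6 | h6 <;> rw [h5, h6] at h4 ⊢
  · norm_num at h4
  · norm_num at h4

/-- representatives of norm prime to `a` -/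
private theorem exists_rep (hb : B6 K a s) (hS : algebraMap (𝓞 K) K S = s) (hτ : τ S = -S)
    (ha : a % 16 = 6) (g : CG S) :
    ∃ c : V6.M1 K, V6.clN S c = g ∧ Nat.Coprime (Ideal.absNorm (c : Ideal (𝓞 K))) a := by
  obtain ⟨c0, hc0⟩ := V6.clN_surj hb hS ha g
  have ha0 : a ≠ 0 := hb.sf.ne_zero
  obtain ⟨c, hc1, hc2, hc3⟩ := exists_cop (K := K) (cls (c0 : Ideal (𝓞 K)))
    (M := 2 * a) (mul_ne_zero two_ne_zero ha0)
  have hca : Nat.Coprime (Ideal.absNorm c) a := Nat.Coprime.coprime_dvd_right ⟨2, by ring⟩ hc2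
  have hcodd : OddI c := by
    have h1 : Nat.Coprime (Ideal.absNorm c) 2 := Nat.Coprime.coprime_dvd_right ⟨a, rfl⟩ hc2
    exact Nat.coprime_two_right.1 h1
  have h00 : (c0 : Ideal (𝓞 K)) ≠ 0 := V6.M1.ne c0.2
  have h08 := V6.M1.nrm c0.2
  obtain ⟨k1, k2⟩ := cls_cj hb hS hτ h00
  obtain ⟨γ, hγ0, hγ⟩ := prin_of_cls (mul_ne_zero hc1 k1)
    (by rw [cls_mul hc1 k1, k2, hc3, mul_inv_cancel])
  have hγn : Ideal.absNorm (Ideal.span {γ}) = Ideal.absNorm c *
      Ideal.absNorm (c0 : Ideal (𝓞 K)) := by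
    rw [← hγ, map_mul, (norm_cj6 hb hS hτ _).1]
  have hγo : OddI (Ideal.span {γ}) := by
    unfold OddI
    rw [hγn]
    exact Odd.mul hcodd (V6.M1.odd c0.2)
  have h8 := norm_prin hb hS hγo
  rw [hγn, Nat.mul_mod, h08, mul_one, Nat.mod_mod] at h8
  rcases h8 with h8 | h8
  · refine ⟨⟨c, h8⟩, ?_, hca⟩
    rw [← hc0]
    show (QuotientGroup.mk (cls c) : CG S) = QuotientGroup.mk (cls (c0 : Ideal (𝓞 K)))
    rw [hc3]
  · have hg := norm_g hb hS
    have hg0 : Ideal.span {(1 + S : 𝓞 K)} ≠ 0 := by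
      intro h
      rw [h, map_zero] at hg
      omega
    have hg1 : cls (Ideal.span {(1 + S : 𝓞 K)}) = 1 := cls_span (by
      intro h
      apply hg0
      rw [h]
      exact Ideal.span_singleton_eq_bot.2 rfl)
    have hm : Ideal.absNorm (Ideal.span {(1 + S : 𝓞 K)} * c) % 8 = 1 := by
      rw [map_mul, hg, Nat.mul_mod, h8]
      have : (1 + a) % 8 = 7 := by omega
      rw [this]
    refine ⟨⟨Ideal.span {(1 + S : 𝓞 K)} * c, hm⟩, ?_, ?_⟩
    · rw [← hc0]
      show (QuotientGroup.mk (cls (Ideal.span {(1 + S : 𝓞 K)} * c)) : CG S) =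
        QuotientGroup.mk (cls (c0 : Ideal (𝓞 K)))
      rw [cls_mul hg0 hc1, hg1, one_mul, hc3]
    · show Nat.Coprime (Ideal.absNorm (Ideal.span {(1 + S : 𝓞 K)} * c)) a
      rw [map_mul, hg]
      refine Nat.Coprime.mul_left ?_ hca
      simp

private theorem genus_hom (hb : B6 K a s) (hS : algebraMap (𝓞 K) K S = s) (hτ : τ S = -S)
    (ha : a % 16 = 6) {p : ℕ} (hp : p.Prime) (hp2 : p ≠ 2) (hpa : p ∣ a) :
    ∃ φ : CG S →* ℤ,
      (∀ b : V6.M1 K, ¬ p ∣ Ideal.absNorm (b : Ideal (𝓞 K)) →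
        φ (V6.clN S b) = jacobiSym (Ideal.absNorm (b : Ideal (𝓞 K))) p) ∧
      (∀ C, φ C = 1 ∨ φ C = -1) := by
  choose r hrC hrc using fun g : CG S => exists_rep hb hS hτ ha g
  have key : ∀ b c : V6.M1 K, ¬ p ∣ Ideal.absNorm (b : Ideal (𝓞 K)) →
      ¬ p ∣ Ideal.absNorm (c : Ideal (𝓞 K)) → V6.clN S b = V6.clN S c →
      jacobiSym (Ideal.absNorm (b : Ideal (𝓞 K))) p
      = jacobiSym (Ideal.absNorm (c : Ideal (𝓞 K))) p := by
    intro b c hbc hcc h
    exact wdp hb hS hτ hp hp2 hpa (V6.M1.ne b.2) (V6.M1.ne c.2) hbc hcc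
      (V6.clN_eq hb hS hτ ha h)
  have hrp : ∀ g, ¬ p ∣ Ideal.absNorm (r g : Ideal (𝓞 K)) := fun g =>
    nd_of_cop hp hpa (hrc g)
  refine ⟨⟨⟨fun g => jacobiSym (Ideal.absNorm (r g : Ideal (𝓞 K))) p, ?_⟩, ?_⟩, ?_, ?_⟩
  · have h1 := key (r 1) 1 (hrp 1) (by
      show ¬ p ∣ Ideal.absNorm (1 : Ideal (𝓞 K))
      rw [map_one]
      exact fun h => hp.one_lt.ne' (Nat.dvd_one.1 h)) (by rw [hrC, map_one])
    rw [h1]
    show jacobiSym (Ideal.absNorm (1 : Ideal (𝓞 K))) p = 1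
    rw [map_one, Nat.cast_one, jacobiSym.one_left]
  · intro g h
    have h1 := key (r (g * h)) (r g * r h) (hrp _) (by
      show ¬ p ∣ Ideal.absNorm ((r g : Ideal (𝓞 K)) * (r h : Ideal (𝓞 K)))
      rw [map_mul, Nat.Prime.dvd_mul hp, not_or]
      exact ⟨hrp g, hrp h⟩) (by rw [hrC, map_mul, hrC, hrC])
    show jacobiSym (Ideal.absNorm (r (g * h) : Ideal (𝓞 K))) p = _
    rw [h1]
    show jacobiSym (Ideal.absNorm ((r g : Ideal (𝓞 K)) * (r h : Ideal (𝓞 K)))) p = _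
    rw [map_mul, Nat.cast_mul, jacobiSym.mul_left]
  · intro b hbc
    exact key _ b (hrp _) hbc (hrC _)
  · intro C
    exact J_pm hp (hrp C)

theorem sq_q {p q : ℕ} (hp : p.Prime) (hq : q.Prime) (hp8 : p % 8 = 1) (hq8 : q % 8 = 3)
    (hb : B6 K (2 * p * q) s) (hS : algebraMap (𝓞 K) K S = s) (hτ : τ S = -S)
    {b : Ideal (𝓞 K)} (hb16 : Ideal.absNorm b % 16 = 15)
    (hbc : Nat.Coprime (Ideal.absNorm b) (2 * p * q))
    (hj : jacobiSym p (Ideal.absNorm b) = 1) {w0 : V6.M1 K}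
    (hw : (w0 : Ideal (𝓞 K)) = Ideal.span {1 + S} * b) :
    ∃ g : CG S, g * g = V6.clN S w0 := by
  have hpa : p ∣ 2 * p * q := ⟨2 * q, by ring⟩
  have hp2 : p ≠ 2 := by omega
  obtain ⟨ψ, ψ1, ψ3⟩ := genus_hom hb hS hτ (a16 hp8 hq8) hp hp2 hpa
  obtain ⟨ρ, -, hρ1, hρ⟩ := grp2 hp hq hp8 hq8 hb hS hτ
  obtain ⟨u, hu8, huj⟩ := exists_bp hp hq hp8 hq8 hb hS
  have hnb : ¬ p ∣ Ideal.absNorm b := nd_of_cop hp hpa hbc
  have hg := norm_g hb hS
  have hNw : Ideal.absNorm (w0 : Ideal (𝓞 K)) = (1 + 2 * p * q) * Ideal.absNorm b := by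
    rw [hw, map_mul, hg]
  have hp1 : ¬ p ∣ 1 + 2 * p * q := by
    intro h
    have h1 : p ∣ 1 := (Nat.dvd_add_left hpa).1 h
    exact hp.one_lt.ne' (Nat.dvd_one.1 h1)
  have hbk : V6.clN S w0 ∈ ψ.ker := by
    rw [MonoidHom.mem_ker, ψ1 w0 (by
      rw [hNw, Nat.Prime.dvd_mul hp, not_or]
      exact ⟨hp1, hnb⟩), hNw, Nat.cast_mul, jacobiSym.mul_left]
    have e1 : jacobiSym ((1 + 2 * p * q : ℕ) : ℤ) p = 1 := by
      have : jacobiSym ((1 + 2 * p * q : ℕ) : ℤ) p = jacobiSym ((1 : ℕ) : ℤ) p := by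
        apply jac_mod
        rw [show 1 + 2 * p * q = 1 + p * (2 * q) by ring, Nat.add_mul_mod_self_left]
      rw [this, Nat.cast_one, jacobiSym.one_left]
    have e2 : jacobiSym ((Ideal.absNorm b : ℕ) : ℤ) p = 1 := by
      rw [← hj]
      exact (jacobiSym.quadratic_reciprocity_one_mod_four (by omega)
        (Nat.odd_iff.2 (by omega))).symm
    rw [e1, e2, one_mul]
  -- the squares
  let sqh : CG S →* CG S := powMonoidHom 2
  have hQ : sqh.range ≤ ψ.ker := by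
    rintro _ ⟨C, rfl⟩
    rw [MonoidHom.mem_ker]
    show ψ (C ^ 2) = 1
    rw [map_pow]
    rcases ψ3 C with h | h <;> rw [h] <;> norm_num
  -- the kernel of the squaring
  have hfin : Finite (CG S) := inferInstance
  have hk2 : Nat.card sqh.ker ≤ 2 := by
    have h1 : (sqh.ker : Set (CG S)) ⊆ ({1, V6.clN S ρ} : Finset (CG S)) := by
      intro C hC
      have hC' : C * C = 1 := by
        have := MonoidHom.mem_ker.1 hC
        rw [← pow_two]
        exact this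
      have := (hρ C).1 hC'
      simpa using this
    have h2 : Nat.card sqh.ker ≤ Finset.card ({1, V6.clN S ρ} : Finset (CG S)) := by
      have h3 := Set.ncard_le_ncard h1 (Finset.finite_toSet _)
      rw [Set.ncard_coe_finset] at h3
      exact h3
    exact h2.trans Finset.card_le_two
  have hG1 : Nat.card (CG S) = Nat.card sqh.ker * Nat.card sqh.range := by
    rw [← Subgroup.index_ker]
    exact (Subgroup.card_mul_index _).symm
  -- the index of the kernel of `ψ`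
  have hup : ¬ p ∣ Ideal.absNorm u := J_ne hp (by rw [huj]; norm_num)
  have hu1 : (⟨u, hu8⟩ : V6.M1 K).1 = u := rfl
  set g1 : CG S := V6.clN S ⟨u, hu8⟩ with hg1
  have hψ1 : ψ g1 = -1 := by
    rw [hg1, ψ1 ⟨u, hu8⟩ hup]
    exact huj
  let f : Bool × ψ.ker → CG S := fun x => (if x.1 then g1 else 1) * x.2
  have hf : Function.Injective f := by
    rintro ⟨x, t⟩ ⟨x', t'⟩ h
    have h' : (if x then g1 else 1) * (t : CG S) = (if x' then g1 else 1) * (t' : CG S) := h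
    have h1 := congrArg ψ h'
    rw [map_mul, map_mul, MonoidHom.mem_ker.1 t.2, MonoidHom.mem_ker.1 t'.2,
      mul_one, mul_one] at h1
    have hxx : x = x' := by
      clear h h' hG1 hk2 hQ
      have e1 : ψ 1 = 1 := map_one ψ
      cases x <;> cases x'
      · rfl
      · rw [if_neg Bool.false_ne_true, if_pos rfl, e1, hψ1] at h1
        norm_num at h1
      · rw [if_neg Bool.false_ne_true, if_pos rfl, e1, hψ1] at h1
        norm_num at h1
      · rfl
    subst hxx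
    have h5 : (t : CG S) = t' := mul_left_cancel h'
    rw [Subtype.ext h5]
  have hG2 : 2 * Nat.card ψ.ker ≤ Nat.card (CG S) := by
    have h1 := Nat.card_le_card_of_injective f hf
    rw [Nat.card_prod, Nat.card_eq_fintype_card (α := Bool), Fintype.card_bool] at h1
    exact h1
  have hle : Nat.card ψ.ker ≤ Nat.card sqh.range := by
    have h1 : Nat.card sqh.ker * Nat.card sqh.range ≤ 2 * Nat.card sqh.range :=
      Nat.mul_le_mul_right _ hk2
    omega
  have heq : sqh.range = ψ.ker := Subgroup.eq_of_le_of_card_ge hQ hle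
  rw [← heq] at hbk
  obtain ⟨g, hg'⟩ := hbk
  refine ⟨g, ?_⟩
  rw [← hg']
  show g * g = g ^ 2
  rw [pow_two]

end Pool.Agent.Work.MP_8efaaa_nt.W6
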