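import Mathlib
import Pool.Agent.Work.MP_8efaaa_nt.W5.O.OLat
import Pool.Agent.Work.MP_8efaaa_nt.K6.ACj
import Pool.Agent.Work.MP_8efaaa_nt.W6.ATx

/-!
# W6/AOr (M): the sign of `v(1 + s) v(1)`

`r = φ s` (`φ = algebraMap K ℂ`), `r ^ 2 = -a`, `m = a / 2 = 3 (mod 8)` (`ha`). Models: `W5/O/Orient.lean`, `W5/O/OLat.lean` (`near_zero`, `neg_conn`, `gf_cjM` are public).
(1) `δ = 1 + S`, `c = 1`: `M6 s 1 = ⟨4 r, 1⟩ =: M` (see `K6/AFk.lean`, private lemmas there; `iv 1` is the ring `⟨1, r⟩`, `8 𝓞 ⊆ La6 s 3`), `w = r/8`: `Ch M w 3 = ⟨r, 1⟩ =: Λ`, `Ch M w 2 = ⟨r/2, 1⟩ =: B`, `half (Ch M w 4) = ⟨r, 1/2⟩ =: A`, `SS M w 2 = gf Λ A (r/2)` (`SS_eq`; `2^2 w = r/2`).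
`turn6`: `v(1+S) v(1) gf Λ A (r/2) = gf Λ B (-m/2 - 1)`. `gf Λ B` is odd (`gf_neg`), has the period `2` (`gf_add_mem`: `1 ∈ B`) and `gf Λ B (z + 1) = -gf Λ B z` (`1 ∈ Λ`, `1/2 ∉ B`, `gf_add_anti`). `-m/2 - 1 = -(m + 2)/2`, `m + 2 = 5 (mod 8)`: `(m+2)/2 = 1/2 + 2 + 4 j`, so `gf Λ B (-m/2 - 1) = -gf Λ B (1/2)`.
(2) `gf Λ B (1/2)` is a negative real number: `Λ`, `B` are stable under conjugation (`conj r = -r`, `conj_s6`), so `gf Λ B x` is real for real `x` (`gf_cjM`); `x gf Λ B x → -1` for `x → 0` (`near_zero` with `u = 1`), and `gf Λ B` is continuous and has no zero on `(0, 1)` (`gf_ne`: zeros only on `B`, `B ∩ ℝ = ℤ`), `neg_conn`.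
(3) `r gf Λ A (r/2)` is a negative real number: on the line `x r`, `x` real: `conj (gf Λ A (x r)) = gf Λ A (-x r) = -gf Λ A (x r)` (`A` stable), so `r gf Λ A (x r)` is real; `near_zero` with `u = r`, no zero for `0 < x < 1` (`A ∩ ℝ r = ℤ r`), continuity, `neg_conn`.
(4) So `v(1+S) v(1) r = -gf Λ B (1/2) r / gf Λ A (r/2) = (-gf Λ B (1/2)) r^2 / (r gf Λ A (r/2))` is a positive real number (`r^2 = -a < 0`), and its square is `(v(1+S) v(1))^2 r^2 = (-1)(-a) = a` (`tr_exact6`): it is `√a`.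
-/

set_option autoImplicit false

namespace Pool.Agent.Work.MP_8efaaa_nt.W6

open NumberField Pool.Agent.Work.CM Pool.Agent.Work.MP_8efaaa_nt.R Pool.Agent.Work.MP_8efaaa_nt.K6
open scoped Pointwise

private theorem ao_mem {x y z : ℂ} :
    z ∈ Submodule.span ℤ {x, y} ↔ ∃ m n : ℤ, (m : ℂ) * x + n * y = z := by
  rw [Submodule.mem_span_pair]
  simp only [zsmul_eq_mul]

private theorem ao_cj {x y : ℂ} (hx : (starRingEnd ℂ) x = -x) (hy : (starRingEnd ℂ) y = y) :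
    W5.cjM (Submodule.span ℤ {x, y}) = Submodule.span ℤ {x, y} := by
  have key : ∀ z ∈ Submodule.span ℤ {x, y}, (starRingEnd ℂ) z ∈ Submodule.span ℤ {x, y} := by
    intro z hz
    obtain ⟨m, n, e⟩ := ao_mem.1 hz
    refine ao_mem.2 ⟨-m, n, ?_⟩
    rw [← e]
    simp only [map_add, map_mul, map_intCast, hx, hy]
    push_cast
    ring
  ext z
  rw [W5.mem_cjM]
  refine ⟨fun h => ?_, fun h => key z h⟩
  have := key _ h
  rwa [Complex.conj_conj] at this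

section
variable {r : ℂ}

private theorem ao_coord (h0 : r.re = 0) {α β : ℝ} {z : ℂ}
    (hz : z ∈ Submodule.span ℤ {(α : ℂ) * r, (β : ℂ)}) :
    ∃ m n : ℤ, z.re = n * β ∧ z.im = m * α * r.im := by
  obtain ⟨m, n, e⟩ := ao_mem.1 hz
  have e2 : ((m : ℂ) * ((α : ℂ) * r) + n * (β : ℂ)) = ((n * β : ℝ) : ℂ) + ((m * α : ℝ) : ℂ) * r := by
    push_cast
    ring
  refine ⟨m, n, ?_, ?_⟩
  · rw [← e, e2, Complex.add_re, Complex.ofReal_re, Complex.re_ofReal_mul, h0]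
    ring
  · rw [← e, e2, Complex.add_im, Complex.ofReal_im, Complex.im_ofReal_mul]
    ring

private theorem ao_real (h0 : r.re = 0) (h1 : r.im ≠ 0) {x : ℝ} (hx : 0 < x) (hx' : x ≤ 1 / 2) :
    (x : ℂ) ∉ Submodule.span ℤ {r / 2, (1 : ℂ)} := by
  intro h
  have e : r / 2 = ((1 / 2 : ℝ) : ℂ) * r := by
    push_cast
    ring
  have e1 : (1 : ℂ) = ((1 : ℝ) : ℂ) := by push_cast; rfl
  rw [e, e1] at h
  obtain ⟨m, n, hr, -⟩ := ao_coord h0 h
  rw [Complex.ofReal_re, mul_one] at hr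
  have r1 : (0 : ℝ) < n := by linarith
  have r2 : (n : ℝ) < 1 := by linarith
  have r3 : (0 : ℤ) < n := by exact_mod_cast r1
  have r4 : n < (1 : ℤ) := by exact_mod_cast r2
  omega

private theorem ao_vert (h0 : r.re = 0) (h1 : r.im ≠ 0) {x : ℝ} (hx : 0 < x) (hx' : x ≤ 1 / 2) :
    (x * r : ℂ) ∉ Submodule.span ℤ {r, (1 / 2 : ℂ)} := by
  intro h
  have e : r = ((1 : ℝ) : ℂ) * r := by
    push_cast
    ring
  have e1 : (1 / 2 : ℂ) = ((1 / 2 : ℝ) : ℂ) := by push_cast; rfl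
  rw [show Submodule.span ℤ {r, (1 / 2 : ℂ)} =
    Submodule.span ℤ {((1 : ℝ) : ℂ) * r, ((1 / 2 : ℝ) : ℂ)} by rw [← e, ← e1]] at h
  obtain ⟨m, n, -, hi⟩ := ao_coord h0 h
  rw [Complex.im_ofReal_mul, mul_one] at hi
  have hm : x = m := by
    have : (x - m) * r.im = 0 := by linarith
    rcases mul_eq_zero.1 this with h | h
    · linarith
    · exact absurd h h1
  have r1 : (0 : ℝ) < m := by linarith
  have r2 : (m : ℝ) < 1 := by linarith
  have r3 : (0 : ℤ) < m := by exact_mod_cast r1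
  have r4 : m < (1 : ℤ) := by exact_mod_cast r2
  omega

private theorem ao_leB : Submodule.span ℤ {r, (1 : ℂ)} ≤ Submodule.span ℤ {r / 2, (1 : ℂ)} := by
  intro z hz
  obtain ⟨m, n, e⟩ := ao_mem.1 hz
  refine ao_mem.2 ⟨2 * m, n, ?_⟩
  rw [← e]
  push_cast
  ring

private theorem ao_leA : Submodule.span ℤ {r, (1 : ℂ)} ≤ Submodule.span ℤ {r, (1 / 2 : ℂ)} := by
  intro z hz
  obtain ⟨m, n, e⟩ := ao_mem.1 hz
  refine ao_mem.2 ⟨m, 2 * n, ?_⟩
  rw [← e]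
  push_cast
  ring

private theorem ao_B (h0 : r.re = 0) (h1 : r.im ≠ 0)
    (hB : Two (Submodule.span ℤ {r, (1 : ℂ)}) (Submodule.span ℤ {r / 2, (1 : ℂ)})) :
    (gf (Submodule.span ℤ {r, (1 : ℂ)}) (Submodule.span ℤ {r / 2, (1 : ℂ)}) (1 / 2)).re < 0 ∧
    (gf (Submodule.span ℤ {r, (1 : ℂ)}) (Submodule.span ℤ {r / 2, (1 : ℂ)}) (1 / 2)).im = 0 := by
  have hcr : (starRingEnd ℂ) r = -r := W5.conj_S h0
  have hcN : W5.cjM (Submodule.span ℤ {r, (1 : ℂ)}) = Submodule.span ℤ {r, (1 : ℂ)} :=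
    ao_cj hcr (map_one _)
  have hcB : W5.cjM (Submodule.span ℤ {r / 2, (1 : ℂ)}) = Submodule.span ℤ {r / 2, (1 : ℂ)} :=
    ao_cj (by rw [map_div₀, hcr, map_ofNat]; ring) (map_one _)
  have hn : ∀ x ∈ Set.Ioc (0 : ℝ) (1 / 2), (x : ℂ) ∉ Submodule.span ℤ {r / 2, (1 : ℂ)} :=
    fun x hx => ao_real h0 h1 hx.1 hx.2
  set N := Submodule.span ℤ {r, (1 : ℂ)} with hN
  set B := Submodule.span ℤ {r / 2, (1 : ℂ)} with hB'
  have hNB : N ≤ B := ao_leB
  have him : ∀ x : ℝ, (gf N B (x : ℂ)).im = 0 := by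
    intro x
    have h3 := W5.gf_cjM hB (x : ℂ)
    rw [hcN, hcB, Complex.conj_ofReal] at h3
    have := congrArg Complex.im h3
    rw [Complex.conj_im] at this
    linarith
  obtain ⟨x0, hx0, hx1⟩ := W5.near_zero hB (u := 1) one_ne_zero (b := 1 / 2) (by norm_num)
  rw [one_mul, mul_one] at hx1
  have key := W5.neg_conn (f := fun x : ℝ => (gf N B (x : ℂ)).re) (s := Set.Ioc 0 (1 / 2))
    isPreconnected_Ioc ?_ ?_ hx0 hx1 (x := 1 / 2) (by norm_num)
  · have e : (((1 / 2 : ℝ)) : ℂ) = 1 / 2 := by push_cast; rfl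
    refine ⟨?_, ?_⟩
    · have key' : (gf N B ((1 / 2 : ℝ) : ℂ)).re < 0 := key
      rwa [e] at key'
    · have := him (1 / 2)
      rwa [e] at this
  · intro x hx
    refine ContinuousAt.continuousWithinAt ?_
    have c1 := (gf_analytic hB (fun h => hn x hx (hNB h))).continuousAt
    exact Complex.continuous_re.continuousAt.comp
      (c1.comp (f := fun x : ℝ => (x : ℂ)) Complex.continuous_ofReal.continuousAt)
  · intro x hx h2
    refine gf_ne hB (hn x hx) ?_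
    apply Complex.ext
    · rw [Complex.zero_re]
      exact h2
    · rw [Complex.zero_im]
      exact him x

private theorem ao_A (h0 : r.re = 0) (h1 : r.im ≠ 0)
    (hA : Two (Submodule.span ℤ {r, (1 : ℂ)}) (Submodule.span ℤ {r, (1 / 2 : ℂ)})) :
    (r * gf (Submodule.span ℤ {r, (1 : ℂ)}) (Submodule.span ℤ {r, (1 / 2 : ℂ)}) (r / 2)).re < 0 ∧
    (r * gf (Submodule.span ℤ {r, (1 : ℂ)}) (Submodule.span ℤ {r, (1 / 2 : ℂ)}) (r / 2)).im
      = 0 := by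
  have hr0 : r ≠ 0 := fun h => h1 (by rw [h, Complex.zero_im])
  have hcr : (starRingEnd ℂ) r = -r := W5.conj_S h0
  have hcN : W5.cjM (Submodule.span ℤ {r, (1 : ℂ)}) = Submodule.span ℤ {r, (1 : ℂ)} :=
    ao_cj hcr (map_one _)
  have hcA : W5.cjM (Submodule.span ℤ {r, (1 / 2 : ℂ)}) = Submodule.span ℤ {r, (1 / 2 : ℂ)} :=
    ao_cj hcr (by rw [map_div₀, map_one, map_ofNat])
  have hv : ∀ x ∈ Set.Ioc (0 : ℝ) (1 / 2), (x * r : ℂ) ∉ Submodule.span ℤ {r, (1 / 2 : ℂ)} :=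
    fun x hx => ao_vert h0 h1 hx.1 hx.2
  set N := Submodule.span ℤ {r, (1 : ℂ)} with hN
  set A := Submodule.span ℤ {r, (1 / 2 : ℂ)} with hA'
  have hNA : N ≤ A := ao_leA
  have him : ∀ x : ℝ, (r * gf N A ((x : ℂ) * r)).im = 0 := by
    intro x
    have h3 := W5.gf_cjM hA ((x : ℂ) * r)
    rw [hcN, hcA, map_mul, Complex.conj_ofReal, hcr, mul_neg, gf_neg hA] at h3
    have h4 : (starRingEnd ℂ) (r * gf N A (x * r)) = r * gf N A (x * r) := by
      rw [map_mul, h3, hcr]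
      ring
    have := congrArg Complex.im h4
    rw [Complex.conj_im] at this
    linarith
  obtain ⟨x0, hx0, hx1⟩ := W5.near_zero hA hr0 (b := 1 / 2) (by norm_num)
  have key := W5.neg_conn (f := fun x : ℝ => (r * gf N A (x * r)).re) (s := Set.Ioc 0 (1 / 2))
    isPreconnected_Ioc ?_ ?_ hx0 hx1 (x := 1 / 2) (by norm_num)
  · have e : (((1 / 2 : ℝ)) : ℂ) * r = r / 2 := by push_cast; ring
    refine ⟨?_, ?_⟩
    · have key' : (r * gf N A (((1 / 2 : ℝ) : ℂ) * r)).re < 0 := key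
      rwa [e] at key'
    · have := him (1 / 2)
      rwa [e] at this
  · intro x hx
    refine ContinuousAt.continuousWithinAt ?_
    have c1 := (gf_analytic hA (fun h => hv x hx (hNA h))).continuousAt
    have c2 : ContinuousAt (fun x : ℝ => gf N A ((x : ℂ) * r)) x :=
      ContinuousAt.comp (f := fun x : ℝ => (x : ℂ) * r) c1 (by fun_prop)
    exact Complex.continuous_re.continuousAt.comp (continuousAt_const.mul c2)
  · intro x hx h2
    refine mul_ne_zero hr0 (gf_ne hA (hv x hx)) ?_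
    apply Complex.ext
    · rw [Complex.zero_re]
      exact h2
    · rw [Complex.zero_im]
      exact him x

private theorem ao_fin {a : ℝ} (ha : 0 < a) (h0 : r.re = 0) (h1 : r.im ≠ 0)
    (hr : r ^ 2 = -(a : ℂ))
    (hB : Two (Submodule.span ℤ {r, (1 : ℂ)}) (Submodule.span ℤ {r / 2, (1 : ℂ)}))
    (hA : Two (Submodule.span ℤ {r, (1 : ℂ)}) (Submodule.span ℤ {r, (1 / 2 : ℂ)})) {ρ : ℂ}
    (hρ2 : ρ ^ 2 = -1)
    (hρ : ρ * gf (Submodule.span ℤ {r, (1 : ℂ)}) (Submodule.span ℤ {r, (1 / 2 : ℂ)}) (r / 2) =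
      -gf (Submodule.span ℤ {r, (1 : ℂ)}) (Submodule.span ℤ {r / 2, (1 : ℂ)}) (1 / 2)) :
    ρ * r = ((Real.sqrt a : ℝ) : ℂ) := by
  obtain ⟨b1, b2⟩ := ao_B h0 h1 hB
  obtain ⟨a1, a2⟩ := ao_A h0 h1 hA
  set gB := gf (Submodule.span ℤ {r, (1 : ℂ)}) (Submodule.span ℤ {r / 2, (1 : ℂ)}) (1 / 2)
  set gA := gf (Submodule.span ℤ {r, (1 : ℂ)}) (Submodule.span ℤ {r, (1 / 2 : ℂ)}) (r / 2)
  have h5 : (ρ * r) ^ 2 = (a : ℂ) := by
    rw [mul_pow, hρ2, hr]
    ring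
  have h2 := congrArg Complex.re h5
  have h3 := congrArg Complex.im h5
  rw [pow_two, Complex.mul_re, Complex.ofReal_re] at h2
  rw [pow_two, Complex.mul_im, Complex.ofReal_im] at h3
  have h4 : (ρ * r).im = 0 := by
    have h5 : (ρ * r).re * (ρ * r).im = 0 := by linarith
    rcases mul_eq_zero.1 h5 with h6 | h6
    · exfalso
      rw [h6] at h2
      nlinarith [mul_self_nonneg (ρ * r).im]
    · exact h6
  have h6 : ((ρ * r).re : ℂ) = ρ * r := by
    apply Complex.ext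
    · rw [Complex.ofReal_re]
    · rw [Complex.ofReal_im, h4]
  have h7 : ((ρ * r).re : ℂ) * (r * gA) = (a : ℂ) * gB := by
    rw [h6]
    have : ρ * r * (r * gA) = (ρ * gA) * r ^ 2 := by ring
    rw [this, hρ, hr]
    ring
  have h8 := congrArg Complex.re h7
  rw [Complex.re_ofReal_mul, Complex.re_ofReal_mul] at h8
  have h9 : 0 < (ρ * r).re := by
    by_contra h9
    have h10 : (ρ * r).re ≤ 0 := not_lt.1 h9
    have h11 := mul_nonneg_of_nonpos_of_nonpos h10 a1.le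
    have h12 := mul_neg_of_pos_of_neg ha b1
    linarith
  have h10 : (ρ * r).re = Real.sqrt a := by
    symm
    rw [Real.sqrt_eq_iff_mul_self_eq ha.le h9.le]
    rw [h4] at h2
    linarith
  rw [← h6, h10]

end

variable {K : Type*} [Field K] [NumberField K] [Algebra K ℂ] {a : ℕ} {s : K} {S : 𝓞 K}

private theorem ao_M1 (hb : B6 K a s) : M6 s 1 = Submodule.span ℤ {32 * w6 s, 1} := by
  have h1 : Lk6 s 5 = Submodule.span ℤ {32 * w6 s, 1} := by
    unfold Lk6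
    norm_num
  rw [M6_eq, ← h1]
  apply sup_eq_left.2
  intro y hy
  obtain ⟨z, hz, rfl⟩ := (Submodule.mem_smul_pointwise_iff_exists _ _ _).1 hy
  obtain ⟨x, hx, rfl⟩ := mem_iv.1 hz
  obtain ⟨t, ht⟩ := hx 1 (by rw [Ideal.one_eq_top]; trivial)
  rw [map_one, mul_one] at ht
  rw [← ht]
  exact eight_mem_Lk6 hb le_rfl t

theorem ori_v6 (hb : B6 K a s) (ha : a % 16 = 6) (hS : algebraMap (𝓞 K) K S = s) :
    vc s (Ideal.span {1 + S}) * vc s 1 * algebraMap K ℂ s = ((Real.sqrt a : ℝ) : ℂ) := by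
  have hodd : OddI (1 : Ideal (𝓞 K)) := by
    unfold OddI
    rw [map_one]
    exact odd_one
  have hF : Fr (M6 s 1) (w6 s) := fr_M6 hb hodd
  have hM : M6 s 1 = Submodule.span ℤ {32 * w6 s, 1} := ao_M1 hb
  have ha0 : (0 : ℝ) < a := by
    have h0 : 0 < a := by omega
    exact_mod_cast h0
  have hSq : algebraMap K ℂ s ^ 2 = -((a : ℝ) : ℂ) := by
    rw [← map_pow, hb.sq, map_neg, map_natCast]
    simp
  have hw : w6 s = algebraMap K ℂ s / 8 := rfl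
  have hC : ∀ k ≤ 5, Ch (M6 s 1) (w6 s) k = Submodule.span ℤ {(2 : ℂ) ^ k * w6 s, 1} := by
    intro k hk
    have mm : (1 : ℂ) ∈ M6 s 1 := by
      rw [hM]
      exact Submodule.subset_span (by simp)
    unfold Ch
    refine le_antisymm (sup_le ?_ ?_) ?_
    · rw [hM, Submodule.span_le]
      rintro z (rfl | rfl)
      · have e : 32 * w6 s = ((2 ^ (5 - k) : ℤ) : ℂ) * (2 ^ k * w6 s) := by
          push_cast
          rw [← mul_assoc, ← pow_add, Nat.sub_add_cancel hk]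
          norm_num
        rw [e]
        exact intmul_mem (Submodule.subset_span (by simp)) _
      · exact Submodule.subset_span (by simp)
    · rw [Submodule.span_singleton_le_iff_mem]
      exact Submodule.subset_span (by simp)
    · rw [Submodule.span_le]
      rintro z (rfl | rfl)
      · exact Submodule.mem_sup_right (Submodule.mem_span_singleton_self _)
      · exact Submodule.mem_sup_left mm
  have ht := turn6 hb hodd (δ := 1 + S) (by rw [map_add, map_one, hS])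
  obtain ⟨hq, -⟩ := tr_exact6 hb hodd (x := 1) (y := 1) odd_one odd_one (δ := 1 + S)
    (by rw [map_add, map_one, hS]; push_cast; ring)
  rw [mul_one] at ht hq
  obtain ⟨h0, h1⟩ := W5.re_zero ha0 hSq
  set r := algebraMap K ℂ s with hr
  have c3 : Ch (M6 s 1) (w6 s) 3 = Submodule.span ℤ {r, (1 : ℂ)} := by
    rw [hC 3 (by omega), hw]
    have : (2 : ℂ) ^ 3 * (r / 8) = r := by ring
    rw [this]
  have c2 : Ch (M6 s 1) (w6 s) 2 = Submodule.span ℤ {r / 2, (1 : ℂ)} := by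
    rw [hC 2 (by omega), hw]
    have : (2 : ℂ) ^ 2 * (r / 8) = r / 2 := by ring
    rw [this]
  have c4 : half (Ch (M6 s 1) (w6 s) 4) = Submodule.span ℤ {r, (1 / 2 : ℂ)} := by
    rw [hC 4 (by omega), hw]
    have e : (2 : ℂ) ^ 4 * (r / 8) = 2 * r := by ring
    rw [e]
    ext z
    rw [mem_half, ao_mem, ao_mem]
    constructor
    · rintro ⟨m, n, h⟩
      exact ⟨m, n, by linear_combination h / 2⟩
    · rintro ⟨m, n, h⟩
      exact ⟨m, n, by linear_combination 2 * h⟩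
  have tB : Two (Ch (M6 s 1) (w6 s) 3) (Ch (M6 s 1) (w6 s) 2) := twoCh hF (k := 2) (by omega)
  have tA : Two (Ch (M6 s 1) (w6 s) 3) (half (Ch (M6 s 1) (w6 s) 4)) :=
    two_half_Ch hF (k := 2) (by omega)
  have e2 : (2 : ℂ) ^ 2 * w6 s = r / 2 := by
    rw [hw]
    ring
  have hSS : SS (M6 s 1) (w6 s) 2 =
      gf (Submodule.span ℤ {r, (1 : ℂ)}) (Submodule.span ℤ {r, (1 / 2 : ℂ)}) (r / 2) := by
    have h := SS_eq (M6 s 1) (w6 s) 2
    have h' : SS (M6 s 1) (w6 s) 2 =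
      gf (Ch (M6 s 1) (w6 s) 3) (half (Ch (M6 s 1) (w6 s) 4)) (2 ^ 2 * w6 s) := h
    rw [h', c3, c4, e2]
  rw [c3, c2] at tB ht
  rw [c3, c4] at tA
  obtain ⟨j, hj⟩ : ∃ j : ℕ, a / 2 = 8 * j + 3 := ⟨a / 16, by omega⟩
  have e5 : -((a / 2 : ℕ) : ℂ) / 2 - 1 = -(1 / 2 + ((2 : ℂ) * (2 * j + 1 : ℕ))) := by
    rw [hj]
    push_cast
    ring
  rw [hSS, e5, gf_neg tB, gf_add_mem tB (by
    have e6 : (2 : ℂ) * ((2 * j + 1 : ℕ) : ℂ) / 2 = ((2 * j + 1 : ℕ) : ℂ) * 1 := by ring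
    rw [e6]
    exact natmul_mem (Submodule.subset_span (by simp)) _)] at ht
  exact ao_fin ha0 h0 h1 hSq tB tA hq ht

end Pool.Agent.Work.MP_8efaaa_nt.W6
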