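import Mathlib
import Pool.Agent.Work.MP_8efaaa_nt.W5.FInd
import Pool.Agent.Work.MP_8efaaa_nt.W5.FAct
import Pool.Agent.Work.MP_8efaaa_nt.K6.CFr
import Pool.Agent.Work.MP_8efaaa_nt.K6.CAc
import Pool.Agent.Work.MP_8efaaa_nt.W6.DFb

/-!
# W6/DAc (M): all automorphisms over `K` act by primitive ideals of squarefree norm

Model: `W5/FAct.lean` (`act_prim`, with its private lemmas: `t` by CRT, `S - t ∈ r ⊓ b = r * b`). PROOF. `frob_ind` (W5/FInd) with `N0` = the number of `frob_ma6` (K6/CFr; divisible by `2` and `a`) and `P σ n := ∃ (b : Ideal (𝓞 K)) (t : ℤ), absNorm b = n ∧ Odd n ∧ n.Coprime a ∧ Squarefree n ∧ S - t ∈ b ∧ MA6 a ζ w z k v σ b ∧ σ ξ = ξ ^ n ∧ E σ n t`, where `E σ n t` says: if `n % 8 ∈ {1, 3}`: `σ e = nu n t * e`, `σ e1 = nu n t * e1`, `σ θ = θ`; if `n % 8 ∈ {5, 7}`: `σ e = nu n t * e1`, `σ e1 = -(nu n t * e)`, `σ θ = -θ`.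
(The statements for `e1` follow from those for `e`, `θ` and `e e1 θ = s`, `σ s = s`: first case `σ e1 = s/(nu e θ) = nu e1`; second case: `σ e1 = s/(nu e1 (-θ)) = -nu e`, `nu = ±1` (`Law6.pm`). All nonzero because `s ≠ 0`.)
`P 1 1`: `b = 1`, `t = 0`, `Law6.one`. Step: `σ` with `b`, `t1`, `n`; `τ` Frobenius at `Q`, `r = Q ∩ 𝓞 K` of norm `l`, `l ∤ N0`, `l ∤ n`: `τ ξ = ξ^l` (`frb_xi`; `ξ^8 = ζ^4 = -1`), `frb_e6` for `τ` and `t2` with `S - t2 ∈ r`. New ideal `r * b`, `t = t1 (mod n)`, `t = t2 (mod l)`, `MA6` of the product as in `good_mul` (N5/CAct.lean) or K6/CAc.lean, `l n` squarefree (`Nat.squarefree_mul`), `(τ σ) ξ = τ (ξ^n) = ξ^(l n)`.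
Signs: `nu (l n) t = nu l t * nu n t * (if 5 ≤ l % 8 ∧ 5 ≤ n % 8 then -1 else 1)` (`Law6.mul`; `cong` for `t1`, `t2`; `l`, `n` squarefree, coprime, odd), and `l n % 8 ∈ {1, 3}` iff both or none of `l`, `n` are in `{5, 7}` modulo `8`. Four cases: (13,13): `τ σ e = nu_n nu_l e`. `l` in 13, `n` in 57: `τ (nu_n e1) = nu_n nu_l e1`. `l` in 57, `n` in 13: `τ (nu_n e) = nu_n nu_l e1`. (57,57): `τ (nu_n e1) = -(nu_n nu_l e)`, in agreement with the sign `-1`.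
At the end take `n` prime to `M`.
-/

set_option autoImplicit false

namespace Pool.Agent.Work.MP_8efaaa_nt.W6

open NumberField Pool.Agent.Work.CM Pool.Agent.Work.MP_8efaaa_nt.R
  Pool.Agent.Work.MP_8efaaa_nt.N5 Pool.Agent.Work.MP_8efaaa_nt.K6

universe u

private theorem da_int {K : Type*} [Field K] [NumberField K] {l : ℕ} (hl : l.Prime)
    {q : Ideal (𝓞 K)} (hq : q.IsPrime) (hql : Ideal.absNorm q = l) (t : 𝓞 K) :
    ∃ n : ℤ, t - n ∈ q := by
  have : Fact l.Prime := ⟨hl⟩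
  have hcard : Nat.card (𝓞 K ⧸ q) = l := by
    rw [← hql, Ideal.absNorm_apply, Submodule.cardQuot_apply]
  have h1 : (1 : 𝓞 K ⧸ q) ≠ 0 := by
    have := Ideal.Quotient.nontrivial_iff.mpr hq.ne_top
    exact one_ne_zero
  have := mem_zmultiples_of_prime_card (p := l) hcard (g' := Ideal.Quotient.mk q t) h1
  obtain ⟨n, hn⟩ := AddSubgroup.mem_zmultiples_iff.mp this
  refine ⟨n, ?_⟩
  rw [← Ideal.Quotient.eq_zero_iff_mem, map_sub, sub_eq_zero, ← hn]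
  simp

/-- the action on `e1` from the action on `e` and `θ` -/
private theorem da_e1 {K F : Type*} [Field K] [Field F] [CharZero F] [Algebra K F] {s : K}
    (hs0 : algebraMap K F s ≠ 0) {θ e e1 : F} (hee : e * e1 * θ = algebraMap K F s)
    {σ : F ≃ₐ[K] F} {ν : ℤ} (hν : ν = 1 ∨ ν = -1) :
    (σ e = (ν : F) * e → σ θ = θ → σ e1 = (ν : F) * e1) ∧
      (σ e = (ν : F) * e1 → σ θ = -θ → σ e1 = -((ν : F) * e)) := by
  have h0 : e * e1 * θ ≠ 0 := by rwa [hee]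
  have hθ0 : θ ≠ 0 := right_ne_zero_of_mul h0
  have h00 : e * e1 ≠ 0 := left_ne_zero_of_mul h0
  have he0 : e ≠ 0 := left_ne_zero_of_mul h00
  have he10 : e1 ≠ 0 := right_ne_zero_of_mul h00
  have hν2 : (ν : F) * ν = 1 := by
    rcases hν with rfl | rfl <;> norm_num
  have hν0 : (ν : F) ≠ 0 := left_ne_zero_of_mul (hν2 ▸ one_ne_zero)
  have h1 := congrArg σ hee
  rw [map_mul, map_mul, AlgEquiv.commutes] at h1
  constructor
  · intro h ht
    rw [h, ht, ← hee] at h1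
    apply mul_left_cancel₀ (mul_ne_zero (mul_ne_zero hν0 he0) hθ0)
    linear_combination h1 - (e * e1 * θ) * hν2
  · intro h ht
    rw [h, ht, ← hee] at h1
    apply mul_left_cancel₀ (mul_ne_zero (mul_ne_zero hν0 he10) hθ0)
    linear_combination -h1 + (e * e1 * θ) * hν2

/-- the product of two actions -/
private theorem da_mul {K F : Type*} [Field K] [NumberField K] [Field F] [Algebra K F] {a : ℕ}
    {ζ : F} {w : ℕ → F} {z k v : Ideal (𝓞 K) → F} {x y : F ≃ₐ[K] F} {b e : Ideal (𝓞 K)}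
    (hb1 : OddI b) (he1 : OddI e) (hb3 : MA6 a ζ w z k v x b)
    (he3 : MA6 a ζ w z k v y e) : MA6 a ζ w z k v (x * y : F ≃ₐ[K] F) (b * e) := by
  have hmul : ∀ c : Ideal (𝓞 K), OddI c → OddI (e * c) := by
    intro c hc
    unfold OddI at *
    rw [map_mul]
    exact he1.mul hc
  refine ⟨?_, ?_, ?_⟩
  · intro c hc
    obtain ⟨h1, h2, h3⟩ := he3.act c hc
    obtain ⟨h4, h5, h6⟩ := hb3.act (e * c) (hmul c hc)
    refine ⟨?_, ?_, ?_⟩
    · show x (y (z c)) = _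
      rw [h1, h4, mul_assoc]
    · show x (y (k c)) = _
      rw [h2, h5, mul_assoc]
    · show x (y (v c)) = _
      rw [h3, h6, mul_assoc]
  · have h1 := he3.z8
    have h2 := hb3.z8
    show x (y ζ) = _
    rw [h1, map_pow, h2, ← pow_mul, map_mul]
  · intro d hd hcd
    rw [map_mul] at hcd
    have h1 := he3.sq d hd hcd.coprime_mul_left_right
    have h2 := hb3.sq d hd hcd.coprime_mul_right_right
    have n1 : NeZero (Ideal.absNorm b) := ⟨fun h0 => by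
      unfold OddI at hb1
      rw [h0] at hb1
      exact absurd hb1 (by decide)⟩
    have n2 : NeZero (Ideal.absNorm e) := ⟨fun h0 => by
      unfold OddI at he1
      rw [h0] at he1
      exact absurd he1 (by decide)⟩
    show x (y (w d)) = _
    rw [h1, map_mul, map_intCast, h2, map_mul, jacobiSym.mul_right, Int.cast_mul]
    ring

theorem act_prim6 {K : Type u} {F : Type} [Field K] [NumberField K] [Algebra K ℂ] [Field F]
    [NumberField F] [Algebra K F] [Algebra F ℂ] [IsScalarTower K F ℂ] [IsGalois K F] {a m : ℕ}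
    (ham : a = 2 * m) {s : K} (hb : B6 K a s) {S : 𝓞 K} (hS : algebraMap (𝓞 K) K S = s)
    {ζ : F} {w : ℕ → F} {z k v : Ideal (𝓞 K) → F} (h : C6 K F a s ζ w z k v)
    {u0 v0 : ℤ} {nu : ℕ → ℤ → ℤ} (hL : Law6 m u0 v0 nu) {ξ θ e e1 : F} (hξ : ξ ^ 2 = ζ)
    (hθ : θ ^ 2 = -2) (he : e ^ 2 = (u0 : F) + (v0 : F) * θ)
    (he1 : e1 ^ 2 = (u0 : F) - (v0 : F) * θ) (hee : e * e1 * θ = algebraMap K F s)
    (σ : F ≃ₐ[K] F) (M : ℕ) (hM : M ≠ 0) :
    ∃ (b : Ideal (𝓞 K)) (t : ℤ), OddI b ∧ Nat.Coprime (Ideal.absNorm b) M ∧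
      Squarefree (Ideal.absNorm b) ∧ S - (t : 𝓞 K) ∈ b ∧
      MA6 a ζ w z k v σ b ∧ σ ξ = ξ ^ Ideal.absNorm b ∧
      ((Ideal.absNorm b % 8 = 1 ∨ Ideal.absNorm b % 8 = 3) →
        σ e = (nu (Ideal.absNorm b) t : F) * e) ∧
      ((Ideal.absNorm b % 8 = 5 ∨ Ideal.absNorm b % 8 = 7) →
        σ e = (nu (Ideal.absNorm b) t : F) * e1) := by
  obtain ⟨N0, hN0, h2N, haN, hact⟩ := frob_ma6 hb h
  have hz4 : ζ ^ 4 = -1 := h.z8
  have hx8 : ξ ^ 8 = -1 := by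
    rw [show (8 : ℕ) = 2 * 4 from rfl, pow_mul, hξ, hz4]
  have hs0 : algebraMap K F s ≠ 0 := by
    rw [Ne, map_eq_zero]
    intro h0
    have h1 := hb.sq
    rw [h0, zero_pow (by norm_num)] at h1
    have h2 : a = 0 := by exact_mod_cast neg_eq_zero.1 h1.symm
    have := hb.mod
    omega
  -- the property
  set P : (F ≃ₐ[K] F) → ℕ → Prop := fun σ n => ∃ (b : Ideal (𝓞 K)) (t : ℤ),
    Ideal.absNorm b = n ∧ Odd n ∧ Squarefree n ∧ S - (t : 𝓞 K) ∈ b ∧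
    MA6 a ζ w z k v σ b ∧ σ ξ = ξ ^ n ∧ ((n % 8 = 1 ∨ n % 8 = 3) → σ e = (nu n t : F) * e) ∧
    ((n % 8 = 5 ∨ n % 8 = 7) → σ e = (nu n t : F) * e1) with hP
  have hP1 : P 1 1 := by
    refine ⟨1, 0, by simp, by decide, squarefree_one, ?_, ?_, ?_, ?_, by omega⟩
    · rw [Ideal.one_eq_top]
      trivial
    · refine ⟨?_, ?_, ?_⟩
      · intro c _
        rw [one_mul]
        exact ⟨rfl, rfl, rfl⟩
      · rw [map_one, pow_one]
        rfl
      · intro d _ _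
        rw [map_one, jacobiSym.one_right, Int.cast_one, one_mul]
        rfl
    · rw [pow_one]
      rfl
    · intro _
      rw [hL.one, Int.cast_one, one_mul]
      rfl
  have hmul : ∀ (σ : F ≃ₐ[K] F) (n : ℕ) (τ : F ≃ₐ[K] F) (l : ℕ) (Q : Ideal (𝓞 F)), n ≠ 0 →
      P σ n → l.Prime → ¬ l ∣ N0 → ¬ l ∣ n → Q.IsPrime →
      Ideal.absNorm (Q.comap (algebraMap (𝓞 K) (𝓞 F))) = l → Frb τ Q l → P (τ * σ) (l * n) := by
    intro σ n τ l Q hn hσ hl hlN hln hQ hql hτ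
    obtain ⟨b, t1, hbn, hno, hnsf, hSb, hMb, hσξ, hσ1, hσ5⟩ := hσ
    have hl2 : l ≠ 2 := by
      rintro rfl
      exact hlN h2N
    have hlo : Odd l := hl.odd_of_ne_two hl2
    have hla : ¬ l ∣ a := fun h0 => hlN (h0.trans haN)
    have hlm : ¬ l ∣ m := fun h0 => hla (ham ▸ h0.mul_left 2)
    have hlnc : l.Coprime n := hl.coprime_iff_not_dvd.2 hln
    set r : Ideal (𝓞 K) := Q.comap (algebraMap (𝓞 K) (𝓞 F)) with hr
    have hrp : r.IsPrime := Ideal.IsPrime.comap _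
    have hlr : (l : 𝓞 K) ∈ r := by
      have h1 : ((Ideal.absNorm r : ℕ) : 𝓞 K) ∈ r := Ideal.absNorm_mem r
      rwa [hql] at h1
    have hlQ : (l : 𝓞 F) ∈ Q := by
      have h1 := hlr
      rw [hr, Ideal.mem_comap, map_natCast] at h1
      exact h1
    have hnb : (n : 𝓞 K) ∈ b := by
      have h1 : ((Ideal.absNorm b : ℕ) : 𝓞 K) ∈ b := Ideal.absNorm_mem b
      rwa [hbn] at h1
    obtain ⟨t2, ht2⟩ := da_int hl hrp hql S
    obtain ⟨u, v', huv⟩ : IsCoprime (n : ℤ) (l : ℤ) := Nat.isCoprime_iff_coprime.2 hlnc.symm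
    set t : ℤ := t1 + (t2 - t1) * (u * n) with ht
    have htn : t ≡ t1 [ZMOD n] := by
      refine (Int.modEq_iff_dvd.2 ⟨-((t2 - t1) * u), ?_⟩)
      rw [ht]
      ring
    have htt1 : t - t1 = (t2 - t1) * u * n := by
      rw [ht]
      ring
    have htt2 : t - t2 = (t1 - t2) * v' * l := by
      rw [ht]
      linear_combination (t2 - t1) * huv
    have hSb' : S - (t : 𝓞 K) ∈ b := by
      have h1 : S - (t : 𝓞 K) = (S - (t1 : 𝓞 K)) - ((t2 - t1) * u : ℤ) * (n : 𝓞 K) := by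
        have h2 := congrArg (Int.cast : ℤ → 𝓞 K) htt1
        push_cast at h2 ⊢
        linear_combination -h2
      rw [h1]
      exact b.sub_mem hSb (b.mul_mem_left _ hnb)
    have hSr' : S - (t : 𝓞 K) ∈ r := by
      have h1 : S - (t : 𝓞 K) = (S - (t2 : 𝓞 K)) - ((t1 - t2) * v' : ℤ) * (l : 𝓞 K) := by
        have h2 := congrArg (Int.cast : ℤ → 𝓞 K) htt2
        push_cast at h2 ⊢
        linear_combination -h2
      rw [h1]
      exact r.sub_mem ht2 (r.mul_mem_left _ hlr)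
    have hcop : IsCoprime r b := by
      rw [Ideal.isCoprime_iff_exists]
      refine ⟨(v' : 𝓞 K) * l, r.mul_mem_left _ hlr, (u : 𝓞 K) * n, b.mul_mem_left _ hnb, ?_⟩
      have h2 := congrArg (Int.cast : ℤ → 𝓞 K) huv
      push_cast at h2
      linear_combination h2
    have hMr := hact l Q τ hl hlN hQ hql hτ
    have hodr : OddI r := by
      unfold OddI
      rw [hql]
      exact hlo
    have hodb : OddI b := by
      unfold OddI
      rw [hbn]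
      exact hno
    have hτξ : τ ξ = ξ ^ l := frb_xi hx8 hl hl2 hQ hlQ hτ
    obtain ⟨hτ1, hτ5⟩ := frb_e6 ham hS hb.sq hL hθ he he1 hee hl hl2 hlm hQ hlQ hτ hSr'
    have hcong := hL.cong n t t1 htn
    have hmm := hL.mul l n t hlo hno hl.squarefree hnsf hlnc
    obtain ⟨k1, k5⟩ := da_e1 hs0 hee (σ := τ) (hL.pm l t)
    rw [← hcong] at hσ1 hσ5
    have hl8 : l % 8 = 1 ∨ l % 8 = 3 ∨ l % 8 = 5 ∨ l % 8 = 7 := by
      have := Nat.odd_iff.1 hlo
      omega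
    have hn8 : n % 8 = 1 ∨ n % 8 = 3 ∨ n % 8 = 5 ∨ n % 8 = 7 := by
      have := Nat.odd_iff.1 hno
      omega
    have hstep : (τ * σ) e = τ (σ e) := rfl
    refine ⟨r * b, t, ?_, hlo.mul hno, ?_, ?_, da_mul hodr hodb hMr hMb, ?_, ?_, ?_⟩
    · rw [map_mul, hql, hbn]
    · exact (Nat.squarefree_mul hlnc).2 ⟨hl.squarefree, hnsf⟩
    · rw [Ideal.mul_eq_inf_of_isCoprime hcop]
      exact ⟨hSr', hSb'⟩
    · have h1 : (τ * σ) ξ = τ (σ ξ) := rfl
      rw [h1, hσξ, map_pow, hτξ, ← pow_mul]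
    · intro hln1
      rw [Nat.mul_mod] at hln1
      have hcase : ((l % 8 = 1 ∨ l % 8 = 3) ∧ (n % 8 = 1 ∨ n % 8 = 3)) ∨
          ((l % 8 = 5 ∨ l % 8 = 7) ∧ (n % 8 = 5 ∨ n % 8 = 7)) := by
        rcases hl8 with h1 | h1 | h1 | h1 <;> rcases hn8 with h2 | h2 | h2 | h2 <;>
          rw [h1, h2] at hln1 <;> omega
      rcases hcase with ⟨c1, c2⟩ | ⟨c1, c2⟩
      · have hif : ¬ (5 ≤ l % 8 ∧ 5 ≤ n % 8) := by omega
        rw [hstep, hσ1 c2, map_mul, map_intCast, (hτ1 c1).1, hmm, if_neg hif]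
        push_cast
        ring
      · have hif : (5 ≤ l % 8 ∧ 5 ≤ n % 8) := by omega
        rw [hstep, hσ5 c2, map_mul, map_intCast, k5 (hτ5 c1).1 (hτ5 c1).2, hmm, if_pos hif]
        push_cast
        ring
    · intro hln1
      rw [Nat.mul_mod] at hln1
      have hcase : ((l % 8 = 1 ∨ l % 8 = 3) ∧ (n % 8 = 5 ∨ n % 8 = 7)) ∨
          ((l % 8 = 5 ∨ l % 8 = 7) ∧ (n % 8 = 1 ∨ n % 8 = 3)) := by
        rcases hl8 with h1 | h1 | h1 | h1 <;> rcases hn8 with h2 | h2 | h2 | h2 <;>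
          rw [h1, h2] at hln1 <;> omega
      rcases hcase with ⟨c1, c2⟩ | ⟨c1, c2⟩
      · have hif : ¬ (5 ≤ l % 8 ∧ 5 ≤ n % 8) := by omega
        rw [hstep, hσ5 c2, map_mul, map_intCast, k1 (hτ1 c1).1 (hτ1 c1).2, hmm, if_neg hif]
        push_cast
        ring
      · have hif : ¬ (5 ≤ l % 8 ∧ 5 ≤ n % 8) := by omega
        rw [hstep, hσ1 c2, map_mul, map_intCast, (hτ5 c1).1, hmm, if_neg hif]
        push_cast
        ring
  obtain ⟨n, hn0, hnM, b, t, hbn, hno, hnsf, hSb, hMb, hσξ, hσ1, hσ5⟩ :=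
    W5.frob_ind N0 hN0 P hP1 hmul σ M hM
  subst hbn
  exact ⟨b, t, hno, hnM, hnsf, hSb, hMb, hσξ, hσ1, hσ5⟩

end Pool.Agent.Work.MP_8efaaa_nt.W6
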