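import Mathlib
import Pool.Agent.Work.MP_8efaaa_nt.W6.DDefs
import Pool.Agent.Work.MP_8efaaa_nt.K6.CCx

/-!
# W6/DFd (S-M): the field of the values

Copy the proof of `exists_c6` (K6/CCx.lean) with three more numbers in the finite set: `ξ0` with `ξ0 ^ 8 = -1` (`IsAlgClosed.exists_pow_nat_eq`), `ζ := ξ0 ^ 2`; `θ0 := φ s / √(a/2)` (`φ = algebraMap K ℂ`; `√(a/2) ≠ 0`, `θ0 ^ 2 = -a / (a/2) = -2`, so `θ0` is algebraic over `K`: root of `X^2 + 2`); `e0` with `e0 ^ 2 = u0 + v0 θ0` (algebraic over `K`: `u0 + v0 θ0` is algebraic, `IsAlgebraic.of_pow`-type lemma, or root of `(X^2 - u0)^2 + 2 v0^2`).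
-/

set_option autoImplicit false

namespace Pool.Agent.Work.MP_8efaaa_nt.W6

open NumberField Pool.Agent.Work.CM Pool.Agent.Work.MP_8efaaa_nt.R Pool.Agent.Work.MP_8efaaa_nt.N5
  Pool.Agent.Work.MP_8efaaa_nt.K6

variable {K : Type*} [Field K] [NumberField K] [Algebra K ℂ] {a : ℕ} {s : K}

theorem exists_cx6 (hb : B6 K a s) (u0 v0 : ℤ) : ∃ (F : IntermediateField K ℂ)
    (_ : FiniteDimensional K F) (_ : IsGalois K F) (_ : IsGalois ℚ F) (ζ : F) (w : ℕ → F)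
    (z k v : Ideal (𝓞 K) → F) (ξ θ e : F), CX6 K F a s u0 v0 ζ w z k v ξ θ e := by
  classical
  obtain ⟨T, hT, hfin⟩ := fin6 hb
  have ha0 : a ≠ 0 := hb.sf.ne_zero
  obtain ⟨ξ, hξ⟩ := IsAlgClosed.exists_pow_nat_eq (-1 : ℂ) (n := 8) (by norm_num)
  have hξa : IsAlgebraic K ξ := by
    refine ⟨Polynomial.X ^ 8 + 1, ?_, ?_⟩
    · exact (Polynomial.monic_X_pow_add_C (1 : K) (n := 8) (by norm_num)).ne_zero
    · simp [hξ]
  have hd2 : ∀ d : ℕ, (((Real.sqrt (d : ℝ) : ℝ) : ℂ)) ^ 2 = (d : ℂ) := by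
    intro d
    rw [← Complex.ofReal_pow, Real.sq_sqrt (Nat.cast_nonneg d)]
    simp
  have hda : ∀ d : ℕ, IsAlgebraic K ((Real.sqrt (d : ℝ) : ℝ) : ℂ) := by
    intro d
    refine ⟨Polynomial.X ^ 2 - Polynomial.C (d : K), ?_, ?_⟩
    · exact (Polynomial.monic_X_pow_sub_C (d : K) (n := 2) (by norm_num)).ne_zero
    · simp [hd2 d]
  have haR : (0 : ℝ) < a := by
    have := Nat.pos_of_ne_zero ha0
    exact_mod_cast this
  have hD0 : ((Real.sqrt ((a : ℝ) / 2) : ℝ) : ℂ) ≠ 0 := by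
    have h := Real.sqrt_pos.2 (show (0 : ℝ) < (a : ℝ) / 2 by positivity)
    exact_mod_cast h.ne'
  have hD2 : (((Real.sqrt ((a : ℝ) / 2) : ℝ) : ℂ)) ^ 2 = (a : ℂ) / 2 := by
    rw [← Complex.ofReal_pow, Real.sq_sqrt (by positivity)]
    push_cast
    rfl
  obtain ⟨θ, hθ⟩ : ∃ θ : ℂ, θ * ((Real.sqrt ((a : ℝ) / 2) : ℝ) : ℂ) = algebraMap K ℂ s :=
    ⟨algebraMap K ℂ s / ((Real.sqrt ((a : ℝ) / 2) : ℝ) : ℂ), div_mul_cancel₀ _ hD0⟩
  have hθ2 : θ ^ 2 = -2 := by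
    have h1 : θ ^ 2 * ((a : ℂ) / 2) = -(a : ℂ) := by
      rw [← hD2, ← mul_pow, hθ, ← map_pow, hb.sq, map_neg, map_natCast]
    have h2 : (a : ℂ) ≠ 0 := by exact_mod_cast ha0
    apply mul_right_cancel₀ h2
    linear_combination 2 * h1
  have hθa : IsAlgebraic K θ := by
    refine ⟨Polynomial.X ^ 2 + Polynomial.C (2 : K), ?_, ?_⟩
    · exact (Polynomial.monic_X_pow_add_C (2 : K) (n := 2) (by norm_num)).ne_zero
    · have h4 : (algebraMap K ℂ) 2 = 2 := map_ofNat _ 2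
      simp [hθ2, h4]
  obtain ⟨e, he⟩ := IsAlgClosed.exists_pow_nat_eq ((u0 : ℂ) + (v0 : ℂ) * θ) (n := 2)
    (by norm_num)
  have hea : IsAlgebraic K e := by
    refine IsAlgebraic.of_pow (n := 2) (by norm_num) ?_
    rw [he]
    exact (isAlgebraic_intCast u0).add ((isAlgebraic_intCast v0).mul hθa)
  obtain ⟨F, h1, h2, h3, hF⟩ := fin_gal_rat
    (insert ξ (insert θ (insert e
      (a.divisors.image (fun d : ℕ => ((Real.sqrt (d : ℝ) : ℝ) : ℂ)) ∪ T)))) (by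
    intro z hz
    rcases Finset.mem_insert.1 hz with rfl | hz
    · exact hξa
    rcases Finset.mem_insert.1 hz with rfl | hz
    · exact hθa
    rcases Finset.mem_insert.1 hz with rfl | hz
    · exact hea
    · rcases Finset.mem_union.1 hz with hz | hz
      · obtain ⟨d, _, rfl⟩ := Finset.mem_image.1 hz
        exact hda d
      · exact hT z hz)
  have hF' : ∀ z ∈ T, z ∈ F := fun z hz =>
    hF z (Finset.mem_insert_of_mem (Finset.mem_insert_of_mem (Finset.mem_insert_of_mem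
      (Finset.mem_union_right _ hz))))
  have hξF : ξ ∈ F := hF ξ (Finset.mem_insert_self _ _)
  have hθF : θ ∈ F := hF θ (Finset.mem_insert_of_mem (Finset.mem_insert_self _ _))
  have heF : e ∈ F := hF e (Finset.mem_insert_of_mem (Finset.mem_insert_of_mem
    (Finset.mem_insert_self _ _)))
  have hdF : ∀ d : ℕ, d ∣ a → ((Real.sqrt (d : ℝ) : ℝ) : ℂ) ∈ F := fun d hd =>
    hF _ (Finset.mem_insert_of_mem (Finset.mem_insert_of_mem (Finset.mem_insert_of_mem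
      (Finset.mem_union_left _ (Finset.mem_image_of_mem _ (Nat.mem_divisors.2 ⟨hd, ha0⟩))))))
  refine ⟨F, h1, h2, h3, ⟨ξ, hξF⟩ ^ 2,
    fun d => if h : d ∣ a then ⟨((Real.sqrt (d : ℝ) : ℝ) : ℂ), hdF d h⟩ else 0,
    fun c => if h : OddI c then ⟨zc s c, hF' _ (hfin c h).1⟩ else 0,
    fun c => if h : OddI c then ⟨kc s c, hF' _ (hfin c h).2.1⟩ else 0,
    fun c => if h : OddI c then ⟨vc s c, hF' _ (hfin c h).2.2⟩ else 0,
    ⟨ξ, hξF⟩, ⟨θ, hθF⟩, ⟨e, heF⟩, ⟨?_, ?_, ?_, ?_, ?_, ?_, ?_⟩, rfl, hθ, ?_⟩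
  · apply Subtype.ext
    have h4 : (ξ ^ 2) ^ 4 = -1 := by
      rw [← pow_mul]
      exact hξ
    simpa using h4
  · intro c hc
    simp only [dif_pos hc]
    rfl
  · intro c hc
    simp only [dif_pos hc]
    rfl
  · intro c hc
    simp only [dif_pos hc]
    rfl
  · refine ⟨T.preimage (Subtype.val : F → ℂ) Subtype.val_injective.injOn, fun c hc => ?_⟩
    simp only [dif_pos hc, Finset.mem_preimage]
    exact hfin c hc
  · intro d hd
    simp only [dif_pos hd]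
    apply Subtype.ext
    simpa using hd2 d
  · intro d hd
    simp only [dif_pos hd]
    exact Complex.conj_ofReal _
  · apply Subtype.ext
    simpa using he

end Pool.Agent.Work.MP_8efaaa_nt.W6
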