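import Mathlib
import Pool.Agent.Work.MP_8efaaa_nt.N5.CConj
import Pool.Agent.Work.MP_8efaaa_nt.W6.DFd
import Pool.Agent.Work.MP_8efaaa_nt.W6.DUd
import Pool.Agent.Work.MP_8efaaa_nt.W6.DAc
import Pool.Agent.Work.MP_8efaaa_nt.W6.ATx
import Pool.Agent.Work.MP_8efaaa_nt.W6.AOr
import Pool.Agent.Work.MP_8efaaa_nt.W6.AFz

/-!
# W6/DXd (M): existence of the exact data

Model for the instances: the end of K6/CDt.lean (`exists_ud6`) and W5/FDat.lean. PROOF. Choose an embedding `K →+* ℂ`, `exists_cx6 hb u0 v0`: `F`, `ζ`, .., `ξ`, `θ`, `e`. `exists_conj` (N5/CConj): `κ`, complex conjugation on `F`. All identities are checked after the injective `ι = algebraMap F ℂ`. `r = φ s = algebraMap K ℂ s`, `ρ = √(a/2) > 0`, `ι θ = r/ρ`.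
`ud`: `ud6_conj`. `x16`: given. `kx`: `ξ^16 = (ζ^4)^2 = 1`, so `|ι ξ| = 1`, `conj (ι ξ) = (ι ξ)^15`. `th`: `(ι θ)^2 ρ^2 = r^2 = -a`, `ρ^2 = a/2`. `kth`: `conj r = -r` (`conj_s6`). `sq`: given.
`conj`: `ι e * conj (ι e) = |ι e|^2 = |u0 + v0 ι θ|`, `ι θ = r/ρ` is purely imaginary with square `-2`, so `|u0 + v0 ι θ|^2 = u0^2 + 2 v0^2 = m = a/2`, so `ι e * conj (ι e) = ρ`, times `ι θ`: `r`.
`trx`: `tr_exact6` (`hz`, `hk`, `hv` of `C6`; `span {δ} * c` is odd). `ori`: `ori_v6`: `v(1+S) v(1) r = √a`, `ori_z6`: `z(1) z(n') (1+v(1))(1+v(n')) = -2√2`; so the product times `r` is `-2√2 √a = -2 √(2a)`, and `2 ι θ r = 2 r^2/ρ = -2a/√(a/2) = -2√(2a)`; cancel `r ≠ 0` (`r6 S (a/2)` is odd: `norm_r6`).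
`act4`: `act_prim6` with `e1 = κ e`: `(κ e)^2 = κ (u0 + v0 θ) = u0 - v0 θ`, `e * κ e * θ = s`.
-/

set_option autoImplicit false

namespace Pool.Agent.Work.MP_8efaaa_nt.W6

open NumberField Pool.Agent.Work.CM Pool.Agent.Work.MP_8efaaa_nt.R
  Pool.Agent.Work.MP_8efaaa_nt.N5 Pool.Agent.Work.MP_8efaaa_nt.K6

universe u

private theorem dxd_oddm {K : Type*} [Field K] [NumberField K] {b c : Ideal (𝓞 K)} (hb : OddI b)
    (hc : OddI c) : OddI (b * c) := by
  unfold OddI at *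
  rw [map_mul]
  exact hb.mul hc

private theorem dxd_odd1 {K : Type*} [Field K] [NumberField K] : OddI (1 : Ideal (𝓞 K)) := by
  unfold OddI
  rw [Ideal.one_eq_top, Ideal.absNorm_top]
  exact odd_one

private theorem xd6_of {K : Type u} {F : Type} [Field K] [NumberField K] [Algebra K ℂ] [Field F]
    [NumberField F] [Algebra K F] [Algebra F ℂ] [IsScalarTower K F ℂ] [IsGalois K F]
    [IsGalois ℚ F] {a m : ℕ} {s : K} (hb : B6 K a s)
    (ha : a % 16 = 6) (ham : a = 2 * m) {S : 𝓞 K} (hS : algebraMap (𝓞 K) K S = s)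
    {τ : 𝓞 K ≃+* 𝓞 K} (hτ : τ S = -S) {u0 v0 : ℤ} {nu : ℕ → ℤ → ℤ} (hL : Law6 m u0 v0 nu)
    {ζ : F} {w : ℕ → F} {z k v : Ideal (𝓞 K) → F} {ξ θ e : F}
    (h : CX6 K F a s u0 v0 ζ w z k v ξ θ e) :
    ∃ κ : F ≃ₐ[ℚ] F, XD6 K F a s S τ ζ w z k v κ u0 v0 nu ξ θ e := by
  obtain ⟨κ, hκ⟩ := exists_conj (F := F)
  have inj : Function.Injective (algebraMap F ℂ) := (algebraMap F ℂ).injective
  have ham' : (a : ℝ) / 2 = m := by
    rw [ham]
    push_cast
    ring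
  have hm0 : 0 < m := by omega
  have hmR : (0 : ℝ) < (a : ℝ) / 2 := by
    rw [ham']
    exact_mod_cast hm0
  set ρr : ℝ := Real.sqrt ((a : ℝ) / 2) with hρr
  have hρr0 : 0 < ρr := Real.sqrt_pos.2 hmR
  have hρr2 : ρr ^ 2 = (a : ℝ) / 2 := Real.sq_sqrt hmR.le
  have hρ0 : (ρr : ℂ) ≠ 0 := by exact_mod_cast hρr0.ne'
  have hρ2 : (ρr : ℂ) ^ 2 = (m : ℂ) := by
    have h1 : ρr ^ 2 = (m : ℝ) := hρr2.trans ham'
    exact_mod_cast h1
  have haC : (a : ℂ) = 2 * m := by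
    rw [ham]
    push_cast
    ring
  have hr2 : (algebraMap K ℂ s) ^ 2 = -(a : ℂ) := by
    rw [← map_pow, hb.sq, map_neg, map_natCast]
  have hm0C : (m : ℂ) ≠ 0 := by exact_mod_cast hm0.ne'
  have hr0 : algebraMap K ℂ s ≠ 0 := by
    intro h0
    rw [h0, haC] at hr2
    apply hm0C
    linear_combination (1 / 2 : ℂ) * hr2
  set r := algebraMap K ℂ s with hr
  set T := algebraMap F ℂ θ with hT
  have hth : T * (ρr : ℂ) = r := h.th
  have hT2 : T ^ 2 = -2 := by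
    have h1 : T ^ 2 * (ρr : ℂ) ^ 2 = -(2 * (m : ℂ)) := by
      rw [← mul_pow, hth, hr2, haC]
    rw [hρ2] at h1
    apply mul_right_cancel₀ hm0C
    linear_combination h1
  have hTc : (starRingEnd ℂ) T = -T := by
    have h1 := congrArg (starRingEnd ℂ) hth
    rw [map_mul, Complex.conj_ofReal, hr, conj_s6 hb, ← hr] at h1
    apply mul_right_cancel₀ hρ0
    linear_combination h1 + hth
  have hθ2 : θ ^ 2 = -2 := by
    apply inj
    rw [map_pow, map_neg, map_ofNat, ← hT, hT2]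
  have hκθ : κ θ = -θ := by
    apply inj
    rw [hκ, map_neg, ← hT, hTc]
  have hx16 : (algebraMap F ℂ ξ) ^ 16 = 1 := by
    rw [← map_pow]
    have h1 : ξ ^ 16 = 1 := by
      calc ξ ^ 16 = (ξ ^ 2) ^ 8 := by ring
        _ = (ζ ^ 4) ^ 2 := by rw [h.x16]; ring
        _ = 1 := by rw [h.c6.z8]; ring
    rw [h1, map_one]
  have hκξ : κ ξ = ξ ^ 15 := by
    apply inj
    rw [hκ, map_pow]
    set x := algebraMap F ℂ ξ with hx
    have hx0 : x ≠ 0 := by
      intro h0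
      rw [h0, zero_pow (by norm_num)] at hx16
      exact zero_ne_one hx16
    have hn : ‖x‖ = 1 := Complex.norm_eq_one_of_pow_eq_one hx16 (by norm_num)
    apply mul_right_cancel₀ hx0
    rw [← pow_succ, hx16, mul_comm, Complex.mul_conj, Complex.normSq_eq_norm_sq, hn]
    norm_num
  have hconj : e * κ e * θ = algebraMap K F s := by
    apply inj
    rw [map_mul, map_mul, hκ, ← hT, ← IsScalarTower.algebraMap_apply K F ℂ, ← hr, ← hth]
    set E := algebraMap F ℂ e with hE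
    have hE2 : E ^ 2 = (u0 : ℂ) + (v0 : ℂ) * T := by
      rw [hE, ← map_pow, h.sq, map_add, map_mul, map_intCast, map_intCast]
    have hEc : ((starRingEnd ℂ) E) ^ 2 = (u0 : ℂ) - (v0 : ℂ) * T := by
      rw [← map_pow, hE2, map_add, map_mul, hTc]
      simp
      ring
    have hns : ((Complex.normSq E : ℝ) : ℂ) ^ 2 = (m : ℂ) := by
      rw [← Complex.mul_conj, mul_pow, hE2, hEc]
      have h1 : ((u0 ^ 2 + 2 * v0 ^ 2 : ℤ) : ℂ) = ((m : ℤ) : ℂ) := by rw [hL.nrm]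
      push_cast at h1
      linear_combination h1 - (v0 : ℂ) ^ 2 * hT2
    have hns2 : Complex.normSq E = ρr := by
      have h1 : (Complex.normSq E) ^ 2 = (a : ℝ) / 2 := by
        rw [ham']
        exact_mod_cast hns
      rw [hρr, ← h1, Real.sqrt_sq (Complex.normSq_nonneg E)]
    rw [Complex.mul_conj, hns2, mul_comm]
  have hrr : OddI (r6 S (a / 2)) := by
    unfold OddI
    rw [norm_r6 hb hS ⟨2, by omega⟩]
    exact Nat.odd_iff.2 (by omega)
  have hsp : ∀ (x y : ℤ) (δ : 𝓞 K), Odd x → algebraMap (𝓞 K) K δ = x + y * s →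
      OddI (Ideal.span {δ}) := fun x y δ hx hδ => (oddI_span6 hb hδ).2 hx
  have hκe : (κ e) ^ 2 = (u0 : F) - (v0 : F) * θ := by
    rw [← map_pow, h.sq, map_add, map_mul, hκθ, map_intCast, map_intCast]
    ring
  refine ⟨κ, ?_⟩
  refine
    { ud := ud6_conj hb hS hτ h.c6 hκ
      x16 := h.x16
      kx := hκξ
      th := hθ2
      kth := hκθ
      sq := h.sq
      conj := hconj
      trx := fun x y δ hx hy hδ c hc => ?_
      ori := ?_
      act4 := fun σ M hM => act_prim6 ham hb hS h.c6 hL h.x16 hθ2 h.sq hκe hconj σ M hM }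
  · have ho : OddI (Ideal.span {δ} * c) := dxd_oddm (hsp x y δ hx hδ) hc
    obtain ⟨t1, t2⟩ := tr_exact6 hb hc hx hy hδ
    constructor
    · apply inj
      rw [map_pow, map_mul, h.c6.hv _ ho, h.c6.hv _ hc, map_neg, map_one]
      exact t1
    · apply inj
      rw [map_mul, map_sub, map_one, map_mul, map_mul, map_mul, map_mul, map_sub, map_one,
        map_mul, map_mul, map_intCast, h.c6.hv _ ho, h.c6.hv _ hc, h.c6.hz _ ho, h.c6.hz _ hc,
        h.c6.hk _ hc]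
      exact t2
  · have h1S : OddI (Ideal.span {1 + S}) := by
      refine hsp 1 1 (1 + S) odd_one ?_
      rw [map_add, map_one, hS]
      push_cast
      ring
    have o1 := ori_v6 hb ha hS
    have o2 := ori_z6 hb ha hS
    apply inj
    rw [map_mul, map_mul, map_mul, map_mul, map_mul, map_add, map_add, map_one, map_mul, map_ofNat,
      h.c6.hv _ h1S, h.c6.hv _ dxd_odd1, h.c6.hv _ hrr, h.c6.hz _ dxd_odd1, h.c6.hz _ hrr, o2, ← hT]
    apply mul_right_cancel₀ hr0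
    apply mul_right_cancel₀ hρ0
    have e1 : Real.sqrt a * Real.sqrt 2 * ρr = a := by
      have e2 : Real.sqrt a = Real.sqrt 2 * ρr := by
        rw [hρr, ← Real.sqrt_mul (by norm_num)]
        congr 1
        ring
      rw [mul_assoc, ← e2]
      exact Real.mul_self_sqrt (Nat.cast_nonneg a)
    have e3 : ((Real.sqrt a : ℝ) : ℂ) * ((Real.sqrt 2 : ℝ) : ℂ) * (ρr : ℂ) = (a : ℂ) := by
      exact_mod_cast congrArg (fun x : ℝ => (x : ℂ)) e1
    have e4 : vc s (Ideal.span {1 + S}) * vc s 1 * r = ((Real.sqrt a : ℝ) : ℂ) := o1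
    calc vc s (Ideal.span {1 + S}) * vc s 1 * -(2 * ((Real.sqrt 2 : ℝ) : ℂ)) * r * (ρr : ℂ)
        = (vc s (Ideal.span {1 + S}) * vc s 1 * r) * -(2 * ((Real.sqrt 2 : ℝ) : ℂ)) *
            (ρr : ℂ) := by ring
      _ = -2 * (((Real.sqrt a : ℝ) : ℂ) * ((Real.sqrt 2 : ℝ) : ℂ) * (ρr : ℂ)) := by
          rw [e4]
          ring
      _ = 2 * r ^ 2 := by rw [e3, hr2]; ring
      _ = 2 * T * r * (ρr : ℂ) := by linear_combination -2 * r * hth

theorem exists_xd6 {K : Type u} [Field K] [NumberField K] {a m : ℕ} {s : K} (hb : B6 K a s)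
    (ha : a % 16 = 6) (ham : a = 2 * m) {S : 𝓞 K} (hS : algebraMap (𝓞 K) K S = s)
    {τ : 𝓞 K ≃+* 𝓞 K} (hτ : τ S = -S) {u0 v0 : ℤ} {nu : ℕ → ℤ → ℤ} (hL : Law6 m u0 v0 nu) :
    ∃ (F : Type) (_ : Field F) (_ : NumberField F) (_ : Algebra K F)
      (_ : FiniteDimensional K F) (_ : IsGalois K F) (_ : IsGalois ℚ F) (ζ : F) (w : ℕ → F)
      (z k v : Ideal (𝓞 K) → F) (κ : F ≃ₐ[ℚ] F) (ξ θ e : F),
      XD6 K F a s S τ ζ w z k v κ u0 v0 nu ξ θ e := by
  obtain ⟨φ⟩ : Nonempty (K →+* ℂ) := inferInstance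
  let _ : Algebra K ℂ := φ.toAlgebra
  obtain ⟨F, hF1, hF2, hF3, ζ, w, z, k, v, ξ, θ, e, h0⟩ := exists_cx6 hb u0 v0
  have hNF : NumberField F := NumberField.of_module_finite K F
  have hF4 : @IsGalois ℚ _ F _ DivisionRing.toRatAlgebra := by
    convert hF3
  obtain ⟨κ, h⟩ := xd6_of hb ha ham hS hτ hL h0
  exact ⟨F, inferInstance, hNF, inferInstance, hF1, hF2, hF4, ζ, w, z, k, v, κ, ξ, θ, e, h⟩

end Pool.Agent.Work.MP_8efaaa_nt.W6
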