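import Mathlib

/-!
# W6/GAb: the sum over the classes, abstractly

`g ↦ ω g⁻¹` has no fixed point, so `∑ f = (|G|/2) T` modulo `E1`, exactly; `g ↦ ω' g⁻¹` has exactly the fixed
points `g0`, `ρ g0`, so `∑ f = f g0 + f (ρ g0) + ((|G| - 2)/2) T` modulo `E2`.
-/

set_option autoImplicit false

namespace Pool.Agent.Work.MP_8efaaa_nt.W6

open scoped Classical

variable {G A : Type*} [CommGroup G] [Fintype G] [AddCommGroup A]

/-- the sum of `f` over the group is the sum of `f (ω g⁻¹)` -/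
private theorem sum_inv (f : G → A) (ω : G) : ∑ g, f (ω * g⁻¹) = ∑ g, f g := by
  refine Fintype.sum_equiv ((Equiv.inv G).trans (Equiv.mulLeft ω)) _ _ ?_
  intro g
  rfl

/-- half of a system: pair up `g` and `ω g⁻¹` -/
private theorem pair_mem {S : Finset G} {ω : G} {E : AddSubgroup A} {f : G → A} {T : A}
    (hS : ∀ g ∈ S, ω * g⁻¹ ∈ S) (hfix : ∀ g ∈ S, g * g ≠ ω)
    (h : ∀ g, f (ω * g⁻¹) + f g - T ∈ E) :
    ∃ k : ℕ, S.card = 2 * k ∧ (∑ g ∈ S, f g) - k • T ∈ E := by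
  induction hn : S.card using Nat.strong_induction_on generalizing S with
  | _ n ih =>
    rcases S.eq_empty_or_nonempty with rfl | ⟨g, hg⟩
    · refine ⟨0, by rw [← hn]; rfl, ?_⟩
      rw [Finset.sum_empty, zero_smul, sub_zero]
      exact E.zero_mem
    · have hg' := hS g hg
      have hne : ω * g⁻¹ ≠ g := by
        intro h1
        apply hfix g hg
        rw [mul_inv_eq_iff_eq_mul] at h1
        exact h1.symm
      have hinv : ω * (ω * g⁻¹)⁻¹ = g := by
        rw [mul_inv, inv_inv, ← mul_assoc, mul_inv_cancel, one_mul]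
      have hmem' : ω * g⁻¹ ∈ S.erase g := Finset.mem_erase.2 ⟨hne, hg'⟩
      let S' := (S.erase g).erase (ω * g⁻¹)
      have hc1 : (S.erase g).card + 1 = S.card := Finset.card_erase_add_one hg
      have hc2 : S'.card + 1 = (S.erase g).card := Finset.card_erase_add_one hmem'
      have hs1 : f g + ∑ x ∈ S.erase g, f x = ∑ x ∈ S, f x := Finset.add_sum_erase _ _ hg
      have hs2 : f (ω * g⁻¹) + ∑ x ∈ S', f x = ∑ x ∈ S.erase g, f x :=
        Finset.add_sum_erase _ _ hmem'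
      have hS' : ∀ x ∈ S', ω * x⁻¹ ∈ S' := by
        intro x hx
        obtain ⟨hx1, hx2⟩ := Finset.mem_erase.1 hx
        obtain ⟨hx3, hx4⟩ := Finset.mem_erase.1 hx2
        refine Finset.mem_erase.2 ⟨?_, Finset.mem_erase.2 ⟨?_, hS x hx4⟩⟩
        · intro h1
          apply hx3
          have h2 := mul_left_cancel h1
          exact inv_injective h2
        · intro h1
          apply hx1
          rw [← h1, mul_inv, inv_inv, ← mul_assoc, mul_inv_cancel, one_mul]
      obtain ⟨k, hk1, hk2⟩ := ih S'.card (by omega) hS' (fun x hx =>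
        hfix x (Finset.mem_of_mem_erase (Finset.mem_of_mem_erase hx))) rfl
      refine ⟨k + 1, by omega, ?_⟩
      have e1 : (∑ x ∈ S, f x) - (k + 1) • T =
          (f (ω * g⁻¹) + f g - T) + ((∑ x ∈ S', f x) - k • T) := by
        rw [← hs1, ← hs2, add_smul, one_smul]
        abel
      rw [e1]
      exact E.add_mem (h g) hk2

theorem abs_two {f : G → A} {E1 E2 : AddSubgroup A} {ω ω' ρ g0 : G} {T n1 : A}
    (hn : n1 + n1 = 0) (hT : T + T = n1) (h1 : ∀ g, f (ω * g⁻¹) + f g - T ∈ E1)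
    (hω : ∀ g, g * g ≠ ω) (h2 : ∀ g, f (ω' * g⁻¹) + f g - T ∈ E2) (hg0 : g0 * g0 = ω')
    (hρ : ρ ≠ 1) (hG : ∀ g : G, g * g = 1 ↔ g = 1 ∨ g = ρ)
    (hE1 : ∀ e ∈ E1, (16 : ℤ) • e = 0 → e = 0) (htor : (16 : ℤ) • ∑ g, f g = 0) :
    f g0 + f (ρ * g0) - T ∈ E2 := by
  have hρρ : ρ * ρ = 1 := (hG ρ).2 (Or.inr rfl)
  obtain ⟨k, hk1, hk2⟩ := pair_mem (S := Finset.univ) (ω := ω) (f := f) (T := T) (E := E1)
    (fun g _ => Finset.mem_univ _) (fun g _ => hω g) h1
  have h16T : (16 : ℤ) • T = 0 := by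
    have e1 : (16 : ℤ) • T = (4 : ℤ) • ((T + T) + (T + T)) := by
      rw [← two_smul ℤ T, ← two_smul ℤ ((2 : ℤ) • T), smul_smul, smul_smul]
      norm_num
    rw [e1, hT, hn, smul_zero]
  have hk3 : (∑ g, f g) - k • T = 0 := by
    apply hE1 _ hk2
    rw [smul_sub, htor, smul_comm, h16T, smul_zero, sub_zero]
  -- the fixed points of the second involution
  have hne : ρ * g0 ≠ g0 := by
    intro h3
    apply hρ
    exact mul_eq_right.1 h3
  let S := (Finset.univ.erase g0).erase (ρ * g0)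
  have hm1 : g0 ∈ (Finset.univ : Finset G) := Finset.mem_univ _
  have hm2 : ρ * g0 ∈ Finset.univ.erase g0 := Finset.mem_erase.2 ⟨hne, Finset.mem_univ _⟩
  have hc1 := Finset.card_erase_add_one hm1
  have hc2 := Finset.card_erase_add_one hm2
  have hs1 := Finset.add_sum_erase _ f hm1
  have hs2 := Finset.add_sum_erase _ f hm2
  have hfix : ∀ g, g * g = ω' ↔ g = g0 ∨ g = ρ * g0 := by
    intro g
    have e1 : g * g = ω' ↔ (g * g0⁻¹) * (g * g0⁻¹) = 1 := by
      rw [← hg0, mul_mul_mul_comm, ← mul_inv, mul_inv_eq_one]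
    rw [e1, hG, mul_inv_eq_one, mul_inv_eq_iff_eq_mul]
  have hinv0 : ω' * g0⁻¹ = g0 := by rw [← hg0, mul_inv_cancel_right]
  have hinv1 : ω' * (ρ * g0)⁻¹ = ρ * g0 := by
    have := (hfix (ρ * g0)).2 (Or.inr rfl)
    rw [← this, mul_inv_cancel_right]
  obtain ⟨l, hl1, hl2⟩ := pair_mem (S := S) (ω := ω') (f := f) (T := T) (E := E2) (by
    intro g hg
    obtain ⟨hx1, hx2⟩ := Finset.mem_erase.1 hg
    obtain ⟨hx3, -⟩ := Finset.mem_erase.1 hx2
    refine Finset.mem_erase.2 ⟨?_, Finset.mem_erase.2 ⟨?_, Finset.mem_univ _⟩⟩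
    · intro h3
      apply hx1
      exact inv_injective (mul_left_cancel (h3.trans hinv1.symm))
    · intro h3
      apply hx3
      exact inv_injective (mul_left_cancel (h3.trans hinv0.symm))) (by
    intro g hg h3
    obtain ⟨hx1, hx2⟩ := Finset.mem_erase.1 hg
    obtain ⟨hx3, -⟩ := Finset.mem_erase.1 hx2
    rcases (hfix g).1 h3 with h4 | h4
    · exact hx3 h4
    · exact hx1 h4) h2
  have hkl : k = l + 1 := by
    have e1 : S.card = 2 * l := hl1
    have e2 : S.card + 1 = (Finset.univ.erase g0).card := hc2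
    have e3 : (Finset.univ.erase g0).card + 1 = (Finset.univ : Finset G).card := hc1
    omega
  have e5 : f g0 + f (ρ * g0) - T = ((∑ g, f g) - k • T) - ((∑ g ∈ S, f g) - l • T) := by
    have e6 : (∑ g, f g) = f g0 + (f (ρ * g0) + ∑ g ∈ S, f g) := by
      rw [← hs1, ← hs2]
    rw [e6, hkl, add_smul, one_smul]
    abel
  rw [e5, hk3, zero_sub]
  exact E2.neg_mem hl2

omit [Fintype G] in
/-- the conclusion at the prime `q` -/
theorem abs_q {f : G → A} {E2 : AddSubgroup A} {φ : A →+ A} {ω' ρ g0 : G} {T R n1 d : A}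
    (hn : n1 + n1 = 0) (hd : d + d = 0) (hT : T + T = n1) (hR : R + R = n1)
    (h2 : ∀ g, f (ω' * g⁻¹) + f g - T ∈ E2) (hg0 : g0 * g0 = ω')
    (hf : ∀ g, f (ρ * g) + φ (f g) - (R + n1 + d) ∈ E2) (hφT : T - φ T ∈ E2)
    (hE2 : ∀ e ∈ E2, φ e ∈ E2) (h : f g0 + f (ρ * g0) - T ∈ E2) :
    f g0 + φ (f g0) - (R + n1 + d) ∈ E2 := by
  have h3 : f g0 + f g0 - T ∈ E2 := by
    have := h2 g0
    rwa [← hg0, mul_inv_cancel_right] at this
  have h4 := hE2 _ h3
  rw [map_sub, map_add] at h4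
  have h5 := hf g0
  have e0 : n1 + n1 = 0 := hn
  have e1 : f g0 + φ (f g0) - (R + n1 + d) =
      (f g0 + f (ρ * g0) - T) - (f (ρ * g0) + φ (f g0) - (R + n1 + d)) +
      (φ (f g0) + φ (f g0) - φ T) - (T - φ T) + ((T + T) - (R + R)) -
      (n1 + n1) - (d + d) := by
    abel
  rw [e1, hT, hR, hn, hd, sub_self, add_zero, sub_zero, sub_zero]
  exact E2.sub_mem (E2.add_mem (E2.sub_mem h h5) h4) hφT

end Pool.Agent.Work.MP_8efaaa_nt.W6
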