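import Mathlib
import Pool.Agent.Work.MP_8efaaa_nt.W6.Defs
import Pool.Agent.Work.MP_8efaaa_nt.W6.DIx
import Pool.Agent.Work.MP_8efaaa_nt.W6.GFr
import Pool.Agent.Work.MP_8efaaa_nt.W6.GAb
import Pool.Agent.Work.MP_8efaaa_nt.W6.CGr
import Pool.Agent.Work.MP_8efaaa_nt.W6.CSq
import Pool.Agent.Work.MP_8efaaa_nt.W6.CPr
import Pool.Agent.Work.MP_8efaaa_nt.W6.CEl
import Pool.Agent.Work.MP_8efaaa_nt.V6.STo
import Pool.Agent.Work.MP_8efaaa_nt.V6.GPi
import Pool.Agent.Work.MP_8efaaa_nt.W14.LPt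

/-!
# W6/GMn: the output of the sums over the classes (helper71: blocks P, C, G)

See sections 1 - 3 of `t6_helper9.md`.
-/

set_option autoImplicit false

namespace Pool.Agent.Work.MP_8efaaa_nt.W6

open NumberField Pool.Agent.Work.MP_8efaaa_nt.R Pool.Agent.Work.MP_8efaaa_nt.N5
  Pool.Agent.Work.MP_8efaaa_nt.K6 Pool.Agent.Work.MP_8efaaa_nt.W14
open scoped Classical nonZeroDivisors

private theorem mem_of_qn {F : Type*} [Field F] [CharZero F] {Γ : Type*}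
    [LinearOrderedCommGroupWithZero Γ] {V : Valuation F Γ} {X : (cQ F).Point}
    (h : V6.qn X ∈ V6.EB V) : X ∈ W5.E1 V ∨ X + W14.em F ∈ W5.E1 V := by
  obtain ⟨R, hR, hRX⟩ := h
  have h1 : V6.qn (X - R) = 0 := by
    rw [map_sub, hRX, sub_self]
  rcases V6.qn_eq_zero.1 h1 with h2 | h2
  · left
    rw [sub_eq_zero] at h2
    rw [h2]
    exact hR
  · right
    have h3 : W14.em F + W14.em F = 0 := by
      have := (two_ep (F := F)).2.1
      exact this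
    have h4 : X + W14.em F = R := by
      have h5 : X = R + W14.em F := by
        rw [← h2]
        abel
      rw [h5, add_assoc, h3, add_zero]
    rw [h4]
    exact hR

theorem g_main {K F : Type*} [Field K] [NumberField K] [Field F] [NumberField F]
    [Algebra K F] [FiniteDimensional K F] [IsGalois K F] [IsGalois ℚ F] {p q : ℕ} {s : K}
    {S : 𝓞 K} {τ : 𝓞 K ≃+* 𝓞 K} {ζ : F} {w : ℕ → F} {z k v : Ideal (𝓞 K) → F}
    {κ : F ≃ₐ[ℚ] F} {u0 v0 : ℤ} {nu : ℕ → ℤ → ℤ} {ξ θ e : F} (hp : p.Prime) (hq : q.Prime)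
    (hp8 : p % 8 = 1) (hq8 : q % 8 = 3) (hb : B6 K (2 * p * q) s)
    (hS : algebraMap (𝓞 K) K S = s) (hτ : τ S = -S)
    (hX : XD6 K F (2 * p * q) s S τ ζ w z k v κ u0 v0 nu ξ θ e)
    (hnc : ¬ IsCongruent (2 * p * q)) {Γ : Type} [LinearOrderedCommGroupWithZero Γ]
    {V : Valuation F Γ} {L : Ideal (𝓞 F)} (hV : VL V L) (hqL : (q : 𝓞 F) ∈ L)
    (huv : V ((u0 : F) + (v0 : F) * θ) < 1) {M : ℕ} (hM : M ≠ 0) :
    ∃ (b c0 : Ideal (𝓞 K)) (t x y : ℤ) (φ : F ≃ₐ[K] F) (r : F) (hr : r ^ 2 = 2),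
      Squarefree (Ideal.absNorm b) ∧ Ideal.absNorm b % 16 = 15 ∧
      nu (Ideal.absNorm b) t = 1 ∧ Nat.Coprime (Ideal.absNorm b) M ∧
      Ideal.absNorm c0 % 16 = 1 ∧ Nat.Coprime (Ideal.absNorm c0) M ∧ Odd x ∧ Odd y ∧
      IsCoprime x y ∧
      Ideal.span {(x : 𝓞 K) + y * S} = b * (cj τ c0 * cj τ c0) ∧
      ((Ideal.absNorm b : ℕ) : ℤ) ∣ x + t * y ∧
      r = (-1) ^ ((p - 1) / 8) * rr (2 * p * q) S z v 1 ∧
      (∀ x : F, V x ≤ 1 → V (φ x) ≤ 1 ∧ V (φ x - x ^ q) < 1) ∧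
      (∀ x : F, 1 < V x → 1 < V (φ x)) ∧
      PP z k v (Ideal.span {(x : 𝓞 K) + y * S} * c0) - PP z k v c0 ∈ W5.E1 V ∧
      (PP z k v c0 + gal φ (PP z k v c0) - TR hr ∈ W5.E1 V ∨
        PP z k v c0 + gal φ (PP z k v c0) - TR hr + W14.em F ∈ W5.E1 V) := by
  have hU := hX.ud
  have hp2 : p ≠ 2 := by omega
  have hq2 : q ≠ 2 := by omega
  have hpa : p ∣ 2 * p * q := ⟨2 * q, by ring⟩
  have hqa : q ∣ 2 * p * q := dvd_mul_left _ _
  have hpq : ¬ p ∣ q := fun h => by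
    have := (Nat.prime_dvd_prime_iff_eq hp hq).1 h
    omega
  have hqp : ¬ q ∣ p := fun h => by
    have := (Nat.prime_dvd_prime_iff_eq hq hp).1 h
    omega
  have hm8 : (p * q) % 8 = 3 := by rw [Nat.mul_mod, hp8, hq8]
  have ha2 : 2 * p * q = 2 * (p * q) := by ring
  have ha : (2 * p * q) % 16 = 6 := by omega
  have hhalf : (2 * p * q) / 2 = p * q := by omega
  have ha0 : 2 * p * q ≠ 0 := mul_ne_zero (mul_ne_zero two_ne_zero hp.ne_zero) hq.ne_zero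
  -- the function of the classes
  obtain ⟨f, hf⟩ := V6.exists_pi hb hS hτ ha hU
  obtain ⟨T, hTT, hT⟩ := V6.tq_px hb hS hU
  have hsu := V6.clN_surj hb hS ha
  obtain ⟨hr1, hRR, hfr⟩ := fr_T3 hb hS hU
  obtain ⟨ρ, hρ, hρ1, hG⟩ := grp2 hp hq hp8 hq8 hb hS hτ
  -- the prime above `p`
  obtain ⟨Lp, hLp', hLp⟩ := exists_prime6 (F := F) hp
  obtain ⟨Γp, _, Vp, hVp⟩ := exists_vl hLp'
  have h2p := (vl_odd hVp hp hp2 hLp).2.1
  have h2q := (vl_odd hV hq hq2 hqL).2.1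
  obtain ⟨bp, tp, hbpo, hbpc, -, -, hbp16, hbpj, hbpP, -⟩ :=
    inert_x6 hb hS hτ hX hVp hp hp2 hpa hLp (M := 2 * p * q) ha0
  obtain ⟨wp, hwp, hwp16, hwpP⟩ := in_w0 hb hS hτ ha hT hbp16 hbpP
  obtain ⟨hpp, hppT⟩ := V6.in_pi hb hS hτ ha hTT hwpP hf
  -- the prime above `q`
  obtain ⟨b, t, hbo, hbc, hbsf, hbt, hb16, hbj, hbP, hnu⟩ :=
    inert_x6 hb hS hτ hX hV hq hq2 hqa hqL (M := M * (2 * (2 * p * q)))
      (mul_ne_zero hM (mul_ne_zero two_ne_zero ha0))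
  obtain ⟨w0, hw0, hw016, hw0P⟩ := in_w0 hb hS hτ ha hT hb16 hbP
  obtain ⟨hqq, hqqT⟩ := V6.in_pi hb hS hτ ha hTT hw0P hf
  obtain ⟨φ, hφ, hφ', hφP⟩ := pp_frob hb hS hU hV hq hq2 hqa hqL
  have hdp : V6.dd F (Ideal.absNorm (wp : Ideal (𝓞 K))) = V6.n1 F := by
    unfold V6.dd
    rw [if_neg (by omega)]
  have hdq : V6.dd F (Ideal.absNorm (w0 : Ideal (𝓞 K))) = V6.n1 F := by
    unfold V6.dd
    rw [if_neg (by omega)]
  rw [hdp] at hpp hppT
  rw [hdq] at hqq hqqT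
  have hbc1 : Nat.Coprime (Ideal.absNorm b) (2 * (2 * p * q)) :=
    Nat.Coprime.coprime_dvd_right ⟨M, by ring⟩ hbc
  have hbc2 : Nat.Coprime (Ideal.absNorm b) (2 * p * q) :=
    Nat.Coprime.coprime_dvd_right ⟨2, by ring⟩ hbc1
  have hbM : Nat.Coprime (Ideal.absNorm b) M :=
    Nat.Coprime.coprime_dvd_right ⟨2 * (2 * p * q), rfl⟩ hbc
  have : Fintype (CG S) := Fintype.ofFinite _
  obtain ⟨q1, q2, q3, q4, -⟩ := V6.qn_em (F := F)
  -- genus theory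
  have hωp := nsq_p hp hq hp8 hq8 hb hS hτ hbp16 hbpc (hbpj q hqa hpq) hwp
  obtain ⟨g0, hg0⟩ := sq_q hp hq hp8 hq8 hb hS hτ hb16 hbc2 (hbj p hpa hqp) hw0
  obtain ⟨c, hc⟩ := hsu g0
  -- the norms of the classes
  have hg7 : (1 + S : 𝓞 K) ≠ 0 := by
    intro h
    have h1 := norm_g hb hS
    rw [h, Ideal.span_singleton_zero, Ideal.absNorm_bot] at h1
    omega
  have hb0 : b ≠ 0 := by
    rintro rfl
    rw [map_zero] at hb16
    norm_num at hb16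
  have hclw : cls (w0 : Ideal (𝓞 K)) = cls b := by
    rw [hw0, cls_mul (by
      intro h
      exact hg7 (Ideal.span_singleton_eq_bot.1 h)) hb0, cls_span hg7, one_mul]
  have hcc : cls (c : Ideal (𝓞 K)) * cls (c : Ideal (𝓞 K)) = cls b := by
    have h1 : V6.clN S (c * c) = V6.clN S w0 := by
      rw [map_mul, hc, hg0]
    have h2 := V6.clN_eq hb hS hτ ha h1
    rw [hclw, Submonoid.coe_mul, cls_mul (V6.M1.ne c.2) (V6.M1.ne c.2)] at h2
    exact h2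
  have hNb0 : Ideal.absNorm b ≠ 0 := by
    intro h
    rw [h] at hb16
    norm_num at hb16
  obtain ⟨c0, u, hc016, hc0c, hc0u, hc0cl⟩ := exists_prim6 hb ha hS
    (C := cls (c : Ideal (𝓞 K))) ⟨c, V6.M1.nrm c.2, rfl⟩
    (M := M * (2 * (2 * p * q) * Ideal.absNorm b))
    (mul_ne_zero hM (mul_ne_zero (mul_ne_zero two_ne_zero ha0) hNb0))
  have hc08 : Ideal.absNorm c0 % 8 = 1 := by omega
  obtain ⟨x, y, hx, hy, hxy, hspan, hdvd⟩ := exists_el6 hb hS hτ hb16 hbc1 hbt hc016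
    (Nat.Coprime.coprime_dvd_right ⟨M, by ring⟩ hc0c) hc0u (by rw [hc0cl]; exact hcc)
  have hc0o : OddI c0 := V6.M1.odd (show Ideal.absNorm c0 % 8 = 1 from hc08)
  have hfg0 : f g0 = V6.PB z k v c0 := by
    have h1 : V6.clN S ⟨c0, hc08⟩ = g0 := by
      rw [← hc]
      show (QuotientGroup.mk (cls c0) : CG S) = QuotientGroup.mk (cls (c : Ideal (𝓞 K)))
      rw [hc0cl]
    have h2 := hf ⟨c0, hc08⟩
    rw [h1] at h2
    rw [← h2]
    show V6.PB z k v c0 + V6.dd F (Ideal.absNorm c0) = V6.PB z k v c0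
    unfold V6.dd
    rw [if_pos hc016, add_zero]
  -- the sum over the classes
  have htwo := abs_two (f := f) (E1 := V6.EB Vp) (E2 := V6.EB V) q4 hppT hpp hωp hqq hg0 hρ1 hG
    (fun e he h => V6.eb_tors h2p he (n := 4) h) (V6.sum_tor hb hS hτ ha hU hnc hf)
  have hRn : V6.qn (TR hr1) + V6.qn (TR hr1) = V6.n1 F := by
    rw [← map_add, hRR, q3]
  have hφT : V6.qn T + V6.n1 F - V6.galB φ (V6.qn T + V6.n1 F) ∈ V6.EB V := by
    have h1 := V6.fr_T h2q hq8 hU.z8 hφ hTT (Ideal.absNorm (w0 : Ideal (𝓞 K)))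
    rw [hdq] at h1
    rw [h1]
    exact (V6.EB V).zero_mem
  have hfin := abs_q (f := f) (E2 := V6.EB V) (φ := V6.galB φ) q4
    (V6.dd_add (Ideal.absNorm (ρ : Ideal (𝓞 K)))) hqqT hRn hqq hg0
    (fr_pi_ex hb hS hq8 hqa hφP hρ hf hsu hfr) hφT (by
      rintro e ⟨R, hR, rfl⟩
      exact ⟨gal φ R, gal_e1 hφ' hR, rfl⟩) htwo
  rw [hfg0] at hfin
  -- the relation of the element
  have hel : PP z k v (Ideal.span {(x : 𝓞 K) + y * S} * c0) - PP z k v c0 ∈ W5.E1 V := by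
    have h1 : Ideal.span {(x : 𝓞 K) + y * S} * c0 =
        Ideal.span {((Ideal.absNorm c0 : ℕ) : 𝓞 K)} * (b * cj τ c0) := by
      rw [hspan, ← (norm_cj6 hb hS hτ c0).2.1]
      ring
    have h2 : OddI (b * cj τ c0) := by
      unfold OddI
      rw [map_mul, (norm_cj6 hb hS hτ c0).1]
      exact Odd.mul (show Odd (Ideal.absNorm b) from hbo) (show Odd (Ideal.absNorm c0) from hc0o)
    have h3 := V6.nat_px hb hS hU (n := Ideal.absNorm c0) hc0o h2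
    rw [if_pos (Or.inl hc08), add_zero] at h3
    rw [h1, h3]
    exact hbP c0 hc0o
  -- the constant
  have hNρ : Ideal.absNorm (ρ : Ideal (𝓞 K)) = p * q * q := by
    rw [hρ, map_mul, norm_r6 hb hS (Nat.div_dvd_of_dvd ⟨p * q, ha2⟩), norm_r6 hb hS hqa, hhalf]
  have hq16 : (q * q) % 16 = 9 := by
    have h1 : q % 16 = 3 ∨ q % 16 = 11 := by omega
    rw [Nat.mul_mod]
    rcases h1 with h1 | h1 <;> rw [h1]
  have hp16 : p % 16 = 1 ∨ p % 16 = 9 := by omega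
  have hNρ16 : (p * q * q) % 16 = ((p % 16) * 9) % 16 := by
    rw [mul_assoc, Nat.mul_mod, hq16]
  have hcomm : ∀ {X Y : (cQ F).Point}, V6.PB z k v c0 + V6.galB φ (V6.PB z k v c0) - V6.qn Y =
      V6.qn (PP z k v c0 + gal φ (PP z k v c0) - Y) := by
    intro X Y
    rw [map_sub, map_add]
    rfl
  rcases hp16 with hp16 | hp16
  · -- `p = 1 (mod 16)`
    have hr' : (-1 : F) ^ ((p - 1) / 8) * rr (2 * p * q) S z v 1 = rr (2 * p * q) S z v 1 := by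
      have h1 : Even ((p - 1) / 8) := by
        rw [Nat.even_iff]
        omega
      rw [h1.neg_one_pow, one_mul]
    have hd : V6.dd F (Ideal.absNorm (ρ : Ideal (𝓞 K))) = V6.n1 F := by
      unfold V6.dd
      rw [if_neg]
      rw [hNρ, hNρ16, hp16]
      norm_num
    rw [hd, add_assoc (V6.qn (TR hr1)), q4, add_zero, hcomm (X := 0)] at hfin
    exact ⟨b, c0, t, x, y, φ, rr (2 * p * q) S z v 1, hr1, hbsf, hb16, hnu huv, hbM, hc016,
      Nat.Coprime.coprime_dvd_right ⟨2 * (2 * p * q) * Ideal.absNorm b, rfl⟩ hc0c, hx, hy, hxy,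
      hspan, hdvd, hr'.symm, hφ, hφ', hel, mem_of_qn hfin⟩
  · -- `p = 9 (mod 16)`
    have hr' : (-1 : F) ^ ((p - 1) / 8) * rr (2 * p * q) S z v 1 = -rr (2 * p * q) S z v 1 := by
      have h1 : Odd ((p - 1) / 8) := by
        rw [Nat.odd_iff]
        omega
      rw [h1.neg_one_pow, neg_one_mul]
    have hr2 : (-rr (2 * p * q) S z v 1) ^ 2 = 2 := by
      rw [neg_sq]
      exact hr1
    have hd : V6.dd F (Ideal.absNorm (ρ : Ideal (𝓞 K))) = 0 := by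
      unfold V6.dd
      rw [if_pos]
      rw [hNρ, hNρ16, hp16]
    have hTR : V6.qn (TR hr1) + V6.n1 F = V6.qn (TR hr2) := by
      rw [TR_neg hr1 hr2, map_add]
      rfl
    rw [hd, add_zero, hTR, hcomm (X := 0)] at hfin
    exact ⟨b, c0, t, x, y, φ, -rr (2 * p * q) S z v 1, hr2, hbsf, hb16, hnu huv, hbM, hc016,
      Nat.Coprime.coprime_dvd_right ⟨2 * (2 * p * q) * Ideal.absNorm b, rfl⟩ hc0c, hx, hy, hxy,
      hspan, hdvd, hr'.symm, hφ, hφ', hel, mem_of_qn hfin⟩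

end Pool.Agent.Work.MP_8efaaa_nt.W6
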