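import Mathlib
import Pool.Agent.Work.MP_8efaaa_nt.W6.Defs

/-!
# W6/SLaw (M): the law of the signs

PROOF. `nrm`: `h`. `one`: `Nat.primeFactors_one`. `cong`: for `l ∈ N.primeFactors`, `l ∣ N ∣ t' - t`, and `nuP u v l t` depends on `t` modulo `l` only (`l ∣ A - t ↔ l ∣ A - t'` in `ℤ√(-2)`). `pm`: product of `±1`. `mul`: `Nat.Coprime.primeFactors_mul` (disjoint union), the product is multiplicative, `card` of the filter is additive, `choose (a + b) 2 = choose a 2 + choose b 2 + a b`, and for an odd squarefree number `N` the number `a` of its prime factors `l` with `5 ≤ l % 8` is odd iff `5 ≤ N % 8` (the map `n ↦ [5 ≤ n % 8]` is multiplicative on odd numbers: induction over the set of primes, `Nat.prod_primeFactors_of_squarefree`).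
`frob1`: `l = 1, 3 (mod 8)`; `nu6 u v l t = nuP u v l t` (`Nat.Prime.primeFactors`, `choose _ 2 = 0` for `card ≤ 1`). In `k` (characteristic `l`): `θ = g ⟨0,1⟩`, `θ^2 = -2`, `θ^l = θ` as `(-2)^((l-1)/2) = 1` (`ZMod.exists_sq_eq_neg_two_iff`, Euler), `B = u + vθ`, `B^l = B`, `B ≠ 0` (`B (u - vθ) = m`, `l ∤ m`), so `B^(l-1) = 1`, `B^((l-1)/2) = ±1`. `B' = u - vθ`: `(B B')^((l-1)/2) = m^((l-1)/2) = (m/l)`, and `t^2 = -2m` gives `(m/l) = (-2/l)(t^2/l).. = 1` (`t` is prime to `l`). So both have the same value `c = ±1`; hence `l ∣ ⟨u,v⟩^((l-1)/2) - c` (write `⟨u,v⟩^((l-1)/2) - c = ⟨A, A'⟩`: `A + A'θ = 0 = A - A'θ` in `k`), and `nuP = c` by definition (`c = -1`: the other divisibility would give `l ∣ 2`).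
`frob5`: `l = 5, 7 (mod 8)`: `θ^l = -θ`, `B^l = B'`, `B^(l+1) = m`, `(B^((l+1)/2) θ)^2 = -2 m = t^2`, so `B^((l+1)/2) θ = c t`, `c = ±1`; apply the Frobenius: `B'^((l+1)/2) (-θ) = c t` too. So `l ∣ ⟨u,v⟩^((l+1)/2) * ⟨0,1⟩ - c t`, `nuP = c`.
-/

set_option autoImplicit false

namespace Pool.Agent.Work.MP_8efaaa_nt.W6

private theorem slaw_val {k : Type} [Field k] (g : ℤ√(-2) →+* k) (A : ℤ√(-2)) :
    g A = (A.re : k) + (A.im : k) * g ⟨0, 1⟩ ∧ g (star A) = (A.re : k) - (A.im : k) * g ⟨0, 1⟩ := by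
  have h1 : A = ((A.re : ℤ) : ℤ√(-2)) + ((A.im : ℤ) : ℤ√(-2)) * ⟨0, 1⟩ := by
    ext <;> simp
  have h2 : star A = ((A.re : ℤ) : ℤ√(-2)) - ((A.im : ℤ) : ℤ√(-2)) * ⟨0, 1⟩ := by
    ext <;> simp
  constructor
  · conv_lhs => rw [h1]
    rw [map_add, map_mul, map_intCast, map_intCast]
  · rw [h2, map_sub, map_mul, map_intCast, map_intCast]

private theorem slaw_th {k : Type} [Field k] (g : ℤ√(-2) →+* k) :
    g ⟨0, 1⟩ ^ 2 = -2 := by
  have h1 : (⟨0, 1⟩ : ℤ√(-2)) ^ 2 = -2 := by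
    rw [pow_two]
    ext <;> simp
  rw [← map_pow, h1, map_neg, map_ofNat]

private theorem slaw_two {l : ℕ} (hl : l.Prime) (hl2 : l ≠ 2) (k : Type) [Field k] [CharP k l] :
    (2 : k) ≠ 0 := by
  intro h
  have h1 : ((2 : ℕ) : k) = 0 := by exact_mod_cast h
  have h2 := (CharP.cast_eq_zero_iff k l 2).1 h1
  exact hl2 ((Nat.prime_dvd_prime_iff_eq hl Nat.prime_two).1 h2)

private theorem slaw_dvd {l : ℕ} (hl : l.Prime) (hl2 : l ≠ 2) {k : Type} [Field k] [CharP k l]
    (g : ℤ√(-2) →+* k) (A : ℤ√(-2)) (h1 : g A = 0) (h2 : g (star A) = 0) :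
    (l : ℤ√(-2)) ∣ A := by
  have h2k := slaw_two hl hl2 k
  have hth := slaw_th g
  have hθ : g ⟨0, 1⟩ ≠ 0 := by
    intro h
    rw [h] at hth
    apply h2k
    linear_combination hth
  rw [(slaw_val g A).1] at h1
  rw [(slaw_val g A).2] at h2
  have h3 : (A.re : k) = 0 := by
    have : (2 : k) * (A.re : k) = 0 := by linear_combination h1 + h2
    exact (mul_eq_zero.1 this).resolve_left h2k
  have h4 : (A.im : k) = 0 := by
    have : (A.im : k) * g ⟨0, 1⟩ = 0 := by linear_combination h1 - h3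
    exact (mul_eq_zero.1 this).resolve_right hθ
  have h5 := (CharP.intCast_eq_zero_iff k l A.re).1 h3
  have h6 := (CharP.intCast_eq_zero_iff k l A.im).1 h4
  have h7 := (Zsqrtd.intCast_dvd (l : ℤ) A).2 ⟨h5, h6⟩
  rwa [Int.cast_natCast] at h7

private theorem slaw_neg2 {l : ℕ} (hl : l.Prime) (hl2 : l ≠ 2) (k : Type) [Field k] [CharP k l] :
    ((l % 8 = 1 ∨ l % 8 = 3) → ((-2 : k)) ^ (l / 2) = 1) ∧
    ((l % 8 = 5 ∨ l % 8 = 7) → ((-2 : k)) ^ (l / 2) = -1) := by
  have : Fact l.Prime := ⟨hl⟩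
  have hne : (-2 : ZMod l) ≠ 0 := by
    have := slaw_two hl hl2 (ZMod l)
    exact neg_ne_zero.2 this
  have hc : ZMod.castHom (dvd_refl l) k (-2) = -2 := by
    rw [map_neg, map_ofNat]
  have e1 := ZMod.exists_sq_eq_neg_two_iff (p := l) hl2
  have e2 := ZMod.euler_criterion l hne
  constructor
  · intro h
    have h1 := e2.1 (e1.2 h)
    have h2 := congrArg (ZMod.castHom (dvd_refl l) k) h1
    rwa [map_pow, hc, map_one] at h2
  · intro h
    have h1 : ¬ (-2 : ZMod l) ^ (l / 2) = 1 := fun h1 => by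
      have := e1.1 (e2.2 h1)
      omega
    have h2 := (ZMod.pow_div_two_eq_neg_one_or_one l hne).resolve_left h1
    have h3 := congrArg (ZMod.castHom (dvd_refl l) k) h2
    rwa [map_pow, hc, map_neg, map_one] at h3

private theorem slaw_thl {l : ℕ} (ho : l % 2 = 1) {k : Type} [Field k] (θ : k) (hθ : θ ^ 2 = -2) :
    θ ^ l = (-2) ^ (l / 2) * θ := by
  have h1 : l = 2 * (l / 2) + 1 := by omega
  conv_lhs => rw [h1, pow_succ, pow_mul, hθ]

private theorem slaw_f1 {u v : ℤ} {m : ℕ} (h : u ^ 2 + 2 * v ^ 2 = m) {l : ℕ} {t : ℤ}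
    (hl : l.Prime) (h8 : l % 8 = 1 ∨ l % 8 = 3) (hm : ¬ l ∣ m) (ht : (l : ℤ) ∣ t ^ 2 + 2 * m)
    (k : Type) [Field k] [CharP k l] (g : ℤ√(-2) →+* k) :
    ∃ c : ℤ, (c = 1 ∨ c = -1) ∧
      (l : ℤ√(-2)) ∣ (⟨u, v⟩ : ℤ√(-2)) ^ ((l - 1) / 2) - (c : ℤ√(-2)) := by
  have : Fact l.Prime := ⟨hl⟩
  have : ExpChar k l := ExpChar.prime hl
  have hl2 : l ≠ 2 := by omega
  have ho : l % 2 = 1 := by omega
  have h2k := slaw_two hl hl2 k
  have hth := slaw_th g
  have hmk : (m : k) ≠ 0 := fun e => hm ((CharP.cast_eq_zero_iff k l m).1 e)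
  have htk : (t : k) ^ 2 + 2 * m = 0 := by
    have := (CharP.intCast_eq_zero_iff k l (t ^ 2 + 2 * m)).2 ht
    push_cast at this
    exact this
  have ht0 : (t : k) ≠ 0 := by
    intro e
    rw [e] at htk
    have : (2 : k) * m = 0 := by linear_combination htk
    rcases mul_eq_zero.1 this with h1 | h1
    · exact h2k h1
    · exact hmk h1
  have hn2 := (slaw_neg2 hl hl2 k).1 h8
  obtain ⟨v1, v2⟩ := slaw_val g ⟨u, v⟩
  simp only at v1 v2
  set θ := g ⟨0, 1⟩ with hθd
  set B := g ⟨u, v⟩ with hB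
  set B' := g (star ⟨u, v⟩) with hB'
  have hBB : B * B' = m := by
    rw [v1, v2]
    have h1 : ((u ^ 2 + 2 * v ^ 2 : ℤ) : k) = ((m : ℤ) : k) := by rw [h]
    push_cast at h1
    linear_combination h1 - (v : k) ^ 2 * hth
  have hB0 : B ≠ 0 := fun e => hmk (by rw [← hBB, e, zero_mul])
  have hB'0 : B' ≠ 0 := fun e => hmk (by rw [← hBB, e, mul_zero])
  have hfr : ∀ a : ℤ, (a : k) ^ l = a := fun a => by
    have := map_intCast (frobenius k l) a
    rwa [frobenius_def] at this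
  have hθl : θ ^ l = θ := by rw [slaw_thl ho θ hth, hn2, one_mul]
  have hBl : B ^ l = B := by
    have h1 : frobenius k l B = B := by
      rw [v1, map_add, map_mul, frobenius_def, frobenius_def, frobenius_def, hfr, hfr, hθl]
    rwa [frobenius_def] at h1
  have hB'l : B' ^ l = B' := by
    have h1 : frobenius k l B' = B' := by
      rw [v2, map_sub, map_mul, frobenius_def, frobenius_def, frobenius_def, hfr, hfr, hθl]
    rwa [frobenius_def] at h1
  have hone : ∀ x : k, x ≠ 0 → x ^ l = x → x ^ (l / 2) = 1 ∨ x ^ (l / 2) = -1 := by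
    intro x hx hxl
    apply mul_self_eq_one_iff.1
    have h1 : l = (l / 2 + l / 2) + 1 := by omega
    rw [h1, pow_succ, pow_add] at hxl
    exact mul_right_cancel₀ hx (hxl.trans (one_mul x).symm)
  have hhalf : (l - 1) / 2 = l / 2 := by omega
  have hmp : (m : k) ^ (l / 2) = 1 := by
    have h1 : ((-2 : k) * m) ^ (l / 2) = 1 := by
      have h2 : (-2 : k) * m = (t : k) ^ 2 := by linear_combination -htk
      rw [h2, ← pow_mul]
      have h3 : (t : k) ^ (2 * (l / 2) + 1) = t := by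
        rw [show 2 * (l / 2) + 1 = l by omega]
        exact hfr t
      rw [pow_succ] at h3
      exact mul_right_cancel₀ ht0 (h3.trans (one_mul _).symm)
    rwa [mul_pow, hn2, one_mul] at h1
  have hprod : B ^ (l / 2) * B' ^ (l / 2) = 1 := by rw [← mul_pow, hBB, hmp]
  have hfin : ∀ c : ℤ, B ^ (l / 2) = c → B' ^ (l / 2) = c →
      (l : ℤ√(-2)) ∣ (⟨u, v⟩ : ℤ√(-2)) ^ ((l - 1) / 2) - (c : ℤ√(-2)) := by
    intro c hc hc'
    rw [hhalf]
    apply slaw_dvd hl hl2 g
    · rw [map_sub, map_pow, map_intCast, ← hB, hc, sub_self]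
    · rw [star_sub, star_pow, map_sub, map_pow, ← hB', hc', star_intCast, map_intCast, sub_self]
  rcases hone B hB0 hBl with hc | hc
  · refine ⟨1, Or.inl rfl, hfin 1 (by rw [hc]; simp) ?_⟩
    rw [hc, one_mul] at hprod
    rw [hprod]
    simp
  · refine ⟨-1, Or.inr rfl, hfin (-1) (by rw [hc]; simp) ?_⟩
    rw [hc] at hprod
    have : B' ^ (l / 2) = -1 := by linear_combination -hprod
    rw [this]
    simp

private theorem slaw_f5 {u v : ℤ} {m : ℕ} (h : u ^ 2 + 2 * v ^ 2 = m) {l : ℕ} {t : ℤ}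
    (hl : l.Prime) (h8 : l % 8 = 5 ∨ l % 8 = 7) (ht : (l : ℤ) ∣ t ^ 2 + 2 * m)
    (k : Type) [Field k] [CharP k l] (g : ℤ√(-2) →+* k) :
    ∃ c : ℤ, (c = 1 ∨ c = -1) ∧
      (l : ℤ√(-2)) ∣ (⟨u, v⟩ : ℤ√(-2)) ^ ((l + 1) / 2) * ⟨0, 1⟩ - ((c * t : ℤ) : ℤ√(-2)) := by
  have : Fact l.Prime := ⟨hl⟩
  have : ExpChar k l := ExpChar.prime hl
  have hl2 : l ≠ 2 := by omega
  have ho : l % 2 = 1 := by omega
  have hth := slaw_th g
  have htk : (t : k) ^ 2 + 2 * m = 0 := by
    have := (CharP.intCast_eq_zero_iff k l (t ^ 2 + 2 * m)).2 ht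
    push_cast at this
    exact this
  have hn2 := (slaw_neg2 hl hl2 k).2 h8
  obtain ⟨v1, v2⟩ := slaw_val g ⟨u, v⟩
  simp only at v1 v2
  have hstθ : g (star ⟨0, 1⟩) = -g ⟨0, 1⟩ := by
    have := (slaw_val g ⟨0, 1⟩).2
    simpa using this
  set θ := g ⟨0, 1⟩ with hθd
  set B := g ⟨u, v⟩ with hB
  set B' := g (star ⟨u, v⟩) with hB'
  have hBB : B * B' = m := by
    rw [v1, v2]
    have h1 : ((u ^ 2 + 2 * v ^ 2 : ℤ) : k) = ((m : ℤ) : k) := by rw [h]
    push_cast at h1
    linear_combination h1 - (v : k) ^ 2 * hth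
  have hfr : ∀ a : ℤ, (a : k) ^ l = a := fun a => by
    have := map_intCast (frobenius k l) a
    rwa [frobenius_def] at this
  have hθl : θ ^ l = -θ := by rw [slaw_thl ho θ hth, hn2, neg_one_mul]
  have hBl : B ^ l = B' := by
    have h1 : frobenius k l B = B' := by
      rw [v1, map_add, map_mul, frobenius_def, frobenius_def, frobenius_def, hfr, hfr, hθl, v2]
      ring
    rwa [frobenius_def] at h1
  have hsq : (B ^ ((l + 1) / 2) * θ) * (B ^ ((l + 1) / 2) * θ) = (t : k) * t := by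
    have h1 : B ^ ((l + 1) / 2) * B ^ ((l + 1) / 2) = m := by
      rw [← pow_add, show (l + 1) / 2 + (l + 1) / 2 = l + 1 by omega, pow_succ, hBl, mul_comm, hBB]
    linear_combination θ ^ 2 * h1 + (m : k) * hth - htk
  have hfin : ∀ c : ℤ, B ^ ((l + 1) / 2) * θ = (c : k) * t →
      (l : ℤ√(-2)) ∣ (⟨u, v⟩ : ℤ√(-2)) ^ ((l + 1) / 2) * ⟨0, 1⟩ - ((c * t : ℤ) : ℤ√(-2)) := by
    intro c hc
    have hc' : B' ^ ((l + 1) / 2) * (-θ) = (c : k) * t := by
      have h1 := congrArg (frobenius k l) hc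
      rw [map_mul, map_mul, map_pow, frobenius_def, frobenius_def, frobenius_def, frobenius_def,
        hBl, hθl, hfr, hfr] at h1
      exact h1
    apply slaw_dvd hl hl2 g
    · rw [map_sub, map_mul, map_pow, map_intCast, ← hB, ← hθd, hc]
      push_cast
      ring
    · rw [star_sub, star_mul, star_pow, map_sub, map_mul, map_pow, ← hB', hstθ, star_intCast,
        map_intCast]
      push_cast
      linear_combination hc'
  rcases mul_self_eq_mul_self_iff.1 hsq with hc | hc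
  · exact ⟨1, Or.inl rfl, hfin 1 (by rw [hc]; simp)⟩
  · exact ⟨-1, Or.inr rfl, hfin (-1) (by rw [hc]; simp)⟩

private theorem slaw_nuP (u v : ℤ) (l : ℕ) (t : ℤ) : nuP u v l t = 1 ∨ nuP u v l t = -1 := by
  unfold nuP
  split_ifs <;> simp

private theorem slaw_mod8 {a b : ℕ} (ha : a % 2 = 1) (hb : b % 2 = 1) :
    5 ≤ a * b % 8 ↔ (5 ≤ a % 8 ∧ ¬ 5 ≤ b % 8) ∨ (¬ 5 ≤ a % 8 ∧ 5 ≤ b % 8) := by
  rw [Nat.mul_mod]
  have h1 : a % 8 = 1 ∨ a % 8 = 3 ∨ a % 8 = 5 ∨ a % 8 = 7 := by omega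
  have h2 : b % 8 = 1 ∨ b % 8 = 3 ∨ b % 8 = 5 ∨ b % 8 = 7 := by omega
  rcases h1 with h1 | h1 | h1 | h1 <;> rcases h2 with h2 | h2 | h2 | h2 <;> rw [h1, h2] <;>
    norm_num

private theorem slaw_par (s : Finset ℕ) (hs : ∀ l ∈ s, l % 2 = 1) :
    (∏ l ∈ s, l) % 2 = 1 ∧
      (5 ≤ (∏ l ∈ s, l) % 8 ↔ Odd ((s.filter fun l => 5 ≤ l % 8).card)) := by
  classical
  induction s using Finset.induction_on with
  | empty => simp
  | insert a s ha ih =>
    have h1 := hs a (Finset.mem_insert_self a s)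
    obtain ⟨h2, h3⟩ := ih (fun l hl => hs l (Finset.mem_insert_of_mem hl))
    rw [Finset.prod_insert ha]
    refine ⟨by rw [Nat.mul_mod, h1, h2], ?_⟩
    rw [slaw_mod8 h1 h2, h3, Finset.filter_insert]
    by_cases h5 : 5 ≤ a % 8
    · rw [if_pos h5, Finset.card_insert_of_notMem (fun h => ha (Finset.mem_of_mem_filter a h)),
        Nat.odd_add_one]
      tauto
    · rw [if_neg h5]
      tauto

private theorem slaw_choose (a b : ℕ) :
    (a + b).choose 2 = a.choose 2 + b.choose 2 + a * b := by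
  induction b with
  | zero => simp
  | succ b ih =>
    rw [← add_assoc, Nat.choose_succ_succ' (a + b) 1, ih, Nat.choose_succ_succ' b 1,
      Nat.choose_one_right, Nat.choose_one_right]
    ring

theorem law6 {u v : ℤ} {m : ℕ} (h : u ^ 2 + 2 * v ^ 2 = m) : Law6 m u v (nu6 u v) := by
  classical
  have hprime : ∀ (l : ℕ) (t : ℤ), l.Prime → nu6 u v l t = nuP u v l t := by
    intro l t hl
    unfold nu6
    rw [hl.primeFactors, Finset.prod_singleton]
    have h1 : ((({l} : Finset ℕ).filter fun l => 5 ≤ l % 8).card).choose 2 = 0 := by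
      apply Nat.choose_eq_zero_of_lt
      have h2 := Finset.card_filter_le ({l} : Finset ℕ) (fun l => 5 ≤ l % 8)
      rw [Finset.card_singleton] at h2
      omega
    rw [h1, pow_zero, mul_one]
  refine
    { nrm := h
      one := ?_
      cong := ?_
      pm := ?_
      mul := ?_
      frob1 := ?_
      frob5 := ?_ }
  · intro t
    simp [nu6]
  · intro N t t' htt
    have h1 : ∀ l ∈ N.primeFactors, nuP u v l t = nuP u v l t' := by
      intro l hl
      have h2 : (l : ℤ) ∣ t' - t :=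
        (Int.natCast_dvd_natCast.2 (Nat.dvd_of_mem_primeFactors hl)).trans htt.dvd
      have h3 : (l : ℤ√(-2)) ∣ ((t' - t : ℤ) : ℤ√(-2)) := by
        obtain ⟨c, hc⟩ := h2
        exact ⟨(c : ℤ√(-2)), by rw [hc]; push_cast; ring⟩
      have h4 : ((l : ℤ√(-2)) ∣ (⟨u, v⟩ : ℤ√(-2)) ^ ((l + 1) / 2) * ⟨0, 1⟩ - (t : ℤ√(-2))) ↔
          ((l : ℤ√(-2)) ∣ (⟨u, v⟩ : ℤ√(-2)) ^ ((l + 1) / 2) * ⟨0, 1⟩ - (t' : ℤ√(-2))) := by
        have h5 : (⟨u, v⟩ : ℤ√(-2)) ^ ((l + 1) / 2) * ⟨0, 1⟩ - (t : ℤ√(-2)) =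
            ((⟨u, v⟩ : ℤ√(-2)) ^ ((l + 1) / 2) * ⟨0, 1⟩ - (t' : ℤ√(-2))) +
              ((t' - t : ℤ) : ℤ√(-2)) := by
          push_cast
          ring
        rw [h5]
        exact (dvd_add_left h3)
      unfold nuP
      simp only [h4]
    unfold nu6
    rw [Finset.prod_congr rfl h1]
  · intro N t
    have h1 : (∏ l ∈ N.primeFactors, nuP u v l t) = 1 ∨
        (∏ l ∈ N.primeFactors, nuP u v l t) = -1 := by
      refine Finset.prod_induction (fun l => nuP u v l t) (fun x => x = 1 ∨ x = -1) ?_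
        (Or.inl rfl) (fun l _ => slaw_nuP u v l t)
      rintro a b (rfl | rfl) (rfl | rfl) <;> simp
    unfold nu6
    rcases h1 with h1 | h1 <;>
      rcases neg_one_pow_eq_or ℤ
        (((N.primeFactors.filter fun l => 5 ≤ l % 8).card).choose 2) with h2 | h2 <;>
      rw [h1, h2] <;> simp
  · intro N N' t hN hN' hsN hsN' hco
    have hpar : ∀ M : ℕ, Odd M → Squarefree M →
        (5 ≤ M % 8 ↔ Odd ((M.primeFactors.filter fun l => 5 ≤ l % 8).card)) := by
      intro M hM hsM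
      have h1 := (slaw_par M.primeFactors (fun l hl => by
        have h2 := hM.of_dvd_nat (Nat.dvd_of_mem_primeFactors hl)
        exact Nat.odd_iff.1 h2)).2
      rwa [Nat.prod_primeFactors_of_squarefree hsM] at h1
    have hd : Disjoint N.primeFactors N'.primeFactors := hco.disjoint_primeFactors
    have hun : (N * N').primeFactors = N.primeFactors ∪ N'.primeFactors := hco.primeFactors_mul
    have hdf : Disjoint (N.primeFactors.filter fun l => 5 ≤ l % 8)
        (N'.primeFactors.filter fun l => 5 ≤ l % 8) := Finset.disjoint_filter_filter hd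
    unfold nu6
    rw [hun, Finset.prod_union hd, Finset.filter_union, Finset.card_union_of_disjoint hdf,
      slaw_choose, pow_add, pow_add]
    have hlast : ((-1 : ℤ)) ^ ((N.primeFactors.filter fun l => 5 ≤ l % 8).card *
        (N'.primeFactors.filter fun l => 5 ≤ l % 8).card) =
        if 5 ≤ N % 8 ∧ 5 ≤ N' % 8 then -1 else 1 := by
      split_ifs with h1
      · exact (Nat.odd_mul.2 ⟨(hpar N hN hsN).1 h1.1, (hpar N' hN' hsN').1 h1.2⟩).neg_one_pow
      · refine (Nat.not_odd_iff_even.1 fun h3 => h1 ?_).neg_one_pow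
        exact ⟨(hpar N hN hsN).2 (Nat.odd_mul.1 h3).1, (hpar N' hN' hsN').2 (Nat.odd_mul.1 h3).2⟩
    rw [hlast]
    ring
  · intro l t hl h8 hm ht k _ _ g
    obtain ⟨c, hc, hdv⟩ := slaw_f1 h hl h8 hm ht k g
    have hg0 : g (l : ℤ√(-2)) = 0 := by
      rw [map_natCast]
      exact CharP.cast_eq_zero k l
    have hgc : g ⟨u, v⟩ ^ ((l - 1) / 2) = (c : k) := by
      obtain ⟨w, hw⟩ := hdv
      have h1 := congrArg g hw
      rw [map_sub, map_pow, map_intCast, map_mul, hg0, zero_mul] at h1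
      exact sub_eq_zero.1 h1
    have hnu : nuP u v l t = c := by
      unfold nuP
      rw [if_pos h8]
      rcases hc with rfl | rfl
      · rw [if_pos]
        simpa using hdv
      · rw [if_neg]
        rintro ⟨w, hw⟩
        have h1 := congrArg g hw
        rw [map_sub, map_pow, map_one, map_mul, hg0, zero_mul, hgc] at h1
        push_cast at h1
        exact slaw_two hl (by omega) k (by linear_combination -h1)
    rw [hprime l t hl, hnu, hgc]
  · intro l t hl h8 hm ht k _ _ g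
    obtain ⟨c, hc, hdv⟩ := slaw_f5 h hl h8 ht k g
    have hg0 : g (l : ℤ√(-2)) = 0 := by
      rw [map_natCast]
      exact CharP.cast_eq_zero k l
    have hgc : g ⟨u, v⟩ ^ ((l + 1) / 2) * g ⟨0, 1⟩ = (c : k) * (t : k) := by
      obtain ⟨w, hw⟩ := hdv
      have h1 := congrArg g hw
      rw [map_sub, map_mul, map_pow, map_intCast, map_mul, hg0, zero_mul] at h1
      push_cast at h1
      exact sub_eq_zero.1 h1
    have h2k := slaw_two hl (by omega) k
    have ht0 : (t : k) ≠ 0 := by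
      intro e
      have h1 : (t : k) ^ 2 + 2 * m = 0 := by
        have := (CharP.intCast_eq_zero_iff k l (t ^ 2 + 2 * m)).2 ht
        push_cast at this
        exact this
      rw [e] at h1
      have h3 : (2 : k) * m = 0 := by linear_combination h1
      rcases mul_eq_zero.1 h3 with h4 | h4
      · exact h2k h4
      · exact hm ((CharP.cast_eq_zero_iff k l m).1 h4)
    have hnu : nuP u v l t = c := by
      unfold nuP
      rw [if_neg (by omega)]
      rcases hc with rfl | rfl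
      · rw [if_pos]
        simpa using hdv
      · rw [if_neg]
        rintro ⟨w, hw⟩
        have h1 := congrArg g hw
        rw [map_sub, map_mul, map_pow, map_intCast, map_mul, hg0, zero_mul, hgc] at h1
        push_cast at h1
        have h3 : (2 : k) * t = 0 := by linear_combination -h1
        rcases mul_eq_zero.1 h3 with h4 | h4
        · exact h2k h4
        · exact ht0 h4
    rw [hprime l t hl, hnu, hgc]

end Pool.Agent.Work.MP_8efaaa_nt.W6
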