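import Mathlib
import Pool.Agent.Work.MP_8efaaa_nt.W14.DEx
import Pool.Agent.Work.MP_8efaaa_nt.W6.SFin
import Pool.Agent.Work.MP_8efaaa_nt.W6.SLaw
import Pool.Agent.Work.MP_8efaaa_nt.W6.SAr
import Pool.Agent.Work.MP_8efaaa_nt.W6.DXd
import Pool.Agent.Work.MP_8efaaa_nt.W6.DIx
import Pool.Agent.Work.MP_8efaaa_nt.W6.LLo
import Pool.Agent.Work.MP_8efaaa_nt.W6.JTw
import Pool.Agent.Work.MP_8efaaa_nt.W6.JFi
import Pool.Agent.Work.MP_8efaaa_nt.W6.GMn

/-!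
# W6/Main: the theorem
-/

set_option autoImplicit false

namespace Pool.Agent.Work.MP_8efaaa_nt.W6

open NumberField Pool.Agent.Work.MP_8efaaa_nt.R Pool.Agent.Work.MP_8efaaa_nt.N5
  Pool.Agent.Work.MP_8efaaa_nt.K6 Pool.Agent.Work.MP_8efaaa_nt.W14
open scoped Classical nonZeroDivisors

private theorem mod_facts {p q : ℕ} (hp8 : p % 8 = 1) (hq8 : q % 8 = 3) :
    (p * q) % 8 = 3 ∧ (2 * p * q) % 16 = 6 ∧ (2 * p * q) / 2 = p * q := by
  have h1 : (p * q) % 8 = 3 := by rw [Nat.mul_mod, hp8, hq8]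
  have h2 : 2 * p * q = 2 * (p * q) := by ring
  rw [h2]
  refine ⟨h1, by omega, by omega⟩

private theorem sqf {p q : ℕ} (hp : p.Prime) (hq : q.Prime) (hp8 : p % 8 = 1)
    (hq8 : q % 8 = 3) : Squarefree (2 * p * q) := by
  have h2p : Nat.Coprime 2 p := (Nat.coprime_primes Nat.prime_two hp).2 (by omega)
  have h2q : Nat.Coprime 2 q := (Nat.coprime_primes Nat.prime_two hq).2 (by omega)
  have hpq : Nat.Coprime p q := (Nat.coprime_primes hp hq).2 (by omega)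
  rw [Nat.squarefree_mul (Nat.Coprime.mul_left h2q hpq), Nat.squarefree_mul h2p]
  exact ⟨⟨Nat.prime_two.squarefree, hp.squarefree⟩, hq.squarefree⟩

/-- `16 ∣ n - 1` and `n > 0` imply `(-2 / n) = 1` -/
private theorem jac_neg_two {n : ℕ} (hn : n % 16 = 1) : jacobiSym (-2) n = 1 := by
  have ho : Odd n := Nat.odd_iff.2 (by omega)
  have e : (-2 : ℤ) = -1 * 2 := by norm_num
  rw [e, jacobiSym.mul_left, jacobiSym.at_neg_one ho, jacobiSym.at_two ho,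
    ZMod.χ₄_nat_one_mod_four (by omega), ZMod.χ₈_nat_eq_if_mod_eight]
  rw [if_neg (by omega), if_pos (by omega)]
  norm_num

/-- the sign of the symbol gives `x y = - u v` modulo `4` -/
private theorem sign_xy {u v x y : ℤ} (hu : Odd u) (hv : Odd v) (hx : Odd x) (hy : Odd y)
    (h : (1 : ℤ) = (-1) ^ ((u - 1) / 2).natAbs * (-1) ^ ((x * y * v + 1) / 2).natAbs) :
    (4 : ℤ) ∣ x * y + u * v := by
  obtain ⟨u1, rfl⟩ := hu
  obtain ⟨v1, rfl⟩ := hv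
  obtain ⟨t, ht⟩ := hx.mul hy
  have e1 : (2 * u1 + 1 - 1) / 2 = u1 := by omega
  have e2 : (x * y * (2 * v1 + 1) + 1) / 2 = t + v1 * (2 * t + 1) + 1 := by
    rw [ht]
    have : (2 * t + 1) * (2 * v1 + 1) + 1 = 2 * (t + v1 * (2 * t + 1) + 1) := by ring
    rw [this]
    omega
  rw [e1, e2, ← pow_add] at h
  have h2 : Even (u1.natAbs + (t + v1 * (2 * t + 1) + 1).natAbs) := by
    by_contra hne
    rw [Nat.not_even_iff_odd] at hne
    rw [hne.neg_one_pow] at h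
    norm_num at h
  have h3 : Even (u1 + (t + v1 * (2 * t + 1) + 1)) := by
    rw [Nat.even_add, Int.natAbs_even, Int.natAbs_even] at h2
    rw [Int.even_add]
    exact h2
  obtain ⟨k, hk⟩ := h3
  rw [ht]
  refine ⟨k + u1 * v1 - v1 * t, ?_⟩
  linear_combination 2 * hk

theorem main_w6 {p q : ℕ} (hp : p.Prime) (hq : q.Prime) (hp8 : p % 8 = 1)
    (hp2 : (2 : ZMod p) ^ ((p - 1) / 4) ≠ 1) (hq8 : q % 8 = 3) : IsCongruent (2 * p * q) := by
  by_contra hnc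
  obtain ⟨hm8, ha16, ha2⟩ := mod_facts hp8 hq8
  have hsf := sqf hp hq hp8 hq8
  obtain ⟨u, v, hu, hv, huo, hvo, huv⟩ := exists_uv hp hq hp8 hq8
  have hL := law6 huv
  obtain ⟨K, _, _, s, hb⟩ := exists_base6 hsf (a := 2 * p * q) (by omega)
  obtain ⟨S, hS, -, -⟩ := exists_S6 hb
  obtain ⟨τ, hτ⟩ := exists_tau6 hb hS
  obtain ⟨F, _, _, _, _, _, _, ζ, w, z, k, v1, κ, ξ, θ, e, hX⟩ :=
    exists_xd6 hb ha16 (m := p * q) (by ring) hS hτ hL
  have hq2 : q ≠ 2 := by omega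
  obtain ⟨L, Γ, _, V, hV, hqL, hVuv⟩ := exists_L6 hb.sq hX hq hq2 (dvd_mul_left _ _)
  have hM : (2 * (p * q) * u.natAbs) ≠ 0 := by
    have h1 := hp.pos
    have h2 := hq.pos
    have h3 : 0 < u.natAbs := Int.natAbs_pos.2 hu.ne'
    positivity
  obtain ⟨b, c0, t, x, y, φ, r, hr, hbs, hb16, hnu, hbM, hc16, hcM, hx, hy, hxy, hγ, hNt, hrr,
    hφ, hφ', hin, hfr⟩ := g_main hp hq hp8 hq8 hb hS hτ hX hnc hV hqL hVuv hM
  set N := Ideal.absNorm b with hN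
  set n := Ideal.absNorm c0 with hn
  -- norms
  have hcj := (norm_cj6 hb hS hτ c0).1
  have hnorm : x ^ 2 + 2 * (u ^ 2 + 2 * v ^ 2) * y ^ 2 = N * n ^ 2 := by
    have h1 : algebraMap (𝓞 K) K ((x : 𝓞 K) + y * S) = x + y * s := by
      rw [map_add, map_mul, map_intCast, map_intCast, hS]
    have h2 := norm_lin6 hb h1
    rw [hγ, map_mul, map_mul, hcj] at h2
    push_cast at h2 huv
    rw [huv]
    have h3 : ((Ideal.absNorm b : ℕ) : ℤ) * (((Ideal.absNorm c0 : ℕ) : ℤ) *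
      ((Ideal.absNorm c0 : ℕ) : ℤ)) = x ^ 2 + 2 * p * q * y ^ 2 := by exact_mod_cast h2
    rw [← hN, ← hn] at h3
    linear_combination -h3
  -- the congruence modulo 4
  have h4 : (4 : ℤ) ∣ x * y + u * v := by
    have hcop : IsCoprime ((N : ℤ) * n) (u * (u ^ 2 + 2 * v ^ 2)) := by
      have h1 : Nat.Coprime (N * n) (2 * (p * q) * u.natAbs) := Nat.Coprime.mul_left hbM hcM
      have h2 : Nat.Coprime (N * n) ((u * (u ^ 2 + 2 * v ^ 2)).natAbs) := by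
        rw [huv, Int.natAbs_mul, Int.natAbs_natCast]
        refine Nat.Coprime.coprime_dvd_right ?_ h1
        exact ⟨2, by ring⟩
      rw [Int.isCoprime_iff_gcd_eq_one]
      have h3 : Int.gcd ((N : ℤ) * n) (u * (u ^ 2 + 2 * v ^ 2)) =
          Nat.gcd (N * n) ((u * (u ^ 2 + 2 * v ^ 2)).natAbs) := by
        rw [Int.gcd_def]
        congr 1
      rw [h3]
      exact h2
    have h5 := nu_final hu huo hvo hx hy hxy hnorm hbs (by omega) (Nat.odd_iff.2 (by omega))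
      hcop hNt
    rw [hnu, jac_neg_two hc16, mul_one] at h5
    exact sign_xy huo hvo hx hy h5
  -- the local lemma
  have hS' : algebraMap (𝓞 K) K ((x : 𝓞 K) + y * S) = x + y * s := by
    rw [map_add, map_mul, map_intCast, map_intCast, hS]
  have hco : OddI c0 := by
    unfold OddI
    exact Nat.odd_iff.2 (by omega)
  have hJ : (-(v1 (Ideal.span {(x : 𝓞 K) + y * S} * c0) * v1 c0)) ^ 2 = -1 := by
    rw [neg_sq]
    exact (hX.trx x y _ hx hy hS' c0 hco).1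
  have hx8 : e8 x = -1 := by
    have h1 : (x ^ 2 + 2 * (u ^ 2 + 2 * v ^ 2) * y ^ 2) % 16 = 15 := by
      rw [hnorm]
      have h2 : (N * n ^ 2) % 16 = 15 := by
        rw [Nat.mul_mod, Nat.pow_mod, hc16, hb16]
      exact_mod_cast h2
    rw [huv] at h1
    obtain ⟨y1, rfl⟩ := hy
    have h6 : ((p * q : ℕ) : ℤ) % 8 = 3 := by exact_mod_cast hm8
    obtain ⟨m1, hm1⟩ : ∃ m1 : ℤ, ((p * q : ℕ) : ℤ) = 8 * m1 + 3 := ⟨((p * q : ℕ) : ℤ) / 8, by omega⟩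
    rw [hm1] at h1
    have h7 : ∃ j : ℤ, y1 * (y1 + 1) = 2 * j := by
      obtain ⟨j, hj⟩ := Int.even_mul_succ_self y1
      exact ⟨j, by linarith⟩
    obtain ⟨j, hj⟩ := h7
    have h8 : (x ^ 2 - 9) % 16 = 0 := by
      have e1 : x ^ 2 - 9 = (x ^ 2 + 2 * (8 * m1 + 3) * (2 * y1 + 1) ^ 2 - 15) -
          16 * (m1 * (2 * y1 + 1) ^ 2 + 3 * j) := by
        linear_combination -24 * hj
      rw [e1]
      omega
    have hx1 : x % 8 = 1 ∨ x % 8 = 3 ∨ x % 8 = 5 ∨ x % 8 = 7 := by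
      obtain ⟨x1, rfl⟩ := hx
      omega
    obtain ⟨x2, x3, hx2, hx3⟩ : ∃ x2 x3 : ℤ, x = 8 * x2 + x3 ∧ x3 = x % 8 :=
      ⟨x / 8, x % 8, by omega, rfl⟩
    unfold e8
    rw [if_neg]
    rintro (h9 | h9)
    · rw [h9] at hx3
      rw [hx2, hx3] at h8
      have e2 : (8 * x2 + 1) ^ 2 - 9 = 16 * (4 * x2 ^ 2 + x2 - 1) + 8 := by ring
      rw [e2] at h8
      omega
    · rw [h9] at hx3
      rw [hx2, hx3] at h8
      have e2 : (8 * x2 + 7) ^ 2 - 9 = 16 * (4 * x2 ^ 2 + 7 * x2 + 2) + 8 := by ring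
      rw [e2] at h8
      omega
  have hpq := pq_x6 hX hx hy hx8 hS' hco hJ
  have hh : PP z k v1 c0 + PP z k v1 c0 - TJ hJ ∈ W5.E1 V := by
    rw [← hpq]
    have e1 : PP z k v1 c0 + PP z k v1 c0 - (PP z k v1 (Ideal.span {(x : 𝓞 K) + y * S} * c0) +
        PP z k v1 c0) = -(PP z k v1 (Ideal.span {(x : 𝓞 K) + y * S} * c0) - PP z k v1 c0) := by
      abel
    rw [e1]
    exact neg_mem hin
  have hloc := loc6 hV hq hq8 hqL hφ hφ' hJ hr hh hfr
  have hc4 : Ideal.absNorm c0 % 4 = 1 := by omega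
  rw [hrr, J_eq hb hS hX hx hy rfl hc4 ((p - 1) / 8)] at hloc
  have hdv : (q : ℤ) ∣ ((-1) ^ ((x * y + 1) / 2).natAbs * (-1) ^ ((p - 1) / 8)) * u +
      ((-1) ^ ((q - 3) / 8) * 2 ^ ((q + 1) / 4)) * v := by
    apply final_dvd hV hq hqL hVuv
    push_cast
    exact hloc
  exact hp2 (arith_end hp hq hp8 hq8 hu hv huo hvo huv hx hy h4 hdv)

end Pool.Agent.Work.MP_8efaaa_nt.W6
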