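import Mathlib
import Pool.Agent.Work.MP_8efaaa_nt.W5.Fin
import Pool.Agent.Work.MP_8efaaa_nt.K7.Main
import Pool.Agent.Work.MP_8efaaa_nt.W14.Main
import Pool.Agent.Work.MP_8efaaa_nt.W6.Main

/-!
# W6/Fin4: two odd primes, the classes 5, 6 and 7 together

`a = p q` or `2 p q`, `p = 1 (mod 8)`, `a = 5, 6, 7 (mod 8)`; `c = -4` if `a` is odd, `c = 4` if `a = 6 (mod 16)`,
`c = -1` if `a = 14 (mod 16)`. If `c` is not an eighth power modulo `p`, then `a` is congruent.
-/

set_option autoImplicit false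

namespace Pool.Agent.Work.MP_8efaaa_nt.W6

/-- a nonzero residue whose `(p - 1) / 8`-th power is `1` is an eighth power -/
private theorem eighth_of {p : ℕ} (hp : p.Prime) (hp8 : p % 8 = 1) {x : ZMod p} (hx : x ≠ 0)
    (h7 : x ^ ((p - 1) / 8) = 1) : ∃ y : ZMod p, y ^ 8 = x := by
  have hpF : Fact p.Prime := ⟨hp⟩
  obtain ⟨m, hm⟩ : ∃ m, p = 8 * m + 1 := ⟨p / 8, by omega⟩
  have hm' : (p - 1) / 8 = m := by omega
  rw [hm'] at h7
  obtain ⟨g, hg⟩ := IsCyclic.exists_generator (α := (ZMod p)ˣ)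
  obtain ⟨k, hk⟩ := Subgroup.mem_zpowers_iff.1 (hg (Units.mk0 _ hx))
  have hord : orderOf g = p - 1 := by
    rw [orderOf_eq_card_of_forall_mem_zpowers hg, Nat.card_eq_fintype_card, ZMod.card_units]
  have h8 : g ^ (k * m) = 1 := by
    rw [zpow_mul, hk, zpow_natCast]
    apply Units.ext
    rw [Units.val_pow_eq_pow_val, Units.val_mk0, h7, Units.val_one]
  have h9 : ((p - 1 : ℕ) : ℤ) ∣ k * m := by
    rw [← hord]
    exact orderOf_dvd_iff_zpow_eq_one.2 h8
  have hm0 : (m : ℤ) ≠ 0 := by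
    intro h0
    have : m = 0 := by exact_mod_cast h0
    rw [this] at hm
    have := hp.one_lt
    omega
  have h10 : (8 : ℤ) ∣ k := by
    have e : ((p - 1 : ℕ) : ℤ) = 8 * m := by
      have : p - 1 = 8 * m := by omega
      rw [this]
      push_cast
      ring
    rw [e] at h9
    exact (mul_dvd_mul_iff_right hm0).1 h9
  obtain ⟨j, rfl⟩ := h10
  refine ⟨((g ^ j : (ZMod p)ˣ) : ZMod p), ?_⟩
  have h11 := congrArg (Units.val) hk
  rw [Units.val_mk0, mul_comm, zpow_mul] at h11
  rw [← h11]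
  have h12 : (g ^ j) ^ (8 : ℤ) = (g ^ j) ^ (8 : ℕ) := by
    exact_mod_cast zpow_natCast (g ^ j) 8
  rw [h12, Units.val_pow_eq_pow_val]

private theorem two_ne {p : ℕ} (hp : p.Prime) (hp8 : p % 8 = 1) : (2 : ZMod p) ≠ 0 := by
  intro h2
  have h' : ((2 : ℕ) : ZMod p) = 0 := by exact_mod_cast h2
  rw [ZMod.natCast_eq_zero_iff] at h'
  have := (Nat.prime_dvd_prime_iff_eq hp Nat.prime_two).1 h'
  omega

/-- two odd primes, all the classes -/
theorem four {p q a : ℕ} {c : ℤ} (hp : p.Prime) (hq : q.Prime) (hp8 : p % 8 = 1)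
    (ha : a = p * q ∨ a = 2 * p * q)
    (hc : (c = -4 ∧ (a % 8 = 5 ∨ a % 8 = 7)) ∨ (c = 4 ∧ a % 16 = 6) ∨ (c = -1 ∧ a % 16 = 14))
    (h : ¬ ∃ x : ZMod p, x ^ 8 = c) : IsCongruent a := by
  have hpF : Fact p.Prime := ⟨hp⟩
  have hpq8 : (p * q) % 8 = q % 8 := by rw [Nat.mul_mod, hp8]; omega
  have e2 : 2 * p * q = 2 * (p * q) := by ring
  have hq2 : q % 2 = 1 ∨ q = 2 := by
    rcases hq.eq_two_or_odd with h | h
    · exact Or.inr h
    · exact Or.inl h
  rcases hc with ⟨rfl, ha8⟩ | ⟨rfl, ha16⟩ | ⟨rfl, ha16⟩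
  · -- `a` odd
    have hn : ¬ ∃ x : ZMod p, x ^ 8 = -4 := by
      rintro ⟨x, hx⟩
      exact h ⟨x, by rw [hx]; push_cast; rfl⟩
    rcases ha with rfl | rfl
    · rcases ha8 with h8 | h8
      · exact W5.fin_pq hp hq hp8 (by omega) hn
      · refine K7.main_t7 hp hq hp8 (by omega) ?_
        rw [W5.pow_of_not hp hp8 hn]
        intro h1
        apply two_ne hp hp8
        linear_combination -h1
    · omega
  · rcases ha with rfl | rfl
    · exfalso
      rcases hq2 with h2 | h2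
      · omega
      · subst h2
        omega
    · refine main_w6 hp hq hp8 ?_ (by omega)
      intro h1
      apply h
      have h4 : (4 : ZMod p) ≠ 0 := by
        have : (4 : ZMod p) = 2 * 2 := by norm_num
        rw [this]
        exact mul_ne_zero (two_ne hp hp8) (two_ne hp hp8)
      obtain ⟨y, hy⟩ := eighth_of hp hp8 h4 (by
        have e : (4 : ZMod p) = 2 ^ 2 := by norm_num
        rw [e, ← pow_mul]
        have : 2 * ((p - 1) / 8) = (p - 1) / 4 := by omega
        rw [this]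
        exact h1)
      exact ⟨y, by rw [hy]; push_cast; rfl⟩
  · rcases ha with rfl | rfl
    · exfalso
      rcases hq2 with h2 | h2
      · omega
      · subst h2
        omega
    · have hp16 : p % 16 = 1 ∨ p % 16 = 9 := by omega
      rcases hp16 with hp16 | hp16
      · exfalso
        apply h
        obtain ⟨y, hy⟩ := eighth_of hp hp8 (x := (-1 : ZMod p)) (by
          intro h0
          apply two_ne hp hp8
          linear_combination (-2 : ZMod p) * h0) (by
          have : Even ((p - 1) / 8) := ⟨(p - 1) / 16, by omega⟩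
          exact this.neg_one_pow)
        exact ⟨y, by rw [hy]; push_cast; rfl⟩
      · exact W14.main14 hp hq hp16 (by omega)

end Pool.Agent.Work.MP_8efaaa_nt.W6
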